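import Mathlib

set_option autoImplicit false

namespace Pool.Agent.H196R3

open Polynomial

/-- Elimination: an irreducible polynomial of positive degree and a polynomial that it does not
divide have a non-zero constant combination. -/
theorem bezout {A : Type*} [CommRing A] [IsDomain A] [UniqueFactorizationMonoid A]
    (F G : A[X]) (hF : Irreducible F) (hd : F.natDegree ≠ 0) (hG : ¬ F ∣ G) :
    ∃ (a b : A[X]) (R : A), R ≠ 0 ∧ a * F + b * G = C R := by
  classical
  obtain ⟨p, q, -, -, h⟩ := exists_mul_add_mul_eq_C_resultant F G le_rfl le_rfl (Or.inl hd)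
  refine ⟨p, q, _, ?_, by rw [← h]; ring⟩
  intro h0
  have hprim : F.IsPrimitive := hF.isPrimitive hd
  let K := FractionRing A
  have hinj : Function.Injective (algebraMap A K) := IsFractionRing.injective A K
  have h1 : resultant (F.map (algebraMap A K)) (G.map (algebraMap A K)) = 0 := by
    rw [natDegree_map_eq_of_injective hinj, natDegree_map_eq_of_injective hinj,
      resultant_map_map, h0, map_zero]
  rw [resultant_eq_zero_iff] at h1
  apply h1.2
  have h2 : Irreducible (F.map (algebraMap A K)) :=
    (hprim.irreducible_iff_irreducible_map_fraction_map).1 hF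
  rw [h2.coprime_iff_not_dvd]
  intro h3
  exact hG ((hprim.dvd_iff_fraction_map_dvd_fraction_map K).2 h3)

end Pool.Agent.H196R3
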