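import Mathlib

/-! Counting roots of unity near the zeros of a polynomial. -/

set_option autoImplicit false

namespace Pool.Agent.H196R3

open Polynomial Finset

/-- the set of `n`-th roots of unity -/
noncomputable abbrev U (n : ℕ) : Finset ℂ := nthRootsFinset n (1 : ℂ)

theorem mem_U {n : ℕ} (hn : 0 < n) {z : ℂ} : z ∈ U n ↔ z ^ n = 1 := mem_nthRootsFinset hn 1

theorem norm_of_mem_U {n : ℕ} (hn : 0 < n) {z : ℂ} (hz : z ∈ U n) : ‖z‖ = 1 := by
  rw [mem_U hn] at hz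
  exact Complex.norm_eq_one_of_pow_eq_one hz hn.ne'

theorem card_U {n : ℕ} (hn : 0 < n) : (U n).card = n :=
  (Complex.isPrimitiveRoot_exp n hn.ne').card_nthRootsFinset

/-- parametrization -/
theorem exists_int_of_mem_U {n : ℕ} (hn : 0 < n) {u : ℂ} (hu : u ∈ U n) :
    ∃ j : ℤ, u = Complex.exp (2 * Real.pi * Complex.I * (j / n)) ∧ 2 * |j| ≤ n := by
  rw [mem_U hn] at hu
  haveI : NeZero n := ⟨hn.ne'⟩
  obtain ⟨k, hk, hku⟩ := (Complex.isPrimitiveRoot_exp n hn.ne').eq_pow_of_pow_eq_one hu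
  have hn0 : (n : ℂ) ≠ 0 := by exact_mod_cast hn.ne'
  by_cases h : 2 * k ≤ n
  · refine ⟨k, ?_, by rw [Nat.abs_cast]; exact_mod_cast h⟩
    rw [← hku, ← Complex.exp_nat_mul]
    congr 1
    push_cast
    field_simp
  · refine ⟨(k : ℤ) - n, ?_, ?_⟩
    · have e1 : (2 * Real.pi * Complex.I * (((k : ℤ) - n : ℤ) / n) : ℂ) =
          k * (2 * Real.pi * Complex.I / n) - 2 * Real.pi * Complex.I := by
        push_cast
        field_simp
      rw [e1, Complex.exp_sub, Complex.exp_two_pi_mul_I, div_one, ← hku, ← Complex.exp_nat_mul]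
    · rw [abs_of_nonpos (by omega)]
      omega

theorem norm_exp_sub_one_ge {n : ℕ} (hn : 0 < n) (j : ℤ) (hj : 2 * |j| ≤ n) :
    4 * |(j : ℝ)| / n ≤ ‖Complex.exp (2 * Real.pi * Complex.I * (j / n)) - 1‖ := by
  have hnr : (0 : ℝ) < n := by exact_mod_cast hn
  have e1 : (2 * Real.pi * Complex.I * (j / n) : ℂ) = Complex.I * ((2 * Real.pi * (j / n) : ℝ) : ℂ) := by
    push_cast
    ring
  rw [e1, Complex.norm_exp_I_mul_ofReal_sub_one, Real.norm_eq_abs, abs_mul, abs_two]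
  have hj' : 2 * |(j : ℝ)| ≤ n := by exact_mod_cast hj
  have e2 : (2 * Real.pi * (j / n) : ℝ) / 2 = Real.pi * (j / n) := by ring
  rw [e2]
  have e3 : |Real.sin (Real.pi * (j / n))| = |Real.sin (Real.pi * (|(j:ℝ)| / n))| := by
    rcases abs_cases (j : ℝ) with ⟨h, _⟩ | ⟨h, _⟩
    · rw [h]
    · rw [h, neg_div, mul_neg, Real.sin_neg, abs_neg]
  rw [e3]
  have h0 : 0 ≤ Real.pi * (|(j:ℝ)| / n) := by positivity
  have h1 : Real.pi * (|(j:ℝ)| / n) ≤ Real.pi / 2 := by
    have : |(j:ℝ)| / n ≤ 1 / 2 := by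
      rw [div_le_div_iff₀ hnr (by norm_num)]
      linarith
    nlinarith [Real.pi_pos]
  have h2 := Real.mul_le_sin h0 h1
  have h3 : 2 / Real.pi * (Real.pi * (|(j:ℝ)| / n)) = 2 * (|(j:ℝ)| / n) := by
    field_simp
  rw [h3] at h2
  have h4 : 4 * |(j:ℝ)| / n = 2 * (2 * (|(j:ℝ)| / n)) := by ring
  rw [h4]
  exact mul_le_mul_of_nonneg_left (h2.trans (le_abs_self _)) (by norm_num)

/-- number of roots of unity in a disc -/
theorem card_disc {n : ℕ} (hn : 0 < n) (c : ℂ) (ρ : ℝ) (hρ : 0 ≤ ρ) :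
    (((U n).filter (fun z => ‖z - c‖ < ρ)).card : ℝ) ≤ n * ρ + 1 := by
  classical
  have hnr : (0 : ℝ) < n := by exact_mod_cast hn
  set S := (U n).filter (fun z => ‖z - c‖ < ρ) with hS
  rcases S.eq_empty_or_nonempty with h0 | ⟨z0, hz0⟩
  · rw [h0]
    simp
    positivity
  have hz0' := mem_filter.1 hz0
  have hz01 := norm_of_mem_U hn hz0'.1
  have hz0ne : z0 ≠ 0 := by
    intro h
    rw [h] at hz01
    simp at hz01
  have hq : ∀ z ∈ S, z / z0 ∈ U n := by
    intro z hz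
    have hz' := (mem_filter.1 hz).1
    rw [mem_U hn] at hz' ⊢
    rw [div_pow, hz', (mem_U hn).1 hz0'.1, div_one]
  have hex : ∀ z : ℂ, ∃ j : ℤ, z ∈ S →
      (z / z0 = Complex.exp (2 * Real.pi * Complex.I * (j / n)) ∧ 2 * |j| ≤ n) := by
    intro z
    by_cases hz : z ∈ S
    · obtain ⟨j, hj⟩ := exists_int_of_mem_U hn (hq z hz)
      exact ⟨j, fun _ => hj⟩
    · exact ⟨0, fun h => absurd h hz⟩
  choose J hJ using hex
  set R : ℕ := ⌊n * ρ / 2⌋₊ with hR
  have hmaps : ∀ z ∈ S, J z ∈ Icc (-(R : ℤ)) R := by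
    intro z hz
    obtain ⟨h1, h2⟩ := hJ z hz
    have h3 := norm_exp_sub_one_ge hn (J z) h2
    rw [← h1] at h3
    have h4 : ‖z / z0 - 1‖ = ‖z - z0‖ := by
      rw [div_sub_one hz0ne, norm_div, hz01, div_one]
    rw [h4] at h3
    have h5 : ‖z - z0‖ < 2 * ρ := by
      have e : z - z0 = (z - c) - (z0 - c) := by ring
      rw [e]
      refine (norm_sub_le _ _).trans_lt ?_
      have := (mem_filter.1 hz).2
      have := hz0'.2
      linarith
    have h6 : |(J z : ℝ)| ≤ n * ρ / 2 := by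
      have : 4 * |(J z : ℝ)| / n < 2 * ρ := lt_of_le_of_lt h3 h5
      rw [div_lt_iff₀ hnr] at this
      linarith
    have h7 : (|J z|.toNat : ℝ) ≤ n * ρ / 2 := by
      have e : ((|J z|.toNat : ℤ)) = |J z| := Int.toNat_of_nonneg (abs_nonneg _)
      have e' : ((|J z|.toNat : ℕ) : ℝ) = |(J z : ℝ)| := by
        have : (((|J z|.toNat : ℕ) : ℤ) : ℝ) = ((|J z| : ℤ) : ℝ) := by rw [e]
        push_cast at this
        simpa using this
      rw [e']
      exact h6
    have h8 : |J z|.toNat ≤ R := Nat.le_floor h7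
    have h9 : |J z| ≤ R := by
      have e : ((|J z|.toNat : ℤ)) = |J z| := Int.toNat_of_nonneg (abs_nonneg _)
      rw [← e]
      exact_mod_cast h8
    rw [mem_Icc]
    exact abs_le.1 h9
  have hinj : Set.InjOn J (S : Set ℂ) := by
    intro z hz z' hz' h
    have h1 := (hJ z hz).1
    have h2 := (hJ z' hz').1
    rw [h, ← h2] at h1
    field_simp at h1
    exact h1
  have hcard := card_le_card_of_injOn J hmaps hinj
  have hIcc : (Icc (-(R : ℤ)) R).card = 2 * R + 1 := by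
    rw [Int.card_Icc]
    omega
  rw [hIcc] at hcard
  have hR2 : (R : ℝ) ≤ n * ρ / 2 := Nat.floor_le (by positivity)
  have : (S.card : ℝ) ≤ 2 * R + 1 := by exact_mod_cast hcard
  linarith

/-- If `‖p w‖ < c₀ ρ ^ d` then `w` is within `ρ` of a root. -/
theorem exists_root_near (p : ℂ[X]) (c₀ ρ : ℝ) (hρ : 0 ≤ ρ)
    (hc : c₀ ≤ ‖p.leadingCoeff‖) (w : ℂ) (h : ‖p.eval w‖ < c₀ * ρ ^ p.natDegree) :
    ∃ r ∈ p.roots, ‖w - r‖ < ρ := by
  by_contra hcon
  push Not at hcon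
  have hs := IsAlgClosed.splits p
  have h1 := hs.eval_eq_prod_roots w
  have h2 : ρ ^ p.natDegree ≤ ‖(p.roots.map (fun a => w - a)).prod‖ := by
    have h3 : ∀ s : Multiset ℂ, (∀ r ∈ s, ρ ≤ ‖w - r‖) →
        ρ ^ s.card ≤ ‖(s.map (fun a => w - a)).prod‖ := by
      intro s
      induction s using Multiset.induction_on with
      | empty => simp
      | cons a s ih =>
        intro hs
        rw [Multiset.map_cons, Multiset.prod_cons, norm_mul, Multiset.card_cons, pow_succ,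
          mul_comm]
        exact mul_le_mul (hs a (Multiset.mem_cons_self a s))
          (ih (fun r hr => hs r (Multiset.mem_cons_of_mem hr))) (by positivity) (norm_nonneg _)
    have h4 := h3 p.roots hcon
    rwa [← hs.natDegree_eq_card_roots] at h4
  rw [h1, norm_mul] at h
  have h5 : c₀ * ρ ^ p.natDegree ≤ ‖p.leadingCoeff‖ * ‖(p.roots.map (fun a => w - a)).prod‖ :=
    mul_le_mul hc h2 (by positivity) (norm_nonneg _)
  linarith

/-- counting roots of unity where a polynomial is small -/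
theorem card_small {n : ℕ} (hn : 0 < n) (p : ℂ[X]) (c₀ ρ : ℝ) (hρ : 0 ≤ ρ)
    (hc : c₀ ≤ ‖p.leadingCoeff‖) (t : ℝ) (ht : t ≤ c₀ * ρ ^ p.natDegree) :
    (((U n).filter (fun w => ‖p.eval w‖ < t)).card : ℝ) ≤ p.natDegree * (n * ρ + 1) := by
  classical
  have h1 : (U n).filter (fun w => ‖p.eval w‖ < t) ⊆
      p.roots.toFinset.biUnion (fun r => (U n).filter (fun w => ‖w - r‖ < ρ)) := by
    intro w hw
    rw [mem_filter] at hw
    obtain ⟨r, hr, hr2⟩ := exists_root_near p c₀ ρ hρ hc w (lt_of_lt_of_le hw.2 ht)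
    rw [mem_biUnion]
    exact ⟨r, Multiset.mem_toFinset.2 hr, mem_filter.2 ⟨hw.1, hr2⟩⟩
  have h2 := (card_le_card h1).trans card_biUnion_le
  have h3 : (((U n).filter (fun w => ‖p.eval w‖ < t)).card : ℝ) ≤
      ∑ r ∈ p.roots.toFinset, (((U n).filter (fun w => ‖w - r‖ < ρ)).card : ℝ) := by
    exact_mod_cast h2
  refine h3.trans ?_
  have h4 : ∑ r ∈ p.roots.toFinset, (((U n).filter (fun w => ‖w - r‖ < ρ)).card : ℝ) ≤
      ∑ r ∈ p.roots.toFinset, ((n : ℝ) * ρ + 1) := sum_le_sum (fun r _ => card_disc hn r ρ hρ)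
  refine h4.trans ?_
  rw [sum_const, nsmul_eq_mul]
  apply mul_le_mul_of_nonneg_right _ (by positivity)
  have : p.roots.toFinset.card ≤ p.natDegree := (Multiset.toFinset_card_le _).trans (card_roots' p)
  exact_mod_cast this

end Pool.Agent.H196R3
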