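import Mathlib
import Pool.Agent.H196R3.RU

/-! Polynomials in `y` over `ℤ[x_1, ..., x_M]` evaluated on the torus. -/

set_option autoImplicit false

namespace Pool.Agent.H196R3

open Polynomial Finset

/-- coefficient ring -/
abbrev A (M : ℕ) := MvPolynomial (Fin M) ℤ

/-- evaluation of a coefficient -/
noncomputable def evz {M : ℕ} (z : Fin M → ℂ) : A M →+* ℂ :=
  MvPolynomial.eval₂Hom (Int.castRingHom ℂ) z

/-- value of a polynomial -/
noncomputable def val {M : ℕ} (z : Fin M → ℂ) (w : ℂ) : Polynomial (A M) →+* ℂ :=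
  Polynomial.eval₂RingHom (evz z) w

theorem val_eq {M : ℕ} (z : Fin M → ℂ) (w : ℂ) (F : Polynomial (A M)) :
    val z w F = (F.map (evz z)).eval w := by
  simp [val, Polynomial.eval₂_eq_eval_map]

theorem val_C {M : ℕ} (z : Fin M → ℂ) (w : ℂ) (r : A M) : val z w (C r) = evz z r := by
  simp [val]

/-- points of the torus -/
def OnT {M : ℕ} (z : Fin M → ℂ) : Prop := ∀ i, ‖z i‖ = 1

/-- torsion points -/
noncomputable def T (n M : ℕ) : Finset (Fin M → ℂ) := Fintype.piFinset fun _ => U n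

theorem mem_T {n M : ℕ} {z : Fin M → ℂ} : z ∈ T n M ↔ ∀ i, z i ∈ U n := by
  simp [T]

theorem onT_of_mem_T {n M : ℕ} (hn : 0 < n) {z : Fin M → ℂ} (hz : z ∈ T n M) : OnT z :=
  fun i => norm_of_mem_U hn (mem_T.1 hz i)

theorem card_T {n : ℕ} (hn : 0 < n) (M : ℕ) : (T n M).card = n ^ M := by
  rw [T, Fintype.card_piFinset]
  simp [card_U hn]

/-- the monomials of `F` -/
noncomputable def mons {M : ℕ} (F : Polynomial (A M)) : Finset (Σ _ : ℕ, (Fin M →₀ ℕ)) :=
  F.support.sigma (fun j => (F.coeff j).support)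

/-- the coefficient of a monomial -/
noncomputable def cf {M : ℕ} (F : Polynomial (A M)) (p : Σ _ : ℕ, (Fin M →₀ ℕ)) : ℤ :=
  (F.coeff p.1).coeff p.2

theorem mem_mons {M : ℕ} {F : Polynomial (A M)} {p : Σ _ : ℕ, (Fin M →₀ ℕ)} :
    p ∈ mons F ↔ cf F p ≠ 0 := by
  rw [mons, mem_sigma, cf, MvPolynomial.mem_support_iff, mem_support_iff]
  constructor
  · exact fun h => h.2
  · intro h
    refine ⟨?_, h⟩
    intro h0
    rw [h0] at h
    simp at h

/-- the value of a monomial -/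
noncomputable def mv {M : ℕ} (z : Fin M → ℂ) (w : ℂ) (p : Σ _ : ℕ, (Fin M →₀ ℕ)) : ℂ :=
  (∏ i, z i ^ p.2 i) * w ^ p.1

theorem norm_mv {M : ℕ} {z : Fin M → ℂ} {w : ℂ} (hz : OnT z) (hw : ‖w‖ = 1)
    (p : Σ _ : ℕ, (Fin M →₀ ℕ)) : ‖mv z w p‖ = 1 := by
  unfold mv
  rw [norm_mul, norm_pow, hw, one_pow, mul_one, norm_prod]
  apply prod_eq_one
  intro i _
  rw [norm_pow, hz i, one_pow]

theorem val_monomial {M : ℕ} (z : Fin M → ℂ) (w : ℂ) (j : ℕ) (m : Fin M →₀ ℕ) (c : ℤ) :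
    val z w (monomial j (MvPolynomial.monomial m c)) = c * mv z w ⟨j, m⟩ := by
  simp only [val, coe_eval₂RingHom, eval₂_monomial, evz, MvPolynomial.coe_eval₂Hom,
    MvPolynomial.eval₂_monomial, mv]
  rw [Finsupp.prod_fintype]
  · simp only [eq_intCast]
    ring
  · intro i
    simp

theorem eq_sum_mons {M : ℕ} (F : Polynomial (A M)) :
    F = ∑ p ∈ mons F, monomial p.1 (MvPolynomial.monomial p.2 (cf F p)) := by
  conv_lhs => rw [F.as_sum_support]
  rw [mons, sum_sigma]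
  apply sum_congr rfl
  intro j _
  simp only [cf]
  conv_lhs => rw [(F.coeff j).as_sum]
  rw [map_sum]

theorem val_eq_sum {M : ℕ} (z : Fin M → ℂ) (w : ℂ) (F : Polynomial (A M)) :
    val z w F = ∑ p ∈ mons F, (cf F p : ℂ) * mv z w p := by
  conv_lhs => rw [eq_sum_mons F]
  rw [map_sum]
  apply sum_congr rfl
  intro p _
  rw [val_monomial]

theorem val_bound {M : ℕ} (F : Polynomial (A M)) : ∃ L : ℝ, 1 ≤ L ∧ ∀ (z : Fin M → ℂ) (w : ℂ),
    OnT z → ‖w‖ = 1 → ‖val z w F‖ ≤ L := by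
  refine ⟨1 + ∑ p ∈ mons F, |(cf F p : ℝ)|, ?_, ?_⟩
  · have : 0 ≤ ∑ p ∈ mons F, |(cf F p : ℝ)| := sum_nonneg (fun _ _ => abs_nonneg _)
    linarith
  · intro z w hz hw
    rw [val_eq_sum]
    refine (norm_sum_le _ _).trans ?_
    have : ∑ p ∈ mons F, ‖(cf F p : ℂ) * mv z w p‖ = ∑ p ∈ mons F, |(cf F p : ℝ)| := by
      apply sum_congr rfl
      intro p _
      rw [norm_mul, norm_mv hz hw, mul_one, Complex.norm_intCast]
    rw [this]
    linarith

theorem evz_bound {M : ℕ} (r : A M) : ∃ L : ℝ, 1 ≤ L ∧ ∀ (z : Fin M → ℂ),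
    OnT z → ‖evz z r‖ ≤ L := by
  obtain ⟨L, hL1, hL⟩ := val_bound (C r : Polynomial (A M))
  refine ⟨L, hL1, fun z hz => ?_⟩
  have := hL z 1 hz (by simp)
  rwa [val_C] at this

/-- unit-like leading coefficient, with constant `c` -/
def UL {M : ℕ} (F : Polynomial (A M)) (c : ℝ) : Prop :=
  0 < c ∧ ∀ z : Fin M → ℂ, OnT z → c ≤ ‖evz z F.leadingCoeff‖

theorem UL.ne_zero {M : ℕ} {F : Polynomial (A M)} {c : ℝ} (h : UL F c) : F ≠ 0 := by
  intro h0
  have := h.2 (fun _ => 1) (fun i => by simp)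
  rw [h0] at this
  simp at this
  linarith [h.1]

theorem UL.natDegree {M : ℕ} {F : Polynomial (A M)} {c : ℝ} (h : UL F c) {z : Fin M → ℂ}
    (hz : OnT z) : (F.map (evz z)).natDegree = F.natDegree := by
  apply natDegree_map_of_leadingCoeff_ne_zero
  intro h0
  have := h.2 z hz
  rw [h0, norm_zero] at this
  linarith [h.1]

theorem UL.leadingCoeff {M : ℕ} {F : Polynomial (A M)} {c : ℝ} (h : UL F c) {z : Fin M → ℂ}
    (hz : OnT z) : c ≤ ‖(F.map (evz z)).leadingCoeff‖ := by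
  have h1 : (F.map (evz z)).leadingCoeff = evz z F.leadingCoeff := by
    rw [Polynomial.leadingCoeff, h.natDegree hz, coeff_map, coeff_natDegree]
  rw [h1]
  exact h.2 z hz

theorem UL.of_mul_left {M : ℕ} {F G : Polynomial (A M)} {c : ℝ} (h : UL (F * G) c) :
    ∃ c', UL F c' := by
  obtain ⟨L, hL1, hL⟩ := evz_bound G.leadingCoeff
  refine ⟨c / L, div_pos h.1 (by linarith), fun z hz => ?_⟩
  have h1 := h.2 z hz
  rw [leadingCoeff_mul, map_mul, norm_mul] at h1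
  rw [div_le_iff₀ (by linarith)]
  exact h1.trans (mul_le_mul_of_nonneg_left (hL z hz) (norm_nonneg _))

theorem UL.of_mul_right {M : ℕ} {F G : Polynomial (A M)} {c : ℝ} (h : UL (F * G) c) :
    ∃ c', UL G c' := by
  rw [mul_comm] at h
  exact h.of_mul_left

/-- uniform count in each fibre -/
theorem UL.card_small {M : ℕ} {F : Polynomial (A M)} {c : ℝ} (h : UL F c) {z : Fin M → ℂ}
    (hz : OnT z) {n : ℕ} (hn : 0 < n) (ρ : ℝ) (hρ : 0 ≤ ρ) (t : ℝ)
    (ht : t ≤ c * ρ ^ F.natDegree) :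
    (((U n).filter (fun w => ‖val z w F‖ < t)).card : ℝ) ≤ F.natDegree * (n * ρ + 1) := by
  have h1 := Pool.Agent.H196R3.card_small hn (F.map (evz z)) c ρ hρ (h.leadingCoeff hz) t
    (by rw [h.natDegree hz]; exact ht)
  rw [h.natDegree hz] at h1
  simp only [val_eq]
  exact h1

end Pool.Agent.H196R3
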