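import Mathlib
import Pool.Agent.H440R2.Schwarz
import Pool.Agent.H301R2.TR.DetBound

/-!
Elementary bound for interpolation determinants of the functions
`x ^ k * exp (l * (c * x + y))` at points `(x_j, y_j)` with `y_j` very small (complex version).
-/

set_option autoImplicit false

namespace Pool.Agent.H196R3

open Finset

/-- Finite version of the Schwarz lemma for interpolation determinants. -/
lemma schwarz_finite {ι κ : Type*} [Fintype ι] [DecidableEq ι] [Fintype κ]
    (A : ι → κ → ℂ) (u n : ι → κ → ℕ) (x y : ι → ℂ) (X Z ρ : ℝ)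
    (hX : 0 ≤ X) (hZ : 0 ≤ Z) (hρ : 1 ≤ ρ) (hx : ∀ j, ‖x j‖ ≤ X) (hy : ∀ j, ‖y j‖ ≤ Z) :
    ‖(Matrix.of fun i j => ∑ r, A i r * (x j ^ u i r * y j ^ n i r)).det‖ *
      ρ ^ (Fintype.card ι * (Fintype.card ι - 1) / 2) ≤
      (Fintype.card ι).factorial *
        ∏ i, ∑ r, ‖A i r‖ * ((ρ * X) ^ u i r * (ρ ^ Fintype.card ι * Z) ^ n i r) := by
  classical
  set N := Fintype.card ι with hN
  have hρ0 : 0 < ρ := lt_of_lt_of_le one_pos hρ
  -- expansion
  have hexp : (Matrix.of fun i j => ∑ r, A i r * (x j ^ u i r * y j ^ n i r)).det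
      = ∑ f : ι → κ, (∏ i, A i (f i)) *
          (Matrix.of fun i j => x j ^ u i (f i) * y j ^ n i (f i)).det := by
    have h1 := MultilinearMap.map_sum
      (Matrix.detRowAlternating (n := ι) (R := ℂ)).toMultilinearMap
      (fun (i : ι) (r : κ) => A i r • (fun j => x j ^ u i r * y j ^ n i r))
    have h2 : (Matrix.of fun i j => ∑ r, A i r * (x j ^ u i r * y j ^ n i r)).det
        = (Matrix.detRowAlternating (n := ι) (R := ℂ)).toMultilinearMap
            (fun i => ∑ r, A i r • (fun j => x j ^ u i r * y j ^ n i r)) := by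
      show Matrix.det _ = Matrix.det _
      congr 1
      ext i j
      simp [Finset.sum_apply]
    rw [h2, h1]
    apply sum_congr rfl
    intro f _
    rw [MultilinearMap.map_smul_univ]
    rfl
  rw [hexp]
  have hterm : ∀ f : ι → κ,
      ‖(∏ i, A i (f i)) * (Matrix.of fun i j => x j ^ u i (f i) * y j ^ n i (f i)).det‖ *
        ρ ^ (N * (N - 1) / 2) ≤
      N.factorial * ∏ i, (‖A i (f i)‖ * ((ρ * X) ^ u i (f i) * (ρ ^ N * Z) ^ n i (f i))) := by
    intro f
    have hprodnn : 0 ≤ ∏ i, (‖A i (f i)‖ * ((ρ * X) ^ u i (f i) * (ρ ^ N * Z) ^ n i (f i))) := by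
      apply prod_nonneg
      intro i _
      positivity
    by_cases hinj : Function.Injective (fun i => (u i (f i), n i (f i)))
    · have hdet := Pool.Agent.H301R2.TR.norm_det_le_rows
        (Matrix.of fun i j => x j ^ u i (f i) * y j ^ n i (f i))
        (fun i => X ^ u i (f i) * Z ^ n i (f i)) (by
          intro i j
          simp only [Matrix.of_apply, norm_mul, norm_pow]
          apply mul_le_mul
          · exact pow_le_pow_left₀ (norm_nonneg _) (hx j) _
          · exact pow_le_pow_left₀ (norm_nonneg _) (hy j) _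
          · positivity
          · positivity)
      have hw := Pool.Agent.H440R2.weight_sum_ge (fun i => u i (f i)) (fun i => n i (f i)) hinj
      rw [← hN] at hw hdet
      have hpow : ρ ^ (N * (N - 1) / 2) ≤ ρ ^ (∑ i, (u i (f i) + N * n i (f i))) :=
        pow_le_pow_right₀ hρ hw
      have hre : ∏ i, (‖A i (f i)‖ * ((ρ * X) ^ u i (f i) * (ρ ^ N * Z) ^ n i (f i)))
          = (∏ i, ‖A i (f i)‖) * (∏ i, (X ^ u i (f i) * Z ^ n i (f i))) *
            ρ ^ (∑ i, (u i (f i) + N * n i (f i))) := by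
        rw [← prod_pow_eq_pow_sum, ← prod_mul_distrib, ← prod_mul_distrib]
        apply prod_congr rfl
        intro i _
        rw [mul_pow, mul_pow, pow_add, pow_mul]
        ring
      rw [hre, norm_mul, norm_prod]
      have hAn : 0 ≤ ∏ i, ‖A i (f i)‖ := prod_nonneg (fun _ _ => norm_nonneg _)
      calc (∏ i, ‖A i (f i)‖) * ‖(Matrix.of fun i j => x j ^ u i (f i) * y j ^ n i (f i)).det‖ *
            ρ ^ (N * (N - 1) / 2)
          ≤ (∏ i, ‖A i (f i)‖) * (N.factorial * ∏ i, (X ^ u i (f i) * Z ^ n i (f i))) *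
            ρ ^ (∑ i, (u i (f i) + N * n i (f i))) := by
            apply mul_le_mul
            · exact mul_le_mul_of_nonneg_left hdet hAn
            · exact hpow
            · positivity
            · apply mul_nonneg hAn
              apply mul_nonneg (by positivity)
              apply prod_nonneg
              intro i _
              positivity
        _ = _ := by ring
    · -- two equal rows
      have hz : (Matrix.of fun i j => x j ^ u i (f i) * y j ^ n i (f i)).det = 0 := by
        simp only [Function.Injective, not_forall] at hinj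
        obtain ⟨i, i', hii, hne⟩ := hinj
        apply Matrix.det_zero_of_row_eq hne
        ext j
        simp only [Prod.mk.injEq] at hii
        simp [Matrix.of_apply, hii.1, hii.2]
      rw [hz]
      simp only [mul_zero, norm_zero, zero_mul]
      positivity
  calc ‖∑ f : ι → κ, (∏ i, A i (f i)) *
          (Matrix.of fun i j => x j ^ u i (f i) * y j ^ n i (f i)).det‖ * ρ ^ (N * (N - 1) / 2)
      ≤ (∑ f : ι → κ, ‖(∏ i, A i (f i)) *
          (Matrix.of fun i j => x j ^ u i (f i) * y j ^ n i (f i)).det‖) *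
            ρ ^ (N * (N - 1) / 2) := by
        apply mul_le_mul_of_nonneg_right (norm_sum_le _ _)
        positivity
    _ = ∑ f : ι → κ, ‖(∏ i, A i (f i)) *
          (Matrix.of fun i j => x j ^ u i (f i) * y j ^ n i (f i)).det‖ *
            ρ ^ (N * (N - 1) / 2) := by rw [sum_mul]
    _ ≤ ∑ f : ι → κ, N.factorial *
          ∏ i, (‖A i (f i)‖ * ((ρ * X) ^ u i (f i) * (ρ ^ N * Z) ^ n i (f i))) :=
        sum_le_sum (fun f _ => hterm f)
    _ = N.factorial * ∑ f : ι → κ,
          ∏ i, (‖A i (f i)‖ * ((ρ * X) ^ u i (f i) * (ρ ^ N * Z) ^ n i (f i))) := by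
        rw [mul_sum]
    _ = _ := by
        congr 1
        rw [Finset.prod_univ_sum, Fintype.piFinset_univ]

/-- The Schwarz lemma for `x ^ k * exp (l * (c * x + y))`. -/
lemma schwarz_exp {ι : Type*} [Fintype ι] [DecidableEq ι]
    (k l : ι → ℕ) (x y : ι → ℂ) (c : ℂ) (X Z ρ : ℝ)
    (hX : 0 ≤ X) (hZ : 0 ≤ Z) (hρ : 1 ≤ ρ) (hx : ∀ j, ‖x j‖ ≤ X) (hy : ∀ j, ‖y j‖ ≤ Z) :
    ‖(Matrix.of fun i j => x j ^ k i * Complex.exp (l i * (c * x j + y j))).det‖ *
      ρ ^ (Fintype.card ι * (Fintype.card ι - 1) / 2) ≤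
      (Fintype.card ι).factorial *
        ∏ i, ((ρ * X) ^ k i * Real.exp (l i * (‖c‖ * (ρ * X) + ρ ^ Fintype.card ι * Z))) := by
  classical
  set N := Fintype.card ι with hN
  set E : ℕ → Matrix ι ι ℂ := fun T => Matrix.of fun i j =>
    x j ^ k i * ((∑ m ∈ range T, (l i * (c * x j)) ^ m / m.factorial) *
      (∑ m ∈ range T, (l i * y j) ^ m / m.factorial)) with hE
  have hρ0 : 0 < ρ := lt_of_lt_of_le one_pos hρ
  have hexpt : ∀ z : ℂ, Filter.Tendsto (fun T => ∑ m ∈ range T, z ^ m / m.factorial)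
      Filter.atTop (nhds (Complex.exp z)) := by
    intro z
    have := (NormedSpace.expSeries_div_hasSum_exp z).tendsto_sum_nat
    rwa [← Complex.exp_eq_exp_ℂ] at this
  have hlim : Filter.Tendsto (fun T => (E T).det) Filter.atTop
      (nhds (Matrix.of fun i j => x j ^ k i * Complex.exp (l i * (c * x j + y j))).det) := by
    have hcont : Continuous (fun M : Matrix ι ι ℂ => M.det) := continuous_id.matrix_det
    apply (hcont.tendsto _).comp
    refine tendsto_pi_nhds.mpr fun i => tendsto_pi_nhds.mpr fun j => ?_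
    simp only [hE, Matrix.of_apply]
    have : Complex.exp (l i * (c * x j + y j)) =
        Complex.exp (l i * (c * x j)) * Complex.exp (l i * y j) := by
      rw [← Complex.exp_add]; ring_nf
    rw [this]
    exact Filter.Tendsto.const_mul _ ((hexpt _).mul (hexpt _))
  have hbound : ∀ T, ‖(E T).det‖ * ρ ^ (N * (N - 1) / 2) ≤ N.factorial *
        ∏ i, ((ρ * X) ^ k i * Real.exp (l i * (‖c‖ * (ρ * X) + ρ ^ N * Z))) := by
    intro T
    have hEq : E T = Matrix.of fun i j => ∑ r : Fin T × Fin T,
        ((l i : ℂ) ^ ((r.1 : ℕ) + (r.2 : ℕ)) * c ^ (r.1 : ℕ) /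
          ((r.1 : ℕ).factorial * (r.2 : ℕ).factorial)) *
          (x j ^ (k i + (r.1 : ℕ)) * y j ^ (r.2 : ℕ)) := by
      ext i j
      simp only [hE, Matrix.of_apply]
      rw [Finset.sum_range, Finset.sum_range, Finset.sum_mul_sum, ← Finset.sum_product',
        Finset.mul_sum]
      apply sum_congr rfl
      intro r _
      simp only [mul_pow, pow_add]
      field_simp
    rw [hEq]
    refine (schwarz_finite (κ := Fin T × Fin T)
      (fun i r => (l i : ℂ) ^ ((r.1 : ℕ) + (r.2 : ℕ)) * c ^ (r.1 : ℕ) /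
          ((r.1 : ℕ).factorial * (r.2 : ℕ).factorial))
      (fun i r => k i + (r.1 : ℕ)) (fun i r => (r.2 : ℕ)) x y X Z ρ hX hZ hρ hx hy).trans ?_
    rw [← hN]
    apply mul_le_mul_of_nonneg_left _ (by positivity)
    apply prod_le_prod
    · intro i _
      positivity
    · intro i _
      have h1 : ∑ r : Fin T × Fin T, ‖(l i : ℂ) ^ ((r.1 : ℕ) + (r.2 : ℕ)) * c ^ (r.1 : ℕ) /
          ((r.1 : ℕ).factorial * (r.2 : ℕ).factorial)‖ *
          ((ρ * X) ^ (k i + (r.1 : ℕ)) * (ρ ^ N * Z) ^ (r.2 : ℕ))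
          = (ρ * X) ^ k i * ((∑ m ∈ range T, (l i * (‖c‖ * (ρ * X))) ^ m / m.factorial) *
            (∑ m ∈ range T, (l i * (ρ ^ N * Z)) ^ m / m.factorial)) := by
        rw [Finset.sum_range, Finset.sum_range, Finset.sum_mul_sum, ← Finset.sum_product',
          Finset.mul_sum]
        apply sum_congr rfl
        intro r _
        rw [norm_div, norm_mul, norm_mul, norm_pow, norm_pow, Complex.norm_natCast,
          Complex.norm_natCast, Complex.norm_natCast]
        simp only [mul_pow, pow_add]
        field_simp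
      rw [h1]
      apply mul_le_mul_of_nonneg_left _ (by positivity)
      rw [mul_add, Real.exp_add]
      apply mul_le_mul
      · exact Real.sum_le_exp_of_nonneg (by positivity) T
      · exact Real.sum_le_exp_of_nonneg (by positivity) T
      · positivity
      · positivity
  have hlim2 : Filter.Tendsto (fun T => ‖(E T).det‖ * ρ ^ (N * (N - 1) / 2)) Filter.atTop
      (nhds (‖(Matrix.of fun i j => x j ^ k i * Complex.exp (l i * (c * x j + y j))).det‖ *
        ρ ^ (N * (N - 1) / 2))) := (hlim.norm).mul_const _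
  exact le_of_tendsto' hlim2 hbound

end Pool.Agent.H196R3
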