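import Mathlib
import Pool.Agent.H196R3.GSchwarz
import Pool.Agent.H196R3.GZero
import Pool.Agent.H301R2.TR.Lower

/-!
Lower bound for `‖2 π i b - a ℓ‖` where `exp ℓ` is algebraic (interpolation determinants).
-/

set_option autoImplicit false

namespace Pool.Agent.H196R3

open Finset

theorem core {F : Type*} [Field F] [NumberField F] (φ : F →ₐ[ℚ] ℂ) (a0 : F) (ℓ : ℂ)
    (hℓ : φ a0 = Complex.exp ℓ) (d : ℕ) (hd : 0 < d) (hint : IsIntegral ℤ ((d : F) * a0))
    (B0 : ℝ) (hB0 : 1 ≤ B0) (hB : ∀ σ : F →ₐ[ℚ] ℂ, ‖σ a0‖ ≤ B0)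
    (hα : ∀ i j : ℕ, (Complex.exp ℓ) ^ i = (Complex.exp ℓ) ^ j → i = j)
    (D : ℕ) (hD : Module.finrank ℚ F = D)
    (a b L C : ℕ) (ha1 : 1 ≤ a) (hba : b ≤ a) (hab : Nat.Coprime a b) (hC1 : 1 ≤ C)
    (hC : 16 * (54 + 2 * D * (Real.log d + Real.log B0)) ≤ C)
    (hMa : (C + 1) * L ≤ a)
    (hL : 16 * ((D : ℝ) + 1) * (1 + Real.log (3 * a ^ 2)) ≤ L) :
    Real.exp (-((C : ℝ) * (C + 1) * L ^ 2)) < ‖2 * Real.pi * Complex.I * b - a * ℓ‖ := by
  classical
  by_contra hcon
  rw [not_lt] at hcon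
  set Λ : ℂ := 2 * Real.pi * Complex.I * b - a * ℓ with hΛ
  set α : ℂ := Complex.exp ℓ with hαdef
  have hα0 : α ≠ 0 := Complex.exp_ne_zero _
  set M : ℕ := (C + 1) * L with hM
  set K : ℕ := C * M with hK
  have har : (1:ℝ) ≤ a := by exact_mod_cast ha1
  have hCr : (1:ℝ) ≤ C := by exact_mod_cast hC1
  have hDr : (0:ℝ) ≤ D := by positivity
  have hlogX0 : 0 ≤ Real.log (3 * (a:ℝ) ^ 2) := by
    apply Real.log_nonneg
    nlinarith
  have hLD : 16 * ((D:ℝ) + 1) ≤ L := by
    refine le_trans ?_ hL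
    have : 16 * ((D : ℝ) + 1) * 1 ≤ 16 * ((D : ℝ) + 1) * (1 + Real.log (3 * a ^ 2)) := by
      apply mul_le_mul_of_nonneg_left _ (by positivity)
      linarith
    linarith
  have hL1r : (1:ℝ) ≤ L := by linarith
  have hL1 : 1 ≤ L := by exact_mod_cast hL1r
  have hMr : (M:ℝ) = (C + 1) * L := by rw [hM]; push_cast; ring
  have hM1 : (1:ℝ) ≤ M := by
    rw [hMr]
    nlinarith
  have hMpos : 1 ≤ M := by exact_mod_cast hM1
  have hKr : (K:ℝ) = C * M := by rw [hK]; push_cast; ring
  have hLM : (L:ℝ) ≤ M := by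
    rw [hMr]
    nlinarith
  have hMa' : (M:ℝ) ≤ a := by exact_mod_cast hMa
  have hKL : (K:ℝ) * L = C * (C + 1) * L ^ 2 := by rw [hKr, hMr]; ring
  -- the zero estimate
  have hzeroM : L * (K - 1) < M * M := by
    have h1 : L * K < M * M := by
      have e1 : L * K = M * (C * L) := by rw [hK]; ring
      have e2 : M * M = M * ((C + 1) * L) := by rw [hM]
      rw [e1, e2]
      apply Nat.mul_lt_mul_of_pos_left _ hMpos
      nlinarith
    exact lt_of_le_of_lt (Nat.mul_le_mul_left _ (Nat.sub_le _ _)) h1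
  obtain ⟨j, hjT, hdet⟩ := exists_det_ne_zero (ι := Fin K × Fin L) (T := ℕ × ℕ)
    (fun τ i => ((τ.1 * b + τ.2 * a : ℕ) : ℂ) ^ (i.1 : ℕ) * (α ^ τ.1) ^ (i.2 : ℕ))
    {τ | τ.1 < M + L ∧ τ.2 < M} (by
      intro c hc
      have := zero_estimate K L M α hα0 hα a b hab (by exact_mod_cast hMa') ha1 hzeroM
        (fun k l => c (k, l)) (by
          intro r s hr hs
          have := hc (r, s) ⟨hr, hs⟩
          rw [← this, Fintype.sum_prod_type])
      ext ⟨k, l⟩
      exact congrFun (congrFun this k) l)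
  clear_value K M
  set E : Matrix (Fin K × Fin L) (Fin K × Fin L) ℂ := Matrix.of fun i i' =>
    (((j i').1 * b + (j i').2 * a : ℕ) : ℂ) ^ (i.1 : ℕ) * (α ^ (j i').1) ^ (i.2 : ℕ) with hE
  set X : ℝ := 3 * (a : ℝ) ^ 2 with hX
  have hX1 : 1 ≤ X := by rw [hX]; nlinarith
  have hptX : ∀ i', (((j i').1 * b + (j i').2 * a : ℕ) : ℝ) ≤ X := by
    intro i'
    have h1 : (j i').1 < M + L := (hjT i').1
    have h2 : (j i').2 < M := (hjT i').2
    push_cast
    have h1' : ((j i').1 : ℝ) ≤ M + L := by exact_mod_cast h1.le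
    have h2' : ((j i').2 : ℝ) ≤ M := by exact_mod_cast h2.le
    have hb' : (b : ℝ) ≤ a := by exact_mod_cast hba
    have h3 : ((j i').1 : ℝ) * b ≤ (2 * a) * a := by
      apply mul_le_mul (by linarith) hb' (by positivity) (by positivity)
    have h4 : ((j i').2 : ℝ) * a ≤ a * a := by
      apply mul_le_mul (by linarith) le_rfl (by positivity) (by positivity)
    rw [hX]
    nlinarith
  have hN : Fintype.card (Fin K × Fin L) = K * L := by simp
  obtain ⟨N, hNdef⟩ : ∃ N : ℕ, N = K * L := ⟨_, rfl⟩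
  have hNr : (N:ℝ) = C * (C + 1) * L ^ 2 := by rw [hNdef]; push_cast; exact hKL
  -- arithmetic lower bound
  have harith : 1 ≤ ‖E.det‖ * ((d : ℝ) ^ (2 * M * L)) ^ (N * D)
      * ((Nat.factorial N : ℝ) * (X ^ K * B0 ^ (2 * M * L)) ^ N) ^ D := by
    set Z : Matrix (Fin K × Fin L) (Fin K × Fin L) F := Matrix.of fun i i' =>
      (((j i').1 * b + (j i').2 * a : ℕ) : F) ^ (i.1 : ℕ) * (a0 ^ (j i').1) ^ (i.2 : ℕ) with hZ
    have h1 : E = Z.map φ := by
      ext i i'
      simp [hE, hZ, hℓ, hαdef]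
    have h2 : E.det = φ Z.det := by
      rw [h1]
      have := RingHom.map_det (φ : F →+* ℂ) Z
      exact this.symm
    have h3 : Z.det ≠ 0 := by
      intro h0
      rw [h0, map_zero] at h2
      exact hdet h2
    have hrl : ∀ i i' : Fin K × Fin L, (j i').1 * (i.2 : ℕ) ≤ 2 * M * L := by
      intro i i'
      have h1 : (j i').1 < M + L := (hjT i').1
      have h2 : (i.2 : ℕ) < L := i.2.2
      have hLM' : L ≤ M := by exact_mod_cast hLM
      exact Nat.mul_le_mul (by omega) h2.le
    have := Pool.Agent.H301R2.TR.det_lower φ Z d (2 * M * L) hd (X ^ K * B0 ^ (2 * M * L))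
      (one_le_mul_of_one_le_of_one_le (one_le_pow₀ hX1) (one_le_pow₀ hB0)) (by
        intro i i'
        simp only [hZ, Matrix.of_apply]
        have e1 : (d : F) ^ (2 * M * L) * ((((j i').1 * b + (j i').2 * a : ℕ) : F) ^ (i.1 : ℕ) *
            (a0 ^ (j i').1) ^ (i.2 : ℕ)) =
            (((j i').1 * b + (j i').2 * a : ℕ) : F) ^ (i.1 : ℕ) *
            ((d : F) ^ (2 * M * L - (j i').1 * (i.2 : ℕ)) *
              ((d : F) * a0) ^ ((j i').1 * (i.2 : ℕ))) := by
          rw [mul_pow, ← pow_mul]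
          have : (d : F) ^ (2 * M * L) = (d : F) ^ (2 * M * L - (j i').1 * (i.2 : ℕ)) *
              (d : F) ^ ((j i').1 * (i.2 : ℕ)) := by
            rw [← pow_add, Nat.sub_add_cancel (hrl i i')]
          rw [this]
          ring
        rw [e1]
        apply IsIntegral.mul
        · apply IsIntegral.pow
          exact isIntegral_algebraMap (R := ℤ) (A := F)
            (x := (((j i').1 * b + (j i').2 * a : ℕ) : ℤ)) |> (by simpa using ·)
        · apply IsIntegral.mul
          · apply IsIntegral.pow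
            exact isIntegral_algebraMap (R := ℤ) (A := F) (x := (d : ℤ)) |> (by simpa using ·)
          · exact hint.pow _) (by
        intro σ i i'
        simp only [hZ, Matrix.of_apply]
        rw [map_mul, norm_mul, map_pow, map_natCast, map_pow, map_pow, norm_pow, norm_pow, norm_pow,
          Complex.norm_natCast, ← pow_mul]
        apply mul_le_mul
        · calc (((j i').1 * b + (j i').2 * a : ℕ) : ℝ) ^ (i.1 : ℕ) ≤ X ^ (i.1 : ℕ) :=
              pow_le_pow_left₀ (by positivity) (hptX i') _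
            _ ≤ X ^ K := pow_le_pow_right₀ hX1 i.1.2.le
        · calc ‖σ a0‖ ^ ((j i').1 * (i.2 : ℕ)) ≤ B0 ^ ((j i').1 * (i.2 : ℕ)) :=
              pow_le_pow_left₀ (norm_nonneg _) (hB σ) _
            _ ≤ B0 ^ (2 * M * L) := pow_le_pow_right₀ hB0 (hrl i i')
        · positivity
        · positivity) h3
    rw [hN, ← hNdef, hD, ← h2] at this
    exact this
  -- analytic estimate
  have ha0 : (a : ℂ) ≠ 0 := by exact_mod_cast (by omega : a ≠ 0)
  set c : ℂ := 2 * Real.pi * Complex.I / a with hc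
  have hcnorm : ‖c‖ = 2 * Real.pi / a := by
    rw [hc]
    simp [abs_of_pos Real.pi_pos]
  have hEeq : E = Matrix.of fun i i' : Fin K × Fin L =>
      (fun i' => (((j i').1 * b + (j i').2 * a : ℕ) : ℂ)) i' ^ ((fun i : Fin K × Fin L => (i.1 : ℕ)) i) *
      Complex.exp (((fun i : Fin K × Fin L => (i.2 : ℕ)) i : ℕ) *
        (c * (fun i' => (((j i').1 * b + (j i').2 * a : ℕ) : ℂ)) i' +
          (fun i' => -((j i').1 * Λ / a)) i')) := by
    ext i i'
    simp only [hE, Matrix.of_apply]
    congr 1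
    have h1 : c * (((j i').1 * b + (j i').2 * a : ℕ) : ℂ) + -((j i').1 * Λ / a)
        = (j i').1 * ℓ + (j i').2 * (2 * Real.pi * Complex.I) := by
      rw [hc, hΛ]
      push_cast
      field_simp
      ring
    rw [h1, Complex.exp_nat_mul, Complex.exp_add, Complex.exp_nat_mul, Complex.exp_nat_mul,
      Complex.exp_two_pi_mul_I, one_pow, mul_one]
  have hschw := schwarz_exp (ι := Fin K × Fin L) (fun i => (i.1 : ℕ)) (fun i => (i.2 : ℕ))
    (fun i' => (((j i').1 * b + (j i').2 * a : ℕ) : ℂ))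
    (fun i' => -((j i').1 * Λ / a)) c (3 * M * a) (2 * M * ‖Λ‖ / a) (Real.exp 1)
    (by positivity)
    (by positivity) (by rw [← Real.exp_zero]; exact Real.exp_le_exp.mpr (by norm_num))
    (by
      intro i'
      have h1 : (j i').1 < M + L := (hjT i').1
      have h2 : (j i').2 < M := (hjT i').2
      rw [Complex.norm_natCast]
      push_cast
      have h1' : ((j i').1 : ℝ) ≤ M + L := by exact_mod_cast h1.le
      have h2' : ((j i').2 : ℝ) ≤ M := by exact_mod_cast h2.le
      have hb' : (b : ℝ) ≤ a := by exact_mod_cast hba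
      have h3 : ((j i').1 : ℝ) * b ≤ (2 * M) * a := by
        apply mul_le_mul (by linarith) hb' (by positivity) (by positivity)
      have h4 : ((j i').2 : ℝ) * a ≤ M * a := by
        apply mul_le_mul h2' le_rfl (by positivity) (by positivity)
      linarith)
    (by
      intro i'
      have h1 : (j i').1 < M + L := (hjT i').1
      have h1' : ((j i').1 : ℝ) ≤ 2 * M := by
        have : ((j i').1 : ℝ) ≤ M + L := by exact_mod_cast h1.le
        linarith
      rw [norm_neg, norm_div, norm_mul, Complex.norm_natCast, Complex.norm_natCast]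
      gcongr)
  rw [← hEeq, hN] at hschw
  clear_value E c
  rw [← hNdef] at hschw
  have hNge : (L:ℝ)^2 ≤ N := by
    rw [hNr]
    nlinarith [sq_nonneg (L:ℝ)]
  have hNbig : (256:ℝ) ≤ N := by nlinarith
  -- bound of W
  set W : ℝ := ‖c‖ * (Real.exp 1 * (3 * M * a)) + Real.exp 1 ^ N * (2 * M * ‖Λ‖ / a) with hW
  have he1 : Real.exp 1 < 2.7182818286 := Real.exp_one_lt_d9
  have hexpN : Real.exp 1 ^ N * ‖Λ‖ ≤ 1 := by
    rw [← Real.exp_nat_mul, mul_one]
    calc Real.exp N * ‖Λ‖ ≤ Real.exp N * Real.exp (-((C : ℝ) * (C + 1) * L ^ 2)) := by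
          gcongr
      _ = 1 := by rw [← Real.exp_add, hNr]; simp
  have hW54 : W ≤ 54 * M := by
    have hpi : Real.pi < 3.1416 := Real.pi_lt_d4
    have h1 : ‖c‖ * (Real.exp 1 * (3 * M * a)) = 6 * Real.pi * Real.exp 1 * M := by
      rw [hcnorm]
      field_simp
      ring
    have h2 : Real.exp 1 ^ N * (2 * M * ‖Λ‖ / a) ≤ 2 := by
      have h3 : Real.exp 1 ^ N * (2 * M * ‖Λ‖ / a) = (Real.exp 1 ^ N * ‖Λ‖) * (2 * (M / a)) := by
        ring
      rw [h3]
      have h4 : (M:ℝ) / a ≤ 1 := by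
        rw [div_le_one (by linarith)]
        exact hMa'
      calc (Real.exp 1 ^ N * ‖Λ‖) * (2 * (M / a)) ≤ 1 * (2 * 1) := by gcongr
        _ = 2 := by norm_num
    have h5 : 6 * Real.pi * Real.exp 1 * M ≤ 51.4 * M := by
      apply mul_le_mul_of_nonneg_right _ (by linarith)
      have h6 : Real.pi * Real.exp 1 ≤ 3.1416 * 2.7182818286 := by
        apply mul_le_mul hpi.le he1.le (by positivity) (by norm_num)
      nlinarith
    rw [hW, h1]
    nlinarith
  have hW0 : 0 ≤ W := by rw [hW]; positivity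
  have hMX : 3 * (M:ℝ) * a ≤ X := by
    rw [hX]
    nlinarith
  have h3Ma1 : (1:ℝ) ≤ 3 * M * a := by nlinarith
  -- each factor
  set G : ℝ := (Real.exp 1 * X) ^ K * Real.exp (L * W) with hG
  have hexp1 : 1 ≤ Real.exp 1 := by
    rw [← Real.exp_zero]; exact Real.exp_le_exp.mpr (by norm_num)
  have heX1 : 1 ≤ Real.exp 1 * X := one_le_mul_of_one_le_of_one_le hexp1 hX1
  have hG0 : 0 < G := by rw [hG]; positivity
  have hprod : ∏ i : Fin K × Fin L, ((Real.exp 1 * (3 * M * a)) ^ (i.1 : ℕ) *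
      Real.exp ((i.2 : ℕ) * (‖c‖ * (Real.exp 1 * (3 * M * a)) +
        Real.exp 1 ^ N * (2 * M * ‖Λ‖ / a)))) ≤ G ^ N := by
    calc _ ≤ ∏ _i : Fin K × Fin L, G := by
          apply prod_le_prod
          · intro i _
            positivity
          · intro i _
            rw [hG]
            apply mul_le_mul
            · calc (Real.exp 1 * (3 * M * a)) ^ (i.1 : ℕ) ≤ (Real.exp 1 * X) ^ (i.1 : ℕ) := by
                    gcongr
                _ ≤ (Real.exp 1 * X) ^ K := pow_le_pow_right₀ heX1 i.1.2.le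
            · apply Real.exp_le_exp.mpr
              rw [← hW]
              apply mul_le_mul_of_nonneg_right _ hW0
              exact_mod_cast i.2.2.le
            · positivity
            · positivity
      _ = G ^ N := by simp [hNdef]
  set Q : ℝ := ((d : ℝ) ^ (2 * M * L)) ^ (N * D)
      * ((Nat.factorial N : ℝ) * (X ^ K * B0 ^ (2 * M * L)) ^ N) ^ D with hQ
  have hd1 : (1:ℝ) ≤ d := by exact_mod_cast hd
  have hQ0 : 0 < Q := by rw [hQ]; positivity
  have hmain : Real.exp 1 ^ (N * (N - 1) / 2) ≤ ((N:ℝ) ^ N * G ^ N) * Q := by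
    calc Real.exp 1 ^ (N * (N - 1) / 2) ≤ (‖E.det‖ * Q) * Real.exp 1 ^ (N * (N - 1) / 2) := by
          apply le_mul_of_one_le_left (by positivity)
          rw [hQ]
          linarith [harith]
      _ = (‖E.det‖ * Real.exp 1 ^ (N * (N - 1) / 2)) * Q := by ring
      _ ≤ (N.factorial * ∏ i : Fin K × Fin L, ((Real.exp 1 * (3 * M * a)) ^ (i.1 : ℕ) *
      Real.exp ((i.2 : ℕ) * (‖c‖ * (Real.exp 1 * (3 * M * a)) +
        Real.exp 1 ^ N * (2 * M * ‖Λ‖ / a))))) * Q := by
          apply mul_le_mul_of_nonneg_right hschw hQ0.le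
      _ ≤ ((N:ℝ) ^ N * G ^ N) * Q := by
          apply mul_le_mul_of_nonneg_right _ hQ0.le
          apply mul_le_mul _ hprod (by positivity) (by positivity)
          exact_mod_cast Nat.factorial_le_pow N
  have hQle : Q ≤ ((d : ℝ) ^ (2 * M * L)) ^ (N * D)
      * ((N : ℝ) ^ N * (X ^ K * B0 ^ (2 * M * L)) ^ N) ^ D := by
    rw [hQ]
    gcongr
    exact_mod_cast Nat.factorial_le_pow N
  -- take logs
  have hNpos : (0:ℝ) < N := by linarith
  have hX0 : 0 < X := by linarith
  have hB00 : 0 < B0 := by linarith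
  have hd0 : (0:ℝ) < d := by linarith
  have hlogQ : Real.log Q ≤ N * (D * (2 * M * L * Real.log d + Real.log N + K * Real.log X
      + 2 * M * L * Real.log B0)) := by
    refine (Real.log_le_log hQ0 hQle).trans (le_of_eq ?_)
    rw [Real.log_mul (by positivity) (by positivity), Real.log_pow, Real.log_pow, Real.log_pow,
      Real.log_mul (by positivity) (by positivity), Real.log_pow, Real.log_pow,
      Real.log_mul (by positivity) (by positivity), Real.log_pow, Real.log_pow]
    push_cast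
    ring
  have hlogG : Real.log G = K * (1 + Real.log X) + L * W := by
    rw [hG, Real.log_mul (by positivity) (by positivity), Real.log_pow, Real.log_exp,
      Real.log_mul (by positivity) (by linarith), Real.log_exp]
  have hlogmain : ((N * (N - 1) / 2 : ℕ) : ℝ) ≤ N * (Real.log N + Real.log G) +
      N * (D * (2 * M * L * Real.log d + Real.log N + K * Real.log X
      + 2 * M * L * Real.log B0)) := by
    have h1 := Real.log_le_log (by positivity) hmain
    rw [Real.log_pow, Real.log_exp, mul_one, Real.log_mul (by positivity) (by positivity),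
      Real.log_mul (by positivity) (by positivity),
      Real.log_pow, Real.log_pow] at h1
    linarith
  have hhalf : ((N * (N - 1) / 2 : ℕ) : ℝ) = N * (N - 1) / 2 := by
    have hN1 : 1 ≤ N := by exact_mod_cast (by linarith : (1:ℝ) ≤ N)
    rw [Nat.cast_div (even_iff_two_dvd.mp (Nat.even_mul_pred_self N)) (by norm_num)]
    push_cast [Nat.cast_sub hN1]
    ring
  rw [hhalf] at hlogmain
  have hlog2 : (N - 1) / 2 ≤ (Real.log N + Real.log G) +
      (D * (2 * M * L * Real.log d + Real.log N + K * Real.log X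
      + 2 * M * L * Real.log B0)) := by
    have : N * ((N - 1) / 2) ≤ N * ((Real.log N + Real.log G) +
      (D * (2 * M * L * Real.log d + Real.log N + K * Real.log X
      + 2 * M * L * Real.log B0))) := by linarith
    exact le_of_mul_le_mul_left this hNpos
  rw [hlogG] at hlog2
  have hKLN : (K:ℝ) * L = N := by rw [hNdef]; push_cast; ring
  have hlogX : 0 ≤ Real.log X := hlogX0
  have hK0 : (0:ℝ) ≤ K := by positivity
  -- term A
  have hA : ((D:ℝ) + 1) * (K * (1 + Real.log X)) ≤ N / 16 := by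
    have h1 : K * (16 * ((D : ℝ) + 1) * (1 + Real.log X)) ≤ K * L :=
      mul_le_mul_of_nonneg_left hL hK0
    rw [hKLN] at h1
    linarith
  -- term B
  have hBt : L * W + D * (2 * M * L * Real.log d + 2 * M * L * Real.log B0) ≤ N / 16 := by
    have h1 : L * W ≤ L * (54 * M) := by gcongr
    have h2 : L * (54 * M) + D * (2 * M * L * Real.log d + 2 * M * L * Real.log B0)
        = M * L * (54 + 2 * D * (Real.log d + Real.log B0)) := by ring
    have h3 : (M:ℝ) * L * (16 * (54 + 2 * D * (Real.log d + Real.log B0))) ≤ M * L * C := by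
      apply mul_le_mul_of_nonneg_left hC (by positivity)
    have h4 : (M:ℝ) * L * C = N := by rw [← hKLN, hKr]; ring
    linarith
  -- term C
  have hCt : ((D:ℝ) + 1) * Real.log N ≤ N / 8 := by
    have hs : Real.sqrt N * Real.sqrt N = N := Real.mul_self_sqrt hNpos.le
    have h1 : (L:ℝ) ≤ Real.sqrt N := Real.le_sqrt_of_sq_le hNge
    have h2 : Real.log N ≤ 2 * Real.sqrt N := by
      have h3 : Real.log N = 2 * Real.log (Real.sqrt N) := by
        rw [Real.log_sqrt hNpos.le]; ring
      have h4 := Real.log_le_sub_one_of_pos (Real.sqrt_pos.mpr hNpos)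
      linarith
    have h5 : ((D:ℝ) + 1) ≤ Real.sqrt N / 16 := by linarith
    have h6 : 0 ≤ Real.log N := Real.log_nonneg (by linarith)
    calc ((D:ℝ) + 1) * Real.log N ≤ (Real.sqrt N / 16) * (2 * Real.sqrt N) :=
          mul_le_mul h5 h2 h6 (by positivity)
      _ = (Real.sqrt N * Real.sqrt N) / 8 := by ring
      _ = N / 8 := by rw [hs]
  have hDlogX : (D:ℝ) * (K * Real.log X) ≤ D * (K * (1 + Real.log X)) := by
    apply mul_le_mul_of_nonneg_left _ hDr
    apply mul_le_mul_of_nonneg_left _ hK0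
    linarith
  nlinarith

end Pool.Agent.H196R3
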