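import Mathlib
import Pool.Agent.H196R3.GCore

/-!
`‖α ^ n - 1‖ ≥ exp (-ε n)` for algebraic `α` on the unit circle which is not a root of unity.
-/

set_option autoImplicit false

namespace Pool.Agent.H196R3

open Finset

/-- asymptotics of the parameters -/
theorem params (D : ℝ) (hD : 0 ≤ D) (C : ℕ) (ε : ℝ) (hε : 0 < ε) :
    ∃ a₁ : ℕ, ∀ a ≥ a₁, 1 ≤ a ∧
      (C + 1) * ⌈16 * (D + 1) * (1 + Real.log (3 * (a : ℝ) ^ 2))⌉₊ ≤ a ∧
      (C : ℝ) * (C + 1) * (⌈16 * (D + 1) * (1 + Real.log (3 * (a : ℝ) ^ 2))⌉₊ : ℝ) ^ 2 ≤ ε * a := by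
  set A : ℝ := 16 * (D + 1) * (1 + Real.log 3) + 1 with hA
  set B : ℝ := 32 * (D + 1) with hB
  have hlog3 : 0 ≤ Real.log 3 := Real.log_nonneg (by norm_num)
  have hA0 : 0 ≤ A := by rw [hA]; positivity
  have hB0 : 0 ≤ B := by rw [hB]; positivity
  -- the ceiling is at most A + B log a
  have hL : ∀ a : ℕ, 1 ≤ a → (⌈16 * (D + 1) * (1 + Real.log (3 * (a : ℝ) ^ 2))⌉₊ : ℝ) ≤
      A + B * Real.log a := by
    intro a ha
    have har : (1:ℝ) ≤ a := by exact_mod_cast ha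
    have hlog : Real.log (3 * (a : ℝ) ^ 2) = Real.log 3 + 2 * Real.log a := by
      rw [Real.log_mul (by norm_num) (by positivity), Real.log_pow]
      norm_num
    have hla : 0 ≤ Real.log a := Real.log_nonneg har
    have h0 : 0 ≤ 16 * (D + 1) * (1 + Real.log (3 * (a : ℝ) ^ 2)) := by
      rw [hlog]
      positivity
    refine (Nat.ceil_lt_add_one h0).le.trans (le_of_eq ?_)
    rw [hlog, hA, hB]
    ring
  have h1 : Filter.Tendsto (fun x : ℝ => Real.log x / x) Filter.atTop (nhds 0) := by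
    have := Real.isLittleO_log_id_atTop.tendsto_div_nhds_zero
    simpa using this
  have h2 : Filter.Tendsto (fun x : ℝ => Real.log x ^ 2 / x) Filter.atTop (nhds 0) := by
    have := (Real.isLittleO_pow_log_id_atTop (n := 2)).tendsto_div_nhds_zero
    simpa using this
  have h3 : Filter.Tendsto (fun x : ℝ => (x⁻¹ : ℝ)) Filter.atTop (nhds 0) := tendsto_inv_atTop_zero
  have h4 : Filter.Tendsto (fun x : ℝ => (C + 1) * (A * x⁻¹ + B * (Real.log x / x))) Filter.atTop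
      (nhds ((C + 1) * (A * 0 + B * 0))) := ((h3.const_mul A).add (h1.const_mul B)).const_mul _
  have h5 : Filter.Tendsto (fun x : ℝ => (C : ℝ) * (C + 1) * (A ^ 2 * x⁻¹ +
      2 * A * B * (Real.log x / x) + B ^ 2 * (Real.log x ^ 2 / x))) Filter.atTop
      (nhds ((C : ℝ) * (C + 1) * (A ^ 2 * 0 + 2 * A * B * 0 + B ^ 2 * 0))) :=
    (((h3.const_mul _).add (h1.const_mul _)).add (h2.const_mul _)).const_mul _
  simp only [mul_zero, add_zero] at h4 h5
  have h6 := (h4.comp tendsto_natCast_atTop_atTop).eventually (gt_mem_nhds (show (0:ℝ) < 1 by norm_num))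
  have h7 := (h5.comp tendsto_natCast_atTop_atTop).eventually (gt_mem_nhds hε)
  obtain ⟨a₁, ha₁⟩ := Filter.eventually_atTop.1 (h6.and (h7.and (Filter.eventually_ge_atTop 1)))
  refine ⟨a₁, fun a ha => ?_⟩
  obtain ⟨h8, h9, h10⟩ := ha₁ a ha
  have har : (1:ℝ) ≤ a := by exact_mod_cast h10
  have ha0 : (0:ℝ) < a := by linarith
  simp only [Function.comp_apply] at h8 h9
  have hLa := hL a h10
  have hla : 0 ≤ Real.log a := Real.log_nonneg har
  refine ⟨h10, ?_, ?_⟩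
  · have : ((C : ℝ) + 1) * (⌈16 * (D + 1) * (1 + Real.log (3 * (a : ℝ) ^ 2))⌉₊ : ℝ) ≤ a := by
      calc ((C : ℝ) + 1) * (⌈16 * (D + 1) * (1 + Real.log (3 * (a : ℝ) ^ 2))⌉₊ : ℝ)
          ≤ ((C : ℝ) + 1) * (A + B * Real.log a) := by gcongr
        _ = ((C + 1) * (A * (a:ℝ)⁻¹ + B * (Real.log a / a))) * a := by
            field_simp
        _ ≤ 1 * a := by gcongr
        _ = a := one_mul _
    exact_mod_cast this
  · calc (C : ℝ) * (C + 1) * (⌈16 * (D + 1) * (1 + Real.log (3 * (a : ℝ) ^ 2))⌉₊ : ℝ) ^ 2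
        ≤ (C : ℝ) * (C + 1) * (A + B * Real.log a) ^ 2 := by gcongr
      _ = ((C : ℝ) * (C + 1) * (A ^ 2 * (a:ℝ)⁻¹ +
      2 * A * B * (Real.log a / a) + B ^ 2 * (Real.log a ^ 2 / a))) * a := by
          field_simp
          ring
      _ ≤ ε * a := by gcongr

theorem gelfond_log (α : ℂ) (halg : IsAlgebraic ℚ α) (ℓ : ℂ) (hℓ : Complex.exp ℓ = α)
    (hα : ∀ i j : ℕ, α ^ i = α ^ j → i = j) (ε : ℝ) (hε : 0 < ε) :
    ∃ a₁ : ℕ, ∀ a ≥ a₁, ∀ b ≤ a, Nat.Coprime a b →
      Real.exp (-(ε * a)) ≤ ‖2 * Real.pi * Complex.I * b - a * ℓ‖ := by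
  classical
  let F := IntermediateField.adjoin ℚ {α}
  haveI : FiniteDimensional ℚ F := IntermediateField.adjoin.finiteDimensional halg.isIntegral
  haveI : NumberField F := { to_charZero := inferInstance, to_finiteDimensional := inferInstance }
  let a0 : F := IntermediateField.AdjoinSimple.gen ℚ α
  let φ : F →ₐ[ℚ] ℂ := F.val
  have hφ : φ a0 = Complex.exp ℓ := by
    rw [hℓ]
    exact IntermediateField.AdjoinSimple.coe_gen ℚ α
  have ha0alg : IsAlgebraic ℤ a0 := by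
    have h1 : IsAlgebraic ℚ a0 := Algebra.IsAlgebraic.isAlgebraic a0
    exact (IsFractionRing.isAlgebraic_iff ℤ ℚ F).2 h1
  obtain ⟨y, hy0, hy⟩ := ha0alg.exists_integral_multiple
  obtain ⟨d, hd, hint⟩ : ∃ d : ℕ, 0 < d ∧ IsIntegral ℤ ((d : F) * a0) := by
    refine ⟨y.natAbs, Int.natAbs_pos.2 hy0, ?_⟩
    rcases Int.natAbs_eq y with h | h
    · have e : ((y.natAbs : ℕ) : F) * a0 = y • a0 := by
        rw [zsmul_eq_mul]
        congr 1
        rw [← Int.cast_natCast, ← h]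
      rw [e]
      exact hy
    · have e : ((y.natAbs : ℕ) : F) * a0 = -(y • a0) := by
        rw [zsmul_eq_mul, ← neg_mul]
        congr 1
        rw [← Int.cast_natCast, ← Int.cast_neg]
        congr 1
        omega
      rw [e]
      exact hy.neg
  set B0 : ℝ := 1 + ∑ σ : F →ₐ[ℚ] ℂ, ‖σ a0‖ with hB0
  have hB1 : 1 ≤ B0 := by
    rw [hB0]
    have : 0 ≤ ∑ σ : F →ₐ[ℚ] ℂ, ‖σ a0‖ := sum_nonneg (fun _ _ => norm_nonneg _)
    linarith
  have hB : ∀ σ : F →ₐ[ℚ] ℂ, ‖σ a0‖ ≤ B0 := by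
    intro σ
    have := single_le_sum (f := fun σ : F →ₐ[ℚ] ℂ => ‖σ a0‖) (fun _ _ => norm_nonneg _) (mem_univ σ)
    linarith
  set D := Module.finrank ℚ F with hD
  obtain ⟨C, hC⟩ := exists_nat_ge (max 1 (16 * (54 + 2 * (D:ℝ) * (Real.log d + Real.log B0))))
  have hC1 : 1 ≤ C := by exact_mod_cast (le_max_left _ _).trans hC
  obtain ⟨a₁, ha₁⟩ := params D (by positivity) C ε hε
  refine ⟨a₁, fun a ha b hb hab => ?_⟩
  obtain ⟨h1, h2, h3⟩ := ha₁ a ha
  have := core φ a0 ℓ hφ d hd hint B0 hB1 hB (by rw [hℓ]; exact hα) D rfl a b _ C h1 hb hab hC1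
    ((le_max_right _ _).trans hC) h2 (Nat.le_ceil _)
  refine le_trans ?_ this.le
  apply Real.exp_le_exp.2
  linarith

theorem gelfond_aux (α : ℂ) (halg : IsAlgebraic ℚ α) (hnorm : ‖α‖ = 1)
    (hroot : ∀ n : ℕ, 1 ≤ n → α ^ n ≠ 1) (ε : ℝ) (hε : 0 < ε) :
    ∃ n₀ : ℕ, ∀ n ≥ n₀, Real.exp (-(ε * n)) / 2 ≤ ‖α ^ n - 1‖ := by
  classical
  have hα0 : α ≠ 0 := by
    intro h
    rw [h] at hnorm
    simp at hnorm
  have hαinj : ∀ i j : ℕ, α ^ i = α ^ j → i = j := by
    have key : ∀ i j : ℕ, i < j → α ^ i ≠ α ^ j := by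
      intro i j hij h
      apply hroot (j - i) (by omega)
      have h1 : α ^ j = α ^ i * α ^ (j - i) := by rw [← pow_add]; congr 1; omega
      rw [h1] at h
      have h2 : α ^ i * 1 = α ^ i * α ^ (j - i) := by rw [mul_one]; exact h
      exact (mul_left_cancel₀ (pow_ne_zero _ hα0) h2).symm
    intro i j h
    rcases lt_trichotomy i j with h1 | h1 | h1
    · exact absurd h (key i j h1)
    · exact h1
    · exact absurd h.symm (key j i h1)
  -- the angle in `(0, 1)`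
  obtain ⟨θ, hθ0, hθ1, hθ⟩ : ∃ θ : ℝ, 0 < θ ∧ θ < 1 ∧
      Complex.exp (((2 * Real.pi * θ : ℝ) : ℂ) * Complex.I) = α := by
    have h1 := Complex.norm_mul_exp_arg_mul_I α
    rw [hnorm, Complex.ofReal_one, one_mul] at h1
    have hpi := Real.pi_pos
    have harg0 : α.arg ≠ 0 := by
      intro h0
      rw [h0] at h1
      simp at h1
      exact hroot 1 le_rfl (by rw [← h1]; simp)
    by_cases hpos : 0 < α.arg
    · refine ⟨α.arg / (2 * Real.pi), by positivity, ?_, ?_⟩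
      · rw [div_lt_one (by positivity)]
        have := Complex.arg_le_pi α
        linarith
      · rw [mul_div_cancel₀ _ (by positivity)]
        exact h1
    · have hneg : α.arg < 0 := lt_of_le_of_ne (not_lt.1 hpos) harg0
      refine ⟨α.arg / (2 * Real.pi) + 1, ?_, ?_, ?_⟩
      · have := Complex.neg_pi_lt_arg α
        have h2 : -(1/2) < α.arg / (2 * Real.pi) := by
          rw [lt_div_iff₀ (by positivity)]
          linarith
        linarith
      · have h2 : α.arg / (2 * Real.pi) < 0 := div_neg_of_neg_of_pos hneg (by positivity)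
        linarith
      · have e : (2 * Real.pi * (α.arg / (2 * Real.pi) + 1) : ℝ) = α.arg + 2 * Real.pi := by
          field_simp
        rw [e]
        push_cast
        rw [add_mul, Complex.exp_add, Complex.exp_two_pi_mul_I, mul_one]
        exact h1
  set ℓ : ℂ := ((2 * Real.pi * θ : ℝ) : ℂ) * Complex.I with hℓ
  obtain ⟨a₁, ha₁⟩ := gelfond_log α halg ℓ hθ hαinj ε hε
  -- the small denominators
  have hne : ∀ a b : ℕ, 1 ≤ a → 0 < ‖2 * Real.pi * Complex.I * b - a * ℓ‖ := by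
    intro a b ha
    rw [norm_pos_iff]
    intro h0
    apply hroot a ha
    rw [← hθ, ← Complex.exp_nat_mul]
    have : (a : ℂ) * ℓ = b * (2 * Real.pi * Complex.I) := by
      linear_combination -h0
    rw [this, Complex.exp_nat_mul, Complex.exp_two_pi_mul_I, one_pow]
  obtain ⟨δ, hδ0, hδ⟩ : ∃ δ : ℝ, 0 < δ ∧ ∀ a b : ℕ, 1 ≤ a → a ≤ a₁ → b ≤ a →
      δ ≤ ‖2 * Real.pi * Complex.I * b - a * ℓ‖ := by
    set S := (Icc 1 (a₁ + 1)) ×ˢ (Icc 0 (a₁ + 1)) with hS
    have hSne : S.Nonempty := ⟨(1, 0), by simp [hS]⟩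
    obtain ⟨x, hx, hmin⟩ := S.exists_min_image
      (fun x : ℕ × ℕ => ‖2 * Real.pi * Complex.I * (x.2 : ℂ) - x.1 * ℓ‖) hSne
    refine ⟨_, hne x.1 x.2 ?_, fun a b ha ha' hb => hmin (a, b) ?_⟩
    · simp only [hS, mem_product, mem_Icc] at hx
      exact hx.1.1
    · simp only [hS, mem_product, mem_Icc]
      omega
  obtain ⟨n₁, hn₁⟩ := exists_nat_ge ((-Real.log δ) / ε)
  -- combine
  have hcomb : ∀ n : ℕ, n₁ ≤ n → 1 ≤ n → ∀ m : ℕ, m ≤ n →
      Real.exp (-(ε * n)) ≤ ‖2 * Real.pi * Complex.I * m - n * ℓ‖ := by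
    intro n hn hn1 m hm
    obtain ⟨g, a, b, hg, hco, hna, hmb⟩ : ∃ g a b : ℕ, 1 ≤ g ∧ Nat.Coprime a b ∧ n = g * a ∧
        m = g * b := by
      refine ⟨Nat.gcd n m, n / Nat.gcd n m, m / Nat.gcd n m, ?_, ?_, ?_, ?_⟩
      · exact Nat.gcd_pos_of_pos_left _ hn1
      · exact Nat.coprime_div_gcd_div_gcd (Nat.gcd_pos_of_pos_left _ hn1)
      · exact (Nat.mul_div_cancel' (Nat.gcd_dvd_left n m)).symm
      · exact (Nat.mul_div_cancel' (Nat.gcd_dvd_right n m)).symm
    have ha1 : 1 ≤ a := by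
      rcases Nat.eq_zero_or_pos a with h | h
      · rw [h] at hna
        simp at hna
        omega
      · exact h
    have hba : b ≤ a := by
      rw [hna, hmb] at hm
      exact Nat.le_of_mul_le_mul_left hm hg
    have hgr : (1:ℝ) ≤ g := by exact_mod_cast hg
    have hnorm2 : ‖2 * Real.pi * Complex.I * b - a * ℓ‖ ≤ ‖2 * Real.pi * Complex.I * m - n * ℓ‖ := by
      have e : (2 * Real.pi * Complex.I * m - n * ℓ : ℂ) =
          g * (2 * Real.pi * Complex.I * b - a * ℓ) := by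
        rw [hna, hmb]
        push_cast
        ring
      rw [e, norm_mul, Complex.norm_natCast]
      exact le_mul_of_one_le_left (norm_nonneg _) hgr
    refine le_trans ?_ hnorm2
    by_cases hab : a₁ ≤ a
    · refine le_trans ?_ (ha₁ a hab b hba hco)
      apply Real.exp_le_exp.2
      have : (a:ℝ) ≤ n := by
        rw [hna]
        push_cast
        exact le_mul_of_one_le_left (by positivity) hgr
      nlinarith
    · refine le_trans ?_ (hδ a b ha1 (by omega) hba)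
      rw [← Real.le_log_iff_exp_le hδ0]
      have h1 : -Real.log δ ≤ ε * n := by
        rw [div_le_iff₀ hε] at hn₁
        have : (n₁ : ℝ) ≤ n := by exact_mod_cast hn
        nlinarith
      linarith
  -- the conclusion, with slightly smaller ε
  refine ⟨max n₁ 1, fun n hn => ?_⟩
  have hn1 : 1 ≤ n := (le_max_right _ _).trans hn
  have hnn1 : n₁ ≤ n := (le_max_left _ _).trans hn
  have hnr : (1:ℝ) ≤ n := by exact_mod_cast hn1
  -- m = round (n θ)
  set m : ℤ := round (n * θ) with hm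
  have hm0 : 0 ≤ m := by
    rw [hm, round_eq]
    apply Int.floor_nonneg.2
    positivity
  have hmn : m ≤ n := by
    rw [hm, round_eq]
    have : (⌊(n:ℝ) * θ + 1/2⌋ : ℤ) < (n : ℤ) + 1 := by
      rw [Int.floor_lt]
      push_cast
      nlinarith
    omega
  obtain ⟨k, hk⟩ := Int.eq_ofNat_of_zero_le hm0
  have hkn : k ≤ n := by omega
  have hround : |(n:ℝ) * θ - k| ≤ 1 / 2 := by
    have := abs_sub_round ((n:ℝ) * θ)
    rw [← hm, hk] at this
    simpa using this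
  have h1 := hcomb n hnn1 hn1 k hkn
  have e1 : (2 * Real.pi * Complex.I * k - n * ℓ : ℂ) =
      ((2 * Real.pi * (k - n * θ) : ℝ) : ℂ) * Complex.I := by
    rw [hℓ]
    push_cast
    ring
  rw [e1, norm_mul, Complex.norm_I, mul_one, Complex.norm_real, Real.norm_eq_abs] at h1
  have e2 : α ^ n = Complex.exp (Complex.I * ((2 * Real.pi * (n * θ - k) : ℝ) : ℂ)) := by
    rw [← hθ, ← Complex.exp_nat_mul]
    have : (Complex.I * ((2 * Real.pi * (n * θ - k) : ℝ) : ℂ)) =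
        n * (((2 * Real.pi * θ : ℝ) : ℂ) * Complex.I) - k * (2 * Real.pi * Complex.I) := by
      push_cast
      ring
    rw [this, Complex.exp_sub, Complex.exp_nat_mul (2 * Real.pi * Complex.I) k,
      Complex.exp_two_pi_mul_I, one_pow, div_one]
  rw [e2, Complex.norm_exp_I_mul_ofReal_sub_one, Real.norm_eq_abs, abs_mul, abs_two]
  have e3 : (2 * Real.pi * (n * θ - k) : ℝ) / 2 = Real.pi * (n * θ - k) := by ring
  rw [e3]
  have e4 : |Real.sin (Real.pi * (n * θ - k))| = |Real.sin (Real.pi * |n * θ - k|)| := by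
    rcases abs_cases ((n:ℝ) * θ - k) with ⟨h, _⟩ | ⟨h, _⟩
    · rw [h]
    · rw [h, mul_neg, Real.sin_neg, abs_neg]
  rw [e4]
  have h2 := Real.mul_le_sin (x := Real.pi * |n * θ - k|) (by positivity) (by
    have := Real.pi_pos
    nlinarith)
  have h3 : 2 / Real.pi * (Real.pi * |(n:ℝ) * θ - k|) = 2 * |(n:ℝ) * θ - k| := by
    field_simp
  rw [h3] at h2
  have e5 : |2 * Real.pi * ((k:ℝ) - n * θ)| = 2 * Real.pi * |(n:ℝ) * θ - k| := by
    rw [abs_mul, abs_of_pos (by positivity), abs_sub_comm]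
  rw [e5] at h1
  have hpi4 : Real.pi ≤ 4 := Real.pi_le_four
  have h5 : 2 * Real.pi * |(n:ℝ) * θ - k| ≤ 8 * |(n:ℝ) * θ - k| := by
    apply mul_le_mul_of_nonneg_right _ (abs_nonneg _)
    linarith
  have h6 := le_abs_self (Real.sin (Real.pi * |(n:ℝ) * θ - k|))
  linarith

/-- **Gelfond**: an algebraic number on the unit circle which is not a root of unity satisfies
`‖α ^ n - 1‖ ≥ exp (-ε n)` for all large `n`. -/
theorem gelfond (α : ℂ) (halg : IsAlgebraic ℚ α) (hnorm : ‖α‖ = 1)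
    (hroot : ∀ n : ℕ, 1 ≤ n → α ^ n ≠ 1) (ε : ℝ) (hε : 0 < ε) :
    ∃ n₀ : ℕ, ∀ n ≥ n₀, Real.exp (-(ε * n)) ≤ ‖α ^ n - 1‖ := by
  obtain ⟨n₀, h⟩ := gelfond_aux α halg hnorm hroot (ε / 2) (by positivity)
  obtain ⟨n₁, hn₁⟩ := exists_nat_ge (2 / ε)
  refine ⟨max n₀ n₁, fun n hn => ?_⟩
  refine le_trans ?_ (h n ((le_max_left _ _).trans hn))
  have h1 : (n₁ : ℝ) ≤ n := by exact_mod_cast (le_max_right _ _).trans hn
  have h2 : 2 ≤ ε * n := by
    rw [div_le_iff₀ hε] at hn₁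
    nlinarith
  have h3 : Real.exp (-(ε * n)) = Real.exp (-(ε / 2 * n)) * Real.exp (-(ε / 2 * n)) := by
    rw [← Real.exp_add]
    ring_nf
  have h4 : Real.exp (-(ε / 2 * n)) ≤ 1 / 2 := by
    have e1 : Real.exp (-(ε / 2 * n)) ≤ Real.exp (-1) := Real.exp_le_exp.2 (by nlinarith)
    have e2 : Real.exp (-1) ≤ 1 / 2 := by
      rw [Real.exp_neg]
      have := Real.add_one_le_exp (1:ℝ)
      rw [inv_eq_one_div]
      apply one_div_le_one_div_of_le (by norm_num)
      linarith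
    linarith
  rw [h3]
  have h5 : 0 < Real.exp (-(ε / 2 * n)) := Real.exp_pos _
  nlinarith

end Pool.Agent.H196R3
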