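import Mathlib
import Pool.Agent.H196R3.Basic

/-! Logarithmic derivatives and a Taylor estimate for small rotations. -/

set_option autoImplicit false

namespace Pool.Agent.H196R3

open Polynomial Finset

/-- weight of a monomial -/
def wt {M : ℕ} (i : Fin M) (s t : ℤ) (p : Σ _ : ℕ, (Fin M →₀ ℕ)) : ℤ :=
  s * (p.2 i : ℤ) + t * (p.1 : ℤ)

/-- the logarithmic derivative of `F` in direction `s e_i + t e_y` -/
noncomputable def LD {M : ℕ} (F : Polynomial (A M)) (i : Fin M) (s t : ℤ) : Polynomial (A M) :=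
  ∑ p ∈ mons F, monomial p.1 (MvPolynomial.monomial p.2 (wt i s t p * cf F p))

theorem val_LD {M : ℕ} (F : Polynomial (A M)) (i : Fin M) (s t : ℤ) (z : Fin M → ℂ) (w : ℂ) :
    val z w (LD F i s t) = ∑ p ∈ mons F, (wt i s t p : ℂ) * ((cf F p : ℂ) * mv z w p) := by
  rw [LD, map_sum]
  apply sum_congr rfl
  intro p _
  rw [val_monomial]
  push_cast
  ring

theorem val_LD_add {M : ℕ} (F : Polynomial (A M)) (i : Fin M) (s t : ℤ) (z : Fin M → ℂ) (w : ℂ) :
    val z w (LD F i s t) = s * val z w (LD F i 1 0) + t * val z w (LD F i 0 1) := by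
  rw [val_LD, val_LD, val_LD, mul_sum, mul_sum, ← sum_add_distrib]
  apply sum_congr rfl
  intro p _
  simp only [wt]
  push_cast
  ring

theorem coeff_LD {M : ℕ} (F : Polynomial (A M)) (i : Fin M) (s t : ℤ) (j : ℕ) (m : Fin M →₀ ℕ) :
    ((LD F i s t).coeff j).coeff m = wt i s t ⟨j, m⟩ * cf F ⟨j, m⟩ := by
  classical
  rw [LD, finsetSum_coeff, MvPolynomial.coeff_sum]
  have h1 : ∀ p ∈ mons F, MvPolynomial.coeff m ((monomial p.1
      (MvPolynomial.monomial p.2 (wt i s t p * cf F p)) : Polynomial (A M)).coeff j) =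
      if p = ⟨j, m⟩ then wt i s t p * cf F p else 0 := by
    rintro ⟨a, b⟩ _
    rw [coeff_monomial]
    by_cases hab : a = j
    · subst hab
      rw [if_pos rfl, MvPolynomial.coeff_monomial]
      by_cases hb : b = m
      · subst hb
        simp
      · rw [if_neg hb, if_neg]
        intro h
        apply hb
        simpa using h
    · rw [if_neg hab, if_neg]
      · simp
      · intro h
        apply hab
        have := congrArg Sigma.fst h
        simpa using this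
  rw [sum_congr rfl h1, sum_ite_eq']
  split_ifs with h
  · rfl
  · rw [mem_mons, not_not] at h
    rw [h, mul_zero]

theorem not_dvd_LD {M : ℕ} (F : Polynomial (A M)) (hF : F ≠ 0) (i : Fin M) (s t : ℤ)
    (h : ∀ l : ℤ, ∃ p ∈ mons F, wt i s t p ≠ l) : ¬ F ∣ LD F i s t := by
  rintro ⟨H, hH⟩
  by_cases h0 : LD F i s t = 0
  · obtain ⟨p, hp, hp2⟩ := h 0
    have := coeff_LD F i s t p.1 p.2
    rw [h0] at this
    simp only [coeff_zero, MvPolynomial.coeff_zero] at this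
    rcases mul_eq_zero.1 this.symm with h1 | h1
    · exact hp2 h1
    · exact (mem_mons.1 hp) h1
  have hH0 : H ≠ 0 := by
    rintro rfl
    rw [mul_zero] at hH
    exact h0 hH
  have hdeg : (LD F i s t).natDegree ≤ F.natDegree := by
    rw [natDegree_le_iff_coeff_eq_zero]
    intro N hN
    ext m
    rw [coeff_LD, MvPolynomial.coeff_zero]
    have : cf F ⟨N, m⟩ = 0 := by
      simp only [cf]
      rw [coeff_eq_zero_of_natDegree_lt hN, MvPolynomial.coeff_zero]
    rw [this, mul_zero]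
  have hd : H.natDegree = 0 := by
    rw [hH, natDegree_mul hF hH0] at hdeg
    omega
  obtain ⟨r, hr⟩ := natDegree_eq_zero.1 hd
  have hr0 : r ≠ 0 := by
    rintro rfl
    apply hH0
    rw [← hr, C_0]
  have hcoef : ∀ j, (LD F i s t).coeff j = F.coeff j * r := by
    intro j
    rw [hH, ← hr, coeff_mul_C]
  have hlc : F.leadingCoeff ≠ 0 := leadingCoeff_ne_zero.2 hF
  have htot : r.totalDegree = 0 := by
    have h1 := hcoef F.natDegree
    have h2 : ((LD F i s t).coeff F.natDegree).totalDegree ≤ (F.coeff F.natDegree).totalDegree := by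
      unfold MvPolynomial.totalDegree
      apply sup_mono
      intro m hm
      rw [MvPolynomial.mem_support_iff] at hm ⊢
      rw [coeff_LD] at hm
      intro h3
      apply hm
      have : cf F ⟨F.natDegree, m⟩ = 0 := h3
      rw [this, mul_zero]
    rw [h1, coeff_natDegree, MvPolynomial.totalDegree_mul_of_isDomain hlc hr0] at h2
    omega
  rw [MvPolynomial.totalDegree_eq_zero_iff_eq_C] at htot
  obtain ⟨p, hp, hp2⟩ := h (r.coeff 0)
  apply hp2
  have h1 : MvPolynomial.coeff p.2 ((LD F i s t).coeff p.1) =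
      MvPolynomial.coeff p.2 (F.coeff p.1 * r) := by rw [hcoef p.1]
  rw [coeff_LD, htot, mul_comm (F.coeff p.1), MvPolynomial.coeff_C_mul] at h1
  have h2 : cf F p ≠ 0 := mem_mons.1 hp
  have h3 : MvPolynomial.coeff p.2 (F.coeff p.1) = cf F p := rfl
  rw [h3] at h1
  exact mul_right_cancel₀ h2 h1

/-- rotation -/
noncomputable def rot (x : ℝ) : ℂ := Complex.exp (Complex.I * ((2 * Real.pi * x : ℝ) : ℂ))

theorem norm_rot (x : ℝ) : ‖rot x‖ = 1 := by
  rw [rot, mul_comm]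
  exact Complex.norm_exp_ofReal_mul_I _

theorem rot_add (x y : ℝ) : rot (x + y) = rot x * rot y := by
  rw [rot, rot, rot, ← Complex.exp_add]
  congr 1
  push_cast
  ring

theorem rot_nat_mul (x : ℝ) (k : ℕ) : rot (k * x) = rot x ^ k := by
  rw [rot, rot, ← Complex.exp_nat_mul]
  congr 1
  push_cast
  ring

theorem rot_taylor (x : ℝ) : ‖rot x - 1 - 2 * Real.pi * Complex.I * x‖ ≤ 3 * (2 * Real.pi * x) ^ 2 := by
  set y : ℝ := 2 * Real.pi * x with hy
  have e1 : (2 * Real.pi * Complex.I * x : ℂ) = Complex.I * (y : ℂ) := by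
    rw [hy]
    push_cast
    ring
  rw [e1, rot, ← hy]
  have hn : ‖Complex.I * (y : ℂ)‖ = |y| := by simp
  by_cases h : |y| ≤ 1
  · have := Complex.norm_exp_sub_one_sub_id_le (x := Complex.I * (y : ℂ)) (by rw [hn]; exact h)
    rw [hn, sq_abs] at this
    have h2 : 0 ≤ y ^ 2 := sq_nonneg y
    linarith
  · push Not at h
    have h1 : ‖Complex.exp (Complex.I * (y : ℂ))‖ = 1 := by
      rw [mul_comm]
      exact Complex.norm_exp_ofReal_mul_I _
    have h2 : ‖Complex.exp (Complex.I * (y : ℂ)) - 1 - Complex.I * (y : ℂ)‖ ≤ 1 + 1 + |y| := by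
      refine (norm_sub_le _ _).trans ?_
      rw [hn]
      have := norm_sub_le (Complex.exp (Complex.I * (y : ℂ))) 1
      rw [h1, norm_one] at this
      linarith
    have h3 : |y| ≤ y ^ 2 := by
      rw [← sq_abs]
      nlinarith
    linarith

theorem mv_rot {M : ℕ} (z : Fin M → ℂ) (w : ℂ) (i : Fin M) (x y : ℝ)
    (p : Σ _ : ℕ, (Fin M →₀ ℕ)) :
    mv (Function.update z i (z i * rot x)) (w * rot y) p =
      mv z w p * rot ((p.2 i : ℝ) * x + (p.1 : ℝ) * y) := by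
  unfold mv
  have h1 : ∏ k, Function.update z i (z i * rot x) k ^ p.2 k = (∏ k, z k ^ p.2 k) * rot x ^ p.2 i := by
    rw [← mul_prod_erase univ _ (mem_univ i), ← mul_prod_erase univ (fun k => z k ^ p.2 k) (mem_univ i)]
    rw [Function.update_self, mul_pow]
    have : ∏ k ∈ univ.erase i, Function.update z i (z i * rot x) k ^ p.2 k =
        ∏ k ∈ univ.erase i, z k ^ p.2 k := by
      apply prod_congr rfl
      intro k hk
      rw [Function.update_of_ne (ne_of_mem_erase hk)]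
    rw [this]
    ring
  rw [h1, rot_add, rot_nat_mul, rot_nat_mul]
  ring

theorem taylor {M : ℕ} (F : Polynomial (A M)) (i : Fin M) : ∃ C : ℝ, 0 ≤ C ∧
    ∀ (z : Fin M → ℂ) (w : ℂ), OnT z → ‖w‖ = 1 → ∀ (s t : ℤ) (n : ℕ), 0 < n →
    ‖val (Function.update z i (z i * rot (s / n))) (w * rot (t / n)) F - val z w F -
      (2 * Real.pi * Complex.I / n) * val z w (LD F i s t)‖ ≤
      C * ((|(s:ℝ)| + |(t:ℝ)|) / n) ^ 2 := by
  classical
  set E : ℕ := ∑ p ∈ mons F, (p.2 i + p.1) with hE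
  refine ⟨∑ p ∈ mons F, |(cf F p : ℝ)| * (3 * (2 * Real.pi * E) ^ 2),
    sum_nonneg (fun _ _ => by positivity), ?_⟩
  intro z w hz hw s t n hn
  have hnr : (0:ℝ) < n := by exact_mod_cast hn
  have hnc : (n:ℂ) ≠ 0 := by exact_mod_cast hn.ne'
  have e1 : val (Function.update z i (z i * rot (s / n))) (w * rot (t / n)) F - val z w F -
      (2 * Real.pi * Complex.I / n) * val z w (LD F i s t) =
      ∑ p ∈ mons F, (cf F p : ℂ) * mv z w p *
        (rot ((wt i s t p : ℝ) / n) - 1 - 2 * Real.pi * Complex.I * (((wt i s t p : ℝ) / n : ℝ) : ℂ)) := by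
    rw [val_eq_sum, val_eq_sum, val_LD, mul_sum, ← sum_sub_distrib, ← sum_sub_distrib]
    apply sum_congr rfl
    intro p _
    rw [mv_rot]
    have e2 : (p.2 i : ℝ) * (s / n) + (p.1 : ℝ) * (t / n) = (wt i s t p : ℝ) / n := by
      simp only [wt]
      push_cast
      field_simp
    rw [e2]
    push_cast
    ring
  rw [e1, sum_mul]
  refine (norm_sum_le _ _).trans (sum_le_sum ?_)
  intro p hp
  rw [norm_mul, norm_mul, norm_mv hz hw, mul_one, Complex.norm_intCast,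
    mul_assoc |(cf F p : ℝ)|]
  apply mul_le_mul_of_nonneg_left _ (abs_nonneg _)
  refine (rot_taylor _).trans ?_
  have h1 : |(wt i s t p : ℝ)| ≤ E * (|(s:ℝ)| + |(t:ℝ)|) := by
    simp only [wt]
    push_cast
    have h2 : (p.2 i + p.1 : ℕ) ≤ E :=
      single_le_sum (f := fun p : Σ _ : ℕ, (Fin M →₀ ℕ) => (p.2 i + p.1 : ℕ))
        (fun _ _ => Nat.zero_le _) hp
    have h3 : ((p.2 i : ℝ) + (p.1 : ℝ)) ≤ E := by exact_mod_cast h2
    have h4 : |(s:ℝ) * (p.2 i : ℝ) + t * (p.1 : ℝ)| ≤ |(s:ℝ)| * (p.2 i : ℝ) + |(t:ℝ)| * (p.1 : ℝ) := by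
      refine (abs_add_le _ _).trans ?_
      rw [abs_mul, abs_mul, Nat.abs_cast, Nat.abs_cast]
    refine h4.trans ?_
    have h5 : (0:ℝ) ≤ p.2 i := by positivity
    have h6 : (0:ℝ) ≤ p.1 := by positivity
    nlinarith [abs_nonneg (s:ℝ), abs_nonneg (t:ℝ)]
  have h7 : (2 * Real.pi * ((wt i s t p : ℝ) / n)) ^ 2 ≤
      (2 * Real.pi * E) ^ 2 * ((|(s:ℝ)| + |(t:ℝ)|) / n) ^ 2 := by
    have e3 : (2 * Real.pi * ((wt i s t p : ℝ) / n)) ^ 2 =
        (2 * Real.pi) ^ 2 * (|(wt i s t p : ℝ)| ^ 2 / n ^ 2) := by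
      rw [sq_abs]
      ring
    have e4 : (2 * Real.pi * E) ^ 2 * ((|(s:ℝ)| + |(t:ℝ)|) / n) ^ 2 =
        (2 * Real.pi) ^ 2 * ((E * (|(s:ℝ)| + |(t:ℝ)|)) ^ 2 / n ^ 2) := by ring
    rw [e3, e4]
    gcongr
  linarith

theorem small_LD {M : ℕ} (F : Polynomial (A M)) (i : Fin M) : ∃ C : ℝ, 0 ≤ C ∧
    ∀ (z : Fin M → ℂ) (w : ℂ), OnT z → ‖w‖ = 1 → ∀ (s t : ℤ) (n : ℕ), 0 < n → ∀ τ : ℝ,
    ‖val z w F‖ < τ → ‖val (Function.update z i (z i * rot (s / n))) (w * rot (t / n)) F‖ < τ →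
    ‖val z w (LD F i s t)‖ ≤ n * τ + C * (|(s:ℝ)| + |(t:ℝ)|) ^ 2 / n := by
  obtain ⟨C, hC0, hC⟩ := taylor F i
  refine ⟨C, hC0, ?_⟩
  intro z w hz hw s t n hn τ h1 h2
  have hnr : (0:ℝ) < n := by exact_mod_cast hn
  have h3 := hC z w hz hw s t n hn
  set v' := val (Function.update z i (z i * rot (s / n))) (w * rot (t / n)) F with hv'
  set v := val z w F with hv
  set g := val z w (LD F i s t) with hg
  have h4 : ‖(2 * Real.pi * Complex.I / n : ℂ) * g‖ ≤ 2 * τ + C * ((|(s:ℝ)| + |(t:ℝ)|) / n) ^ 2 := by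
    have e : (2 * Real.pi * Complex.I / n : ℂ) * g =
        (v' - v) - (v' - v - (2 * Real.pi * Complex.I / n : ℂ) * g) := by ring
    rw [e]
    refine (norm_sub_le _ _).trans ?_
    have := norm_sub_le v' v
    linarith
  have h5 : ‖(2 * Real.pi * Complex.I / n : ℂ)‖ = 2 * Real.pi / n := by
    simp [abs_of_pos Real.pi_pos]
  rw [norm_mul, h5] at h4
  have hpi : 2 ≤ 2 * Real.pi := by
    have := Real.pi_gt_three
    linarith
  have h6 : 2 / n * ‖g‖ ≤ 2 * Real.pi / n * ‖g‖ := by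
    apply mul_le_mul_of_nonneg_right _ (norm_nonneg _)
    exact div_le_div_of_nonneg_right hpi hnr.le
  have h7 : 2 / n * ‖g‖ ≤ 2 * τ + C * ((|(s:ℝ)| + |(t:ℝ)|) / n) ^ 2 := h6.trans h4
  have h8 : 2 * ‖g‖ ≤ 2 * (n * τ) + C * (|(s:ℝ)| + |(t:ℝ)|) ^ 2 / n := by
    have e : 2 * ‖g‖ = n * (2 / n * ‖g‖) := by field_simp
    have e2 : 2 * (n * τ) + C * (|(s:ℝ)| + |(t:ℝ)|) ^ 2 / n =
        n * (2 * τ + C * ((|(s:ℝ)| + |(t:ℝ)|) / n) ^ 2) := by
      field_simp
    rw [e, e2]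
    exact mul_le_mul_of_nonneg_left h7 hnr.le
  have h9 : 0 ≤ C * (|(s:ℝ)| + |(t:ℝ)|) ^ 2 / n := by positivity
  linarith

end Pool.Agent.H196R3
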