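import Mathlib
import Pool.Agent.H196R3.Taylor
import Pool.Agent.H196R3.GFinal

/-! Lower bounds of the shape `exp (-ε n)` for the values at torsion points, in the one variable
case and in the case of a polynomial whose exponents lie on a line. -/

set_option autoImplicit false

namespace Pool.Agent.H196R3

open Polynomial Finset

theorem exp_small (c ε : ℝ) (hc : 0 < c) (hε : 0 < ε) :
    ∃ n₀ : ℕ, ∀ n ≥ n₀, 0 < n → Real.exp (-(ε * n)) ≤ c / n := by
  obtain ⟨n₀, hn₀⟩ := exists_nat_ge (2 / (c * ε ^ 2))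
  refine ⟨n₀, fun n hn hn0 => ?_⟩
  have hnr : (0:ℝ) < n := by exact_mod_cast hn0
  have h1 : 2 / (c * ε ^ 2) ≤ n := hn₀.trans (by exact_mod_cast hn)
  have h2 : (ε * n) ^ 2 / 2 ≤ Real.exp (ε * n) := by
    have := Real.quadratic_le_exp_of_nonneg (x := ε * n) (by positivity)
    have h3 : 0 ≤ ε * n := by positivity
    linarith
  rw [div_le_iff₀ (by positivity)] at h1
  rw [Real.exp_neg, inv_le_comm₀ (Real.exp_pos _) (by positivity)]
  refine le_trans ?_ h2
  rw [inv_div, div_le_iff₀ hc]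
  have h4 : (ε * n) ^ 2 / 2 * c = (n * (c * ε ^ 2)) * n / 2 := by ring
  rw [h4]
  have h5 : 2 * (n:ℝ) ≤ n * (c * ε ^ 2) * n := mul_le_mul_of_nonneg_right h1 hnr.le
  linarith

/-- distance from a root of unity to another root of unity -/
theorem dist_RU {N : ℕ} (hN : 0 < N) {u v : ℂ} (hu : u ∈ U N) (hv : v ∈ U N) (huv : u ≠ v) :
    4 / (N:ℝ) ≤ ‖u - v‖ := by
  have hv1 := norm_of_mem_U hN hv
  have hv0 : v ≠ 0 := by
    intro h
    rw [h] at hv1
    simp at hv1
  have h1 : u / v ∈ U N := by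
    rw [mem_U hN] at hu hv ⊢
    rw [div_pow, hu, hv, div_one]
  obtain ⟨j, hj, hj2⟩ := exists_int_of_mem_U hN h1
  have h2 := norm_exp_sub_one_ge hN j hj2
  rw [← hj] at h2
  have h3 : ‖u - v‖ = ‖u / v - 1‖ := by
    have : u - v = (u / v - 1) * v := by field_simp
    rw [this, norm_mul, hv1, mul_one]
  rw [h3]
  refine le_trans ?_ h2
  have hj0 : j ≠ 0 := by
    intro h0
    rw [h0] at hj
    simp at hj
    apply huv
    rwa [div_eq_one_iff_eq hv0] at hj
  have h4 : (1:ℝ) ≤ |(j:ℝ)| := by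
    have : (1:ℤ) ≤ |j| := Int.one_le_abs hj0
    exact_mod_cast this
  have hNr : (0:ℝ) < N := by exact_mod_cast hN
  rw [div_le_div_iff_of_pos_right hNr]
  linarith

theorem root_bound (ρ : ℂ) (halg : IsAlgebraic ℚ ρ) (ε : ℝ) (hε : 0 < ε) :
    ∃ n₀ : ℕ, ∀ n ≥ n₀, 0 < n → ∀ τ ∈ U n, τ ≠ ρ → Real.exp (-(ε * n)) ≤ ‖τ - ρ‖ := by
  by_cases hnorm : ‖ρ‖ = 1
  · by_cases hroot : ∀ m : ℕ, 1 ≤ m → ρ ^ m ≠ 1
    · obtain ⟨n₁, h1⟩ := gelfond ρ halg hnorm hroot (ε / 2) (by positivity)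
      obtain ⟨n₂, h2⟩ := exp_small 1 (ε / 2) one_pos (by positivity)
      refine ⟨max n₁ n₂, fun n hn hn0 τ hτ _ => ?_⟩
      have h3 := h1 n ((le_max_left _ _).trans hn)
      have h4 := h2 n ((le_max_right _ _).trans hn) hn0
      have hnr : (0:ℝ) < n := by exact_mod_cast hn0
      have hτ1 := norm_of_mem_U hn0 hτ
      have hτn := (mem_U hn0).1 hτ
      have h5 : ‖ρ ^ n - 1‖ ≤ n * ‖τ - ρ‖ := by
        have e1 : ρ ^ n - 1 = (ρ - τ) * ∑ i ∈ range n, ρ ^ i * τ ^ (n - 1 - i) := by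
          rw [← hτn, mul_comm, Commute.geom_sum₂_mul (Commute.all _ _)]
        rw [e1, norm_mul, norm_sub_rev, mul_comm]
        apply mul_le_mul_of_nonneg_right _ (norm_nonneg _)
        refine (norm_sum_le _ _).trans ?_
        have e2 : ∀ i ∈ range n, ‖ρ ^ i * τ ^ (n - 1 - i)‖ = 1 := by
          intro i _
          rw [norm_mul, norm_pow, norm_pow, hnorm, hτ1]
          simp
        rw [sum_congr rfl e2]
        simp
      have h6 : Real.exp (-(ε * n)) = Real.exp (-(ε / 2 * n)) * Real.exp (-(ε / 2 * n)) := by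
        rw [← Real.exp_add]
        congr 1
        ring
      rw [h6]
      have h7 : Real.exp (-(ε / 2 * n)) * Real.exp (-(ε / 2 * n)) ≤
          Real.exp (-(ε / 2 * n)) * (1 / n) :=
        mul_le_mul_of_nonneg_left h4 (Real.exp_pos _).le
      refine h7.trans ?_
      rw [mul_one_div, div_le_iff₀ hnr]
      linarith
    · push Not at hroot
      obtain ⟨m, hm, hρ⟩ := hroot
      have hmr : (0:ℝ) < m := by exact_mod_cast hm
      obtain ⟨n₁, h1⟩ := exp_small (4 / m) ε (by positivity) hε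
      refine ⟨n₁, fun n hn hn0 τ hτ hne => ?_⟩
      have h2 := h1 n hn hn0
      refine h2.trans ?_
      have hmn : 0 < m * n := Nat.mul_pos hm hn0
      have h3 : τ ∈ U (m * n) := by
        rw [mem_U hmn, mul_comm, pow_mul, (mem_U hn0).1 hτ, one_pow]
      have h4 : ρ ∈ U (m * n) := by
        rw [mem_U hmn, pow_mul, hρ, one_pow]
      have h5 := dist_RU hmn h3 h4 hne
      push_cast at h5
      rwa [← div_div] at h5
  · have hpos : 0 < |1 - ‖ρ‖| := abs_pos.2 (fun h => hnorm (by linarith))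
    obtain ⟨n₁, h1⟩ := exp_small |1 - ‖ρ‖| ε hpos hε
    refine ⟨n₁, fun n hn hn0 τ hτ _ => ?_⟩
    have h2 := h1 n hn hn0
    refine h2.trans ?_
    have hnr : (1:ℝ) ≤ n := by exact_mod_cast hn0
    refine (div_le_self hpos.le hnr).trans ?_
    have h3 := abs_norm_sub_norm_le τ ρ
    rwa [norm_of_mem_U hn0 hτ] at h3

theorem roots_bound (s : Multiset ℂ) (halg : ∀ ρ ∈ s, IsAlgebraic ℚ ρ) :
    ∀ ε : ℝ, 0 < ε → ∃ n₀ : ℕ, ∀ n ≥ n₀, 0 < n → ∀ τ ∈ U n, (s.map (fun a => τ - a)).prod ≠ 0 →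
      Real.exp (-(ε * n)) ≤ ‖(s.map (fun a => τ - a)).prod‖ := by
  induction s using Multiset.induction with
  | empty =>
    intro ε hε
    refine ⟨0, fun n _ _ τ _ _ => ?_⟩
    simp
    positivity
  | cons a s ih =>
    intro ε hε
    obtain ⟨n₁, h1⟩ := ih (fun ρ hρ => halg ρ (Multiset.mem_cons_of_mem hρ)) (ε / 2) (by positivity)
    obtain ⟨n₂, h2⟩ := root_bound a (halg a (Multiset.mem_cons_self a s)) (ε / 2) (by positivity)
    refine ⟨max n₁ n₂, fun n hn hn0 τ hτ hne => ?_⟩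
    rw [Multiset.map_cons, Multiset.prod_cons] at hne ⊢
    have h3 := h1 n ((le_max_left _ _).trans hn) hn0 τ hτ (right_ne_zero_of_mul hne)
    have h4 := h2 n ((le_max_right _ _).trans hn) hn0 τ hτ (by
      intro h
      rw [h, sub_self, zero_mul] at hne
      exact hne rfl)
    have h6 : Real.exp (-(ε * n)) = Real.exp (-(ε / 2 * n)) * Real.exp (-(ε / 2 * n)) := by
      rw [← Real.exp_add]
      congr 1
      ring
    rw [h6, norm_mul]
    exact mul_le_mul h4 h3 (Real.exp_pos _).le (norm_nonneg _)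

/-- the one variable bound -/
theorem lemmaA (G : ℤ[X]) (hG : G ≠ 0) (ε : ℝ) (hε : 0 < ε) :
    ∃ n₀ : ℕ, ∀ n ≥ n₀, 0 < n → ∀ τ ∈ U n, (G.map (Int.castRingHom ℂ)).eval τ ≠ 0 →
      Real.exp (-(ε * n)) ≤ ‖(G.map (Int.castRingHom ℂ)).eval τ‖ := by
  set p := G.map (Int.castRingHom ℂ) with hp
  have hp0 : p ≠ 0 := by
    rw [hp, Polynomial.map_ne_zero_iff (RingHom.injective_int _)]
    exact hG
  have halg : ∀ ρ ∈ p.roots, IsAlgebraic ℚ ρ := by
    intro ρ hρ
    rw [mem_roots hp0, IsRoot.def] at hρ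
    refine ⟨G.map (Int.castRingHom ℚ), ?_, ?_⟩
    · rw [Polynomial.map_ne_zero_iff (RingHom.injective_int _)]
      exact hG
    · rw [aeval_def, eval₂_map, ← hρ, hp, eval_map]
      congr 1
  obtain ⟨n₀, h⟩ := roots_bound p.roots halg ε hε
  refine ⟨n₀, fun n hn hn0 τ hτ hne => ?_⟩
  have h1 := (IsAlgClosed.splits p).eval_eq_prod_roots τ
  rw [h1] at hne ⊢
  have h2 := h n hn hn0 τ hτ (right_ne_zero_of_mul hne)
  rw [norm_mul]
  have h3 : 1 ≤ ‖p.leadingCoeff‖ := by
    have : p.leadingCoeff = ((G.leadingCoeff : ℤ) : ℂ) := by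
      rw [hp, leadingCoeff_map_of_injective (RingHom.injective_int _)]
      simp
    rw [this, Complex.norm_intCast]
    have h4 : (1:ℤ) ≤ |G.leadingCoeff| := Int.one_le_abs (leadingCoeff_ne_zero.2 hG)
    exact_mod_cast h4
  calc Real.exp (-(ε * n)) ≤ ‖(p.roots.map (fun a => τ - a)).prod‖ := h2
    _ = 1 * ‖(p.roots.map (fun a => τ - a)).prod‖ := (one_mul _).symm
    _ ≤ _ := mul_le_mul_of_nonneg_right h3 (norm_nonneg _)

/-- the line case -/
theorem caseA {M : ℕ} (F : Polynomial (A M)) (c0 : ℝ) (hUL : UL F c0)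
    (hA : ∀ i : Fin M, ∃ s t : ℤ, (s ≠ 0 ∨ t ≠ 0) ∧ ∃ l : ℤ, ∀ p ∈ mons F, wt i s t p = l)
    (ε : ℝ) (hε : 0 < ε) :
    ∃ n₀ : ℕ, ∀ n ≥ n₀, 0 < n → ∀ z ∈ T n M, ∀ w ∈ U n, val z w F ≠ 0 →
      Real.exp (-(ε * n)) ≤ ‖val z w F‖ := by
  classical
  have hF0 := hUL.ne_zero
  by_cases hsame : ∀ p ∈ mons F, ∀ q ∈ mons F, p.1 = q.1
  · -- only one power of the last variable
    obtain ⟨n₁, h1⟩ := exp_small c0 ε hUL.1 hε
    refine ⟨n₁, fun n hn hn0 z hz w hw hne => ?_⟩
    have h2 := h1 n hn hn0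
    have hnr : (1:ℝ) ≤ n := by exact_mod_cast hn0
    refine (h2.trans (div_le_self hUL.1.le hnr)).trans ?_
    refine (hUL.2 z (onT_of_mem_T hn0 hz)).trans (le_of_eq ?_)
    have hlc : F.leadingCoeff ≠ 0 := leadingCoeff_ne_zero.2 hF0
    obtain ⟨m, hm⟩ := MvPolynomial.ne_zero_iff.1 hlc
    have hmem : (⟨F.natDegree, m⟩ : Σ _ : ℕ, (Fin M →₀ ℕ)) ∈ mons F := mem_mons.2 hm
    have hF : F = monomial F.natDegree F.leadingCoeff := by
      ext1 j
      rw [coeff_monomial]
      split_ifs with hj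
      · rw [← hj, coeff_natDegree]
      · by_contra hne
        obtain ⟨m', hm'⟩ := MvPolynomial.ne_zero_iff.1 hne
        have hmem' : (⟨j, m'⟩ : Σ _ : ℕ, (Fin M →₀ ℕ)) ∈ mons F := mem_mons.2 hm'
        exact hj (hsame _ hmem _ hmem')
    have hv : val z w F = evz z F.leadingCoeff * w ^ F.natDegree := by
      conv_lhs => rw [hF]
      simp [val]
    rw [hv, norm_mul, norm_pow, norm_of_mem_U hn0 hw, one_pow, mul_one]
  · push Not at hsame
    obtain ⟨p0, hp0, q0, hq0, hpq⟩ := hsame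
    choose s t hst l hl using hA
    have hs : ∀ i, s i ≠ 0 := by
      intro i hi
      have ht : t i ≠ 0 := (hst i).resolve_left (fun h => h hi)
      have h1 := hl i p0 hp0
      have h2 := hl i q0 hq0
      rw [← h2] at h1
      simp only [wt, hi, zero_mul, zero_add] at h1
      exact hpq (by exact_mod_cast mul_left_cancel₀ ht h1)
    set S : ℕ := ∏ i, (s i).natAbs with hS
    have hSpos : 0 < S := prod_pos (fun i _ => Int.natAbs_pos.2 (hs i))
    have hdvd : ∀ i, ∃ r : ℤ, (S : ℤ) = s i * r := by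
      intro i
      have : s i ∣ (S : ℤ) := by
        rw [Int.dvd_natCast]
        exact dvd_prod_of_mem (fun i => (s i).natAbs) (mem_univ i)
      exact this
    choose r hr using hdvd
    set G : ℤ[X] := ∑ p ∈ mons F, C (cf F p) * X ^ p.1 with hG
    have huniq : ∀ p ∈ mons F, ∀ q ∈ mons F, p.1 = q.1 → p = q := by
      intro p hp q hq h
      obtain ⟨j, m⟩ := p
      obtain ⟨j', m'⟩ := q
      simp only at h
      subst h
      congr 1
      ext i
      have h1 := hl i _ hp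
      have h2 := hl i _ hq
      rw [← h2] at h1
      simp only [wt] at h1
      have h3 : s i * (m i : ℤ) = s i * (m' i : ℤ) := by linarith
      exact_mod_cast mul_left_cancel₀ (hs i) h3
    have hG0 : G ≠ 0 := by
      intro h0
      have h1 : G.coeff p0.1 = cf F p0 := by
        rw [hG, finsetSum_coeff]
        simp only [coeff_C_mul_X_pow]
        rw [sum_eq_single p0]
        · simp
        · intro q hq hqp
          rw [if_neg]
          intro h
          exact hqp (huniq q hq p0 hp0 h.symm)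
        · intro h
          exact absurd hp0 h
      rw [h0, coeff_zero] at h1
      exact mem_mons.1 hp0 h1.symm
    obtain ⟨n₀, h⟩ := lemmaA G hG0 (ε / S) (by positivity)
    refine ⟨n₀, fun n hn hn0 z hz w hw hne => ?_⟩
    have hSn : 0 < S * n := Nat.mul_pos hSpos hn0
    have hroot : ∀ x : ℂ, ∃ ξ : ℂ, ξ ^ S = x := fun x => IsAlgClosed.exists_pow_nat_eq x hSpos
    choose ξ hξ using hroot
    have hξU : ∀ x ∈ U n, ξ x ∈ U (S * n) := by
      intro x hx
      rw [mem_U hSn, pow_mul, hξ, (mem_U hn0).1 hx]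
    have hξ0 : ∀ x ∈ U n, ξ x ≠ 0 := by
      intro x hx h0
      have := norm_of_mem_U hSn (hξU x hx)
      rw [h0] at this
      simp at this
    have hzi := mem_T.1 hz
    set P : ℂ := ∏ i, ξ (z i) ^ (r i * l i) with hP
    set τ : ℂ := (∏ i, ξ (z i) ^ (-(r i * t i))) * w with hτ
    have hmv : ∀ p ∈ mons F, mv z w p = P * τ ^ p.1 := by
      intro p hp
      rw [mv, hP, hτ, mul_pow, ← mul_assoc, ← prod_pow, ← prod_mul_distrib]
      congr 1
      apply prod_congr rfl
      intro i _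
      have hx0 := hξ0 (z i) (hzi i)
      conv_lhs => rw [← hξ (z i)]
      rw [← pow_mul, ← zpow_natCast, ← zpow_natCast (ξ (z i) ^ (-(r i * t i))), ← zpow_mul,
        ← zpow_add₀ hx0]
      congr 1
      have h1 := hl i p hp
      simp only [wt] at h1
      push_cast
      rw [hr i, ← h1]
      ring
    have hPn : ‖P‖ = 1 := by
      rw [hP, norm_prod]
      apply prod_eq_one
      intro i _
      rw [norm_zpow, norm_of_mem_U hSn (hξU _ (hzi i)), one_zpow]
    have hval : val z w F = P * (G.map (Int.castRingHom ℂ)).eval τ := by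
      rw [val_eq_sum, hG, Polynomial.map_sum, eval_finsetSum, mul_sum]
      apply sum_congr rfl
      intro p hp
      rw [hmv p hp]
      simp
      ring
    have hτU : τ ∈ U (S * n) := by
      rw [mem_U hSn, hτ, mul_pow, ← prod_pow]
      have h1 : w ^ (S * n) = 1 := by rw [mul_comm, pow_mul, (mem_U hn0).1 hw, one_pow]
      rw [h1, mul_one]
      apply prod_eq_one
      intro i _
      have h2 := (mem_U hSn).1 (hξU _ (hzi i))
      rw [← zpow_natCast, ← zpow_mul, mul_comm, zpow_mul, zpow_natCast, h2, one_zpow]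
    rw [hval] at hne ⊢
    rw [norm_mul, hPn, one_mul]
    have hSr : (0:ℝ) < S := by exact_mod_cast hSpos
    have h1 := h (S * n) (hn.trans (Nat.le_mul_of_pos_left n hSpos)) hSn τ hτU
      (right_ne_zero_of_mul hne)
    have h2 : ε / S * ((S * n : ℕ) : ℝ) = ε * n := by
      push_cast
      field_simp
    rwa [h2] at h1

end Pool.Agent.H196R3
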