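import Mathlib
import Pool.Agent.H196R3.Basic

/-! A non-zero integer polynomial is small at few torsion points. -/

set_option autoImplicit false

namespace Pool.Agent.H196R3

open Polynomial Finset

theorem sum_T_succ {β : Type*} [AddCommMonoid β] (n M : ℕ) (g : (Fin (M + 1) → ℂ) → β) :
    ∑ x ∈ T n (M + 1), g x = ∑ z ∈ T n M, ∑ w ∈ U n, g (Fin.cons w z) := by
  rw [← sum_product']
  refine sum_nbij' (fun x => (Fin.tail x, x 0)) (fun p => Fin.cons p.2 p.1) ?_ ?_ ?_ ?_ ?_
  · intro x hx
    rw [mem_T] at hx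
    rw [mem_product, mem_T]
    exact ⟨fun i => hx i.succ, hx 0⟩
  · intro p hp
    rw [mem_product, mem_T] at hp
    rw [mem_T]
    intro i
    refine Fin.cases ?_ (fun i => ?_) i
    · simpa using hp.2
    · simpa using hp.1 i
  · intro x _
    simp [Fin.cons_self_tail]
  · intro p _
    simp
  · intro x _
    simp [Fin.cons_self_tail]

theorem card_filter_T_succ (n M : ℕ) (P : (Fin (M + 1) → ℂ) → Prop) [DecidablePred P] :
    ((T n (M + 1)).filter P).card =
      ∑ z ∈ T n M, ((U n).filter (fun w => P (Fin.cons w z))).card := by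
  simp only [card_filter]
  rw [sum_T_succ]

theorem evz_cons {M : ℕ} (z : Fin M → ℂ) (w : ℂ) (R : MvPolynomial (Fin (M + 1)) ℤ) :
    evz (Fin.cons w z : Fin (M + 1) → ℂ) R = val z w (MvPolynomial.finSuccEquiv ℤ M R) := by
  have : (evz (Fin.cons w z : Fin (M + 1) → ℂ) : MvPolynomial (Fin (M + 1)) ℤ →+* ℂ) =
      (val z w).comp (MvPolynomial.finSuccEquiv ℤ M : MvPolynomial (Fin (M + 1)) ℤ →+* _) := by
    apply MvPolynomial.ringHom_ext
    · intro r
      simp [evz, val]
    · intro i
      refine Fin.cases ?_ (fun i => ?_) i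
      · simp [evz, val, MvPolynomial.finSuccEquiv_X_zero]
      · simp [evz, val, MvPolynomial.finSuccEquiv_X_succ]
  exact congrArg (fun f => f R) this

theorem smallR : ∀ (M : ℕ) (R : MvPolynomial (Fin M) ℤ), R ≠ 0 → ∀ η : ℝ, 0 < η →
    ∃ κ : ℝ, 0 < κ ∧ ∃ n₀ : ℕ, ∀ n ≥ n₀, 0 < n →
      (((T n M).filter (fun z => ‖evz z R‖ ≤ κ)).card : ℝ) ≤ η * (n:ℝ) ^ M := by
  intro M
  induction M with
  | zero =>
    intro R hR η hη
    refine ⟨1 / 2, by norm_num, 0, fun n _ _ => ?_⟩
    have h1 := MvPolynomial.eq_C_of_isEmpty R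
    set r := R.coeff 0 with hr
    have hr0 : r ≠ 0 := by
      intro h0
      apply hR
      rw [h1, h0, map_zero]
    have h2 : ∀ z : Fin 0 → ℂ, ¬ ‖evz z R‖ ≤ 1 / 2 := by
      intro z
      have h3 : evz z (MvPolynomial.C r) = (r : ℂ) := by
        rw [evz, MvPolynomial.coe_eval₂Hom, MvPolynomial.eval₂_C]
        rfl
      rw [h1, h3, Complex.norm_intCast]
      have : (1:ℝ) ≤ |(r:ℝ)| := by exact_mod_cast Int.one_le_abs hr0
      linarith
    rw [filter_false_of_mem (fun z _ => h2 z)]
    simp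
    positivity
  | succ M ih =>
    intro R hR η hη
    set F := MvPolynomial.finSuccEquiv ℤ M R with hF
    have hF0 : F ≠ 0 := by
      rw [hF]
      simpa using hR
    set d := F.natDegree with hd
    obtain ⟨κ1, hκ1, n1, hn1⟩ := ih F.leadingCoeff (leadingCoeff_ne_zero.2 hF0) (η / 2)
      (by positivity)
    set ρ : ℝ := η / (4 * (d + 1)) with hρ
    have hρ0 : 0 < ρ := by rw [hρ]; positivity
    have hdρ : d * ρ ≤ η / 4 := by
      rw [hρ]
      rw [mul_div_assoc', div_le_div_iff₀ (by positivity) (by norm_num)]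
      have : (0:ℝ) ≤ d := by positivity
      nlinarith
    obtain ⟨n2, hn2⟩ := exists_nat_ge (4 * d / η)
    refine ⟨κ1 * ρ ^ d / 2, by positivity, max n1 n2, fun n hn hn0 => ?_⟩
    have hnr : (1:ℝ) ≤ n := by exact_mod_cast hn0
    have hdn : (d:ℝ) ≤ η / 4 * n := by
      have h2 : (n2 : ℝ) ≤ n := by exact_mod_cast (le_max_right _ _).trans hn
      have h3 := hn2.trans h2
      rw [div_le_iff₀ hη] at h3
      linarith
    rw [card_filter_T_succ]
    push_cast
    have hbound : ∀ z ∈ T n M, (((U n).filter (fun w => ‖evz (Fin.cons w z : Fin (M + 1) → ℂ) R‖ ≤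
        κ1 * ρ ^ d / 2)).card : ℝ) ≤
        (if ‖evz z F.leadingCoeff‖ ≤ κ1 then (n:ℝ) else 0) + (η / 2 * n) := by
      intro z hz
      have hzT := onT_of_mem_T hn0 hz
      by_cases hlc : ‖evz z F.leadingCoeff‖ ≤ κ1
      · rw [if_pos hlc]
        have h1 := card_le_card (filter_subset (fun w => ‖evz (Fin.cons w z : Fin (M + 1) → ℂ) R‖ ≤
          κ1 * ρ ^ d / 2) (U n))
        rw [card_U hn0] at h1
        have h2 : (((U n).filter (fun w => ‖evz (Fin.cons w z : Fin (M + 1) → ℂ) R‖ ≤
          κ1 * ρ ^ d / 2)).card : ℝ) ≤ n := by exact_mod_cast h1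
        have h3 : 0 ≤ η / 2 * n := by positivity
        linarith
      · rw [if_neg hlc, zero_add]
        push Not at hlc
        have hne : evz z F.leadingCoeff ≠ 0 := by
          intro h0
          rw [h0, norm_zero] at hlc
          linarith
        have hdeg : (F.map (evz z)).natDegree = d :=
          natDegree_map_of_leadingCoeff_ne_zero _ hne
        have hlead : (F.map (evz z)).leadingCoeff = evz z F.leadingCoeff := by
          rw [Polynomial.leadingCoeff, hdeg, coeff_map, hd, coeff_natDegree]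
        have h1 := card_small hn0 (F.map (evz z)) κ1 ρ hρ0.le (by rw [hlead]; exact hlc.le)
          (κ1 * ρ ^ d) (by rw [hdeg])
        have h2 : (U n).filter (fun w => ‖evz (Fin.cons w z : Fin (M + 1) → ℂ) R‖ ≤
            κ1 * ρ ^ d / 2) ⊆ (U n).filter (fun w => ‖(F.map (evz z)).eval w‖ < κ1 * ρ ^ d) := by
          intro w hw
          rw [mem_filter] at hw ⊢
          refine ⟨hw.1, ?_⟩
          rw [← val_eq, hF, ← evz_cons]
          have : 0 < κ1 * ρ ^ d := by positivity
          linarith [hw.2]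
        have h3 : (((U n).filter (fun w => ‖evz (Fin.cons w z : Fin (M + 1) → ℂ) R‖ ≤
            κ1 * ρ ^ d / 2)).card : ℝ) ≤
            (((U n).filter (fun w => ‖(F.map (evz z)).eval w‖ < κ1 * ρ ^ d)).card : ℝ) := by
          exact_mod_cast card_le_card h2
        refine h3.trans (h1.trans ?_)
        rw [hdeg]
        have h4 : d * (n * ρ + 1) = (d * ρ) * n + d := by ring
        rw [h4]
        have h5 : (d * ρ) * n ≤ η / 4 * n := mul_le_mul_of_nonneg_right hdρ (by positivity)
        linarith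
    refine (sum_le_sum hbound).trans ?_
    rw [sum_add_distrib, sum_const, card_T hn0, nsmul_eq_mul, ← sum_filter, sum_const,
      nsmul_eq_mul]
    have h1 := hn1 n ((le_max_left _ _).trans hn) hn0
    have h2 : (((T n M).filter (fun z => ‖evz z F.leadingCoeff‖ ≤ κ1)).card : ℝ) * n ≤
        (η / 2 * (n:ℝ) ^ M) * n := mul_le_mul_of_nonneg_right h1 (by positivity)
    push_cast
    have e1 : η * (n:ℝ) ^ (M + 1) = (η / 2 * (n:ℝ) ^ M) * n + (n:ℝ) ^ M * (η / 2 * n) := by ring
    rw [e1]
    linarith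

end Pool.Agent.H196R3
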