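import Mathlib
import Pool.Agent.H196R3.Taylor
import Pool.Agent.H196R3.SmallR
import Pool.Agent.H196R3.AlgB

/-! If the monomials of an irreducible polynomial do not lie on a line then there are few torsion
points at which it is very small. -/

set_option autoImplicit false

namespace Pool.Agent.H196R3

open Polynomial Finset

theorem card_filter_prod {M n : ℕ} (P : (Fin M → ℂ) × ℂ → Prop) [DecidablePred P] :
    ((T n M ×ˢ U n).filter P).card = ∑ z ∈ T n M, ((U n).filter (fun w => P (z, w))).card := by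
  simp only [card_filter]
  rw [sum_product]

theorem pow_le_of_le {c0 τ : ℝ} (hc0 : 0 < c0) {n d : ℕ} (hn : 0 < n)
    (hτ : τ ≤ c0 * ((1 / (n:ℝ)) ^ 2) ^ d) : τ ≤ c0 * (1 / (n:ℝ)) ^ d := by
  refine hτ.trans (mul_le_mul_of_nonneg_left ?_ hc0.le)
  have hnr : (1:ℝ) ≤ n := by exact_mod_cast hn
  have h1 : (1:ℝ) / n ≤ 1 := by
    rw [div_le_one (by linarith)]
    exact hnr
  apply pow_le_pow_left₀ (by positivity)
  have h0 : (0:ℝ) ≤ 1 / n := by positivity
  nlinarith

theorem fibre_le {M : ℕ} {F : Polynomial (A M)} {c0 : ℝ} (hUL : UL F c0) {n : ℕ} (hn : 0 < n)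
    {τ : ℝ} (hτ : τ ≤ c0 * ((1 / (n:ℝ)) ^ 2) ^ F.natDegree) {z : Fin M → ℂ} (hz : OnT z) :
    (((U n).filter (fun w => ‖val z w F‖ < τ)).card : ℝ) ≤ 2 * F.natDegree := by
  have h1 := hUL.card_small hz hn (1 / n) (by positivity) τ (pow_le_of_le hUL.1 hn hτ)
  have hnr : (0:ℝ) < n := by exact_mod_cast hn
  have e : (n:ℝ) * (1 / n) = 1 := by field_simp
  rw [e] at h1
  linarith

theorem fewR {M : ℕ} (F : Polynomial (A M)) (hirr : Irreducible F) (hd : F.natDegree ≠ 0)
    (c0 : ℝ) (hUL : UL F c0) (G : Polynomial (A M)) (hG : ¬ F ∣ G) (η : ℝ) (hη : 0 < η) :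
    ∃ κ : ℝ, 0 < κ ∧ ∃ n₀ : ℕ, ∀ n ≥ n₀, 0 < n → ∀ τ : ℝ,
      τ ≤ c0 * ((1 / (n:ℝ)) ^ 2) ^ F.natDegree →
      (((T n M ×ˢ U n).filter
        (fun x => ‖val x.1 x.2 F‖ < τ ∧ ‖val x.1 x.2 G‖ ≤ κ)).card : ℝ) ≤ η * (n:ℝ) ^ M := by
  classical
  obtain ⟨a, b, R, hR, hab⟩ := bezout F G hirr hd hG
  obtain ⟨La, hLa1, hLa⟩ := val_bound a
  obtain ⟨Lb, hLb1, hLb⟩ := val_bound b
  have hdpos : (1:ℝ) ≤ F.natDegree := by exact_mod_cast Nat.one_le_iff_ne_zero.2 hd
  obtain ⟨κ1, hκ1, n1, hn1⟩ := smallR M R hR (η / (2 * F.natDegree)) (by positivity)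
  obtain ⟨n2, hn2⟩ := exists_nat_ge (2 * c0 * La / κ1)
  have hc0 := hUL.1
  refine ⟨κ1 / (2 * Lb), by positivity, max n1 n2, fun n hn hn0 τ hτ => ?_⟩
  have hnr : (1:ℝ) ≤ n := by exact_mod_cast hn0
  rw [card_filter_prod]
  push_cast
  have hτ1 : La * τ ≤ κ1 / 2 := by
    have h1 : τ ≤ c0 * (1 / n) := by
      refine (pow_le_of_le hc0 hn0 hτ).trans (mul_le_mul_of_nonneg_left ?_ hc0.le)
      have h2 : (1:ℝ) / n ≤ 1 := by
        rw [div_le_one (by linarith)]
        exact hnr
      exact pow_le_of_le_one (by positivity) h2 hd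
    have h3 : (n2 : ℝ) ≤ n := by exact_mod_cast (le_max_right _ _).trans hn
    have h4 := hn2.trans h3
    rw [div_le_iff₀ hκ1] at h4
    calc La * τ ≤ La * (c0 * (1 / n)) := mul_le_mul_of_nonneg_left h1 (by linarith)
      _ = (2 * c0 * La) / (2 * n) := by field_simp
      _ ≤ (n * κ1) / (2 * n) := by gcongr
      _ = κ1 / 2 := by field_simp
  have hbound : ∀ z ∈ T n M, (((U n).filter (fun w => ‖val z w F‖ < τ ∧
      ‖val z w G‖ ≤ κ1 / (2 * Lb))).card : ℝ) ≤
      (if ‖evz z R‖ ≤ κ1 then (2 * (F.natDegree : ℝ)) else 0) := by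
    intro z hz
    have hzT := onT_of_mem_T hn0 hz
    split_ifs with h
    · refine le_trans ?_ (fibre_le hUL hn0 hτ hzT)
      have : (U n).filter (fun w => ‖val z w F‖ < τ ∧ ‖val z w G‖ ≤ κ1 / (2 * Lb)) ⊆
          (U n).filter (fun w => ‖val z w F‖ < τ) := by
        intro w hw
        rw [mem_filter] at hw ⊢
        exact ⟨hw.1, hw.2.1⟩
      exact_mod_cast card_le_card this
    · have hempty : (U n).filter (fun w => ‖val z w F‖ < τ ∧ ‖val z w G‖ ≤ κ1 / (2 * Lb)) = ∅ := by
        apply filter_false_of_mem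
        rintro w hw ⟨h1, h2⟩
        apply h
        have hw1 := norm_of_mem_U hn0 hw
        have h3 : evz z R = val z w a * val z w F + val z w b * val z w G := by
          rw [← val_C z w R, ← hab, map_add, map_mul, map_mul]
        rw [h3]
        refine (norm_add_le _ _).trans ?_
        rw [norm_mul, norm_mul]
        have h4 : ‖val z w a‖ * ‖val z w F‖ ≤ La * τ :=
          mul_le_mul (hLa z w hzT hw1) h1.le (norm_nonneg _) (by linarith)
        have h5 : ‖val z w b‖ * ‖val z w G‖ ≤ Lb * (κ1 / (2 * Lb)) :=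
          mul_le_mul (hLb z w hzT hw1) h2 (norm_nonneg _) (by linarith)
        have h6 : Lb * (κ1 / (2 * Lb)) = κ1 / 2 := by field_simp
        linarith
      rw [hempty]
      simp
  refine (sum_le_sum hbound).trans ?_
  rw [← sum_filter, sum_const, nsmul_eq_mul]
  have h1 := hn1 n ((le_max_left _ _).trans hn) hn0
  calc (((T n M).filter (fun z => ‖evz z R‖ ≤ κ1)).card : ℝ) * (2 * (F.natDegree : ℝ))
      ≤ (η / (2 * F.natDegree) * (n:ℝ) ^ M) * (2 * (F.natDegree : ℝ)) := by gcongr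
    _ = η * (n:ℝ) ^ M := by field_simp

/-- double counting along a coordinate -/
theorem double_count {M n : ℕ} (hn : 0 < n) (i : Fin M) (g : (Fin M → ℂ) → ℝ) :
    ∑ z ∈ T n M, ∑ x ∈ U n, g (Function.update z i x) = n * ∑ z ∈ T n M, g z := by
  have h1 : ∑ z ∈ T n M, ∑ x ∈ U n, g (Function.update z i x) =
      ∑ p ∈ T n M ×ˢ U n, g p.1 := by
    rw [← sum_product' (f := fun z x => g (Function.update z i x))]
    refine sum_nbij' (fun p => (Function.update p.1 i p.2, p.1 i))
      (fun p => (Function.update p.1 i p.2, p.1 i)) ?_ ?_ ?_ ?_ ?_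
    · intro p hp
      rw [mem_product, mem_T] at hp ⊢
      refine ⟨fun k => ?_, hp.1 i⟩
      by_cases hk : k = i
      · subst hk
        simpa using hp.2
      · simpa [Function.update_of_ne hk] using hp.1 k
    · intro p hp
      rw [mem_product, mem_T] at hp ⊢
      refine ⟨fun k => ?_, hp.1 i⟩
      by_cases hk : k = i
      · subst hk
        simpa using hp.2
      · simpa [Function.update_of_ne hk] using hp.1 k
    · intro p _
      simp
    · intro p _
      simp
    · intro p _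
      rfl
  rw [h1, sum_product]
  simp only [sum_const, card_U hn, nsmul_eq_mul]
  rw [mul_sum]

theorem rot_pow_eq_one {n : ℕ} (hn : 0 < n) (k : ℕ) : rot ((k:ℝ) / n) ^ n = 1 := by
  rw [← rot_nat_mul]
  have hn0 : (n:ℝ) ≠ 0 := by exact_mod_cast hn.ne'
  have : (n:ℝ) * (k / n) = k := by field_simp
  rw [this, rot]
  have : Complex.I * ((2 * Real.pi * k : ℝ) : ℂ) = k * (2 * Real.pi * Complex.I) := by
    push_cast
    ring
  rw [this, Complex.exp_nat_mul, Complex.exp_two_pi_mul_I, one_pow]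

/-- parametrization of the roots of unity -/
theorem sum_U {n : ℕ} (hn : 0 < n) {β : Type*} [AddCommMonoid β] (h : ℂ → β) :
    ∑ x ∈ U n, h x = ∑ k ∈ range n, h (rot ((k:ℝ) / n)) := by
  classical
  have hn0 : (n:ℂ) ≠ 0 := by exact_mod_cast hn.ne'
  have hrot : ∀ k : ℕ, rot ((k:ℝ) / n) = Complex.exp (2 * Real.pi * Complex.I / n) ^ k := by
    intro k
    rw [rot, ← Complex.exp_nat_mul]
    congr 1
    push_cast
    field_simp
  have hprim := Complex.isPrimitiveRoot_exp n hn.ne'
  have himg : U n = (range n).image (fun k : ℕ => rot ((k:ℝ) / n)) := by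
    ext x
    rw [mem_U hn, mem_image]
    constructor
    · intro hx
      have : NeZero n := ⟨hn.ne'⟩
      obtain ⟨k, hk, hkx⟩ := hprim.eq_pow_of_pow_eq_one hx
      exact ⟨k, mem_range.2 hk, by rw [hrot, hkx]⟩
    · rintro ⟨k, _, rfl⟩
      exact rot_pow_eq_one hn k
  rw [himg, sum_image]
  intro k hk k' hk' h
  simp only [coe_range, Set.mem_Iio] at hk hk'
  simp only [hrot] at h
  exact hprim.pow_inj hk hk' h

theorem card_separated (X : Finset ℕ) (n H : ℕ) (hH : 0 < H) (hX : X ⊆ range n)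
    (hsep : ∀ a ∈ X, ∀ b ∈ X, a < b → H < b - a) : X.card ≤ n / H + 1 := by
  have h1 : ∀ a ∈ X, a / H ∈ range (n / H + 1) := by
    intro a ha
    rw [mem_range]
    have := mem_range.1 (hX ha)
    have := Nat.div_le_div_right (c := H) this.le
    omega
  have h2 : Set.InjOn (fun a => a / H) (X : Set ℕ) := by
    have key : ∀ a ∈ X, ∀ b ∈ X, a < b → a / H ≠ b / H := by
      intro a ha b hb hab h
      have h3 := hsep a ha b hb hab
      have h4 : a / H + 1 ≤ b / H := by
        rw [Nat.le_div_iff_mul_le hH, Nat.add_mul, one_mul]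
        have := Nat.div_mul_le_self a H
        omega
      omega
    intro a ha b hb h
    rcases lt_trichotomy a b with h3 | h3 | h3
    · exact absurd h (key a ha b hb h3)
    · exact h3
    · exact absurd h.symm (key b hb a ha h3)
  have := card_le_card_of_injOn _ h1 h2
  simpa using this

end Pool.Agent.H196R3
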