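import Mathlib
import Pool.Agent.H196R3.CaseB

/-! The popular difference argument. -/

set_option autoImplicit false

namespace Pool.Agent.H196R3

open Polynomial Finset

/-- the geometric heart: two nearby very small points on the same arc have a bounded difference
and give a small logarithmic derivative -/
theorem pair_close (c C CX c0 τ v01 v10 vst : ℝ) (n R H : ℕ) (s t : ℤ) (hn : 0 < n) (hR : 0 < R)
    (hc : 0 < c) (hC : 0 ≤ C) (hCX : 0 ≤ CX)
    (hs1 : 1 ≤ s) (hsH : s ≤ H) (htR : |(t:ℝ)| * R ≤ n) (hRC : 4 * C / c ≤ R)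
    (hτ : n * τ ≤ c0) (h01 : c < v01) (h10 : v10 ≤ CX)
    (hst : vst ≤ n * τ + C * (|(s:ℝ)| + |(t:ℝ)|) ^ 2 / n)
    (hadd : |(t:ℝ)| * v01 ≤ vst + |(s:ℝ)| * v10) :
    |(t:ℝ)| ≤ 2 / c * (H * CX + c0 + 2 * C * H ^ 2) := by
  have hnr : (1:ℝ) ≤ n := by exact_mod_cast hn
  have hRr : (0:ℝ) < R := by exact_mod_cast hR
  set T := |(t:ℝ)| with hT
  have hT0 : 0 ≤ T := abs_nonneg _
  have hsr : |(s:ℝ)| ≤ H := by
    have h1 : (0:ℝ) ≤ s := by exact_mod_cast (by omega : (0:ℤ) ≤ s)
    rw [abs_of_nonneg h1]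
    exact_mod_cast hsH
  set S := |(s:ℝ)| with hS
  have hS0 : 0 ≤ S := abs_nonneg _
  have h1 : T * c ≤ T * v01 := mul_le_mul_of_nonneg_left h01.le hT0
  have h2 : S * v10 ≤ H * CX := by
    calc S * v10 ≤ S * CX := mul_le_mul_of_nonneg_left h10 hS0
      _ ≤ H * CX := mul_le_mul_of_nonneg_right hsr hCX
  have h3 : C * (S + T) ^ 2 / n ≤ 2 * C * H ^ 2 + c / 2 * T := by
    have e1 : (S + T) ^ 2 ≤ 2 * S ^ 2 + 2 * T ^ 2 := by nlinarith [sq_nonneg (S - T)]
    have e2 : C * (S + T) ^ 2 / n ≤ C * (2 * S ^ 2 + 2 * T ^ 2) / n := by gcongr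
    have e3 : C * (2 * S ^ 2 + 2 * T ^ 2) / n = 2 * C * S ^ 2 / n + 2 * C * T * (T / n) := by ring
    have e4 : 2 * C * S ^ 2 / n ≤ 2 * C * H ^ 2 := by
      calc 2 * C * S ^ 2 / n ≤ 2 * C * S ^ 2 := div_le_self (by positivity) hnr
        _ ≤ 2 * C * H ^ 2 := by gcongr
    have e5 : T / n ≤ 1 / R := by
      rw [div_le_div_iff₀ (by linarith) hRr]
      linarith
    have e6 : 2 * C * T * (T / n) ≤ 2 * C * T * (1 / R) :=
      mul_le_mul_of_nonneg_left e5 (by positivity)
    have e7 : 2 * C * (1 / R) ≤ c / 2 := by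
      rw [div_le_iff₀ hc] at hRC
      rw [mul_one_div, div_le_div_iff₀ hRr (by norm_num)]
      linarith
    have e8 : 2 * C * T * (1 / R) = 2 * C * (1 / R) * T := by ring
    rw [e8] at e6
    have e9 : 2 * C * (1 / R) * T ≤ c / 2 * T := mul_le_mul_of_nonneg_right e7 hT0
    linarith
  have h4 : T * (c / 2) ≤ H * CX + c0 + 2 * C * H ^ 2 := by linarith
  rw [div_mul_eq_mul_div, le_div_iff₀ hc]
  linarith

theorem caseB {M : ℕ} (F : Polynomial (A M)) (hirr : Irreducible F) (hd : F.natDegree ≠ 0)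
    (c0 : ℝ) (hUL : UL F c0) (i : Fin M)
    (hB : ∀ s t : ℤ, (s ≠ 0 ∨ t ≠ 0) → ∀ l : ℤ, ∃ p ∈ mons F, wt i s t p ≠ l)
    (η : ℝ) (hη : 0 < η) :
    ∃ n₀ : ℕ, ∀ n ≥ n₀, 0 < n → ∀ τ : ℝ,
      τ ≤ c0 * ((1 / (n:ℝ)) ^ 2) ^ F.natDegree →
      (((T n M ×ˢ U n).filter (fun x => ‖val x.1 x.2 F‖ < τ)).card : ℝ) ≤ η * (n:ℝ) ^ M := by
  classical
  have hF0 := hUL.ne_zero
  have hc0 := hUL.1
  have hdr : (1:ℝ) ≤ F.natDegree := by exact_mod_cast Nat.one_le_iff_ne_zero.2 hd
  obtain ⟨c, hc, n1, hn1⟩ := fewR F hirr hd c0 hUL (LD F i 0 1)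
    (not_dvd_LD F hF0 i 0 1 (hB 0 1 (Or.inr one_ne_zero))) (η / 4) (by positivity)
  obtain ⟨C, hC0, hC⟩ := small_LD F i
  obtain ⟨CX, hCX1, hCX⟩ := val_bound (LD F i 1 0)
  obtain ⟨R, hRge⟩ := exists_nat_ge (max 1 (4 * C / c))
  have hR1 : 1 ≤ R := by exact_mod_cast (le_max_left _ _).trans hRge
  have hRC : 4 * C / c ≤ R := (le_max_right _ _).trans hRge
  set d := F.natDegree with hdd
  obtain ⟨H, hHge⟩ := exists_nat_ge (max 1 (8 * d * R / η))
  have hH1 : 1 ≤ H := by exact_mod_cast (le_max_left _ _).trans hHge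
  have hHd : 8 * d * R / η ≤ H := (le_max_right _ _).trans hHge
  obtain ⟨H', hH'⟩ := exists_nat_ge (2 / c * (H * CX + c0 + 2 * C * H ^ 2))
  set PS : Finset (ℤ × ℤ) := (Icc (1:ℤ) H) ×ˢ (Icc (-(H':ℤ)) H') with hPS
  have hPSne : PS.Nonempty := ⟨(1, 0), by
    rw [hPS, mem_product, mem_Icc, mem_Icc]
    simp
    omega⟩
  have hPSpos : (0:ℝ) < PS.card := by exact_mod_cast card_pos.2 hPSne
  have hfew : ∀ y : ℤ × ℤ, ∃ κ : ℝ, 0 < κ ∧ ∃ n₀ : ℕ, y ∈ PS → ∀ n ≥ n₀, 0 < n → ∀ τ : ℝ,
      τ ≤ c0 * ((1 / (n:ℝ)) ^ 2) ^ d →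
      (((T n M ×ˢ U n).filter
        (fun x => ‖val x.1 x.2 F‖ < τ ∧ ‖val x.1 x.2 (LD F i y.1 y.2)‖ ≤ κ)).card : ℝ) ≤
        η / (4 * PS.card) * (n:ℝ) ^ M := by
    intro y
    by_cases hy : y ∈ PS
    · have hy' := hy
      rw [hPS, mem_product, mem_Icc, mem_Icc] at hy'
      obtain ⟨κ, hκ, n₀, h⟩ := fewR F hirr hd c0 hUL (LD F i y.1 y.2)
        (not_dvd_LD F hF0 i y.1 y.2 (hB y.1 y.2 (Or.inl (by omega)))) (η / (4 * PS.card))
        (by positivity)
      exact ⟨κ, hκ, n₀, fun _ => h⟩
    · exact ⟨1, one_pos, 0, fun h => absurd h hy⟩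
  choose κ hκ N hN using hfew
  obtain ⟨ym, hym, hmin⟩ := PS.exists_min_image κ hPSne
  set κm := κ ym with hκm
  have hκm0 : 0 < κm := hκ ym
  obtain ⟨n3, hn3⟩ := exists_nat_ge ((c0 + C * (H + H') ^ 2) / κm)
  obtain ⟨n4, hn4⟩ := exists_nat_ge (8 * d * R / η)
  refine ⟨max n1 (max (PS.sup N) (max n3 n4)), fun n hn hn0 τ hτ => ?_⟩
  have hnr : (1:ℝ) ≤ n := by exact_mod_cast hn0
  have hnn1 : n1 ≤ n := (le_max_left _ _).trans hn
  have hnnN : PS.sup N ≤ n := (le_max_left _ _).trans ((le_max_right _ _).trans hn)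
  have hnn3 : n3 ≤ n := (le_max_left _ _).trans ((le_max_right _ _).trans ((le_max_right _ _).trans hn))
  have hnn4 : n4 ≤ n := (le_max_right _ _).trans ((le_max_right _ _).trans ((le_max_right _ _).trans hn))
  have hnτ : n * τ ≤ c0 / n := by
    have h1 : τ ≤ c0 * (1 / n) ^ 2 := by
      refine hτ.trans (mul_le_mul_of_nonneg_left ?_ hc0.le)
      have h2 : ((1:ℝ) / n) ^ 2 ≤ 1 := by
        apply pow_le_one₀ (by positivity)
        rw [div_le_one (by linarith)]
        exact hnr
      exact pow_le_of_le_one (by positivity) h2 hd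
    calc n * τ ≤ n * (c0 * (1 / n) ^ 2) := mul_le_mul_of_nonneg_left h1 (by positivity)
      _ = c0 / n := by field_simp
  have hnτ' : n * τ ≤ c0 := hnτ.trans (div_le_self hc0.le hnr)
  have hκsmall : c0 / n + C * (H + H') ^ 2 / n ≤ κm := by
    have h1 : (n3:ℝ) ≤ n := by exact_mod_cast hnn3
    have h2 := hn3.trans h1
    rw [div_le_iff₀ hκm0] at h2
    rw [← add_div, div_le_iff₀ (by linarith)]
    linarith
  set S := (T n M ×ˢ U n).filter (fun x => ‖val x.1 x.2 F‖ < τ) with hS
  set T1 := (T n M ×ˢ U n).filter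
        (fun x => ‖val x.1 x.2 F‖ < τ ∧ ‖val x.1 x.2 (LD F i 0 1)‖ ≤ c) with hT1
  set T2 : ℤ × ℤ → Finset ((Fin M → ℂ) × ℂ) := fun y => (T n M ×ˢ U n).filter
        (fun x => ‖val x.1 x.2 F‖ < τ ∧ ‖val x.1 x.2 (LD F i y.1 y.2)‖ ≤ κ y) with hT2
  set PQ : (Fin M → ℂ) × ℂ → Prop := fun x => ‖val x.1 x.2 F‖ < τ ∧
    c < ‖val x.1 x.2 (LD F i 0 1)‖ ∧ ∀ y ∈ PS, κ y < ‖val x.1 x.2 (LD F i y.1 y.2)‖ with hPQ
  set Q := (T n M ×ˢ U n).filter PQ with hQ
  have hcover : S ⊆ T1 ∪ (PS.biUnion T2) ∪ Q := by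
    intro x hx
    rw [hS, mem_filter] at hx
    by_cases h1 : ‖val x.1 x.2 (LD F i 0 1)‖ ≤ c
    · apply mem_union_left
      apply mem_union_left
      rw [hT1, mem_filter]
      exact ⟨hx.1, hx.2, h1⟩
    · by_cases h2 : ∃ y ∈ PS, ‖val x.1 x.2 (LD F i y.1 y.2)‖ ≤ κ y
      · obtain ⟨y, hy, hy2⟩ := h2
        apply mem_union_left
        apply mem_union_right
        rw [mem_biUnion]
        refine ⟨y, hy, ?_⟩
        rw [hT2, mem_filter]
        exact ⟨hx.1, hx.2, hy2⟩
      · push Not at h1 h2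
        apply mem_union_right
        rw [hQ, mem_filter]
        exact ⟨hx.1, hx.2, h1, h2⟩
  have hcardS : (S.card : ℝ) ≤ T1.card + ∑ y ∈ PS, ((T2 y).card : ℝ) + Q.card := by
    have h1 := card_le_card hcover
    have h2 : (T1 ∪ (PS.biUnion T2) ∪ Q).card ≤ T1.card + ∑ y ∈ PS, (T2 y).card + Q.card := by
      refine (card_union_le _ _).trans ?_
      have h3 := card_union_le T1 (PS.biUnion T2)
      have h4 := card_biUnion_le (s := PS) (t := T2)
      omega
    exact_mod_cast h1.trans h2
  have hT1c : (T1.card : ℝ) ≤ η / 4 * (n:ℝ) ^ M := hn1 n hnn1 hn0 τ hτ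
  have hT2c : ∑ y ∈ PS, ((T2 y).card : ℝ) ≤ η / 4 * (n:ℝ) ^ M := by
    have h1 : ∀ y ∈ PS, ((T2 y).card : ℝ) ≤ η / (4 * PS.card) * (n:ℝ) ^ M := by
      intro y hy
      exact hN y hy n ((le_sup hy).trans hnnN) hn0 τ hτ
    refine (sum_le_sum h1).trans (le_of_eq ?_)
    rw [sum_const, nsmul_eq_mul]
    field_simp
  -- the main count
  have hfib : ∀ z ∈ T n M, ∑ x ∈ U n,
      (((U n).filter (fun w => PQ (Function.update z i x, w))).card : ℝ) ≤
      R * ((n / H + 1) * (2 * d)) := by
    intro z hz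
    have hzT := onT_of_mem_T hn0 hz
    have hup : ∀ k : ℕ, OnT (Function.update z i (rot ((k:ℝ) / n))) := by
      intro k j
      by_cases hj : j = i
      · subst hj
        rw [Function.update_self]
        exact norm_rot _
      · rw [Function.update_of_ne hj]
        exact hzT j
    rw [sum_U hn0]
    have h1 : ∀ k : ℕ, (((U n).filter (fun w => PQ (Function.update z i (rot ((k:ℝ) / n)), w))).card : ℝ)
        = ∑ a ∈ range R, (((range n).filter (fun j : ℕ => j * R / n = a ∧
          PQ (Function.update z i (rot ((k:ℝ) / n)), rot ((j:ℝ) / n)))).card : ℝ) := by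
      intro k
      have e1 : (((U n).filter (fun w => PQ (Function.update z i (rot ((k:ℝ) / n)), w))).card : ℝ)
          = ∑ j ∈ range n, if PQ (Function.update z i (rot ((k:ℝ) / n)), rot ((j:ℝ) / n)) then (1:ℝ) else 0 := by
        rw [card_filter]
        push_cast
        rw [sum_U hn0]
      rw [e1]
      have e2 : ∀ a : ℕ, (((range n).filter (fun j : ℕ => j * R / n = a ∧
          PQ (Function.update z i (rot ((k:ℝ) / n)), rot ((j:ℝ) / n)))).card : ℝ) =
          ∑ j ∈ range n, if j * R / n = a then (if PQ (Function.update z i (rot ((k:ℝ) / n)),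
            rot ((j:ℝ) / n)) then (1:ℝ) else 0) else 0 := by
        intro a
        rw [card_filter]
        push_cast
        apply sum_congr rfl
        intro j _
        by_cases ha : j * R / n = a <;> simp [ha]
      simp only [e2]
      rw [sum_comm]
      apply sum_congr rfl
      intro j hj
      have hmemj : j * R / n ∈ range R := by
        rw [mem_range] at hj ⊢
        rw [Nat.div_lt_iff_lt_mul hn0, mul_comm R n]
        exact Nat.mul_lt_mul_of_pos_right hj hR1
      rw [sum_ite_eq]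
      simp only [hmemj, if_true]
    simp only [h1]
    rw [sum_comm]
    have h2 : ∀ a ∈ range R, ∑ k ∈ range n, (((range n).filter (fun j : ℕ => j * R / n = a ∧
          PQ (Function.update z i (rot ((k:ℝ) / n)), rot ((j:ℝ) / n)))).card : ℝ) ≤
          (n / H + 1) * (2 * d) := by
      intro a _
      set X := (range n).filter (fun k : ℕ => ∃ j < n, j * R / n = a ∧
          PQ (Function.update z i (rot ((k:ℝ) / n)), rot ((j:ℝ) / n))) with hX
      have hXcard : (X.card : ℝ) ≤ n / H + 1 := by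
        have h3 := card_separated X n H hH1 (filter_subset _ _) (by
          intro k hk k' hk' hkk
          by_contra hcon
          push Not at hcon
          rw [hX, mem_filter] at hk hk'
          obtain ⟨-, j, hjn, hja, hPk⟩ := hk
          obtain ⟨-, j', hj'n, hj'a, hPk'⟩ := hk'
          simp only [hPQ] at hPk hPk'
          obtain ⟨hk1, hk2, hk3⟩ := hPk
          obtain ⟨hk1', -, -⟩ := hPk'
          set z1 := Function.update z i (rot ((k:ℝ) / n)) with hz1
          set w1 := rot ((j:ℝ) / n) with hw1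
          set s : ℤ := (k':ℤ) - k with hs
          set t : ℤ := (j':ℤ) - j with ht
          have hz1T : OnT z1 := hup k
          have hw1n : ‖w1‖ = 1 := norm_rot _
          have hz' : Function.update z i (rot ((k':ℝ) / n)) =
              Function.update z1 i (z1 i * rot ((s:ℝ) / n)) := by
            rw [hz1, Function.update_self, Function.update_idem, ← rot_add]
            congr 2
            rw [hs]
            push_cast
            field_simp
            ring
          have hw' : rot ((j':ℝ) / n) = w1 * rot ((t:ℝ) / n) := by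
            rw [hw1, ← rot_add]
            congr 1
            rw [ht]
            push_cast
            field_simp
            ring
          rw [hz', hw'] at hk1'
          have hst := hC z1 w1 hz1T hw1n s t n hn0 τ hk1 hk1'
          have hs1 : 1 ≤ s := by omega
          have hsH : s ≤ H := by omega
          have htR : |(t:ℝ)| * R ≤ n := by
            have h5 : |(t * R : ℤ)| ≤ n := by
              have a1 : a * n ≤ j * R := by rw [← hja]; exact Nat.div_mul_le_self _ _
              have a2 : j * R < (a + 1) * n := by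
                rw [← hja]
                exact (Nat.div_lt_iff_lt_mul hn0).1 (Nat.lt_succ_self _)
              have a3 : a * n ≤ j' * R := by rw [← hj'a]; exact Nat.div_mul_le_self _ _
              have a4 : j' * R < (a + 1) * n := by
                rw [← hj'a]
                exact (Nat.div_lt_iff_lt_mul hn0).1 (Nat.lt_succ_self _)
              rw [abs_le]
              have b1 : ((a:ℤ) * n) ≤ j * R := by exact_mod_cast a1
              have b2 : ((j:ℤ) * R) < (a + 1) * n := by exact_mod_cast a2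
              have b3 : ((a:ℤ) * n) ≤ j' * R := by exact_mod_cast a3
              have b4 : ((j':ℤ) * R) < (a + 1) * n := by exact_mod_cast a4
              rw [ht]
              constructor <;> nlinarith
            have h6 : |((t * R : ℤ) : ℝ)| ≤ n := by exact_mod_cast h5
            push_cast at h6
            rwa [abs_mul, Nat.abs_cast] at h6
          have hadd : |(t:ℝ)| * ‖val z1 w1 (LD F i 0 1)‖ ≤
              ‖val z1 w1 (LD F i s t)‖ + |(s:ℝ)| * ‖val z1 w1 (LD F i 1 0)‖ := by
            have e := val_LD_add F i s t z1 w1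
            have e2 : (t:ℂ) * val z1 w1 (LD F i 0 1) =
                val z1 w1 (LD F i s t) - s * val z1 w1 (LD F i 1 0) := by
              rw [e]
              ring
            have e3 := congrArg norm e2
            rw [norm_mul, Complex.norm_intCast] at e3
            rw [e3]
            refine (norm_sub_le _ _).trans ?_
            rw [norm_mul, Complex.norm_intCast]
          have htH := pair_close c C CX c0 τ ‖val z1 w1 (LD F i 0 1)‖ ‖val z1 w1 (LD F i 1 0)‖
            ‖val z1 w1 (LD F i s t)‖ n R H s t hn0 hR1 hc hC0 (by linarith) hs1 hsH htR hRC hnτ' hk2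
            (hCX z1 w1 hz1T hw1n) hst hadd
          have htH' : |(t:ℝ)| ≤ H' := htH.trans hH'
          have hmemPS : (s, t) ∈ PS := by
            rw [hPS, mem_product, mem_Icc, mem_Icc]
            have : |t| ≤ (H':ℤ) := by exact_mod_cast htH'
            exact ⟨⟨hs1, hsH⟩, abs_le.1 this⟩
          have h7 := hk3 (s, t) hmemPS
          simp only at h7
          have h8 : κm ≤ κ (s, t) := hmin (s, t) hmemPS
          have hsr : |(s:ℝ)| ≤ H := by
            have h1 : (0:ℝ) ≤ s := by exact_mod_cast (by omega : (0:ℤ) ≤ s)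
            rw [abs_of_nonneg h1]
            exact_mod_cast hsH
          have h9 : C * (|(s:ℝ)| + |(t:ℝ)|) ^ 2 / n ≤ C * (H + H') ^ 2 / n := by gcongr
          linarith)
        have h4 : (X.card : ℝ) ≤ ((n / H + 1 : ℕ) : ℝ) := by exact_mod_cast h3
        refine h4.trans ?_
        push_cast
        have := @Nat.cast_div_le ℝ _ _ _ n H
        linarith
      have hterm : ∀ k ∈ range n, (((range n).filter (fun j : ℕ => j * R / n = a ∧
          PQ (Function.update z i (rot ((k:ℝ) / n)), rot ((j:ℝ) / n)))).card : ℝ) ≤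
          if k ∈ X then 2 * (d:ℝ) else 0 := by
        intro k hk
        split_ifs with hkX
        · have h5 := fibre_le hUL hn0 hτ (hup k)
          refine le_trans ?_ h5
          have e1 : (((U n).filter (fun w => ‖val (Function.update z i (rot ((k:ℝ) / n))) w F‖ < τ)).card : ℝ)
              = (((range n).filter (fun j : ℕ =>
                ‖val (Function.update z i (rot ((k:ℝ) / n))) (rot ((j:ℝ) / n)) F‖ < τ)).card : ℝ) := by
            rw [card_filter, card_filter]
            push_cast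
            rw [sum_U hn0]
          rw [e1]
          have e2 : (range n).filter (fun j : ℕ => j * R / n = a ∧
              PQ (Function.update z i (rot ((k:ℝ) / n)), rot ((j:ℝ) / n))) ⊆
              (range n).filter (fun j : ℕ =>
                ‖val (Function.update z i (rot ((k:ℝ) / n))) (rot ((j:ℝ) / n)) F‖ < τ) := by
            intro j hj
            rw [mem_filter] at hj ⊢
            exact ⟨hj.1, hj.2.2.1⟩
          exact_mod_cast card_le_card e2
        · have : (range n).filter (fun j : ℕ => j * R / n = a ∧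
              PQ (Function.update z i (rot ((k:ℝ) / n)), rot ((j:ℝ) / n))) = ∅ := by
            apply filter_false_of_mem
            intro j hj hh
            apply hkX
            rw [hX, mem_filter]
            exact ⟨hk, j, mem_range.1 hj, hh⟩
          rw [this]
          simp
      refine (sum_le_sum hterm).trans ?_
      rw [← sum_filter, sum_const, nsmul_eq_mul]
      have h6 : ((range n).filter (fun k => k ∈ X)).card ≤ X.card := by
        apply card_le_card
        intro k hk
        exact (mem_filter.1 hk).2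
      have h7 : (((range n).filter (fun k => k ∈ X)).card : ℝ) ≤ X.card := by exact_mod_cast h6
      apply mul_le_mul_of_nonneg_right (h7.trans hXcard) (by positivity)
    refine (sum_le_sum h2).trans ?_
    rw [sum_const, card_range, nsmul_eq_mul]
  have hQc : (Q.card : ℝ) ≤ η / 2 * (n:ℝ) ^ M := by
    have h1 : (Q.card : ℝ) = ∑ z ∈ T n M, (((U n).filter (fun w => PQ (z, w))).card : ℝ) := by
      rw [hQ, card_filter_prod]
      push_cast
      rfl
    have h2 := double_count hn0 i (fun z => (((U n).filter (fun w => PQ (z, w))).card : ℝ))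
    rw [← h1] at h2
    have h3 := sum_le_sum hfib
    rw [h2, sum_const, card_T hn0, nsmul_eq_mul] at h3
    push_cast at h3
    have h4 : R * (((n:ℝ) / H + 1) * (2 * d)) ≤ η / 2 * n := by
      have hHr : (1:ℝ) ≤ H := by exact_mod_cast hH1
      have a1 : 2 * d * R * ((n:ℝ) / H) ≤ η / 4 * n := by
        rw [div_le_iff₀ hη] at hHd
        rw [mul_div_assoc', div_le_iff₀ (by linarith)]
        nlinarith
      have a2 : 2 * (d:ℝ) * R ≤ η / 4 * n := by
        have h5 : (n4:ℝ) ≤ n := by exact_mod_cast hnn4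
        have h6 := hn4.trans h5
        rw [div_le_iff₀ hη] at h6
        nlinarith
      nlinarith
    have h5 : (n:ℝ) * Q.card ≤ (n:ℝ) * (η / 2 * (n:ℝ) ^ M) := by
      refine h3.trans ?_
      calc (n:ℝ) ^ M * (R * (((n:ℝ) / H + 1) * (2 * d))) ≤ (n:ℝ) ^ M * (η / 2 * n) :=
            mul_le_mul_of_nonneg_left h4 (by positivity)
        _ = _ := by ring
    exact le_of_mul_le_mul_left h5 (by linarith)
  linarith

end Pool.Agent.H196R3
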