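import Mathlib
import Pool.Agent.H196R3.Basic
import Pool.Agent.H301R2.TR.Lower

/-! The Liouville inequality at torsion points. -/

set_option autoImplicit false

namespace Pool.Agent.H196R3

open Polynomial Finset

theorem liouville_aux {M : ℕ} (F : Polynomial (A M)) (L : ℝ) (hL1 : 1 ≤ L)
    (hL : ∀ (z : Fin M → ℂ) (w : ℂ), OnT z → ‖w‖ = 1 → ‖val z w F‖ ≤ L) (n : ℕ) (hn : 0 < n)
    (K : Type) [Field K] [NumberField K] [IsCyclotomicExtension {n} ℚ K] [NeZero n]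
    (z : Fin M → ℂ) (hz : z ∈ T n M) (w : ℂ) (hw : w ∈ U n) (hne : val z w F ≠ 0) :
    1 ≤ L ^ n * ‖val z w F‖ := by
  classical
  have hζ : IsPrimitiveRoot (IsCyclotomicExtension.zeta n ℚ K) n :=
    IsCyclotomicExtension.zeta_spec n ℚ K
  generalize IsCyclotomicExtension.zeta n ℚ K = ζ at hζ
  let σ0 : K →ₐ[ℚ] ℂ := IsAlgClosed.lift
  have hσζ : IsPrimitiveRoot (σ0 ζ) n := hζ.map_of_injective σ0.injective
  have hpow : ∀ u ∈ U n, ∃ k : ℕ, σ0 ζ ^ k = u := by
    intro u hu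
    rw [mem_U hn] at hu
    obtain ⟨k, -, hk⟩ := hσζ.eq_pow_of_pow_eq_one hu
    exact ⟨k, hk⟩
  choose! e he using hpow
  set y : K := ∑ p ∈ mons F, (cf F p : K) * ((∏ i, (ζ ^ e (z i)) ^ p.2 i) * (ζ ^ e w) ^ p.1)
    with hy
  have hσ : ∀ σ : K →ₐ[ℚ] ℂ, σ y = val (fun i => σ ζ ^ e (z i)) (σ ζ ^ e w) F := by
    intro σ
    rw [val_eq_sum, hy, map_sum]
    apply sum_congr rfl
    intro p _
    rw [mv, map_mul, map_intCast, map_mul, map_prod]
    simp only [map_pow]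
  have hnorm : ∀ σ : K →ₐ[ℚ] ℂ, ‖σ y‖ ≤ L := by
    intro σ
    have hu : ‖σ ζ‖ = 1 := by
      apply Complex.norm_eq_one_of_pow_eq_one (n := n) _ hn.ne'
      rw [← map_pow, hζ.pow_eq_one, map_one]
    rw [hσ]
    apply hL
    · intro i
      simp [hu]
    · simp [hu]
  have hσ0 : σ0 y = val z w F := by
    rw [hσ]
    have h1 : (fun i => σ0 ζ ^ e (z i)) = z := funext (fun i => he (z i) (mem_T.1 hz i))
    rw [h1, he w hw]
  have hζint : IsIntegral ℤ ζ := hζ.isIntegral hn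
  have hint : IsIntegral ℤ y := by
    rw [hy]
    apply IsIntegral.sum
    intro p _
    apply IsIntegral.mul
    · exact isIntegral_intCast _
    · apply IsIntegral.mul
      · apply IsIntegral.prod
        intro i _
        exact (hζint.pow _).pow _
      · exact (hζint.pow _).pow _
  have hy0 : y ≠ 0 := by
    intro h0
    rw [h0, map_zero] at hσ0
    exact hne hσ0.symm
  have h1 := H301R2.TR.one_le_prod_embeddings y hint hy0
  rw [← mul_prod_erase univ _ (mem_univ σ0), hσ0] at h1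
  have h2 : ∏ σ ∈ univ.erase σ0, ‖σ y‖ ≤ L ^ n := by
    calc ∏ σ ∈ univ.erase σ0, ‖σ y‖ ≤ ∏ σ ∈ univ.erase σ0, L :=
          prod_le_prod (fun _ _ => norm_nonneg _) (fun σ _ => hnorm σ)
      _ = L ^ (univ.erase σ0).card := by rw [prod_const]
      _ ≤ L ^ n := by
        apply pow_le_pow_right₀ hL1
        have h3 : Fintype.card (K →ₐ[ℚ] ℂ) = n.totient := by
          rw [AlgHom.card, IsCyclotomicExtension.finrank K (Polynomial.cyclotomic.irreducible_rat hn)]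
        have h4 : (univ.erase σ0).card ≤ Fintype.card (K →ₐ[ℚ] ℂ) := card_le_univ _
        rw [h3] at h4
        exact h4.trans (Nat.totient_le n)
  calc 1 ≤ ‖val z w F‖ * ∏ σ ∈ univ.erase σ0, ‖σ y‖ := h1
    _ ≤ ‖val z w F‖ * L ^ n := mul_le_mul_of_nonneg_left h2 (norm_nonneg _)
    _ = _ := by ring

theorem liouville {M : ℕ} (F : Polynomial (A M)) : ∃ L : ℝ, 1 ≤ L ∧ ∀ n : ℕ, 0 < n →
    ∀ z ∈ T n M, ∀ w ∈ U n, val z w F ≠ 0 → 1 ≤ L ^ n * ‖val z w F‖ := by
  classical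
  obtain ⟨L, hL1, hL⟩ := val_bound F
  refine ⟨L, hL1, fun n hn z hz w hw hne => ?_⟩
  have hnz : NeZero n := ⟨hn.ne'⟩
  have hcyc : IsCyclotomicExtension {n} ℚ (CyclotomicField n ℚ) := by
    convert CyclotomicField.isCyclotomicExtension n ℚ
    · rfl
    · exact Subsingleton.elim _ _
  exact liouville_aux F L hL1 hL n hn (CyclotomicField n ℚ) z hz w hw hne

end Pool.Agent.H196R3
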