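import Mathlib
import Pool.Agent.H196R3.RU

/-! Sums of `|log ‖p w‖|` over roots of unity `w` at which `p` is moderately small. -/

set_option autoImplicit false

namespace Pool.Agent.H196R3

open Polynomial Finset

theorem neg_log_le (b u : ℝ) (hb : 1 < b) (hu : 0 < u) : ∀ J : ℕ, (b⁻¹) ^ J ≤ u →
    -Real.log u ≤ Real.log b * (((range J).filter (fun j => u < (b⁻¹) ^ j)).card : ℝ) := by
  have hlb : 0 < Real.log b := Real.log_pos hb
  have hbi : b⁻¹ ≤ 1 := inv_le_one_of_one_le₀ hb.le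
  have hbi0 : 0 < b⁻¹ := by positivity
  intro J
  induction J with
  | zero =>
    intro h
    have : 0 ≤ Real.log u := Real.log_nonneg (by simpa using h)
    simp
    exact this
  | succ J ih =>
    intro h
    by_cases hJ : u < (b⁻¹) ^ J
    · have hall : (range (J + 1)).filter (fun j => u < (b⁻¹) ^ j) = range (J + 1) := by
        apply filter_true_of_mem
        intro j hj
        have hj' : j ≤ J := by
          have := mem_range.1 hj
          omega
        exact lt_of_lt_of_le hJ (pow_le_pow_of_le_one hbi0.le hbi hj')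
      rw [hall, card_range]
      have h1 : Real.log ((b⁻¹) ^ (J + 1)) ≤ Real.log u := Real.log_le_log (by positivity) h
      rw [Real.log_pow, Real.log_inv] at h1
      push_cast at h1 ⊢
      linarith
    · push Not at hJ
      refine (ih hJ).trans ?_
      apply mul_le_mul_of_nonneg_left _ hlb.le
      have : (range J).filter (fun j => u < (b⁻¹) ^ j) ⊆
          (range (J + 1)).filter (fun j => u < (b⁻¹) ^ j) := by
        apply filter_subset_filter
        exact range_subset_range.2 (Nat.le_succ J)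
      exact_mod_cast card_le_card this

theorem geom_tail (J0 : ℕ) : ∀ J : ℕ,
    ∑ j ∈ (range J).filter (fun j => J0 < j), ((1:ℝ) / 2) ^ j ≤ (1 / 2) ^ J0 - (1 / 2) ^ (max J0 J) + (1/2)^(max J0 J) := by
  intro J
  have key : ∀ J : ℕ, ∑ j ∈ (range J).filter (fun j => J0 < j), ((1:ℝ) / 2) ^ j ≤
      (1 / 2) ^ J0 - (1 / 2) ^ (max J0 (J - 1)) := by
    intro J
    induction J with
    | zero => simp
    | succ J ih =>
      rw [range_add_one, filter_insert]
      split_ifs with h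
      · rw [sum_insert (by simp)]
        have e1 : max J0 (J + 1 - 1) = J := by omega
        have e2 : max J0 (J - 1) = J - 1 := by omega
        rw [e1]
        rw [e2] at ih
        have e3 : ((1:ℝ) / 2) ^ (J - 1) = 2 * (1 / 2) ^ J := by
          obtain ⟨k, rfl⟩ : ∃ k, J = k + 1 := ⟨J - 1, by omega⟩
          rw [Nat.add_sub_cancel, pow_succ]
          ring
        rw [e3] at ih
        linarith
      · have e1 : max J0 (J + 1 - 1) = J0 := by omega
        have e2 : max J0 (J - 1) = J0 := by omega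
        rw [e1]
        rw [e2] at ih
        exact ih
  have h1 := key J
  have h2 : (0:ℝ) ≤ (1 / 2) ^ (max J0 (J - 1)) := by positivity
  linarith

theorem shell_arith (d X j0 j L l2 cS sm tot : ℝ) (hd : 1 ≤ d) (hX : 0 ≤ X) (hj0 : 0 ≤ j0)
    (hj : 0 ≤ j) (hL : 0 ≤ L) (hl2 : l2 ≤ 1) (hl20 : 0 ≤ l2) (hcS : cS ≤ d * (X + 1))
    (hsm0 : 0 ≤ sm) (hsm : sm ≤ (j0 + 1) * (d * (X + 1)) + d * (X + j))
    (ht : tot ≤ cS * L + d * l2 * sm) :
    tot ≤ (2 * d ^ 2 + d * L) * ((j0 + 1) * (X + 1) + j) := by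
  have h1 : cS * L ≤ d * (X + 1) * L := mul_le_mul_of_nonneg_right hcS hL
  have h2 : d * l2 * sm ≤ d * 1 * ((j0 + 1) * (d * (X + 1)) + d * (X + j)) := by
    apply mul_le_mul _ hsm hsm0 (by positivity)
    exact mul_le_mul_of_nonneg_left hl2 (by positivity)
  have h3 : X + j ≤ (j0 + 1) * (X + 1) + j := by
    have : 0 ≤ j0 * (X + 1) := by positivity
    linarith
  have h4 : d ^ 2 * (X + j) ≤ d ^ 2 * ((j0 + 1) * (X + 1) + j) :=
    mul_le_mul_of_nonneg_left h3 (by positivity)
  have h5 : 0 ≤ d ^ 2 * j := by positivity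
  have h6 : X + 1 ≤ (j0 + 1) * (X + 1) + j := by
    have : 0 ≤ j0 * (X + 1) := by positivity
    linarith
  have h7 : (d * L) * (X + 1) ≤ (d * L) * ((j0 + 1) * (X + 1) + j) :=
    mul_le_mul_of_nonneg_left h6 (by positivity)
  have e1 : d * 1 * ((j0 + 1) * (d * (X + 1)) + d * (X + j)) =
    d ^ 2 * ((j0 + 1) * (X + 1)) + d ^ 2 * (X + j) := by ring
  have e2 : (2 * d ^ 2 + d * L) * ((j0 + 1) * (X + 1) + j) =
    d ^ 2 * ((j0 + 1) * (X + 1)) + d ^ 2 * j + d ^ 2 * ((j0 + 1) * (X + 1) + j) +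
      (d * L) * ((j0 + 1) * (X + 1) + j) := by ring
  have e3 : d * (X + 1) * L = (d * L) * (X + 1) := by ring
  rw [e1] at h2
  rw [e3] at h1
  rw [e2]
  linarith

/-- the shell bound -/
theorem shell {n : ℕ} (hn : 0 < n) (p : ℂ[X]) (c₀ : ℝ) (hc0 : 0 < c₀)
    (hc : c₀ ≤ ‖p.leadingCoeff‖) (hd : 1 ≤ p.natDegree) (J0 J : ℕ)
    (h1 : c₀ * ((1 / 2) ^ J0) ^ p.natDegree ≤ 1) :
    ∑ w ∈ (U n).filter (fun w => c₀ * ((1 / 2) ^ J) ^ p.natDegree ≤ ‖p.eval w‖ ∧
      ‖p.eval w‖ < c₀ * ((1 / 2) ^ J0) ^ p.natDegree), |Real.log ‖p.eval w‖| ≤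
    (2 * (p.natDegree : ℝ) ^ 2 + p.natDegree * |Real.log c₀|) *
      ((J0 + 1) * (n * (1 / 2) ^ J0 + 1) + J) := by
  classical
  set d := p.natDegree with hdd
  set S := (U n).filter (fun w => c₀ * ((1 / 2) ^ J) ^ d ≤ ‖p.eval w‖ ∧
      ‖p.eval w‖ < c₀ * ((1 / 2) ^ J0) ^ d) with hS
  have hdr : (1:ℝ) ≤ d := by exact_mod_cast hd
  have hρ : (0:ℝ) ≤ (1 / 2) ^ J0 := by positivity
  -- the size of S
  have hcard : (S.card : ℝ) ≤ d * (n * (1 / 2) ^ J0 + 1) := by
    refine le_trans ?_ (card_small hn p c₀ ((1/2) ^ J0) hρ hc _ le_rfl)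
    have : S ⊆ (U n).filter (fun w => ‖p.eval w‖ < c₀ * ((1 / 2) ^ J0) ^ p.natDegree) := by
      intro w hw
      rw [hS, mem_filter] at hw
      exact mem_filter.2 ⟨hw.1, hw.2.2⟩
    exact_mod_cast card_le_card this
  set b : ℝ := 2 ^ d with hb
  have hb1 : 1 < b := by
    rw [hb]
    exact one_lt_pow₀ (by norm_num) (by omega)
  have hbpow : ∀ j : ℕ, (b⁻¹) ^ j = ((1 / 2) ^ j) ^ d := by
    intro j
    rw [hb, ← inv_pow, ← pow_mul, ← pow_mul, mul_comm d j]
    norm_num
  have hlogb : Real.log b = d * Real.log 2 := by rw [hb, Real.log_pow]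
  have hterm : ∀ w ∈ S, |Real.log ‖p.eval w‖| ≤ |Real.log c₀| +
      Real.log b * (((range J).filter (fun j => ‖p.eval w‖ / c₀ < (b⁻¹) ^ j)).card : ℝ) := by
    intro w hw
    rw [hS, mem_filter] at hw
    obtain ⟨-, h2, h3⟩ := hw
    have hpos : 0 < ‖p.eval w‖ := lt_of_lt_of_le (by positivity) h2
    have h4 := neg_log_le b (‖p.eval w‖ / c₀) hb1 (by positivity) J (by
      rw [hbpow, le_div_iff₀ hc0]
      linarith)
    have h5 : |Real.log ‖p.eval w‖| = -Real.log ‖p.eval w‖ := by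
      rw [abs_of_nonpos]
      exact Real.log_nonpos hpos.le (h3.le.trans h1)
    rw [Real.log_div hpos.ne' hc0.ne'] at h4
    rw [h5]
    have := neg_abs_le (Real.log c₀)
    linarith
  have hsum := sum_le_sum hterm
  rw [sum_add_distrib, sum_const, nsmul_eq_mul, ← mul_sum] at hsum
  -- exchange the sums
  have hex : ∑ w ∈ S, (((range J).filter (fun j => ‖p.eval w‖ / c₀ < (b⁻¹) ^ j)).card : ℝ) =
      ∑ j ∈ range J, ((S.filter (fun w => ‖p.eval w‖ / c₀ < (b⁻¹) ^ j)).card : ℝ) := by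
    simp only [card_filter]
    push_cast
    rw [sum_comm]
  rw [hex] at hsum
  -- bound each
  have hj : ∀ j ∈ range J, ((S.filter (fun w => ‖p.eval w‖ / c₀ < (b⁻¹) ^ j)).card : ℝ) ≤
      (if j ≤ J0 then (d:ℝ) * ((n:ℝ) * (1 / 2) ^ J0 + 1) else (0:ℝ)) +
      (if J0 < j then (d:ℝ) * ((n:ℝ) * (1 / 2) ^ j + 1) else (0:ℝ)) := by
    intro j _
    by_cases hjj : j ≤ J0
    · rw [if_pos hjj, if_neg (by omega), add_zero]
      refine le_trans ?_ hcard
      exact_mod_cast card_le_card (filter_subset _ _)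
    · rw [if_neg hjj, if_pos (by omega), zero_add]
      refine le_trans ?_ (card_small hn p c₀ ((1/2) ^ j) (by positivity) hc _ le_rfl)
      have : S.filter (fun w => ‖p.eval w‖ / c₀ < (b⁻¹) ^ j) ⊆
          (U n).filter (fun w => ‖p.eval w‖ < c₀ * ((1 / 2) ^ j) ^ p.natDegree) := by
        intro w hw
        rw [mem_filter] at hw
        rw [hS, mem_filter] at hw
        refine mem_filter.2 ⟨hw.1.1, ?_⟩
        have := hw.2
        rw [hbpow, div_lt_iff₀ hc0] at this
        linarith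
      exact_mod_cast card_le_card this
  have hsum2 := sum_le_sum hj
  rw [sum_add_distrib] at hsum2
  have hs1 : ∑ j ∈ range J, (if j ≤ J0 then (d:ℝ) * ((n:ℝ) * (1 / 2) ^ J0 + 1) else (0:ℝ)) ≤
      (J0 + 1) * (d * (n * (1 / 2) ^ J0 + 1)) := by
    rw [← sum_filter, sum_const, nsmul_eq_mul]
    apply mul_le_mul_of_nonneg_right _ (by positivity)
    have : (range J).filter (fun j => j ≤ J0) ⊆ range (J0 + 1) := by
      intro j hj
      rw [mem_filter] at hj
      rw [mem_range]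
      omega
    have := card_le_card this
    rw [card_range] at this
    exact_mod_cast this
  have hs2 : ∑ j ∈ range J, (if J0 < j then (d:ℝ) * ((n:ℝ) * (1 / 2) ^ j + 1) else (0:ℝ)) ≤
      d * (n * (1 / 2) ^ J0 + J) := by
    rw [← sum_filter, ← mul_sum, sum_add_distrib, ← mul_sum]
    apply mul_le_mul_of_nonneg_left _ (by positivity)
    apply add_le_add
    · apply mul_le_mul_of_nonneg_left _ (by positivity)
      have := geom_tail J0 J
      linarith
    · rw [sum_const, nsmul_eq_mul, mul_one]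
      have := card_le_card (filter_subset (fun j => J0 < j) (range J))
      rw [card_range] at this
      exact_mod_cast this
  have hlog2 : Real.log 2 ≤ 1 := by
    have := Real.log_two_lt_d9
    linarith
  have hlog20 : 0 ≤ Real.log 2 := Real.log_nonneg (by norm_num)
  rw [hlogb] at hsum
  refine shell_arith (d:ℝ) ((n:ℝ) * (1 / 2) ^ J0) J0 J |Real.log c₀| (Real.log 2) (S.card : ℝ)
    (∑ j ∈ range J, ((S.filter (fun w => ‖p.eval w‖ / c₀ < (b⁻¹) ^ j)).card : ℝ)) _ hdr
    (by positivity) (by positivity) (by positivity) (abs_nonneg _) hlog2 hlog20 hcard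
    (sum_nonneg (fun j _ => by positivity)) ?_ hsum
  exact hsum2.trans (add_le_add hs1 hs2)

end Pool.Agent.H196R3
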