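import Mathlib
import Pool.Agent.H196R3.CaseA
import Pool.Agent.H196R3.CaseB2
import Pool.Agent.H196R3.LiouRU
import Pool.Agent.H196R3.Shell

/-! The sum of `|log ‖F‖|` over torsion points with small nonzero value. -/

set_option autoImplicit false

namespace Pool.Agent.H196R3

open Polynomial Finset

/-- the contribution of the small values is small -/
def Good {M : ℕ} (F : Polynomial (A M)) : Prop :=
  ∀ η : ℝ, 0 < η → ∃ δ : ℝ, 0 < δ ∧ ∃ n₀ : ℕ, ∀ n ≥ n₀, 0 < n →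
    ∑ x ∈ (T n M ×ˢ U n).filter (fun x => val x.1 x.2 F ≠ 0 ∧ ‖val x.1 x.2 F‖ < δ),
      |Real.log ‖val x.1 x.2 F‖| ≤ η * (n:ℝ) ^ (M + 1)

theorem UL.mono {M : ℕ} {F : Polynomial (A M)} {c c' : ℝ} (h : UL F c) (hc' : 0 < c')
    (hcc : c' ≤ c) : UL F c' := ⟨hc', fun z hz => hcc.trans (h.2 z hz)⟩

theorem good_of_natDegree_zero {M : ℕ} {F : Polynomial (A M)} {c : ℝ} (h : UL F c)
    (hd : F.natDegree = 0) : Good F := by
  intro η hη
  refine ⟨c, h.1, 0, fun n _ hn0 => ?_⟩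
  have h1 : (T n M ×ˢ U n).filter (fun x => val x.1 x.2 F ≠ 0 ∧ ‖val x.1 x.2 F‖ < c) = ∅ := by
    apply filter_false_of_mem
    rintro ⟨z, w⟩ hx ⟨-, h2⟩
    rw [mem_product] at hx
    have h3 := h.2 z (onT_of_mem_T hn0 hx.1)
    have h4 : F = C (F.coeff 0) := eq_C_of_natDegree_eq_zero hd
    have h5 : val z w F = evz z F.leadingCoeff := by
      conv_lhs => rw [h4]
      rw [val_C, leadingCoeff, hd]
    rw [h5] at h2
    linarith
  rw [h1, sum_empty]
  positivity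

/-- the number of small values, uniformly -/
theorem card_small_all {M : ℕ} {F : Polynomial (A M)} {c : ℝ} (h : UL F c) (η : ℝ) (hη : 0 < η) :
    ∃ δ : ℝ, 0 < δ ∧ ∃ n₀ : ℕ, ∀ n ≥ n₀, 0 < n →
      (((T n M ×ˢ U n).filter (fun x => ‖val x.1 x.2 F‖ < δ)).card : ℝ) ≤ η * (n:ℝ) ^ (M + 1) := by
  set d := F.natDegree with hd
  set ρ : ℝ := η / (2 * (d + 1)) with hρ
  have hρ0 : 0 < ρ := by positivity
  obtain ⟨n₀, hn₀⟩ := exists_nat_ge (2 * d / η)
  refine ⟨c * ρ ^ d, mul_pos h.1 (pow_pos hρ0 _), n₀, fun n hn hn0 => ?_⟩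
  rw [card_filter_prod]
  push_cast
  have h1 : ∀ z ∈ T n M, (((U n).filter (fun w => ‖val z w F‖ < c * ρ ^ d)).card : ℝ) ≤
      d * (n * ρ + 1) := by
    intro z hz
    exact h.card_small (onT_of_mem_T hn0 hz) hn0 ρ hρ0.le _ le_rfl
  refine (sum_le_sum h1).trans ?_
  rw [sum_const, card_T hn0, nsmul_eq_mul]
  push_cast
  have hnr : (0:ℝ) < n := by exact_mod_cast hn0
  have h2 : 2 * (d:ℝ) ≤ η * n := by
    have h3 : (n₀:ℝ) ≤ n := by exact_mod_cast hn
    have h4 := hn₀.trans h3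
    rw [div_le_iff₀ hη] at h4
    linarith
  have h3 : (d:ℝ) * (n * ρ) ≤ η / 2 * n := by
    have e : (d:ℝ) * (n * ρ) = (d / (d + 1)) * (η / 2 * n) := by
      rw [hρ]
      field_simp
    rw [e]
    have h5 : (d:ℝ) / (d + 1) ≤ 1 := by
      rw [div_le_one (by positivity)]
      linarith
    calc (d:ℝ) / (d + 1) * (η / 2 * n) ≤ 1 * (η / 2 * n) :=
          mul_le_mul_of_nonneg_right h5 (by positivity)
      _ = _ := one_mul _
  have h6 : (d:ℝ) * (n * ρ + 1) ≤ η * n := by linarith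
  calc (n:ℝ) ^ M * (d * (n * ρ + 1)) ≤ (n:ℝ) ^ M * (η * n) :=
        mul_le_mul_of_nonneg_left h6 (by positivity)
    _ = _ := by ring

theorem abs_log_le {x δ L : ℝ} (hδ : 0 < δ) (h1 : δ ≤ x) (h2 : x ≤ L) :
    |Real.log x| ≤ |Real.log δ| + |Real.log L| := by
  have hx : 0 < x := lt_of_lt_of_le hδ h1
  have h3 := Real.log_le_log hδ h1
  have h4 := Real.log_le_log hx h2
  rw [abs_le]
  have h5 := neg_abs_le (Real.log δ)
  have h6 := le_abs_self (Real.log L)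
  have h7 := abs_nonneg (Real.log δ)
  have h8 := abs_nonneg (Real.log L)
  constructor <;> linarith

/-- one half of the product estimate -/
theorem good_half {M : ℕ} {F H : Polynomial (A M)} {c : ℝ} (hF : Good F) (hH : UL H c)
    (hdvd : F ∣ H) (η : ℝ) (hη : 0 < η) : ∃ δ : ℝ, 0 < δ ∧ ∃ n₀ : ℕ, ∀ δ' ≤ δ, ∀ n ≥ n₀, 0 < n →
    ∑ x ∈ (T n M ×ˢ U n).filter (fun x => val x.1 x.2 H ≠ 0 ∧ ‖val x.1 x.2 H‖ < δ'),
      |Real.log ‖val x.1 x.2 F‖| ≤ η * (n:ℝ) ^ (M + 1) := by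
  classical
  obtain ⟨δF, hδF, n₁, h1⟩ := hF (η / 2) (by positivity)
  obtain ⟨L, hL1, hL⟩ := val_bound F
  set K : ℝ := |Real.log δF| + |Real.log L| + 1 with hK
  have hK1 : 1 ≤ K := by
    have h7 := abs_nonneg (Real.log δF)
    have h8 := abs_nonneg (Real.log L)
    linarith
  obtain ⟨δ, hδ, n₂, h2⟩ := card_small_all hH (η / (2 * K)) (by positivity)
  refine ⟨δ, hδ, max n₁ n₂, fun δ' hδ' n hn hn0 => ?_⟩
  have h3 := h1 n ((le_max_left _ _).trans hn) hn0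
  have h4 := h2 n ((le_max_right _ _).trans hn) hn0
  obtain ⟨Q, hQ⟩ := hdvd
  set S := (T n M ×ˢ U n).filter (fun x => val x.1 x.2 H ≠ 0 ∧ ‖val x.1 x.2 H‖ < δ') with hS
  rw [← sum_filter_add_sum_filter_not S (fun x => ‖val x.1 x.2 F‖ < δF)]
  have h5 : ∑ x ∈ S.filter (fun x => ‖val x.1 x.2 F‖ < δF), |Real.log ‖val x.1 x.2 F‖| ≤
      η / 2 * (n:ℝ) ^ (M + 1) := by
    refine le_trans (sum_le_sum_of_subset_of_nonneg ?_ (fun _ _ _ => abs_nonneg _)) h3
    intro x hx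
    rw [hS, mem_filter, mem_filter] at hx
    rw [mem_filter]
    refine ⟨hx.1.1, ?_, hx.2⟩
    have h6 := hx.1.2.1
    rw [hQ, map_mul] at h6
    exact left_ne_zero_of_mul h6
  have h6 : ∑ x ∈ S.filter (fun x => ¬ ‖val x.1 x.2 F‖ < δF), |Real.log ‖val x.1 x.2 F‖| ≤
      η / 2 * (n:ℝ) ^ (M + 1) := by
    have h7 : ∀ x ∈ S.filter (fun x => ¬ ‖val x.1 x.2 F‖ < δF), |Real.log ‖val x.1 x.2 F‖| ≤ K := by
      intro x hx
      rw [mem_filter, hS, mem_filter, mem_product] at hx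
      obtain ⟨⟨⟨hz, hw⟩, -, -⟩, hx2⟩ := hx
      push Not at hx2
      have := abs_log_le hδF hx2 (hL x.1 x.2 (onT_of_mem_T hn0 hz) (norm_of_mem_U hn0 hw))
      linarith
    refine (sum_le_sum h7).trans ?_
    rw [sum_const, nsmul_eq_mul]
    have h8 : ((S.filter (fun x => ¬ ‖val x.1 x.2 F‖ < δF)).card : ℝ) ≤
        η / (2 * K) * (n:ℝ) ^ (M + 1) := by
      refine le_trans ?_ h4
      have : S.filter (fun x => ¬ ‖val x.1 x.2 F‖ < δF) ⊆
          (T n M ×ˢ U n).filter (fun x => ‖val x.1 x.2 H‖ < δ) := by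
        intro x hx
        rw [mem_filter, hS, mem_filter] at hx
        rw [mem_filter]
        exact ⟨hx.1.1, lt_of_lt_of_le hx.1.2.2 hδ'⟩
      exact_mod_cast card_le_card this
    calc _ ≤ η / (2 * K) * (n:ℝ) ^ (M + 1) * K := mul_le_mul_of_nonneg_right h8 (by linarith)
      _ = _ := by field_simp
  linarith

theorem Good.mul {M : ℕ} {F G : Polynomial (A M)} {c : ℝ} (hF : Good F) (hG : Good G)
    (hUL : UL (F * G) c) : Good (F * G) := by
  intro η hη
  obtain ⟨δ₁, hδ₁, n₁, h1⟩ := good_half hF hUL (Dvd.intro _ rfl) (η / 2) (by positivity)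
  obtain ⟨δ₂, hδ₂, n₂, h2⟩ := good_half hG hUL (Dvd.intro_left _ rfl) (η / 2) (by positivity)
  refine ⟨min δ₁ δ₂, lt_min hδ₁ hδ₂, max n₁ n₂, fun n hn hn0 => ?_⟩
  have h3 := h1 _ (min_le_left δ₁ δ₂) n ((le_max_left _ _).trans hn) hn0
  have h4 := h2 _ (min_le_right δ₁ δ₂) n ((le_max_right _ _).trans hn) hn0
  have h5 := add_le_add h3 h4
  rw [← sum_add_distrib] at h5
  have h6 : η / 2 * (n:ℝ) ^ (M + 1) + η / 2 * (n:ℝ) ^ (M + 1) = η * (n:ℝ) ^ (M + 1) := by ring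
  rw [h6] at h5
  refine le_trans (sum_le_sum ?_) h5
  intro x hx
  rw [mem_filter] at hx
  have h7 := hx.2.1
  rw [map_mul] at h7
  rw [map_mul, norm_mul, Real.log_mul (norm_ne_zero_iff.2 (left_ne_zero_of_mul h7))
    (norm_ne_zero_iff.2 (right_ne_zero_of_mul h7))]
  exact abs_add_le _ _

/-- the points extremely close to the zero set -/
theorem close_part {M : ℕ} (F : Polynomial (A M)) (hirr : Irreducible F) (hd : F.natDegree ≠ 0)
    (c0 : ℝ) (hc01 : c0 ≤ 1) (hUL : UL F c0) (η : ℝ) (hη : 0 < η) :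
    ∃ n₀ : ℕ, ∀ n ≥ n₀, 0 < n → ∀ τ : ℝ, τ ≤ c0 * ((1 / (n:ℝ)) ^ 2) ^ F.natDegree →
      ∑ x ∈ (T n M ×ˢ U n).filter (fun x => val x.1 x.2 F ≠ 0 ∧ ‖val x.1 x.2 F‖ < τ),
        |Real.log ‖val x.1 x.2 F‖| ≤ η * (n:ℝ) ^ (M + 1) := by
  classical
  -- a common shape: a count and a bound on each term
  have key : ∀ (n : ℕ) (hn0 : 0 < n) (τ : ℝ) (hτ : τ ≤ c0 * ((1 / (n:ℝ)) ^ 2) ^ F.natDegree)
      (B N : ℝ) (hN : (((T n M ×ˢ U n).filter (fun x => ‖val x.1 x.2 F‖ < τ)).card : ℝ) ≤ N)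
      (hB0 : 0 ≤ B)
      (hB : ∀ z ∈ T n M, ∀ w ∈ U n, val z w F ≠ 0 → Real.exp (-B) ≤ ‖val z w F‖),
      ∑ x ∈ (T n M ×ˢ U n).filter (fun x => val x.1 x.2 F ≠ 0 ∧ ‖val x.1 x.2 F‖ < τ),
        |Real.log ‖val x.1 x.2 F‖| ≤ N * B := by
    intro n hn0 τ hτ B N hN hB0 hB
    have hτ1 : τ ≤ 1 := by
      refine hτ.trans ?_
      have hnr : (1:ℝ) ≤ n := by exact_mod_cast hn0
      have h2 : ((1:ℝ) / n) ≤ 1 := by
        rw [div_le_one (by linarith)]
        exact hnr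
      have h3 : (((1:ℝ) / n) ^ 2) ^ F.natDegree ≤ 1 :=
        pow_le_one₀ (by positivity) (pow_le_one₀ (by positivity) h2)
      calc c0 * (((1:ℝ) / n) ^ 2) ^ F.natDegree ≤ 1 * 1 :=
            mul_le_mul hc01 h3 (by positivity) (by norm_num)
        _ = 1 := one_mul _
    have h1 : ∀ x ∈ (T n M ×ˢ U n).filter (fun x => val x.1 x.2 F ≠ 0 ∧ ‖val x.1 x.2 F‖ < τ),
        |Real.log ‖val x.1 x.2 F‖| ≤ B := by
      intro x hx
      rw [mem_filter, mem_product] at hx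
      obtain ⟨⟨hz, hw⟩, hne, hlt⟩ := hx
      have hpos : 0 < ‖val x.1 x.2 F‖ := norm_pos_iff.2 hne
      rw [abs_of_nonpos (Real.log_nonpos hpos.le (hlt.le.trans hτ1))]
      have h2 := Real.log_le_log (Real.exp_pos _) (hB x.1 hz x.2 hw hne)
      rw [Real.log_exp] at h2
      linarith
    refine (sum_le_sum h1).trans ?_
    rw [sum_const, nsmul_eq_mul]
    apply mul_le_mul_of_nonneg_right _ hB0
    refine le_trans ?_ hN
    have : (T n M ×ˢ U n).filter (fun x => val x.1 x.2 F ≠ 0 ∧ ‖val x.1 x.2 F‖ < τ) ⊆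
        (T n M ×ˢ U n).filter (fun x => ‖val x.1 x.2 F‖ < τ) := by
      intro x hx
      rw [mem_filter] at hx ⊢
      exact ⟨hx.1, hx.2.2⟩
    exact_mod_cast card_le_card this
  by_cases hA : ∀ i : Fin M, ∃ s t : ℤ, (s ≠ 0 ∨ t ≠ 0) ∧ ∃ l : ℤ, ∀ p ∈ mons F, wt i s t p = l
  · -- exponents on a line
    have hdpos : (0:ℝ) < F.natDegree := by exact_mod_cast Nat.pos_of_ne_zero hd
    obtain ⟨n₀, h⟩ := caseA F c0 hUL hA (η / (2 * F.natDegree)) (by positivity)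
    refine ⟨n₀, fun n hn hn0 τ hτ => ?_⟩
    have h1 := key n hn0 τ hτ (η / (2 * F.natDegree) * n) (n ^ M * (2 * F.natDegree)) ?_
      (by positivity) (h n hn hn0)
    · refine h1.trans (le_of_eq ?_)
      field_simp
      ring
    · rw [card_filter_prod]
      push_cast
      have h2 : ∀ z ∈ T n M, (((U n).filter (fun w => ‖val z w F‖ < τ)).card : ℝ) ≤
          2 * F.natDegree := fun z hz => fibre_le hUL hn0 hτ (onT_of_mem_T hn0 hz)
      refine (sum_le_sum h2).trans ?_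
      rw [sum_const, card_T hn0, nsmul_eq_mul]
      push_cast
      exact le_rfl
  · push Not at hA
    obtain ⟨i, hi⟩ := hA
    obtain ⟨L, hL1, hL⟩ := liouville F
    have hlogL : 0 ≤ Real.log L := Real.log_nonneg hL1
    obtain ⟨n₀, h⟩ := caseB F hirr hd c0 hUL i hi (η / (Real.log L + 1)) (by positivity)
    refine ⟨n₀, fun n hn hn0 τ hτ => ?_⟩
    have h1 := key n hn0 τ hτ (n * Real.log L) (η / (Real.log L + 1) * n ^ M) (h n hn hn0 τ hτ)
      (by positivity) ?_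
    · refine h1.trans ?_
      have h2 : η / (Real.log L + 1) * (n:ℝ) ^ M * (n * Real.log L) =
          (Real.log L / (Real.log L + 1)) * (η * (n:ℝ) ^ (M + 1)) := by
        field_simp
        ring
      rw [h2]
      have h5 : Real.log L / (Real.log L + 1) ≤ 1 := by
        rw [div_le_one (by positivity)]
        linarith
      calc _ ≤ 1 * (η * (n:ℝ) ^ (M + 1)) := mul_le_mul_of_nonneg_right h5 (by positivity)
        _ = _ := one_mul _
    · intro z hz w hw hne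
      have h3 := hL n hn0 z hz w hw hne
      have hLpos : 0 < L := by linarith
      rw [Real.exp_neg, ← Real.log_pow, Real.exp_log (pow_pos hLpos n)]
      rw [inv_le_iff_one_le_mul₀ (pow_pos hLpos n)]
      linarith

theorem log2_bound (n : ℕ) (hn : 0 < n) :
    ((1:ℝ) / 2) ^ (2 * (Nat.log 2 n + 1)) ≤ (1 / (n:ℝ)) ^ 2 := by
  rw [mul_comm, pow_mul]
  apply pow_le_pow_left₀ (by positivity)
  rw [one_div_pow]
  apply one_div_le_one_div_of_le (by exact_mod_cast hn)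
  have := Nat.lt_pow_succ_log_self (b := 2) (by norm_num) n
  exact_mod_cast this.le

theorem log2_small (η : ℝ) (hη : 0 < η) :
    ∃ n₀ : ℕ, ∀ n ≥ n₀, 0 < n → ((2 * (Nat.log 2 n + 1) : ℕ) : ℝ) ≤ η * n := by
  obtain ⟨n₀, hn₀⟩ := exists_nat_ge ((16 / η) ^ 2)
  obtain ⟨n₁, hn₁⟩ := exists_nat_ge (4 / η)
  refine ⟨max n₀ n₁, fun n hn hn0 => ?_⟩
  have hnr : (0:ℝ) < n := by exact_mod_cast hn0
  have h0 : (16 / η) ^ 2 ≤ n := hn₀.trans (by exact_mod_cast (le_max_left _ _).trans hn)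
  have h1 : 4 / η ≤ n := hn₁.trans (by exact_mod_cast (le_max_right _ _).trans hn)
  have h2 : (Nat.log 2 n : ℝ) ≤ 4 * Real.sqrt n := by
    have h3 : (2:ℝ) ^ (Nat.log 2 n) ≤ n := by exact_mod_cast Nat.pow_log_le_self 2 hn0.ne'
    have h4 : Real.log ((2:ℝ) ^ (Nat.log 2 n)) ≤ Real.log n := Real.log_le_log (by positivity) h3
    rw [Real.log_pow] at h4
    have h5 : (0.6931471803 : ℝ) < Real.log 2 := Real.log_two_gt_d9
    have h6 : Real.log n ≤ 2 * (Real.sqrt n - 1) := by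
      have h7 := Real.log_le_sub_one_of_pos (Real.sqrt_pos.2 hnr)
      have h8 : Real.log n = 2 * Real.log (Real.sqrt n) := by
        rw [Real.log_sqrt hnr.le]
        ring
      rw [h8]
      linarith
    have h9 : (Nat.log 2 n : ℝ) * (1 / 2) ≤ (Nat.log 2 n : ℝ) * Real.log 2 :=
      mul_le_mul_of_nonneg_left (by linarith) (by positivity)
    linarith
  have h3 : 16 / η ≤ Real.sqrt n := Real.le_sqrt_of_sq_le h0
  rw [div_le_iff₀ hη] at h1 h3
  have h4 : 16 * Real.sqrt n ≤ Real.sqrt n * η * Real.sqrt n :=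
    mul_le_mul_of_nonneg_right h3 (Real.sqrt_nonneg _)
  have h5 : Real.sqrt n * η * Real.sqrt n = η * n := by
    have := Real.mul_self_sqrt hnr.le
    calc Real.sqrt n * η * Real.sqrt n = η * (Real.sqrt n * Real.sqrt n) := by ring
      _ = _ := by rw [this]
  push_cast
  linarith

theorem geom_small (K η : ℝ) (hK : 0 ≤ K) (hη : 0 < η) :
    ∃ J : ℕ, K * ((J + 1) * (1 / 2) ^ J) ≤ η := by
  have h1 : Filter.Tendsto (fun J : ℕ => (J:ℝ) * (1 / 2) ^ J) Filter.atTop (nhds 0) :=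
    tendsto_self_mul_const_pow_of_lt_one (by norm_num) (by norm_num)
  have h2 : Filter.Tendsto (fun J : ℕ => ((1:ℝ) / 2) ^ J) Filter.atTop (nhds 0) :=
    tendsto_pow_atTop_nhds_zero_of_lt_one (by norm_num) (by norm_num)
  have h3 := (h1.add h2).const_mul K
  simp only [add_zero, mul_zero] at h3
  obtain ⟨J, hJ⟩ := (h3.eventually (gt_mem_nhds hη)).exists
  refine ⟨J, le_trans (le_of_eq ?_) hJ.le⟩
  ring

theorem good_irreducible {M : ℕ} (F : Polynomial (A M)) (hirr : Irreducible F)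
    (c : ℝ) (hUL' : UL F c) : Good F := by
  classical
  by_cases hd : F.natDegree = 0
  · exact good_of_natDegree_zero hUL' hd
  set c0 : ℝ := min c 1 with hc0d
  have hc0 : 0 < c0 := lt_min hUL'.1 one_pos
  have hc01 : c0 ≤ 1 := min_le_right _ _
  have hUL : UL F c0 := hUL'.mono hc0 (min_le_left _ _)
  intro η hη
  set d := F.natDegree with hdd
  set K : ℝ := 2 * (d : ℝ) ^ 2 + d * |Real.log c0| with hK
  have hK0 : 0 ≤ K := by positivity
  obtain ⟨J0, hJ0⟩ := geom_small K (η / 8) hK0 (by positivity)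
  obtain ⟨n₁, h1⟩ := close_part F hirr hd c0 hc01 hUL (η / 2) (by positivity)
  obtain ⟨n₂, h2⟩ := log2_small (η / (8 * (K + 1))) (by positivity)
  obtain ⟨n₃, h3⟩ := exists_nat_ge (K * (J0 + 1) * 8 / η)
  refine ⟨c0 * ((1 / 2) ^ J0) ^ d, by positivity, max n₁ (max n₂ n₃), fun n hn hn0 => ?_⟩
  have hn1 : n₁ ≤ n := (le_max_left _ _).trans hn
  have hn2 : n₂ ≤ n := (le_max_left _ _).trans ((le_max_right _ _).trans hn)
  have hn3 : n₃ ≤ n := (le_max_right _ _).trans ((le_max_right _ _).trans hn)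
  have hnr : (0:ℝ) < n := by exact_mod_cast hn0
  set J := 2 * (Nat.log 2 n + 1) with hJ
  set τ : ℝ := c0 * ((1 / 2) ^ J) ^ d with hτ
  have hττ : τ ≤ c0 * ((1 / (n:ℝ)) ^ 2) ^ d := by
    rw [hτ]
    apply mul_le_mul_of_nonneg_left _ hc0.le
    apply pow_le_pow_left₀ (by positivity)
    exact log2_bound n hn0
  have h4 := h1 n hn1 hn0 τ hττ
  have h5 : ∑ x ∈ (T n M ×ˢ U n).filter (fun x => τ ≤ ‖val x.1 x.2 F‖ ∧
      ‖val x.1 x.2 F‖ < c0 * ((1 / 2) ^ J0) ^ d), |Real.log ‖val x.1 x.2 F‖| ≤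
      η / 2 * (n:ℝ) ^ (M + 1) := by
    rw [sum_filter, sum_product]
    have h6 : ∀ z ∈ T n M, ∑ w ∈ U n, (if τ ≤ ‖val z w F‖ ∧
      ‖val z w F‖ < c0 * ((1 / 2) ^ J0) ^ d then |Real.log ‖val z w F‖| else 0) ≤
      K * ((J0 + 1) * (n * (1 / 2) ^ J0 + 1) + J) := by
      intro z hz
      have hzT := onT_of_mem_T hn0 hz
      rw [← sum_filter]
      have h7 := shell hn0 (F.map (evz z)) c0 hc0 (hUL.leadingCoeff hzT)
        (by rw [hUL.natDegree hzT]; exact Nat.one_le_iff_ne_zero.2 hd) J0 J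
        (by
          rw [hUL.natDegree hzT]
          have : ((1:ℝ) / 2) ^ J0 ≤ 1 := pow_le_one₀ (by norm_num) (by norm_num)
          have h8 : (((1:ℝ) / 2) ^ J0) ^ F.natDegree ≤ 1 := pow_le_one₀ (by positivity) this
          calc c0 * (((1:ℝ) / 2) ^ J0) ^ F.natDegree ≤ 1 * 1 :=
                mul_le_mul hc01 h8 (by positivity) (by norm_num)
            _ = 1 := one_mul _)
      rw [hUL.natDegree hzT] at h7
      simp only [val_eq]
      exact h7
    refine (sum_le_sum h6).trans ?_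
    rw [sum_const, card_T hn0, nsmul_eq_mul]
    push_cast
    have h8 : K * ((J0 + 1) * (n * (1 / 2) ^ J0 + 1) + J) ≤ η / 2 * n := by
      have a1 : K * ((J0 + 1) * (1 / 2) ^ J0) * n ≤ η / 8 * n :=
        mul_le_mul_of_nonneg_right hJ0 hnr.le
      have a2 : K * (J0 + 1) ≤ η / 8 * n := by
        have h9 : K * (J0 + 1) * 8 / η ≤ n := h3.trans (by exact_mod_cast hn3)
        rw [div_le_iff₀ hη] at h9
        linarith
      have a3 : K * J ≤ η / 8 * n := by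
        have h9 : (J:ℝ) ≤ η / (8 * (K + 1)) * n := h2 n hn2 hn0
        have h10 : K * J ≤ K * (η / (8 * (K + 1)) * n) := mul_le_mul_of_nonneg_left h9 hK0
        have h11 : K * (η / (8 * (K + 1)) * n) = (K / (K + 1)) * (η / 8 * n) := by
          field_simp
        have h12 : K / (K + 1) ≤ 1 := by
          rw [div_le_one (by positivity)]
          linarith
        have h13 : (K / (K + 1)) * (η / 8 * n) ≤ 1 * (η / 8 * n) :=
          mul_le_mul_of_nonneg_right h12 (by positivity)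
        linarith
      have e : K * ((J0 + 1) * (n * (1 / 2) ^ J0 + 1) + J) =
        K * ((J0 + 1) * (1 / 2) ^ J0) * n + K * (J0 + 1) + K * J := by ring
      rw [e]
      have : 0 ≤ η / 8 * n := by positivity
      linarith
    calc (n:ℝ) ^ M * (K * ((J0 + 1) * (n * (1 / 2) ^ J0 + 1) + J)) ≤ (n:ℝ) ^ M * (η / 2 * n) :=
          mul_le_mul_of_nonneg_left h8 (by positivity)
      _ = _ := by ring
  have h6 := add_le_add h5 h4
  have h7 : η / 2 * (n:ℝ) ^ (M + 1) + η / 2 * (n:ℝ) ^ (M + 1) = η * (n:ℝ) ^ (M + 1) := by ring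
  rw [h7] at h6
  refine le_trans ?_ h6
  rw [← sum_filter_add_sum_filter_not ((T n M ×ˢ U n).filter (fun x => val x.1 x.2 F ≠ 0 ∧
    ‖val x.1 x.2 F‖ < c0 * ((1 / 2) ^ J0) ^ d)) (fun x => τ ≤ ‖val x.1 x.2 F‖)]
  apply add_le_add
  · apply sum_le_sum_of_subset_of_nonneg _ (fun _ _ _ => abs_nonneg _)
    intro x hx
    rw [mem_filter, mem_filter] at hx
    rw [mem_filter]
    exact ⟨hx.1.1, hx.2, hx.1.2.2⟩
  · apply sum_le_sum_of_subset_of_nonneg _ (fun _ _ _ => abs_nonneg _)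
    intro x hx
    rw [mem_filter, mem_filter] at hx
    rw [mem_filter]
    exact ⟨hx.1.1, hx.1.2.1, not_le.1 hx.2⟩

theorem good_of_UL {M : ℕ} (F : Polynomial (A M)) : ∀ c : ℝ, UL F c → Good F := by
  induction F using WfDvdMonoid.induction_on_irreducible with
  | zero =>
    intro c h
    exact absurd rfl h.ne_zero
  | unit u hu =>
    intro c h
    exact good_of_natDegree_zero h (natDegree_eq_zero_of_isUnit hu)
  | mul a i ha hi ih =>
    intro c h
    obtain ⟨c1, h1⟩ := h.of_mul_left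
    obtain ⟨c2, h2⟩ := h.of_mul_right
    exact (good_irreducible i hi c1 h1).mul (ih c2 h2) h

end Pool.Agent.H196R3
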