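import Mathlib

/-!
# Gram matrix of a space of relations between numbers of small logarithmic size
-/

set_option autoImplicit false

open Finset Module

namespace Pool.Agent.H196R3.LI

/-- an orthonormal basis of a space of real vectors, in coordinates -/
lemma exists_orthonormal {k : ℕ} (V : Submodule ℝ (EuclideanSpace ℝ (Fin k))) :
    ∃ c : Fin (finrank ℝ V) → Fin k → ℝ,
      (∀ t, WithLp.toLp 2 (c t) ∈ V) ∧
      ∀ t t', ∑ j, c t j * c t' j = if t = t' then 1 else 0 := by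
  classical
  let b := stdOrthonormalBasis ℝ V
  refine ⟨fun t j => (b t : EuclideanSpace ℝ (Fin k)) j, fun t => (b t).2, ?_⟩
  intro t t'
  have h := (orthonormal_iff_ite.mp b.orthonormal) t t'
  rw [Submodule.coe_inner, PiLp.inner_apply] at h
  rw [← h]
  refine Finset.sum_congr rfl fun j _ => ?_
  simp [mul_comm]

/-- Bessel inequality -/
lemma bessel {k m : ℕ} (c : Fin m → Fin k → ℝ)
    (hc : ∀ t t', ∑ j, c t j * c t' j = if t = t' then 1 else 0) (x : Fin k → ℝ) :
    ∑ t, (∑ j, c t j * x j) ^ 2 ≤ ∑ j, (x j) ^ 2 := by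
  classical
  set α : Fin m → ℝ := fun t => ∑ j, c t j * x j with hα
  have h1 : ∑ j, (x j - ∑ t, α t * c t j) ^ 2 = ∑ j, (x j) ^ 2 - ∑ t, (α t) ^ 2 := by
    have h2 : ∀ j, (x j - ∑ t, α t * c t j) ^ 2 =
        (x j) ^ 2 - 2 * ∑ t, α t * (c t j * x j) + ∑ t, ∑ t', (α t * α t') * (c t j * c t' j) := by
      intro j
      have h3 : (∑ t, α t * c t j) ^ 2 = ∑ t, ∑ t', (α t * α t') * (c t j * c t' j) := by
        rw [sq, Finset.sum_mul_sum]
        refine Finset.sum_congr rfl fun t _ => Finset.sum_congr rfl fun t' _ => by ring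
      have h4 : x j * ∑ t, α t * c t j = ∑ t, α t * (c t j * x j) := by
        rw [Finset.mul_sum]
        refine Finset.sum_congr rfl fun t _ => by ring
      rw [sub_sq, h3, mul_assoc, h4]
    rw [Finset.sum_congr rfl (fun j _ => h2 j), Finset.sum_add_distrib, Finset.sum_sub_distrib]
    have h5 : ∑ j, 2 * ∑ t, α t * (c t j * x j) = 2 * ∑ t, (α t) ^ 2 := by
      rw [← Finset.mul_sum, Finset.sum_comm]
      congr 1
      refine Finset.sum_congr rfl fun t _ => ?_
      rw [← Finset.mul_sum, sq]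
    have h6 : ∑ j, ∑ t, ∑ t', (α t * α t') * (c t j * c t' j) = ∑ t, (α t) ^ 2 := by
      rw [Finset.sum_comm]
      refine Finset.sum_congr rfl fun t _ => ?_
      rw [Finset.sum_comm]
      have h7 : ∀ t', ∑ j, (α t * α t') * (c t j * c t' j) = if t = t' then (α t) ^ 2 else 0 := by
        intro t'
        rw [← Finset.mul_sum, hc]
        split_ifs with h
        · subst h; ring
        · ring
      rw [Finset.sum_congr rfl (fun t' _ => h7 t')]
      simp
    rw [h5, h6]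
    ring
  have h2 : 0 ≤ ∑ j, (x j - ∑ t, α t * c t j) ^ 2 := Finset.sum_nonneg fun _ _ => sq_nonneg _
  linarith

/-- the trace and the Hilbert-Schmidt norm of the projection -/
lemma proj_trace {k m : ℕ} (c : Fin m → Fin k → ℝ)
    (hc : ∀ t t', ∑ j, c t j * c t' j = if t = t' then 1 else 0) :
    ∑ j, ∑ t, c t j * c t j = m := by
  rw [Finset.sum_comm]
  simp [hc]

lemma proj_hs {k m : ℕ} (c : Fin m → Fin k → ℝ)
    (hc : ∀ t t', ∑ j, c t j * c t' j = if t = t' then 1 else 0) :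
    ∑ j, ∑ l, (∑ t, c t j * c t l) ^ 2 = m := by
  have h1 : ∀ j l, (∑ t, c t j * c t l) ^ 2 = ∑ t, ∑ t', (c t j * c t' j) * (c t l * c t' l) := by
    intro j l
    rw [sq, Finset.sum_mul_sum]
    refine Finset.sum_congr rfl fun t _ => Finset.sum_congr rfl fun t' _ => by ring
  calc ∑ j, ∑ l, (∑ t, c t j * c t l) ^ 2
      = ∑ j, ∑ l, ∑ t, ∑ t', (c t j * c t' j) * (c t l * c t' l) :=
        Finset.sum_congr rfl fun j _ => Finset.sum_congr rfl fun l _ => h1 j l
    _ = ∑ j, ∑ t, ∑ t', ∑ l, (c t j * c t' j) * (c t l * c t' l) := by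
        refine Finset.sum_congr rfl fun j _ => ?_
        rw [Finset.sum_comm]
        refine Finset.sum_congr rfl fun t _ => Finset.sum_comm
    _ = ∑ t, ∑ t', ∑ j, ∑ l, (c t j * c t' j) * (c t l * c t' l) := by
        rw [Finset.sum_comm]
        refine Finset.sum_congr rfl fun t _ => Finset.sum_comm
    _ = ∑ t : Fin m, ∑ t' : Fin m, (if t = t' then (1:ℝ) else 0) := by
        refine Finset.sum_congr rfl fun t _ => Finset.sum_congr rfl fun t' _ => ?_
        rw [← Finset.sum_mul_sum, hc]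
        split_ifs <;> simp
    _ = m := by simp

/-- pointwise bound: relations between the numbers `exp (r j) * u j` make `∑ c t j * u j` small -/
lemma pointwise {k m : ℕ} (hk : 0 < k) (c : Fin m → Fin k → ℝ)
    (hc : ∀ t t', ∑ j, c t j * c t' j = if t = t' then 1 else 0)
    (r : Fin k → ℝ) (u : Fin k → ℂ) (hu : ∀ j, ‖u j‖ = 1)
    (hrel : ∀ t, ∑ j, ((c t j : ℝ) : ℂ) * ((Real.exp (r j) : ℝ) : ℂ) * u j = 0) :
    ∑ t, ‖∑ j, ((c t j : ℝ) : ℂ) * u j‖ ^ 2 ≤ ∑ j, ∑ l, |r j - r l| := by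
  classical
  have : Nonempty (Fin k) := ⟨⟨0, hk⟩⟩
  obtain ⟨m0, -, hm⟩ := Finset.exists_max_image (Finset.univ : Finset (Fin k)) r Finset.univ_nonempty
  have hm' : ∀ j, 0 ≤ r m0 - r j := fun j => sub_nonneg.mpr (hm j (Finset.mem_univ j))
  set w : Fin k → ℝ := fun j => 1 - Real.exp (-(r m0 - r j)) with hw
  have e1 : ∀ t, ∑ j, ((c t j : ℝ) : ℂ) * u j = ∑ j, ((c t j : ℝ) : ℂ) * ((w j : ℝ) : ℂ) * u j := by
    intro t
    have h1 : ∑ j, ((c t j : ℝ) : ℂ) * ((Real.exp (-(r m0 - r j)) : ℝ) : ℂ) * u j = 0 := by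
      have h2 : ∀ j, ((c t j : ℝ) : ℂ) * ((Real.exp (-(r m0 - r j)) : ℝ) : ℂ) * u j =
          ((Real.exp (- r m0) : ℝ) : ℂ) * (((c t j : ℝ) : ℂ) * ((Real.exp (r j) : ℝ) : ℂ) * u j) := by
        intro j
        have : -(r m0 - r j) = - r m0 + r j := by ring
        rw [this, Real.exp_add]
        push_cast
        ring
      rw [Finset.sum_congr rfl (fun j _ => h2 j), ← Finset.mul_sum, hrel, mul_zero]
    have h3 : ∑ j, ((c t j : ℝ) : ℂ) * ((w j : ℝ) : ℂ) * u j =
        ∑ j, ((c t j : ℝ) : ℂ) * u j - ∑ j, ((c t j : ℝ) : ℂ) * ((Real.exp (-(r m0 - r j)) : ℝ) : ℂ) * u j := by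
      rw [← Finset.sum_sub_distrib]
      refine Finset.sum_congr rfl fun j _ => ?_
      rw [hw]
      push_cast
      ring
    rw [h3, h1, sub_zero]
  have hw0 : ∀ j, 0 ≤ w j := by
    intro j
    rw [hw]
    have : Real.exp (-(r m0 - r j)) ≤ 1 := Real.exp_le_one_iff.mpr (by linarith [hm' j])
    simp only
    linarith
  have hw1 : ∀ j, w j ≤ 1 := by
    intro j
    rw [hw]
    have : 0 < Real.exp (-(r m0 - r j)) := Real.exp_pos _
    simp only
    linarith
  have hw2 : ∀ j, w j ≤ r m0 - r j := by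
    intro j
    rw [hw]
    have := Real.add_one_le_exp (-(r m0 - r j))
    simp only
    linarith
  have e2 : ∀ t, ‖∑ j, ((c t j : ℝ) : ℂ) * u j‖ ^ 2 =
      (∑ j, c t j * (w j * (u j).re)) ^ 2 + (∑ j, c t j * (w j * (u j).im)) ^ 2 := by
    intro t
    rw [e1, ← Complex.normSq_eq_norm_sq, Complex.normSq_apply, Complex.re_sum, Complex.im_sum]
    have h1 : ∀ j, (((c t j : ℝ) : ℂ) * ((w j : ℝ) : ℂ) * u j).re = c t j * (w j * (u j).re) := by
      intro j
      rw [← Complex.ofReal_mul, Complex.re_ofReal_mul]; ring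
    have h2 : ∀ j, (((c t j : ℝ) : ℂ) * ((w j : ℝ) : ℂ) * u j).im = c t j * (w j * (u j).im) := by
      intro j
      rw [← Complex.ofReal_mul, Complex.im_ofReal_mul]; ring
    simp only [h1, h2]
    ring
  rw [Finset.sum_congr rfl (fun t _ => e2 t), Finset.sum_add_distrib]
  have h5 := bessel c hc (fun j => w j * (u j).re)
  have h6 := bessel c hc (fun j => w j * (u j).im)
  have h7 : ∑ j, (w j * (u j).re) ^ 2 + ∑ j, (w j * (u j).im) ^ 2 = ∑ j, (w j) ^ 2 := by
    rw [← Finset.sum_add_distrib]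
    refine Finset.sum_congr rfl fun j _ => ?_
    have h8 : (u j).re ^ 2 + (u j).im ^ 2 = 1 := by
      have h9 := hu j
      have h10 : ‖u j‖ ^ 2 = 1 := by rw [h9]; norm_num
      rw [← Complex.normSq_eq_norm_sq, Complex.normSq_apply] at h10
      nlinarith
    calc (w j * (u j).re) ^ 2 + (w j * (u j).im) ^ 2 = (w j) ^ 2 * ((u j).re ^ 2 + (u j).im ^ 2) := by ring
      _ = (w j) ^ 2 := by rw [h8, mul_one]
  have h8 : ∑ j, (w j) ^ 2 ≤ ∑ j, ∑ l, |r j - r l| := by
    refine Finset.sum_le_sum fun j _ => ?_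
    have h7 : (w j) ^ 2 ≤ r m0 - r j := by nlinarith [hw0 j, hw1 j, hw2 j]
    have h8 : |r j - r m0| ≤ ∑ l, |r j - r l| :=
      Finset.single_le_sum (f := fun l => |r j - r l|) (fun l _ => abs_nonneg _) (Finset.mem_univ m0)
    have h9 : r m0 - r j ≤ |r j - r m0| := by
      rw [abs_sub_comm]; exact le_abs_self _
    linarith
  linarith

/-- the Gram matrix inequality -/
lemma gram {k : ℕ} {S : Type*} [Fintype S] (V : Submodule ℝ (EuclideanSpace ℝ (Fin k)))
    (r : Fin k → S → ℝ) (u : Fin k → S → ℂ) (hu : ∀ j s, ‖u j s‖ = 1)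
    (hrel : ∀ c : Fin k → ℝ, WithLp.toLp 2 c ∈ V → ∀ s,
      ∑ j, ((c j : ℝ) : ℂ) * ((Real.exp (r j s) : ℝ) : ℂ) * u j s = 0) :
    (finrank ℝ V : ℝ) * (Fintype.card S : ℝ) ^ 2 ≤
      ∑ j, ∑ l ∈ Finset.univ.erase j, ‖∑ s, u j s * starRingEnd ℂ (u l s)‖ ^ 2
        + 2 * Fintype.card S * ∑ s, ∑ j, ∑ l, |r j s - r l s| := by
  classical
  set d : ℝ := (Fintype.card S : ℝ) with hd
  have hd0 : 0 ≤ d := Nat.cast_nonneg _
  have hEnn : 0 ≤ ∑ j, ∑ l ∈ Finset.univ.erase j, ‖∑ s, u j s * starRingEnd ℂ (u l s)‖ ^ 2 :=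
    Finset.sum_nonneg fun _ _ => Finset.sum_nonneg fun _ _ => by positivity
  rcases hd0.lt_or_eq with hdpos | hdz
  swap
  · rw [← hdz]
    simpa using hEnn
  rcases Nat.eq_zero_or_pos k with hk | hk
  · subst hk
    have h1 : finrank ℝ V = 0 := by
      have h2 : finrank ℝ V ≤ finrank ℝ (EuclideanSpace ℝ (Fin 0)) := Submodule.finrank_le V
      rw [finrank_euclideanSpace] at h2
      simpa using h2
    rw [h1]
    simp
  have key := exists_orthonormal V
  generalize finrank ℝ V = m at key ⊢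
  obtain ⟨c, hcV, hc⟩ := key
  set G : Fin k → Fin k → ℂ := fun j l => ∑ s, u j s * starRingEnd ℂ (u l s) with hG
  set R : ℝ := ∑ s, ∑ j, ∑ l, |r j s - r l s| with hR
  set P : Fin k → Fin k → ℝ := fun j l => ∑ t, c t j * c t l with hP
  -- upper bound
  have hup : ∑ s, ∑ t, ‖∑ j, ((c t j : ℝ) : ℂ) * u j s‖ ^ 2 ≤ R := by
    rw [hR]
    exact Finset.sum_le_sum fun s _ => pointwise hk c hc (fun j => r j s) (fun j => u j s)
      (fun j => hu j s) (fun t => hrel (c t) (hcV t) s)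
  -- expansion
  have e1 : ∑ s, ∑ t, ‖∑ j, ((c t j : ℝ) : ℂ) * u j s‖ ^ 2 = ∑ j, ∑ l, P j l * (G j l).re := by
    have h1 : ∀ s t, ‖∑ j, ((c t j : ℝ) : ℂ) * u j s‖ ^ 2 =
        ∑ j, ∑ l, (c t j * c t l) * (u j s * starRingEnd ℂ (u l s)).re := by
      intro s t
      have h2 : ((‖∑ j, ((c t j : ℝ) : ℂ) * u j s‖ ^ 2 : ℝ) : ℂ) =
          ∑ j, ∑ l, ((c t j * c t l : ℝ) : ℂ) * (u j s * starRingEnd ℂ (u l s)) := by
        rw [← Complex.normSq_eq_norm_sq, ← Complex.mul_conj, map_sum, Finset.sum_mul_sum]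
        refine Finset.sum_congr rfl fun j _ => Finset.sum_congr rfl fun l _ => ?_
        rw [map_mul, Complex.conj_ofReal]
        push_cast; ring
      have h3 := congrArg Complex.re h2
      rw [Complex.ofReal_re, Complex.re_sum] at h3
      rw [h3]
      refine Finset.sum_congr rfl fun j _ => ?_
      rw [Complex.re_sum]
      refine Finset.sum_congr rfl fun l _ => ?_
      rw [Complex.re_ofReal_mul]
    have h4 : ∀ s, ∑ t, ‖∑ j, ((c t j : ℝ) : ℂ) * u j s‖ ^ 2 =
        ∑ j, ∑ l, P j l * (u j s * starRingEnd ℂ (u l s)).re := by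
      intro s
      rw [Finset.sum_congr rfl (fun t _ => h1 s t), Finset.sum_comm]
      refine Finset.sum_congr rfl fun j _ => ?_
      rw [Finset.sum_comm]
      refine Finset.sum_congr rfl fun l _ => ?_
      rw [hP, Finset.sum_mul]
    rw [Finset.sum_congr rfl (fun s _ => h4 s), Finset.sum_comm]
    refine Finset.sum_congr rfl fun j _ => ?_
    rw [Finset.sum_comm]
    refine Finset.sum_congr rfl fun l _ => ?_
    rw [hG, Complex.re_sum, Finset.mul_sum]
  -- diagonal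
  have ediag : ∀ j, (G j j).re = d := by
    intro j
    have h1 : ∀ s, u j s * starRingEnd ℂ (u j s) = 1 := by
      intro s
      rw [Complex.mul_conj, Complex.normSq_eq_norm_sq, hu]
      simp
    rw [hG]
    simp only [h1]
    simp [hd]
  set E : ℝ := ∑ j, ∑ l ∈ Finset.univ.erase j, ‖G j l‖ ^ 2 with hE
  have hlow : d * m - (d / 2 * m + 1 / (2 * d) * E) ≤ ∑ j, ∑ l, P j l * (G j l).re := by
    have h1 : ∀ j, ∑ l, P j l * (G j l).re = P j j * d +
        ∑ l ∈ Finset.univ.erase j, P j l * (G j l).re := by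
      intro j
      rw [← Finset.add_sum_erase _ _ (Finset.mem_univ j), ediag]
    rw [Finset.sum_congr rfl (fun j _ => h1 j), Finset.sum_add_distrib]
    have h2 : ∑ j, P j j * d = d * m := by
      rw [← Finset.sum_mul, hP, proj_trace c hc, mul_comm]
    have h3 : ∀ j l, -(d / 2 * (P j l) ^ 2 + 1 / (2 * d) * ‖G j l‖ ^ 2) ≤ P j l * (G j l).re := by
      intro j l
      have h4 : |(G j l).re| ≤ ‖G j l‖ := Complex.abs_re_le_norm _
      have h5 : |P j l * (G j l).re| ≤ |P j l| * ‖G j l‖ := by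
        rw [abs_mul]; exact mul_le_mul_of_nonneg_left h4 (abs_nonneg _)
      have h6 : |P j l| * ‖G j l‖ ≤ d / 2 * (P j l) ^ 2 + 1 / (2 * d) * ‖G j l‖ ^ 2 := by
        have h9 : d / 2 * (P j l) ^ 2 + 1 / (2 * d) * ‖G j l‖ ^ 2 - |P j l| * ‖G j l‖
            = (d * |P j l| - ‖G j l‖) ^ 2 / (2 * d) := by
          rw [← sq_abs (P j l)]
          field_simp; ring
        have h10 : 0 ≤ (d * |P j l| - ‖G j l‖) ^ 2 / (2 * d) := by positivity
        linarith
      have h11 := neg_abs_le (P j l * (G j l).re)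
      linarith
    have h4 : ∑ j, ∑ l ∈ Finset.univ.erase j, -(d / 2 * (P j l) ^ 2 + 1 / (2 * d) * ‖G j l‖ ^ 2)
        ≤ ∑ j, ∑ l ∈ Finset.univ.erase j, P j l * (G j l).re :=
      Finset.sum_le_sum fun j _ => Finset.sum_le_sum fun l _ => h3 j l
    have h5 : ∑ j, ∑ l ∈ Finset.univ.erase j, (P j l) ^ 2 ≤ m := by
      have h6 := proj_hs c hc
      rw [← h6]
      refine Finset.sum_le_sum fun j _ => ?_
      exact Finset.sum_le_sum_of_subset_of_nonneg (Finset.erase_subset _ _)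
        (fun _ _ _ => sq_nonneg _)
    have h6 : ∑ j, ∑ l ∈ Finset.univ.erase j, -(d / 2 * (P j l) ^ 2 + 1 / (2 * d) * ‖G j l‖ ^ 2)
        = -(d / 2 * ∑ j, ∑ l ∈ Finset.univ.erase j, (P j l) ^ 2) - 1 / (2 * d) * E := by
      rw [hE]
      simp only [Finset.mul_sum, ← Finset.sum_neg_distrib, ← Finset.sum_sub_distrib]
      refine Finset.sum_congr rfl fun j _ => Finset.sum_congr rfl fun l _ => by ring
    have h7 : d / 2 * ∑ j, ∑ l ∈ Finset.univ.erase j, (P j l) ^ 2 ≤ d / 2 * m :=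
      mul_le_mul_of_nonneg_left h5 (by positivity)
    rw [h2]
    linarith
  have h1 : d * m - (d / 2 * m + 1 / (2 * d) * E) ≤ R := by
    rw [← e1] at hlow
    exact hlow.trans hup
  have h3 : 2 * d * (d * m - (d / 2 * m + 1 / (2 * d) * E)) ≤ 2 * d * R :=
    mul_le_mul_of_nonneg_left h1 (by positivity)
  have h4 : 2 * d * (d * m - (d / 2 * m + 1 / (2 * d) * E)) = m * d ^ 2 - E := by
    field_simp; ring
  rw [h4] at h3
  linarith

end Pool.Agent.H196R3.LI
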