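import Mathlib
import Pool.Agent.H388SL.SparseC
import Pool.Agent.H196R3.LIa

/-!
# Units of small mutual height are linearly independent over the rationals
-/

set_option autoImplicit false

open Finset Polynomial Module IntermediateField

namespace Pool.Agent.H196R3.LI

open Pool.Agent.H388SL

/-- comparison of logarithms -/
lemma real_log {d' k : ℝ} (hd : 1 ≤ d') (hk : 1 ≤ k) (h : d' ≤ 32 * k ^ 2 * (1 + 2 * Real.log (2 * d'))) :
    Real.log (2 * d') ≤ 16 * Real.log (2 * k) := by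
  set x := Real.log (2 * d') with hx
  set y := Real.log (2 * k) with hy
  have hlog2 := Real.log_two_gt_d9
  have hlog2' := Real.log_two_lt_d9
  have hx2 : Real.log 2 ≤ x := Real.log_le_log (by norm_num) (by linarith)
  have hx0 : 0 < x := by linarith
  have h1 : 1 ≤ 2 * x := by linarith
  have h2 : d' ≤ 128 * k ^ 2 * x := by nlinarith [sq_nonneg k]
  have h4 : 2 * d' ≤ 256 * k ^ 2 * x := by linarith
  have h5 : x ≤ Real.log (256 * k ^ 2 * x) := Real.log_le_log (by linarith) h4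
  have h6 : Real.log (256 * k ^ 2 * x) = 8 * Real.log 2 + 2 * Real.log k + Real.log x := by
    have e : (256:ℝ) * k ^ 2 * x = 2 ^ 8 * k ^ 2 * x := by norm_num
    rw [e, Real.log_mul (by positivity) hx0.ne', Real.log_mul (by positivity) (by positivity),
      Real.log_pow, Real.log_pow]
    push_cast; ring
  have h7 : Real.log x ≤ x / 2 := by
    have := Real.log_le_sub_one_of_pos (show 0 < x / 2 by linarith)
    rw [Real.log_div hx0.ne' (by norm_num)] at this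
    linarith
  have h8 : y = Real.log 2 + Real.log k := by
    rw [hy, Real.log_mul (by norm_num) (by linarith)]
  have h9 : 0 ≤ Real.log k := Real.log_nonneg hk
  linarith

/-- the norm of a unit -/
lemma prod_unit {K : Type*} [Field K] [NumberField K] {β : K} (hβ : IsIntegral ℤ β)
    (hβ' : IsIntegral ℤ β⁻¹) (h0 : β ≠ 0) : ∏ σ : K →ₐ[ℚ] ℂ, ‖σ β‖ = 1 := by
  have h1 := one_le_prod_norm hβ h0
  have h2 := one_le_prod_norm hβ' (inv_ne_zero h0)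
  have h3 : (∏ σ : K →ₐ[ℚ] ℂ, ‖σ β‖) * ∏ σ : K →ₐ[ℚ] ℂ, ‖σ β⁻¹‖ = 1 := by
    rw [← Finset.prod_mul_distrib]
    refine Finset.prod_eq_one fun σ _ => ?_
    rw [← norm_mul, ← map_mul, mul_inv_cancel₀ h0, map_one, norm_one]
  apply le_antisymm _ h1
  calc ∏ σ : K →ₐ[ℚ] ℂ, ‖σ β‖ ≤ (∏ σ : K →ₐ[ℚ] ℂ, ‖σ β‖) * ∏ σ : K →ₐ[ℚ] ℂ, ‖σ β⁻¹‖ := by
        apply le_mul_of_one_le_right _ h2
        exact zero_le_one.trans h1
    _ = 1 := h3

/-- the bound for one entry of the Gram matrix -/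
lemma pair_bound {c0 : ℝ} (hc0 : 0 < c0)
    (hdob : ∀ (K : Type) [Field K] [NumberField K] (α : K), IsIntegral ℤ α →
      α ≠ 0 → (∀ n : ℕ, 0 < n → α ^ n ≠ 1) → CInj α →
      c0 / (Real.log (2 * finrank ℚ K)) ^ 3 ≤ lam α)
    {K : Type} [Field K] [NumberField K] {β : K} (hβi : IsIntegral ℤ β)
    (hβ' : IsIntegral ℤ β⁻¹) (hβ0 : β ≠ 0) (hroot : ∀ n : ℕ, 0 < n → β ^ n ≠ 1)
    {k : ℝ} (hk : 1 ≤ k) :
    ‖∑ σ : K →ₐ[ℚ] ℂ, uu β σ‖ ^ 2 ≤
      (9 + 2 ^ 19 * (Real.log (2 * k)) ^ 4 / c0) * (finrank ℚ K * lam β)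
        + (finrank ℚ K : ℝ) ^ 2 / (16 * k ^ 2) := by
  set d := finrank ℚ K with hd
  set lm := lam β with hlm
  have hlam : 0 ≤ lm := lam_nonneg β
  have hd0 : (0:ℝ) < d := by exact_mod_cast (finrank_pos : 0 < finrank ℚ K)
  have hunit := prod_unit hβi hβ' hβ0
  rcases lt_or_ge (d : ℝ) (8 * lm) with hsmall | hsmall
  · have hcard : Fintype.card (K →ₐ[ℚ] ℂ) = d := AlgHom.card ℚ K ℂ
    have h1 : ‖∑ σ : K →ₐ[ℚ] ℂ, uu β σ‖ ≤ d := by
      refine (norm_sum_le _ _).trans (le_of_eq ?_)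
      rw [Finset.sum_congr rfl (fun σ _ => norm_uu hβ0 σ)]
      simp [hcard]
    have h2 : ‖∑ σ : K →ₐ[ℚ] ℂ, uu β σ‖ ^ 2 ≤ (d:ℝ) ^ 2 := pow_le_pow_left₀ (norm_nonneg _) h1 2
    have h3 : (d:ℝ) ^ 2 ≤ 9 * (d * lm) := by nlinarith
    have h4 : 0 ≤ 2 ^ 19 * (Real.log (2 * k)) ^ 4 / c0 * (d * lm) := by positivity
    have h5 : 0 ≤ (d:ℝ) ^ 2 / (16 * k ^ 2) := by positivity
    linarith
  -- reflected sum
  have s1 : ‖∑ σ : K →ₐ[ℚ] ℂ, uu β σ‖ ≤ ‖∑ σ : K →ₐ[ℚ] ℂ, refl (σ β)‖ + 2 * lm := by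
    have h1 : ∀ σ : K →ₐ[ℚ] ℂ, ‖refl (σ β) - uu β σ‖ ≤ |Real.log ‖σ β‖| := by
      intro σ
      exact refl_sub_le (z := σ β) ((map_ne_zero σ).mpr hβ0)
    have h2 : ‖∑ σ : K →ₐ[ℚ] ℂ, refl (σ β) - ∑ σ : K →ₐ[ℚ] ℂ, uu β σ‖ ≤ 2 * lm := by
      rw [← Finset.sum_sub_distrib]
      refine (norm_sum_le _ _).trans ((Finset.sum_le_sum fun σ _ => h1 σ).trans ?_)
      rw [sum_abs_log hβ0 hunit]
    have h3 := norm_sub_norm_le (∑ σ : K →ₐ[ℚ] ℂ, uu β σ) (∑ σ : K →ₐ[ℚ] ℂ, refl (σ β))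
    rw [norm_sub_rev] at h3
    linarith
  -- transfer
  set g := AdjoinSimple.gen ℚ β with hg
  set e := finrank (adjoin ℚ {β}) K with he
  set d' := finrank ℚ (adjoin ℚ {β}) with hd'
  have hde : (d' : ℝ) * e = d := by
    exact_mod_cast finrank_mul_finrank ℚ (adjoin ℚ {β}) K
  have hd'0 : 0 < d' := finrank_pos
  have hd'1 : (1:ℝ) ≤ d' := by exact_mod_cast hd'0
  have he0 : 0 < e := finrank_pos
  have he1 : (1:ℝ) ≤ e := by exact_mod_cast he0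
  have hgc : CInj g := CInj_gen β
  have hga : algebraMap (adjoin ℚ {β}) K g = β := AdjoinSimple.algebraMap_gen ℚ β
  have hgi : IsIntegral ℤ g := by
    rw [← hga] at hβi
    exact (isIntegral_algebraMap_iff (algebraMap (adjoin ℚ {β}) K).injective).mp hβi
  have hg0 : g ≠ 0 := by
    rintro h
    rw [h, map_zero] at hga
    exact hβ0 hga.symm
  have hgroot : ∀ n : ℕ, 0 < n → g ^ n ≠ 1 := by
    intro n hn h
    have h1 := congrArg (algebraMap (adjoin ℚ {β}) K) h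
    rw [map_pow, hga, map_one] at h1
    exact hroot n hn h1
  have t1 : ∑ σ : K →ₐ[ℚ] ℂ, refl (σ β) = (e : ℂ) * ∑ σ : (adjoin ℚ {β}) →ₐ[ℚ] ℂ, refl (σ g) := by
    rw [sum_embeddings' β refl, nsmul_eq_mul]
  have t2 : lm = e * lam g := by
    rw [hlm, lam, sum_embeddings' β (fun z => Real.log (max 1 ‖z‖)), nsmul_eq_mul]
    rfl
  have t3 := fourier_bound hgi hgc
  rw [← hd'] at t3
  have t4 : ‖∑ σ : K →ₐ[ℚ] ℂ, refl (σ β)‖ = e * ‖∑ σ : (adjoin ℚ {β}) →ₐ[ℚ] ℂ, refl (σ g)‖ := by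
    rw [t1, norm_mul, Complex.norm_natCast]
  have t5 : ‖∑ σ : K →ₐ[ℚ] ℂ, refl (σ β)‖ ^ 2 ≤
      4 * d * lm + d ^ 2 * ((1 + 2 * Real.log (2 * d')) / d') := by
    calc ‖∑ σ : K →ₐ[ℚ] ℂ, refl (σ β)‖ ^ 2
        = e ^ 2 * ‖∑ σ : (adjoin ℚ {β}) →ₐ[ℚ] ℂ, refl (σ g)‖ ^ 2 := by rw [t4]; ring
      _ ≤ e ^ 2 * (4 * d' * lam g + d' * (1 + 2 * Real.log (2 * d'))) := by gcongr
      _ = 4 * d * lm + d ^ 2 * ((1 + 2 * Real.log (2 * d')) / d') := by
        rw [t2, ← hde]; field_simp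
  have t6 : ‖∑ σ : K →ₐ[ℚ] ℂ, uu β σ‖ ^ 2 ≤
      9 * (d * lm) + 2 * (d ^ 2 * ((1 + 2 * Real.log (2 * d')) / d')) := by
    have h1 : ‖∑ σ : K →ₐ[ℚ] ℂ, uu β σ‖ ^ 2 ≤ (‖∑ σ : K →ₐ[ℚ] ℂ, refl (σ β)‖ + 2 * lm) ^ 2 :=
      pow_le_pow_left₀ (norm_nonneg _) s1 2
    have h2 : (‖∑ σ : K →ₐ[ℚ] ℂ, refl (σ β)‖ + 2 * lm) ^ 2 ≤
        2 * ‖∑ σ : K →ₐ[ℚ] ℂ, refl (σ β)‖ ^ 2 + 8 * lm ^ 2 := by
      nlinarith [sq_nonneg (‖∑ σ : K →ₐ[ℚ] ℂ, refl (σ β)‖ - 2 * lm)]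
    have h3 : 8 * lm ^ 2 ≤ d * lm := by nlinarith
    linarith
  have hx2 : Real.log 2 ≤ Real.log (2 * d') := Real.log_le_log (by norm_num) (by linarith)
  have hy2 : Real.log 2 ≤ Real.log (2 * k) := Real.log_le_log (by norm_num) (by linarith)
  have hlog2 := Real.log_two_gt_d9
  rcases le_or_gt (32 * k ^ 2 * (1 + 2 * Real.log (2 * d'))) (d' : ℝ) with hbig | hsm
  · have h1 : (1 + 2 * Real.log (2 * d')) / d' ≤ 1 / (32 * k ^ 2) := by
      rw [div_le_div_iff₀ (by positivity) (by positivity)]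
      linarith
    have h2 : 2 * ((d:ℝ) ^ 2 * ((1 + 2 * Real.log (2 * d')) / d')) ≤ (d:ℝ) ^ 2 / (16 * k ^ 2) := by
      calc 2 * ((d:ℝ) ^ 2 * ((1 + 2 * Real.log (2 * d')) / d')) ≤ 2 * ((d:ℝ) ^ 2 * (1 / (32 * k ^ 2))) := by
            gcongr
        _ = (d:ℝ) ^ 2 / (16 * k ^ 2) := by field_simp; ring
    have h3 : 0 ≤ 2 ^ 19 * (Real.log (2 * k)) ^ 4 / c0 * (d * lm) := by positivity
    linarith
  · have hxy := real_log hd'1 hk hsm.le
    set x := Real.log (2 * (d' : ℝ)) with hx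
    set y := Real.log (2 * k) with hy
    have hx0 : 0 < x := by linarith
    have t9 := hdob (adjoin ℚ {β}) g hgi hg0 hgroot hgc
    rw [← hd', ← hx] at t9
    have t10 : c0 * d ≤ d' * (lm * x ^ 3) := by
      rw [div_le_iff₀ (by positivity)] at t9
      calc c0 * d = (d' * e) * c0 := by rw [hde]; ring
        _ ≤ (d' * e) * (lam g * x ^ 3) := by gcongr
        _ = d' * (lm * x ^ 3) := by rw [t2]; ring
    have h1 : 2 * ((d:ℝ) ^ 2 * ((1 + 2 * x) / d')) ≤ 2 ^ 19 * y ^ 4 / c0 * (d * lm) := by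
      have h2 : 1 + 2 * x ≤ 4 * x := by linarith
      have h3 : (d:ℝ) ≤ d' * (lm * x ^ 3) / c0 := by
        rw [le_div_iff₀ hc0]; linarith
      calc 2 * ((d:ℝ) ^ 2 * ((1 + 2 * x) / d')) = 2 * (d * ((1 + 2 * x) / d')) * d := by ring
        _ ≤ 2 * (d * ((4 * x) / d')) * (d' * (lm * x ^ 3) / c0) := by gcongr
        _ = 8 * x ^ 4 / c0 * (d * lm) := by field_simp; ring
        _ ≤ 8 * (16 * y) ^ 4 / c0 * (d * lm) := by gcongr
        _ = 2 ^ 19 * y ^ 4 / c0 * (d * lm) := by ring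
    have h2 : 0 ≤ (d:ℝ) ^ 2 / (16 * k ^ 2) := by positivity
    linarith

/-- the real relations between the conjugates -/
noncomputable def Phi {K : Type} [Field K] [NumberField K] {k : ℕ} (γ : Fin k → K) :
    EuclideanSpace ℝ (Fin k) →ₗ[ℝ] ((K →ₐ[ℚ] ℂ) → ℂ) where
  toFun c := fun σ => ∑ j, ((c j : ℝ) : ℂ) * σ (γ j)
  map_add' x y := by
    funext σ
    simp only [PiLp.add_apply, Complex.ofReal_add, add_mul, Finset.sum_add_distrib, Pi.add_apply]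
  map_smul' a x := by
    funext σ
    simp only [PiLp.smul_apply, smul_eq_mul, Complex.ofReal_mul, RingHom.id_apply, Pi.smul_apply,
      Complex.real_smul, Finset.mul_sum, mul_assoc]

lemma finrank_range_Phi {K : Type} [Field K] [NumberField K] {k : ℕ} (γ : Fin k → K) :
    finrank ℝ (LinearMap.range (Phi γ)) ≤ finrank ℚ (Submodule.span ℚ (Set.range γ)) := by
  classical
  set W := Submodule.span ℚ (Set.range γ) with hW
  let b := finBasis ℚ W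
  set T : Fin (finrank ℚ W) → ((K →ₐ[ℚ] ℂ) → ℂ) := fun i σ => σ (b i : K) with hT
  have hle : LinearMap.range (Phi γ) ≤ Submodule.span ℝ (Set.range T) := by
    rintro _ ⟨c, rfl⟩
    have h1 : Phi γ c = ∑ j, (c j) • ∑ i, ((b.repr ⟨γ j, Submodule.subset_span ⟨j, rfl⟩⟩ i : ℚ) : ℝ) • T i := by
      funext σ
      simp only [Phi, LinearMap.coe_mk, AddHom.coe_mk, Finset.sum_apply, Pi.smul_apply,
        Complex.real_smul, hT]
      refine Finset.sum_congr rfl fun j _ => ?_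
      congr 1
      have h2 := b.sum_repr ⟨γ j, Submodule.subset_span ⟨j, rfl⟩⟩
      have h3 := congrArg (fun w : W => σ (w : K)) h2
      simp only [Submodule.coe_sum, Submodule.coe_smul, map_sum] at h3
      rw [← h3]
      refine Finset.sum_congr rfl fun i _ => ?_
      rw [Algebra.smul_def, map_mul]
      congr 1
      rw [eq_ratCast, map_ratCast]
      norm_cast
    rw [h1]
    refine Submodule.sum_mem _ fun j _ => Submodule.smul_mem _ _ (Submodule.sum_mem _ fun i _ =>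
      Submodule.smul_mem _ _ (Submodule.subset_span ⟨i, rfl⟩))
  calc finrank ℝ (LinearMap.range (Phi γ)) ≤ finrank ℝ (Submodule.span ℝ (Set.range T)) :=
        Submodule.finrank_mono hle
    _ ≤ Fintype.card (Fin (finrank ℚ W)) := finrank_range_le_card T
    _ = finrank ℚ W := Fintype.card_fin _

/-- numbers with integral quotients and many rational linear relations have large mutual height -/
theorem units_rank : ∃ c : ℝ, 0 < c ∧ ∀ (K : Type) [Field K] [NumberField K] (k : ℕ)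
    (γ : Fin k → K), (∀ i, γ i ≠ 0) → (∀ i j, IsIntegral ℤ (γ i / γ j)) →
    (∀ i j, i ≠ j → ∀ m : ℕ, 0 < m → (γ i / γ j) ^ m ≠ 1) →
    c * ((k : ℝ) - finrank ℚ (Submodule.span ℚ (Set.range γ))) * finrank ℚ K /
        (Real.log (2 * k)) ^ 4 ≤
      ∑ i, ∑ j ∈ Finset.univ.erase i, lam (γ i / γ j) := by
  classical
  obtain ⟨c0, hc0, hdob⟩ := dob
  have hlog2 : 0 < Real.log 2 := Real.log_pos (by norm_num)
  set c1 : ℝ := 1 / (18 / (Real.log 2) ^ 4 + 2 ^ 20 / c0) with hc1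
  have hc1p : 0 < c1 := by positivity
  refine ⟨c1, hc1p, ?_⟩
  intro K _ _ k γ h0 hint hroot
  set d := finrank ℚ K with hd
  set ρ := finrank ℚ (Submodule.span ℚ (Set.range γ)) with hρ
  have hd0 : (0:ℝ) < d := by exact_mod_cast (finrank_pos : 0 < finrank ℚ K)
  have hcard : Fintype.card (K →ₐ[ℚ] ℂ) = d := AlgHom.card ℚ K ℂ
  set Λ := ∑ i, ∑ j ∈ Finset.univ.erase i, lam (γ i / γ j) with hΛ
  have hΛ0 : 0 ≤ Λ := Finset.sum_nonneg fun _ _ => Finset.sum_nonneg fun _ _ => lam_nonneg _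
  rcases le_or_gt ((k:ℝ) - ρ) 0 with hneg | hpos
  · refine le_trans ?_ hΛ0
    apply div_nonpos_of_nonpos_of_nonneg _ (by positivity)
    have h1 : c1 * ((k:ℝ) - ρ) ≤ 0 := mul_nonpos_of_nonneg_of_nonpos hc1p.le hneg
    exact mul_nonpos_of_nonpos_of_nonneg h1 hd0.le
  have hk0 : 0 < k := by
    rcases Nat.eq_zero_or_pos k with h | h
    · exfalso
      rw [h] at hpos
      have : (0:ℝ) ≤ ρ := Nat.cast_nonneg _
      simp at hpos
      linarith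
    · exact h
  have hk1 : (1:ℝ) ≤ k := by exact_mod_cast hk0
  -- the space of relations
  set V := LinearMap.ker (Phi γ) with hV
  have hrn : (k:ℝ) - ρ ≤ finrank ℝ V := by
    have h1 := LinearMap.finrank_range_add_finrank_ker (Phi γ)
    rw [finrank_euclideanSpace, Fintype.card_fin] at h1
    have h2 := finrank_range_Phi γ
    rw [← hρ] at h2
    have h3 : (k:ℝ) = finrank ℝ (LinearMap.range (Phi γ)) + finrank ℝ V := by exact_mod_cast h1.symm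
    have h4 : (finrank ℝ (LinearMap.range (Phi γ)) : ℝ) ≤ ρ := by exact_mod_cast h2
    linarith
  have hm1 : (1:ℝ) ≤ finrank ℝ V := by
    have h1 : (0:ℝ) < finrank ℝ V := lt_of_lt_of_le hpos hrn
    have h2 : 0 < finrank ℝ V := by exact_mod_cast h1
    exact_mod_cast h2
  have hy2 : Real.log 2 ≤ Real.log (2 * k) := Real.log_le_log (by norm_num) (by linarith)
  set y := Real.log (2 * (k : ℝ)) with hy
  have hy0 : 0 < y := by linarith
  have hy4 : (Real.log 2) ^ 4 ≤ y ^ 4 := by gcongr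
  rw [div_le_iff₀ (by positivity)]
  -- the entries
  have hne : ∀ i j, γ i / γ j ≠ 0 := fun i j => div_ne_zero (h0 i) (h0 j)
  have hinv : ∀ i j, IsIntegral ℤ (γ i / γ j)⁻¹ := by
    intro i j
    rw [inv_div]; exact hint j i
  have hG := gram (k := k) (S := K →ₐ[ℚ] ℂ) V
    (fun j σ => Real.log ‖σ (γ j)‖) (fun j σ => uu (γ j) σ) (fun j σ => norm_uu (h0 j) σ) (by
      intro c hcV σ
      have h1 := congrFun (LinearMap.mem_ker.mp hcV) σ
      simp only [Phi, LinearMap.coe_mk, AddHom.coe_mk, Pi.zero_apply] at h1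
      rw [← h1]
      refine Finset.sum_congr rfl fun j _ => ?_
      rw [Real.exp_log (norm_pos_iff.mpr ((map_ne_zero σ).mpr (h0 j))), mul_assoc, ← sig_eq (h0 j) σ])
  rw [hcard] at hG
  generalize finrank ℝ V = m at hG hrn hm1
  -- identify the Gram matrix
  have e1 : ∀ j l, ∑ σ : K →ₐ[ℚ] ℂ, uu (γ j) σ * starRingEnd ℂ (uu (γ l) σ) =
      ∑ σ : K →ₐ[ℚ] ℂ, uu (γ j / γ l) σ := by
    intro j l
    refine Finset.sum_congr rfl fun σ _ => ?_
    have h1 : starRingEnd ℂ (uu (γ l) σ) = (uu (γ l) σ)⁻¹ := by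
      rw [Complex.inv_def, Complex.normSq_eq_norm_sq, norm_uu (h0 l) σ]
      simp
    rw [h1]
    have hl : σ (γ l) ≠ 0 := (map_ne_zero σ).mpr (h0 l)
    have hj : σ (γ j) ≠ 0 := (map_ne_zero σ).mpr (h0 j)
    have hl' : (‖σ (γ l)‖ : ℂ) ≠ 0 := by exact_mod_cast norm_ne_zero_iff.mpr hl
    have hj' : (‖σ (γ j)‖ : ℂ) ≠ 0 := by exact_mod_cast norm_ne_zero_iff.mpr hj
    rw [uu, uu, uu, map_div₀, norm_div]
    push_cast
    field_simp
  simp only [e1] at hG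
  -- the logarithmic term
  have e2 : ∑ σ : K →ₐ[ℚ] ℂ, ∑ j, ∑ l, |Real.log ‖σ (γ j)‖ - Real.log ‖σ (γ l)‖| = 2 * Λ := by
    rw [Finset.sum_comm, hΛ, Finset.mul_sum]
    refine Finset.sum_congr rfl fun j _ => ?_
    rw [Finset.sum_comm, Finset.mul_sum, ← Finset.add_sum_erase _ _ (Finset.mem_univ j)]
    have h1 : ∑ σ : K →ₐ[ℚ] ℂ, |Real.log ‖σ (γ j)‖ - Real.log ‖σ (γ j)‖| = 0 := by simp
    rw [h1, zero_add]
    refine Finset.sum_congr rfl fun l _ => ?_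
    rw [← sum_abs_log (hne j l) (prod_unit (hint j l) (hinv j l) (hne j l))]
    refine Finset.sum_congr rfl fun σ _ => ?_
    have hl : σ (γ l) ≠ 0 := (map_ne_zero σ).mpr (h0 l)
    have hj : σ (γ j) ≠ 0 := (map_ne_zero σ).mpr (h0 j)
    rw [map_div₀, norm_div, Real.log_div (norm_ne_zero_iff.mpr hj) (norm_ne_zero_iff.mpr hl)]
  rw [e2] at hG
  set B : ℝ := 9 + 2 ^ 19 * y ^ 4 / c0 with hB
  have hB0 : 0 < B := by positivity
  have h1 : ∑ j, ∑ l ∈ Finset.univ.erase j, ‖∑ σ : K →ₐ[ℚ] ℂ, uu (γ j / γ l) σ‖ ^ 2 ≤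
      B * (d * Λ) + (d:ℝ) ^ 2 / 16 := by
    have h2 : ∀ j, ∀ l ∈ Finset.univ.erase j, ‖∑ σ : K →ₐ[ℚ] ℂ, uu (γ j / γ l) σ‖ ^ 2 ≤
        B * (d * lam (γ j / γ l)) + (d:ℝ) ^ 2 / (16 * (k:ℝ) ^ 2) := by
      intro j l hl
      have hjl : j ≠ l := (Finset.ne_of_mem_erase hl).symm
      exact pair_bound hc0 hdob (hint j l) (hinv j l) (hne j l) (hroot j l hjl) hk1
    calc ∑ j, ∑ l ∈ Finset.univ.erase j, ‖∑ σ : K →ₐ[ℚ] ℂ, uu (γ j / γ l) σ‖ ^ 2
        ≤ ∑ j, ∑ l ∈ Finset.univ.erase j, (B * (d * lam (γ j / γ l)) + (d:ℝ) ^ 2 / (16 * (k:ℝ) ^ 2)) :=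
          Finset.sum_le_sum fun j _ => Finset.sum_le_sum fun l hl => h2 j l hl
      _ = B * (d * Λ) + ∑ j : Fin k, ∑ l ∈ Finset.univ.erase j, (d:ℝ) ^ 2 / (16 * (k:ℝ) ^ 2) := by
          simp only [Finset.sum_add_distrib, hΛ, Finset.mul_sum]
      _ ≤ B * (d * Λ) + ∑ j : Fin k, ∑ l : Fin k, (d:ℝ) ^ 2 / (16 * (k:ℝ) ^ 2) := by
          gcongr with j _
          exact Finset.subset_univ _
      _ = B * (d * Λ) + (d:ℝ) ^ 2 / 16 := by
          simp only [Finset.sum_const, Finset.card_univ, Fintype.card_fin, nsmul_eq_mul]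
          field_simp
  have hB9 : 9 ≤ B := by
    have : 0 ≤ 2 ^ 19 * y ^ 4 / c0 := by positivity
    linarith
  have h2 : (m:ℝ) * (d:ℝ) ^ 2 ≤ (2 * B) * (d * Λ) := by
    have h3 : (m:ℝ) * (d:ℝ) ^ 2 ≤ B * (d * Λ) + (d:ℝ) ^ 2 / 16 + 2 * d * (2 * Λ) := by linarith
    have h4 : (d:ℝ) ^ 2 ≤ m * (d:ℝ) ^ 2 := by nlinarith [sq_nonneg (d:ℝ)]
    have h5 : 0 ≤ d * Λ := by positivity
    nlinarith
  have h3 : (m:ℝ) * d ≤ 2 * B * Λ := by
    have h4 : (d:ℝ) * (m * d) ≤ d * (2 * B * Λ) := by nlinarith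
    exact le_of_mul_le_mul_left h4 hd0
  have h4 : 2 * B ≤ (18 / (Real.log 2) ^ 4 + 2 ^ 20 / c0) * y ^ 4 := by
    have h5 : (18:ℝ) ≤ 18 / (Real.log 2) ^ 4 * y ^ 4 := by
      rw [div_mul_eq_mul_div, le_div_iff₀ (by positivity)]
      nlinarith
    rw [hB, add_mul]
    have h6 : 2 ^ 20 / c0 * y ^ 4 = 2 * (2 ^ 19 * y ^ 4 / c0) := by ring
    rw [h6]
    linarith
  have h5 : (m:ℝ) * d ≤ (18 / (Real.log 2) ^ 4 + 2 ^ 20 / c0) * y ^ 4 * Λ :=
    h3.trans (mul_le_mul_of_nonneg_right h4 hΛ0)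
  have hpos' : 0 < 18 / (Real.log 2) ^ 4 + 2 ^ 20 / c0 := by positivity
  calc c1 * ((k:ℝ) - ρ) * d ≤ c1 * (m * d) := by
        rw [mul_assoc]
        exact mul_le_mul_of_nonneg_left (mul_le_mul_of_nonneg_right hrn hd0.le) hc1p.le
    _ ≤ c1 * ((18 / (Real.log 2) ^ 4 + 2 ^ 20 / c0) * y ^ 4 * Λ) := by gcongr
    _ = Λ * y ^ 4 := by rw [hc1]; field_simp

end Pool.Agent.H196R3.LI
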