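import Mathlib
import Pool.Agent.H388SL.Fin
import Pool.Agent.H196R3.LIb

/-!
# From units to Mahler measures
-/

set_option autoImplicit false

open Finset Polynomial Module IntermediateField

namespace Pool.Agent.H196R3.LI

open Pool.Agent.H388SL

lemma lam_mul_le {K : Type*} [Field K] [NumberField K] (a b : K) : lam (a * b) ≤ lam a + lam b := by
  unfold lam
  rw [← Finset.sum_add_distrib]
  refine Finset.sum_le_sum fun σ _ => ?_
  have ha : 0 < max 1 ‖σ a‖ := lt_of_lt_of_le one_pos (le_max_left _ _)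
  have hb : 0 < max 1 ‖σ b‖ := lt_of_lt_of_le one_pos (le_max_left _ _)
  rw [← Real.log_mul ha.ne' hb.ne']
  apply Real.log_le_log (lt_of_lt_of_le one_pos (le_max_left _ _))
  rw [map_mul, norm_mul]
  apply max_le
  · have h1 : (1:ℝ) ≤ max 1 ‖σ a‖ := le_max_left _ _
    have h2 : (1:ℝ) ≤ max 1 ‖σ b‖ := le_max_left _ _
    nlinarith
  · exact mul_le_mul (le_max_right _ _) (le_max_right _ _) (norm_nonneg _) ha.le

lemma lam_inv {K : Type*} [Field K] [NumberField K] {a : K} (h0 : a ≠ 0)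
    (hunit : ∏ σ : K →ₐ[ℚ] ℂ, ‖σ a‖ = 1) : lam a⁻¹ = lam a := by
  have h1 : ∑ σ : K →ₐ[ℚ] ℂ, Real.log ‖σ a‖ = 0 := by
    rw [← Real.log_prod, hunit, Real.log_one]
    intro σ _
    rw [norm_ne_zero_iff]
    exact (map_ne_zero σ).mpr h0
  have h2 : ∀ σ : K →ₐ[ℚ] ℂ, Real.log (max 1 ‖σ a⁻¹‖) = Real.log (max 1 ‖σ a‖) - Real.log ‖σ a‖ := by
    intro σ
    have hpos : 0 < ‖σ a‖ := norm_pos_iff.mpr ((map_ne_zero σ).mpr h0)
    rw [map_inv₀, norm_inv]
    rcases le_total ‖σ a‖ 1 with h | h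
    · rw [max_eq_left h, max_eq_right (one_le_inv₀ hpos |>.mpr h), Real.log_one, Real.log_inv]; ring
    · rw [max_eq_right h, max_eq_left (inv_le_one_of_one_le₀ h), Real.log_one]; ring
  unfold lam
  rw [Finset.sum_congr rfl (fun σ _ => h2 σ), Finset.sum_sub_distrib, h1, sub_zero]

/-- the logarithmic size of a root in any number field -/
lemma lam_root {K : Type} [Field K] [NumberField K] {p : ℤ[X]} (hp : Irreducible p) (hm : p.Monic)
    {β : K} (hβ : aeval β p = 0) :
    (p.natDegree : ℝ) * lam β = finrank ℚ K * Real.log (MM p) := by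
  classical
  have hβi : IsIntegral ℤ β := ⟨p, hm, by rw [← Polynomial.aeval_def]; exact hβ⟩
  have hβQ : IsIntegral ℚ β := hβi.tower_top
  have hmin : minpoly ℤ β = p := by
    have h1 := minpoly.isIntegrallyClosed_dvd hβi hβ
    have h2 : Associated (minpoly ℤ β) p :=
      (minpoly.irreducible hβi).associated_of_dvd hp h1
    exact eq_of_monic_of_associated (minpoly.monic hβi) hm h2
  set g := AdjoinSimple.gen ℚ β with hg
  set e := finrank (adjoin ℚ {β}) K with he
  have hgc : CInj g := CInj_gen β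
  have hga : algebraMap (adjoin ℚ {β}) K g = β := AdjoinSimple.algebraMap_gen ℚ β
  have hgi : IsIntegral ℤ g := by
    rw [← hga] at hβi
    exact (isIntegral_algebraMap_iff (algebraMap (adjoin ℚ {β}) K).injective).mp hβi
  have hming : minpoly ℤ g = p := by
    have h1 : minpoly ℤ (algebraMap (adjoin ℚ {β}) K g) = minpoly ℤ g :=
      minpoly.algebraMap_eq (algebraMap (adjoin ℚ {β}) K).injective g
    rw [hga] at h1
    exact h1.symm.trans hmin
  have hpmap : p.map (Int.castRingHom ℂ) = ∏ τ : (adjoin ℚ {β}) →ₐ[ℚ] ℂ, (X - C (τ g)) := by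
    rw [← minpoly_map_eq hgc, minpoly.isIntegrallyClosed_eq_field_fractions' ℚ hgi, hming,
      Polynomial.map_map]
    rfl
  have hMM : Real.log (MM p) = lam g := by
    rw [MM, hpmap]
    have h1 : (∏ τ : (adjoin ℚ {β}) →ₐ[ℚ] ℂ, (X - C (τ g))).mahlerMeasure =
        ∏ τ : (adjoin ℚ {β}) →ₐ[ℚ] ℂ, max 1 ‖τ g‖ := by
      rw [Finset.prod_eq_multiset_prod, prod_mahlerMeasure_eq_mahlerMeasure_prod, Multiset.map_map,
        Finset.prod_eq_multiset_prod]
      congr 1
      refine Multiset.map_congr rfl fun τ _ => ?_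
      rw [Function.comp_apply, mahlerMeasure_X_sub_C]
    rw [h1, Real.log_prod]
    · rfl
    · intro τ _
      have : (0:ℝ) < max 1 ‖τ g‖ := lt_of_lt_of_le one_pos (le_max_left _ _)
      exact this.ne'
  have hfr : finrank ℚ (adjoin ℚ {β}) = p.natDegree := by
    rw [adjoin.finrank hβQ, minpoly.isIntegrallyClosed_eq_field_fractions' ℚ hβi, hmin]
    exact natDegree_map_eq_of_injective (algebraMap ℤ ℚ).injective_int p
  have hde : (p.natDegree : ℝ) * e = finrank ℚ K := by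
    rw [← hfr]
    exact_mod_cast finrank_mul_finrank ℚ (adjoin ℚ {β}) K
  have t2 : lam β = e * lam g := by
    rw [lam, sum_embeddings' β (fun z => Real.log (max 1 ‖z‖)), nsmul_eq_mul]
    rfl
  rw [t2, hMM, ← hde]
  ring

/-- the inverse of a root is integral -/
lemma inv_integral {K : Type} [Field K] [NumberField K] {p : ℤ[X]} (hm : p.Monic)
    (hc0 : |p.coeff 0| = 1) {β : K} (hβ : aeval β p = 0) : β ≠ 0 ∧ IsIntegral ℤ β⁻¹ := by
  have hβi : IsIntegral ℤ β := ⟨p, hm, by rw [← Polynomial.aeval_def]; exact hβ⟩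
  have h1 : β * aeval β p.divX = - ((p.coeff 0 : ℤ) : K) := by
    have h2 := congrArg (aeval β) p.X_mul_divX_add.symm
    rw [hβ, map_add, map_mul, aeval_X, aeval_C] at h2
    have h3 : algebraMap ℤ K (p.coeff 0) = ((p.coeff 0 : ℤ) : K) := by simp
    rw [h3] at h2
    exact eq_neg_of_add_eq_zero_left h2.symm
  have hsq : ((p.coeff 0 : ℤ) : K) * ((p.coeff 0 : ℤ) : K) = 1 := by
    have h2 : p.coeff 0 * p.coeff 0 = 1 := by
      rcases (abs_eq (by norm_num : (0:ℤ) ≤ 1)).mp hc0 with h | h <;> rw [h] <;> norm_num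
    exact_mod_cast congrArg (Int.cast (R := K)) h2
  have h0 : β ≠ 0 := by
    rintro rfl
    rw [zero_mul] at h1
    have : ((p.coeff 0 : ℤ) : K) = 0 := by
      rw [eq_comm, neg_eq_zero] at h1; exact h1
    rw [this] at hsq
    simp at hsq
  refine ⟨h0, ?_⟩
  have h2 : β⁻¹ = - (((p.coeff 0 : ℤ) : K) * aeval β p.divX) := by
    apply inv_eq_of_mul_eq_one_right
    calc β * -(((p.coeff 0 : ℤ) : K) * aeval β p.divX)
        = - (((p.coeff 0 : ℤ) : K) * (β * aeval β p.divX)) := by ring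
      _ = ((p.coeff 0 : ℤ) : K) * ((p.coeff 0 : ℤ) : K) := by rw [h1]; ring
      _ = 1 := hsq
  rw [h2]
  apply IsIntegral.neg
  apply IsIntegral.mul _ (isIntegral_aevalZ hβi _)
  have : ((p.coeff 0 : ℤ) : K) = algebraMap ℤ K (p.coeff 0) := by simp
  rw [this]
  exact isIntegral_algebraMap

/-- the splitting field inside `ℂ` -/
lemma splitting_finite {p : ℤ[X]} (hm : p.Monic) :
    FiniteDimensional ℚ (adjoin ℚ {z : ℂ | aeval z p = 0}) := by
  have hfin : Set.Finite {z : ℂ | aeval z p = 0} := by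
    have h1 : {z : ℂ | aeval z p = 0} ⊆ p.rootSet ℂ := by
      intro z hz
      rw [Polynomial.mem_rootSet]
      exact ⟨hm.ne_zero, hz⟩
    exact (Polynomial.rootSet_finite p ℂ).subset h1
  have : Finite {z : ℂ | aeval z p = 0} := hfin
  apply IntermediateField.finiteDimensional_adjoin
  intro z hz
  have hzi : IsIntegral ℤ z := ⟨p, hm, by rw [← Polynomial.aeval_def]; exact hz⟩
  exact hzi.tower_top

/-- monomials in the roots -/
lemma monomial_bound {p : ℤ[X]} (hp : Irreducible p) (hm : p.Monic) (hc0 : |p.coeff 0| = 1)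
    [NumberField (adjoin ℚ {z : ℂ | aeval z p = 0})] (l : List ℂ)
    (hl : ∀ z ∈ l, aeval z p = 0 ∨ aeval z⁻¹ p = 0) :
    ∃ y : adjoin ℚ {z : ℂ | aeval z p = 0}, (y : ℂ) = l.prod ∧ y ≠ 0 ∧ IsIntegral ℤ y ∧
      IsIntegral ℤ y⁻¹ ∧
      (p.natDegree : ℝ) * lam y ≤ l.length * (finrank ℚ (adjoin ℚ {z : ℂ | aeval z p = 0}) * Real.log (MM p)) := by
  classical
  have base : ∀ z : ℂ, aeval z p = 0 → ∃ y : adjoin ℚ {z : ℂ | aeval z p = 0}, (y : ℂ) = z ∧ y ≠ 0 ∧
      IsIntegral ℤ y ∧ IsIntegral ℤ y⁻¹ ∧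
      (p.natDegree : ℝ) * lam y = (finrank ℚ (adjoin ℚ {z : ℂ | aeval z p = 0}) * Real.log (MM p)) := by
    intro z hz
    have hmem : z ∈ adjoin ℚ {z : ℂ | aeval z p = 0} := subset_adjoin ℚ _ hz
    have hy : aeval (⟨z, hmem⟩ : adjoin ℚ {z : ℂ | aeval z p = 0}) p = 0 := by
      have h1 : algebraMap (adjoin ℚ {z : ℂ | aeval z p = 0}) ℂ
          (aeval (⟨z, hmem⟩ : adjoin ℚ {z : ℂ | aeval z p = 0}) p) = 0 := by
        rw [← Polynomial.aeval_algebraMap_apply]
        exact hz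
      exact (map_eq_zero _).mp h1
    have h2 := inv_integral hm hc0 hy
    exact ⟨⟨z, hmem⟩, rfl, h2.1, ⟨p, hm, by rw [← Polynomial.aeval_def]; exact hy⟩, h2.2,
      lam_root hp hm hy⟩
  induction l with
  | nil =>
    refine ⟨1, by simp, one_ne_zero, isIntegral_one, by rw [inv_one]; exact isIntegral_one, ?_⟩
    have h1 : lam (1 : adjoin ℚ {z : ℂ | aeval z p = 0}) = 0 := by
      unfold lam
      apply Finset.sum_eq_zero
      intro σ _
      rw [map_one, norm_one, max_self, Real.log_one]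
    rw [h1]; simp
  | cons a l ih =>
    obtain ⟨y, hy1, hy2, hy3, hy4, hy5⟩ := ih (fun z hz => hl z (List.mem_cons_of_mem _ hz))
    have ha : ∃ w : adjoin ℚ {z : ℂ | aeval z p = 0}, (w : ℂ) = a ∧ w ≠ 0 ∧
      IsIntegral ℤ w ∧ IsIntegral ℤ w⁻¹ ∧
      (p.natDegree : ℝ) * lam w = (finrank ℚ (adjoin ℚ {z : ℂ | aeval z p = 0}) * Real.log (MM p)) := by
      rcases hl a List.mem_cons_self with h | h
      · exact base a h
      · obtain ⟨w, hw1, hw2, hw3, hw4, hw5⟩ := base _ h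
        refine ⟨w⁻¹, by rw [IntermediateField.coe_inv, hw1, inv_inv], inv_ne_zero hw2, hw4,
          by rw [inv_inv]; exact hw3, ?_⟩
        rw [lam_inv hw2 (prod_unit hw3 hw4 hw2)]
        exact hw5
    obtain ⟨w, hw1, hw2, hw3, hw4, hw5⟩ := ha
    refine ⟨w * y, by rw [IntermediateField.coe_mul, hw1, hy1, List.prod_cons], mul_ne_zero hw2 hy2,
      hw3.mul hy3, by rw [mul_inv]; exact hw4.mul hy4, ?_⟩
    have h1 := lam_mul_le w y
    have h2 : (p.natDegree : ℝ) * lam (w * y) ≤ p.natDegree * (lam w + lam y) :=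
      mul_le_mul_of_nonneg_left h1 (Nat.cast_nonneg _)
    rw [List.length_cons]
    push_cast
    nlinarith

end Pool.Agent.H196R3.LI

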