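import Mathlib
import Pool.Agent.H196R3.LIc

/-!
# Relations between monomials in the roots, and the conjugate dimension
-/

set_option autoImplicit false

open Finset Polynomial Module IntermediateField

namespace Pool.Agent.H196R3.LI

open Pool.Agent.H388SL

/-- the statement of `units_rank` for a fixed constant -/
def UR (c : ℝ) : Prop := ∀ (K : Type) [Field K] [NumberField K] (k : ℕ)
    (γ : Fin k → K), (∀ i, γ i ≠ 0) → (∀ i j, IsIntegral ℤ (γ i / γ j)) →
    (∀ i j, i ≠ j → ∀ m : ℕ, 0 < m → (γ i / γ j) ^ m ≠ 1) →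
    c * ((k : ℝ) - finrank ℚ (Submodule.span ℚ (Set.range γ))) * finrank ℚ K /
        (Real.log (2 * k)) ^ 4 ≤
      ∑ i, ∑ j ∈ Finset.univ.erase i, lam (γ i / γ j)

theorem monomials {c : ℝ} (hA : UR c) {p : ℤ[X]} (hp : Irreducible p) (hm : p.Monic)
    (hc0 : |p.coeff 0| = 1) (S : Finset ℂ) (D : ℂ → ℕ)
    (hS : ∀ x ∈ S, ∃ l : List ℂ, l.length ≤ D x ∧ (∀ z ∈ l, aeval z p = 0 ∨ aeval z⁻¹ p = 0) ∧
      x = l.prod)
    (htor : ∀ x ∈ S, ∀ y ∈ S, x ≠ y → ∀ m : ℕ, 0 < m → x ^ m ≠ y ^ m) :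
    c * p.natDegree * ((S.card : ℝ) - finrank ℚ (Submodule.span ℚ (S : Set ℂ))) /
        (Real.log (2 * S.card)) ^ 4 ≤
      2 * S.card * (∑ x ∈ S, (D x : ℝ)) * Real.log (MM p) := by
  classical
  have hfin := splitting_finite hm
  have hnf : NumberField (adjoin ℚ {z : ℂ | aeval z p = 0}) :=
    { to_charZero := inferInstance, to_finiteDimensional := hfin }
  set K := adjoin ℚ {z : ℂ | aeval z p = 0} with hK
  set k := S.card with hk
  set n : ℝ := (p.natDegree : ℝ) with hn
  have hn0 : 0 ≤ n := Nat.cast_nonneg _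
  set T : ℝ := finrank ℚ K * Real.log (MM p) with hT
  have hlM : 0 ≤ Real.log (MM p) := Real.log_nonneg (one_le_MM hp.ne_zero)
  have hT0 : 0 ≤ T := by positivity
  have hd0 : (0:ℝ) < finrank ℚ K := by exact_mod_cast (finrank_pos : 0 < finrank ℚ K)
  let e : S ≃ Fin k := S.equivFin
  have hch : ∀ x : S, ∃ y : K, (y : ℂ) = x ∧ y ≠ 0 ∧ IsIntegral ℤ y ∧
      IsIntegral ℤ y⁻¹ ∧ n * lam y ≤ D x * T := by
    rintro ⟨x, hx⟩
    obtain ⟨l, hl1, hl2, hl3⟩ := hS x hx
    obtain ⟨y, hy1, hy2, hy3, hy4, hy5⟩ := monomial_bound hp hm hc0 l hl2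
    refine ⟨y, by rw [hy1, ← hl3], hy2, hy3, hy4, hy5.trans ?_⟩
    have : (l.length : ℝ) ≤ D x := by exact_mod_cast hl1
    exact mul_le_mul_of_nonneg_right this hT0
  choose y hy1 hy2 hy3 hy4 hy5 using hch
  set γ : Fin k → K := fun i => y (e.symm i) with hγ
  have h1 := hA K k γ (fun i => hy2 _) (fun i j => by
      rw [div_eq_mul_inv]; exact (hy3 _).mul (hy4 _)) (by
      intro i j hij m hm0 h
      have hij' : ((e.symm i : S) : ℂ) ≠ (e.symm j : S) := by
        intro h2
        exact hij (e.symm.injective (Subtype.ext h2))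
      apply htor _ (e.symm i).2 _ (e.symm j).2 hij' m hm0
      have h3 : (γ i) ^ m = (γ j) ^ m := by
        rw [div_pow, div_eq_one_iff_eq (pow_ne_zero m (hy2 _))] at h
        exact h
      have h4 := congrArg (fun w : K => (w : ℂ)) h3
      simp only [IntermediateField.coe_pow] at h4
      rw [hγ] at h4
      simp only [hy1] at h4
      exact h4)
  -- rank
  have hrank : finrank ℚ (Submodule.span ℚ (Set.range γ)) = finrank ℚ (Submodule.span ℚ (S : Set ℂ)) := by
    set φ : K →ₗ[ℚ] ℂ := K.val.toLinearMap with hφ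
    have hinj : Function.Injective φ := fun a b h => Subtype.ext h
    have himg : φ '' Set.range γ = (S : Set ℂ) := by
      ext z
      constructor
      · rintro ⟨_, ⟨i, rfl⟩, rfl⟩
        have : φ (γ i) = ((e.symm i : S) : ℂ) := hy1 _
        rw [this]
        exact (e.symm i).2
      · intro hz
        refine ⟨γ (e ⟨z, hz⟩), ⟨_, rfl⟩, ?_⟩
        have : φ (γ (e ⟨z, hz⟩)) = ((e.symm (e ⟨z, hz⟩) : S) : ℂ) := hy1 _
        rw [this, Equiv.symm_apply_apply]
    rw [(Submodule.equivMapOfInjective φ hinj (Submodule.span ℚ (Set.range γ))).finrank_eq,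
      Submodule.map_span, himg]
  rw [hrank] at h1
  -- upper bound
  have hpair : ∀ i j, n * lam (γ i / γ j) ≤ ((D (e.symm i) : ℝ) + D (e.symm j)) * T := by
    intro i j
    have h2 : lam (γ i / γ j) ≤ lam (γ i) + lam (γ j) := by
      rw [div_eq_mul_inv]
      refine (lam_mul_le _ _).trans ?_
      rw [lam_inv (hy2 _) (prod_unit (hy3 _) (hy4 _) (hy2 _))]
    have h3 := mul_le_mul_of_nonneg_left h2 hn0
    have h4 : n * lam (γ i) ≤ D (e.symm i) * T := hy5 _
    have h5 : n * lam (γ j) ≤ D (e.symm j) * T := hy5 _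
    linarith
  have hsum : n * ∑ i, ∑ j ∈ Finset.univ.erase i, lam (γ i / γ j) ≤
      2 * k * (∑ x ∈ S, (D x : ℝ)) * T := by
    have hΔ : ∑ i : Fin k, (D (e.symm i) : ℝ) = ∑ x ∈ S, (D x : ℝ) := by
      rw [← Finset.sum_coe_sort S (fun x => (D x : ℝ))]
      exact Fintype.sum_equiv e.symm _ _ (fun _ => rfl)
    calc n * ∑ i, ∑ j ∈ Finset.univ.erase i, lam (γ i / γ j)
        = ∑ i, ∑ j ∈ Finset.univ.erase i, n * lam (γ i / γ j) := by
          simp only [Finset.mul_sum]
      _ ≤ ∑ i : Fin k, ∑ j ∈ Finset.univ.erase i, ((D (e.symm i) : ℝ) + D (e.symm j)) * T :=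
          Finset.sum_le_sum fun i _ => Finset.sum_le_sum fun j _ => hpair i j
      _ ≤ ∑ i : Fin k, ∑ j : Fin k, ((D (e.symm i) : ℝ) + D (e.symm j)) * T := by
          refine Finset.sum_le_sum fun i _ => ?_
          exact Finset.sum_le_sum_of_subset_of_nonneg (Finset.subset_univ _)
            (fun _ _ _ => by positivity)
      _ = 2 * k * (∑ x ∈ S, (D x : ℝ)) * T := by
          simp only [← Finset.sum_mul, Finset.sum_add_distrib, Finset.sum_const, Finset.card_univ,
            Fintype.card_fin, nsmul_eq_mul, ← Finset.mul_sum, hΔ]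
          ring
  have h2 : n * (c * ((k : ℝ) - finrank ℚ (Submodule.span ℚ (S : Set ℂ))) * finrank ℚ K /
        (Real.log (2 * k)) ^ 4) ≤ 2 * k * (∑ x ∈ S, (D x : ℝ)) * T :=
    (mul_le_mul_of_nonneg_left h1 hn0).trans hsum
  have h3 : (finrank ℚ K : ℝ) * (c * n * ((k : ℝ) - finrank ℚ (Submodule.span ℚ (S : Set ℂ))) /
        (Real.log (2 * k)) ^ 4) ≤ finrank ℚ K * (2 * k * (∑ x ∈ S, (D x : ℝ)) * Real.log (MM p)) := by
    calc (finrank ℚ K : ℝ) * (c * n * ((k : ℝ) - finrank ℚ (Submodule.span ℚ (S : Set ℂ))) /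
        (Real.log (2 * k)) ^ 4) = n * (c * ((k : ℝ) - finrank ℚ (Submodule.span ℚ (S : Set ℂ))) *
          finrank ℚ K / (Real.log (2 * k)) ^ 4) := by ring
      _ ≤ 2 * k * (∑ x ∈ S, (D x : ℝ)) * T := h2
      _ = _ := by rw [hT]; ring
  exact le_of_mul_le_mul_left h3 hd0

/-- Dobrowolski's bound for polynomials -/
lemma dob_poly {c0 : ℝ}
    (hdob : ∀ (K : Type) [Field K] [NumberField K] (α : K), IsIntegral ℤ α →
      α ≠ 0 → (∀ n : ℕ, 0 < n → α ^ n ≠ 1) → CInj α →
      c0 / (Real.log (2 * finrank ℚ K)) ^ 3 ≤ lam α)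
    {p : ℤ[X]} (hp : Irreducible p) (hm : p.Monic)
    (hroot : ∀ z : ℂ, aeval z p = 0 → z ≠ 0 ∧ ∀ n : ℕ, 0 < n → z ^ n ≠ 1) :
    c0 / (Real.log (2 * p.natDegree)) ^ 3 ≤ Real.log (MM p) := by
  have hdeg : p.natDegree ≠ 0 := by
    intro h
    have := hm.natDegree_eq_zero.mp h
    exact hp.not_isUnit (this ▸ isUnit_one)
  obtain ⟨z, hz⟩ := IsAlgClosed.exists_aeval_eq_zero ℂ p (by
    intro h
    exact hdeg (natDegree_eq_of_degree_eq_some h))
  have hzi : IsIntegral ℤ z := ⟨p, hm, by rw [← Polynomial.aeval_def]; exact hz⟩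
  have hzQ : IsIntegral ℚ z := hzi.tower_top
  have hmin : minpoly ℤ z = p := by
    have h1 := minpoly.isIntegrallyClosed_dvd hzi hz
    have h2 : Associated (minpoly ℤ z) p :=
      (minpoly.irreducible hzi).associated_of_dvd hp h1
    exact eq_of_monic_of_associated (minpoly.monic hzi) hm h2
  set L := adjoin ℚ {z} with hL
  have hfin : FiniteDimensional ℚ L := adjoin.finiteDimensional hzQ
  have : NumberField L := { to_charZero := inferInstance, to_finiteDimensional := hfin }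
  set α : L := AdjoinSimple.gen ℚ z with hα
  have hαz : algebraMap L ℂ α = z := AdjoinSimple.algebraMap_gen ℚ z
  have hαi : IsIntegral ℤ α := by
    rw [← hαz] at hzi
    exact (isIntegral_algebraMap_iff (algebraMap L ℂ).injective).mp hzi
  have hα0 : α ≠ 0 := by
    intro h
    rw [h, map_zero] at hαz
    exact (hroot z hz).1 hαz.symm
  have hαroot : ∀ n : ℕ, 0 < n → α ^ n ≠ 1 := by
    intro n hn h
    have h1 := congrArg (algebraMap L ℂ) h
    rw [map_pow, hαz, map_one] at h1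
    exact (hroot z hz).2 n hn h1
  have hαc : CInj α := by
    intro σ τ h
    apply adjoin_algHom_ext ℚ (s := {z})
    intro x hx
    rw [Set.mem_singleton_iff] at hx
    subst hx
    exact h
  have hfr : finrank ℚ L = p.natDegree := by
    rw [hL, adjoin.finrank hzQ, minpoly.isIntegrallyClosed_eq_field_fractions' ℚ hzi, hmin]
    exact natDegree_map_eq_of_injective (algebraMap ℤ ℚ).injective_int p
  have hαp : aeval α p = 0 := by
    have h1 : algebraMap L ℂ (aeval α p) = 0 := by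
      rw [← Polynomial.aeval_algebraMap_apply, hαz]
      exact hz
    exact (map_eq_zero _).mp h1
  have h1 := lam_root hp hm hαp
  rw [hfr] at h1
  have hn : (0:ℝ) < p.natDegree := by exact_mod_cast Nat.pos_of_ne_zero hdeg
  have h2 : lam α = Real.log (MM p) := mul_left_cancel₀ hn.ne' h1
  rw [← h2, ← hfr]
  exact hdob L α hαi hα0 hαroot hαc

end Pool.Agent.H196R3.LI
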