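import Mathlib
import Pool.Agent.H196R3.LId

/-!
# Congruences between units of small mutual height
-/

set_option autoImplicit false

open Finset Polynomial Module IntermediateField

namespace Pool.Agent.H196R3.LI

open Pool.Agent.H388SL

/-- arithmetic and geometric means -/
lemma amgm {S : Type*} [Fintype S] [Nonempty S] (a : S → ℝ) (ha : ∀ s, 0 < a s) :
    (Fintype.card S : ℝ) * Real.exp ((∑ s, Real.log (a s)) / Fintype.card S) ≤ ∑ s, a s := by
  have hN : (0:ℝ) < Fintype.card S := by exact_mod_cast Fintype.card_pos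
  set T : ℝ := (∑ s, Real.log (a s)) / Fintype.card S with hT
  have h1 : ∀ s, Real.exp T * (1 + (Real.log (a s) - T)) ≤ a s := by
    intro s
    have h2 := Real.add_one_le_exp (Real.log (a s) - T)
    have h3 : a s = Real.exp T * Real.exp (Real.log (a s) - T) := by
      rw [← Real.exp_add]
      rw [show T + (Real.log (a s) - T) = Real.log (a s) by ring, Real.exp_log (ha s)]
    calc Real.exp T * (1 + (Real.log (a s) - T)) ≤ Real.exp T * Real.exp (Real.log (a s) - T) := by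
          apply mul_le_mul_of_nonneg_left _ (Real.exp_pos _).le
          linarith
      _ = a s := h3.symm
  have h2 := Finset.sum_le_sum fun (s : S) (_ : s ∈ Finset.univ) => h1 s
  have h3 : ∑ s : S, Real.exp T * (1 + (Real.log (a s) - T)) = Fintype.card S * Real.exp T := by
    rw [← Finset.mul_sum]
    have h4 : ∑ s : S, (1 + (Real.log (a s) - T)) = Fintype.card S := by
      rw [Finset.sum_add_distrib, Finset.sum_sub_distrib]
      simp only [Finset.sum_const, Finset.card_univ, nsmul_eq_mul, mul_one]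
      rw [hT]
      field_simp
      ring
    rw [h4]; ring
  rw [h3] at h2
  exact h2

/-- pointwise bound for a linear form -/
lemma pointwise1 {k : ℕ} (hk : 0 < k) (c : Fin k → ℝ) (r : Fin k → ℝ) (u : Fin k → ℂ)
    (hu : ∀ j, ‖u j‖ = 1) (j0 : Fin k) :
    ‖∑ j, ((c j : ℝ) : ℂ) * ((Real.exp (r j) : ℝ) : ℂ) * u j‖ ^ 2 ≤
      Real.exp (2 * (r j0 + ∑ j, max 0 (r j - r j0))) *
      (5 / 4 * ‖∑ j, ((c j : ℝ) : ℂ) * u j‖ ^ 2 + 5 * ((∑ j, (c j) ^ 2) * ∑ j, ∑ l, |r j - r l|)) := by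
  classical
  have : Nonempty (Fin k) := ⟨⟨0, hk⟩⟩
  obtain ⟨m0, -, hm⟩ := Finset.exists_max_image (Finset.univ : Finset (Fin k)) r Finset.univ_nonempty
  have hm' : ∀ j, 0 ≤ r m0 - r j := fun j => sub_nonneg.mpr (hm j (Finset.mem_univ j))
  set w : Fin k → ℝ := fun j => 1 - Real.exp (-(r m0 - r j)) with hw
  have hw0 : ∀ j, 0 ≤ w j := by
    intro j
    rw [hw]
    have : Real.exp (-(r m0 - r j)) ≤ 1 := Real.exp_le_one_iff.mpr (by linarith [hm' j])
    simp only
    linarith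
  have hw1 : ∀ j, w j ≤ 1 := by
    intro j
    rw [hw]
    have : 0 < Real.exp (-(r m0 - r j)) := Real.exp_pos _
    simp only
    linarith
  have hw2 : ∀ j, w j ≤ r m0 - r j := by
    intro j
    rw [hw]
    have := Real.add_one_le_exp (-(r m0 - r j))
    simp only
    linarith
  have e1 : ∑ j, ((c j : ℝ) : ℂ) * ((Real.exp (r j) : ℝ) : ℂ) * u j =
      ((Real.exp (r m0) : ℝ) : ℂ) * (∑ j, ((c j : ℝ) : ℂ) * u j - ∑ j, ((c j : ℝ) : ℂ) * ((w j : ℝ) : ℂ) * u j) := by
    rw [← Finset.sum_sub_distrib, Finset.mul_sum]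
    refine Finset.sum_congr rfl fun j _ => ?_
    have h1 : Real.exp (r j) = Real.exp (r m0) * (1 - w j) := by
      rw [hw]
      simp only [sub_sub_cancel]
      rw [← Real.exp_add]; congr 1; ring
    rw [h1]
    push_cast
    ring
  set A := ‖∑ j, ((c j : ℝ) : ℂ) * u j‖ with hA
  set Bn := ‖∑ j, ((c j : ℝ) : ℂ) * ((w j : ℝ) : ℂ) * u j‖ with hBn
  have h4 : Bn ≤ ∑ j, |c j| * w j := by
    refine (norm_sum_le _ _).trans (le_of_eq ?_)
    refine Finset.sum_congr rfl fun j _ => ?_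
    rw [norm_mul, norm_mul, hu, mul_one, Complex.norm_real, Complex.norm_real, Real.norm_eq_abs,
      Real.norm_eq_abs]
    congr 1
    exact abs_of_nonneg (hw0 j)
  have h5 : (∑ j, |c j| * w j) ^ 2 ≤ (∑ j, (c j) ^ 2) * ∑ j, (w j) ^ 2 := by
    have := Finset.sum_mul_sq_le_sq_mul_sq (Finset.univ : Finset (Fin k)) (fun j => |c j|) w
    simpa only [sq_abs] using this
  have h6 : ∑ j, (w j) ^ 2 ≤ ∑ j, ∑ l, |r j - r l| := by
    refine Finset.sum_le_sum fun j _ => ?_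
    have h7 : (w j) ^ 2 ≤ r m0 - r j := by nlinarith [hw0 j, hw1 j, hw2 j]
    have h8 : |r j - r m0| ≤ ∑ l, |r j - r l| :=
      Finset.single_le_sum (f := fun l => |r j - r l|) (fun l _ => abs_nonneg _) (Finset.mem_univ m0)
    have h9 : r m0 - r j ≤ |r j - r m0| := by
      rw [abs_sub_comm]; exact le_abs_self _
    linarith
  have hc0 : 0 ≤ ∑ j, (c j) ^ 2 := Finset.sum_nonneg fun _ _ => sq_nonneg _
  have h7 : Bn ^ 2 ≤ (∑ j, (c j) ^ 2) * ∑ j, ∑ l, |r j - r l| := by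
    calc Bn ^ 2 ≤ (∑ j, |c j| * w j) ^ 2 := pow_le_pow_left₀ (norm_nonneg _) h4 2
      _ ≤ (∑ j, (c j) ^ 2) * ∑ j, (w j) ^ 2 := h5
      _ ≤ _ := mul_le_mul_of_nonneg_left h6 hc0
  have h8 : ‖∑ j, ((c j : ℝ) : ℂ) * u j - ∑ j, ((c j : ℝ) : ℂ) * ((w j : ℝ) : ℂ) * u j‖ ^ 2 ≤
      5 / 4 * A ^ 2 + 5 * Bn ^ 2 := by
    have h9 : ‖∑ j, ((c j : ℝ) : ℂ) * u j - ∑ j, ((c j : ℝ) : ℂ) * ((w j : ℝ) : ℂ) * u j‖ ≤ A + Bn :=
      norm_sub_le _ _
    calc _ ≤ (A + Bn) ^ 2 := pow_le_pow_left₀ (norm_nonneg _) h9 2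
      _ ≤ 5 / 4 * A ^ 2 + 5 * Bn ^ 2 := by nlinarith [sq_nonneg (A - 4 * Bn)]
  have h9 : r m0 ≤ r j0 + ∑ j, max 0 (r j - r j0) := by
    have h10 : max 0 (r m0 - r j0) ≤ ∑ j, max 0 (r j - r j0) :=
      Finset.single_le_sum (f := fun j => max 0 (r j - r j0)) (fun _ _ => le_max_left _ _)
        (Finset.mem_univ m0)
    have h11 : r m0 - r j0 ≤ max 0 (r m0 - r j0) := le_max_right _ _
    linarith
  rw [e1, norm_mul, mul_pow, Complex.norm_real, Real.norm_eq_abs, abs_of_pos (Real.exp_pos _),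
    ← Real.exp_nat_mul]
  have h10 : Real.exp (((2:ℕ):ℝ) * r m0) ≤ Real.exp (2 * (r j0 + ∑ j, max 0 (r j - r j0))) := by
    apply Real.exp_le_exp.mpr
    push_cast
    linarith
  have h11 : 5 / 4 * A ^ 2 + 5 * Bn ^ 2 ≤
      5 / 4 * A ^ 2 + 5 * ((∑ j, (c j) ^ 2) * ∑ j, ∑ l, |r j - r l|) := by linarith
  exact mul_le_mul h10 (h8.trans h11) (sq_nonneg _) (Real.exp_pos _).le

/-- the Gram matrix inequality for a linear form of large norm -/
lemma gram1 {k : ℕ} (hk : 0 < k) {S : Type*} [Fintype S] [Nonempty S]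
    (c : Fin k → ℝ) (r : Fin k → S → ℝ) (u : Fin k → S → ℂ) (hu : ∀ j s, ‖u j s‖ = 1)
    (j0 : Fin k) (hr0 : ∑ s, r j0 s = 0) {q : ℝ} (hq : 0 < q) (hC0 : 0 < ∑ j, (c j) ^ 2)
    (hCq : 2 * ∑ j, (c j) ^ 2 ≤ q ^ 2)
    (hne : ∀ s, ∑ j, ((c j : ℝ) : ℂ) * ((Real.exp (r j s) : ℝ) : ℂ) * u j s ≠ 0)
    (hlog : Fintype.card S * Real.log q ≤
      ∑ s, Real.log ‖∑ j, ((c j : ℝ) : ℂ) * ((Real.exp (r j s) : ℝ) : ℂ) * u j s‖) :
    (Fintype.card S : ℝ) ^ 2 ≤
      25 / 8 * ∑ j, ∑ l ∈ Finset.univ.erase j, ‖∑ s, u j s * starRingEnd ℂ (u l s)‖ ^ 2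
        + 18 * Fintype.card S * ∑ s, ∑ j, ∑ l, |r j s - r l s| := by
  classical
  have hd0 : (0:ℝ) < Fintype.card S := by exact_mod_cast Fintype.card_pos
  have hcardS : (Fintype.card S : ℝ) = (Fintype.card S : ℝ) := rfl
  set C : ℝ := ∑ j, (c j) ^ 2 with hC
  set G : Fin k → Fin k → ℂ := fun j l => ∑ s, u j s * starRingEnd ℂ (u l s) with hG
  set Rs : S → ℝ := fun s => ∑ j, ∑ l, |r j s - r l s| with hRs
  set R : ℝ := ∑ s, Rs s with hR
  set E : ℝ := ∑ j, ∑ l ∈ Finset.univ.erase j, ‖G j l‖ ^ 2 with hE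
  have hE0 : 0 ≤ E := Finset.sum_nonneg fun _ _ => Finset.sum_nonneg fun _ _ => by positivity
  have hRs0 : ∀ s, 0 ≤ Rs s := fun s => Finset.sum_nonneg fun _ _ => Finset.sum_nonneg fun _ _ => abs_nonneg _
  have hR0 : 0 ≤ R := Finset.sum_nonneg fun s _ => hRs0 s
  set W : S → ℂ := fun s => ∑ j, ((c j : ℝ) : ℂ) * ((Real.exp (r j s) : ℝ) : ℂ) * u j s with hW
  set v : S → ℂ := fun s => ∑ j, ((c j : ℝ) : ℂ) * u j s with hv
  set M : S → ℝ := fun s => ∑ j, max 0 (r j s - r j0 s) with hM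
  have hM1 : ∀ s, M s ≤ Rs s := by
    intro s
    rw [hM, hRs]
    refine Finset.sum_le_sum fun j _ => ?_
    have h1 : |r j s - r j0 s| ≤ ∑ l, |r j s - r l s| :=
      Finset.single_le_sum (f := fun l => |r j s - r l s|) (fun l _ => abs_nonneg _) (Finset.mem_univ j0)
    exact (max_le (abs_nonneg _) (le_abs_self _)).trans h1
  set Y : S → ℝ := fun s => 5 / 4 * ‖v s‖ ^ 2 + 5 * (C * Rs s) with hY
  have hpt : ∀ s, ‖W s‖ ^ 2 ≤ Real.exp (2 * (r j0 s + M s)) * Y s := fun s =>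
    pointwise1 hk c (fun j => r j s) (fun j => u j s) (fun j => hu j s) j0
  have hWpos : ∀ s, 0 < ‖W s‖ := fun s => norm_pos_iff.mpr (hne s)
  have hYpos : ∀ s, 0 < Y s := by
    intro s
    have h1 : 0 < Real.exp (2 * (r j0 s + M s)) * Y s :=
      lt_of_lt_of_le (by have := hWpos s; positivity) (hpt s)
    exact pos_of_mul_pos_right h1 (Real.exp_pos _).le
  have hlogY : ∀ s, 2 * Real.log ‖W s‖ - 2 * r j0 s - 2 * Rs s ≤ Real.log (Y s) := by
    intro s
    have h1 := Real.log_le_log (by have := hWpos s; positivity) (hpt s)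
    rw [Real.log_mul (Real.exp_pos _).ne' (hYpos s).ne', Real.log_exp, Real.log_pow] at h1
    push_cast at h1
    have h2 := hM1 s
    linarith
  have hsumlog : 2 * (Fintype.card S * Real.log q) - 2 * R ≤ ∑ s, Real.log (Y s) := by
    have h1 := Finset.sum_le_sum fun (s : S) (_ : s ∈ Finset.univ) => hlogY s
    rw [Finset.sum_sub_distrib, Finset.sum_sub_distrib, ← Finset.mul_sum, ← Finset.mul_sum,
      ← Finset.mul_sum, hr0] at h1
    linarith
  have ham := amgm Y hYpos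
  set d : ℝ := (Fintype.card S : ℝ) with hd
  have h1 : q ^ 2 * (d - 2 * R) ≤ ∑ s, Y s := by
    have h2 : 2 * Real.log q - 2 * R / d ≤ (∑ s, Real.log (Y s)) / d := by
      rw [le_div_iff₀ hd0]
      have e : (2 * Real.log q - 2 * R / d) * d = 2 * (d * Real.log q) - 2 * R := by
        field_simp
      rw [e]; exact hsumlog
    have h3 : q ^ 2 * (1 - 2 * R / d) ≤ Real.exp ((∑ s, Real.log (Y s)) / d) := by
      calc q ^ 2 * (1 - 2 * R / d) ≤ q ^ 2 * Real.exp (- (2 * R / d)) := by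
            apply mul_le_mul_of_nonneg_left _ (sq_nonneg _)
            have := Real.add_one_le_exp (- (2 * R / d))
            linarith
        _ = Real.exp (2 * Real.log q - 2 * R / d) := by
            rw [sub_eq_add_neg, Real.exp_add]
            congr 1
            have : 2 * Real.log q = Real.log (q ^ 2) := by rw [Real.log_pow]; push_cast; ring
            rw [this, Real.exp_log (by positivity)]
        _ ≤ _ := Real.exp_le_exp.mpr h2
    calc q ^ 2 * (d - 2 * R) = d * (q ^ 2 * (1 - 2 * R / d)) := by field_simp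
      _ ≤ d * Real.exp ((∑ s, Real.log (Y s)) / d) := mul_le_mul_of_nonneg_left h3 hd0.le
      _ ≤ _ := ham
  -- expansion
  have e1 : ∑ s, ‖v s‖ ^ 2 = ∑ j, ∑ l, (c j * c l) * (G j l).re := by
    have h4 : ∀ s, ‖v s‖ ^ 2 = ∑ j, ∑ l, (c j * c l) * (u j s * starRingEnd ℂ (u l s)).re := by
      intro s
      have h2 : ((‖v s‖ ^ 2 : ℝ) : ℂ) =
          ∑ j, ∑ l, ((c j * c l : ℝ) : ℂ) * (u j s * starRingEnd ℂ (u l s)) := by
        rw [← Complex.normSq_eq_norm_sq, ← Complex.mul_conj, hv, map_sum, Finset.sum_mul_sum]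
        refine Finset.sum_congr rfl fun j _ => Finset.sum_congr rfl fun l _ => ?_
        rw [map_mul, Complex.conj_ofReal]
        push_cast; ring
      have h3 := congrArg Complex.re h2
      rw [Complex.ofReal_re, Complex.re_sum] at h3
      rw [h3]
      refine Finset.sum_congr rfl fun j _ => ?_
      rw [Complex.re_sum]
      refine Finset.sum_congr rfl fun l _ => ?_
      rw [Complex.re_ofReal_mul]
    rw [Finset.sum_congr rfl (fun s _ => h4 s), Finset.sum_comm]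
    refine Finset.sum_congr rfl fun j _ => ?_
    rw [Finset.sum_comm]
    refine Finset.sum_congr rfl fun l _ => ?_
    rw [hG, Complex.re_sum, Finset.mul_sum]
  have ediag : ∀ j, (G j j).re = d := by
    intro j
    have h1 : ∀ s, u j s * starRingEnd ℂ (u j s) = 1 := by
      intro s
      rw [Complex.mul_conj, Complex.normSq_eq_norm_sq, hu]
      simp
    rw [hG]
    simp only [h1]
    simp [hd]
  have hup : ∑ j, ∑ l, (c j * c l) * (G j l).re ≤ d * C + (d * C / 5 + 5 * C / (4 * d) * E) := by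
    have h1 : ∀ j, ∑ l, (c j * c l) * (G j l).re = (c j * c j) * d +
        ∑ l ∈ Finset.univ.erase j, (c j * c l) * (G j l).re := by
      intro j
      rw [← Finset.add_sum_erase _ _ (Finset.mem_univ j), ediag]
    rw [Finset.sum_congr rfl (fun j _ => h1 j), Finset.sum_add_distrib]
    have h2 : ∑ j, (c j * c j) * d = d * C := by
      rw [← Finset.sum_mul, mul_comm, hC]
      congr 1
      refine Finset.sum_congr rfl fun j _ => by ring
    have h3 : ∀ j l, (c j * c l) * (G j l).re ≤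
        d / (5 * C) * (c j ^ 2 * c l ^ 2) + 5 * C / (4 * d) * ‖G j l‖ ^ 2 := by
      intro j l
      have h4 : |(G j l).re| ≤ ‖G j l‖ := Complex.abs_re_le_norm _
      have h5 : |(c j * c l) * (G j l).re| ≤ |c j * c l| * ‖G j l‖ := by
        rw [abs_mul]; exact mul_le_mul_of_nonneg_left h4 (abs_nonneg _)
      have h6 : |c j * c l| * ‖G j l‖ ≤
          d / (5 * C) * (c j ^ 2 * c l ^ 2) + 5 * C / (4 * d) * ‖G j l‖ ^ 2 := by
        have h9 : d / (5 * C) * (c j ^ 2 * c l ^ 2) + 5 * C / (4 * d) * ‖G j l‖ ^ 2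
            - |c j * c l| * ‖G j l‖ = (2 * d * |c j * c l| - 5 * C * ‖G j l‖) ^ 2 / (20 * C * d) := by
          have : c j ^ 2 * c l ^ 2 = |c j * c l| ^ 2 := by rw [sq_abs]; ring
          rw [this]
          field_simp; ring
        have h10 : 0 ≤ (2 * d * |c j * c l| - 5 * C * ‖G j l‖) ^ 2 / (20 * C * d) := by positivity
        linarith
      have h11 := le_abs_self ((c j * c l) * (G j l).re)
      linarith
    have h4 : ∑ j, ∑ l ∈ Finset.univ.erase j, (c j * c l) * (G j l).re ≤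
        ∑ j, ∑ l ∈ Finset.univ.erase j,
          (d / (5 * C) * (c j ^ 2 * c l ^ 2) + 5 * C / (4 * d) * ‖G j l‖ ^ 2) :=
      Finset.sum_le_sum fun j _ => Finset.sum_le_sum fun l _ => h3 j l
    have h5 : ∑ j, ∑ l ∈ Finset.univ.erase j, (c j ^ 2 * c l ^ 2) ≤ C ^ 2 := by
      have h6 : C ^ 2 = ∑ j, ∑ l, (c j ^ 2 * c l ^ 2) := by
        rw [hC, sq, Finset.sum_mul_sum]
      rw [h6]
      refine Finset.sum_le_sum fun j _ => ?_
      exact Finset.sum_le_sum_of_subset_of_nonneg (Finset.erase_subset _ _)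
        (fun _ _ _ => by positivity)
    have h6 : ∑ j, ∑ l ∈ Finset.univ.erase j,
          (d / (5 * C) * (c j ^ 2 * c l ^ 2) + 5 * C / (4 * d) * ‖G j l‖ ^ 2)
        = d / (5 * C) * ∑ j, ∑ l ∈ Finset.univ.erase j, (c j ^ 2 * c l ^ 2) + 5 * C / (4 * d) * E := by
      rw [hE]
      simp only [Finset.mul_sum, ← Finset.sum_add_distrib]
    have h7 : d / (5 * C) * ∑ j, ∑ l ∈ Finset.univ.erase j, (c j ^ 2 * c l ^ 2) ≤ d * C / 5 := by
      calc d / (5 * C) * ∑ j, ∑ l ∈ Finset.univ.erase j, (c j ^ 2 * c l ^ 2)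
          ≤ d / (5 * C) * C ^ 2 := mul_le_mul_of_nonneg_left h5 (by positivity)
        _ = d * C / 5 := by field_simp
    rw [h2]
    linarith
  have hYsum : ∑ s, Y s = 5 / 4 * ∑ s, ‖v s‖ ^ 2 + 5 * (C * R) := by
    rw [hY, Finset.sum_add_distrib, ← Finset.mul_sum, hR, Finset.mul_sum, Finset.mul_sum, Finset.mul_sum]
  rcases le_or_gt (d - 2 * R) 0 with hneg | hpos
  · nlinarith
  · have h2 : 2 * C * (d - 2 * R) ≤ 5 / 4 * (d * C + (d * C / 5 + 5 * C / (4 * d) * E)) + 5 * (C * R) := by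
      have h3 : 2 * C * (d - 2 * R) ≤ q ^ 2 * (d - 2 * R) :=
        mul_le_mul_of_nonneg_right hCq hpos.le
      rw [hYsum, e1] at h1
      linarith
    have h3 : C * (2 * d * (2 * (d - 2 * R))) ≤
        C * (2 * d * (5 / 4 * (d + d / 5) + 5 * R) + 25 / 8 * E) := by
      have h4 := mul_le_mul_of_nonneg_left h2 (by positivity : (0:ℝ) ≤ 2 * d)
      have e : 2 * d * (5 / 4 * (d * C + (d * C / 5 + 5 * C / (4 * d) * E)) + 5 * (C * R)) =
          C * (2 * d * (5 / 4 * (d + d / 5) + 5 * R) + 25 / 8 * E) := by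
        field_simp; ring
      rw [e] at h4
      linarith
    have h4 := le_of_mul_le_mul_left h3 hC0
    nlinarith

end Pool.Agent.H196R3.LI
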