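import Mathlib
import Pool.Agent.H196R3.LIf

/-!
# Congruences between units of small mutual height, and between monomials in the roots
-/

set_option autoImplicit false

open Finset Polynomial Module IntermediateField

namespace Pool.Agent.H196R3.LI

open Pool.Agent.H388SL

/-- a short congruence between units forces a large mutual height -/
theorem units_cong : ∃ c : ℝ, 0 < c ∧ ∀ (K : Type) [Field K] [NumberField K] (k : ℕ)
    (γ : Fin k → K), (∀ i, γ i ≠ 0) → (∀ i, IsIntegral ℤ (γ i)) → (∀ i, IsIntegral ℤ (γ i)⁻¹) →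
    (∀ i j, i ≠ j → ∀ m : ℕ, 0 < m → (γ i / γ j) ^ m ≠ 1) →
    ∀ (a : Fin k → ℤ), (∃ i, a i ≠ 0) → ∀ q : ℕ, 2 * ∑ i, (a i) ^ 2 ≤ (q : ℤ) ^ 2 →
    ∀ v : K, IsIntegral ℤ v → ∑ i, (a i : K) * γ i = (q : K) * v →
    c * finrank ℚ K / (Real.log (2 * k)) ^ 4 ≤
      ∑ i, ∑ j ∈ Finset.univ.erase i, lam (γ i / γ j) := by
  classical
  obtain ⟨c0, hc0, hdob⟩ := dob
  obtain ⟨c2, hc2, hA⟩ := units_rank
  have hlog2 : 0 < Real.log 2 := Real.log_pos (by norm_num)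
  set c1 : ℝ := 1 / (90 / (Real.log 2) ^ 4 + 10 * 2 ^ 19 / c0) with hc1
  have hc1p : 0 < c1 := by positivity
  refine ⟨min c1 c2, by positivity, ?_⟩
  intro K _ _ k γ h0 hi1 hi2 hroot a ha q hq v hv hw
  obtain ⟨i0, hi0⟩ := ha
  have hk0 : 0 < k := Fin.pos i0
  have hk1 : (1:ℝ) ≤ k := by exact_mod_cast hk0
  set d := finrank ℚ K with hd
  have hd0 : (0:ℝ) < d := by exact_mod_cast (finrank_pos : 0 < finrank ℚ K)
  have hcard : Fintype.card (K →ₐ[ℚ] ℂ) = d := AlgHom.card ℚ K ℂ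
  have hnonempty : Nonempty (K →ₐ[ℚ] ℂ) := ⟨IsAlgClosed.lift⟩
  set Λ := ∑ i, ∑ j ∈ Finset.univ.erase i, lam (γ i / γ j) with hΛ
  have hΛ0 : 0 ≤ Λ := Finset.sum_nonneg fun _ _ => Finset.sum_nonneg fun _ _ => lam_nonneg _
  have hint : ∀ i j, IsIntegral ℤ (γ i / γ j) := by
    intro i j
    rw [div_eq_mul_inv]; exact (hi1 i).mul (hi2 j)
  have hy2 : Real.log 2 ≤ Real.log (2 * k) := Real.log_le_log (by norm_num) (by linarith)
  have hy0' : 0 < Real.log (2 * (k:ℝ)) := by linarith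
  by_cases hv0 : v = 0
  · -- an exact relation
    have hdep : ¬ LinearIndependent ℚ γ := by
      rw [Fintype.not_linearIndependent_iff]
      refine ⟨fun i => (a i : ℚ), ?_, i0, fun h => hi0 (Int.cast_eq_zero.mp h)⟩
      rw [hv0, mul_zero] at hw
      rw [← hw]
      refine Finset.sum_congr rfl fun i _ => ?_
      rw [Algebra.smul_def]
      congr 1
      simp
    have hrank : (1:ℝ) ≤ (k:ℝ) - finrank ℚ (Submodule.span ℚ (Set.range γ)) := by
      have h1 : finrank ℚ (Submodule.span ℚ (Set.range γ)) ≤ k := by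
        have := finrank_range_le_card (R := ℚ) γ
        rwa [Fintype.card_fin] at this
      have h2 : finrank ℚ (Submodule.span ℚ (Set.range γ)) ≠ k := by
        intro h
        apply hdep
        rw [linearIndependent_iff_card_eq_finrank_span, Fintype.card_fin]
        exact h.symm
      have h3 : finrank ℚ (Submodule.span ℚ (Set.range γ)) + 1 ≤ k := by omega
      have h4 : (finrank ℚ (Submodule.span ℚ (Set.range γ)) : ℝ) + 1 ≤ k := by exact_mod_cast h3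
      linarith
    refine le_trans ?_ (hA K k γ h0 hint hroot)
    apply div_le_div_of_nonneg_right _ (by positivity)
    calc min c1 c2 * (d:ℝ) ≤ c2 * d := by gcongr; exact min_le_right _ _
      _ = c2 * 1 * d := by ring
      _ ≤ c2 * ((k:ℝ) - finrank ℚ (Submodule.span ℚ (Set.range γ))) * d := by gcongr
  -- the congruence is not exact
  set y := Real.log (2 * (k : ℝ)) with hy
  have hy0 : 0 < y := by linarith
  have hy4 : (Real.log 2) ^ 4 ≤ y ^ 4 := by gcongr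
  rw [div_le_iff₀ (by positivity)]
  have hne : ∀ i j, γ i / γ j ≠ 0 := fun i j => div_ne_zero (h0 i) (h0 j)
  have hinv : ∀ i j, IsIntegral ℤ (γ i / γ j)⁻¹ := by
    intro i j
    rw [inv_div]; exact hint j i
  have hsumsq : 0 < ∑ i, (a i) ^ 2 :=
    Finset.sum_pos' (fun _ _ => sq_nonneg _) ⟨i0, Finset.mem_univ _, by positivity⟩
  have hq0 : 0 < q := by
    rcases Nat.eq_zero_or_pos q with h | h
    · exfalso
      rw [h] at hq
      simp at hq
      linarith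
    · exact h
  have hqR : (0:ℝ) < q := by exact_mod_cast hq0
  have hform : ∀ σ : K →ₐ[ℚ] ℂ, ∑ j, (((a j : ℝ) : ℝ) : ℂ) * ((Real.exp (Real.log ‖σ (γ j)‖) : ℝ) : ℂ) *
      uu (γ j) σ = (q : ℂ) * σ v := by
    intro σ
    have h1 := congrArg σ hw
    rw [map_sum, map_mul, map_natCast] at h1
    rw [← h1]
    refine Finset.sum_congr rfl fun j _ => ?_
    rw [Real.exp_log (norm_pos_iff.mpr ((map_ne_zero σ).mpr (h0 j))), mul_assoc, ← sig_eq (h0 j) σ,
      map_mul, map_intCast]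
    norm_cast
  have hG := gram1 hk0 (S := K →ₐ[ℚ] ℂ) (fun j => ((a j : ℝ))) (fun j σ => Real.log ‖σ (γ j)‖)
    (fun j σ => uu (γ j) σ) (fun j σ => norm_uu (h0 j) σ) i0 (by
      rw [← Real.log_prod (fun σ _ => norm_ne_zero_iff.mpr ((map_ne_zero σ).mpr (h0 i0))),
        prod_unit (hi1 i0) (hi2 i0) (h0 i0), Real.log_one]) (q := (q:ℝ)) hqR (by exact_mod_cast hsumsq)
    (by exact_mod_cast hq) (by
      intro σ
      rw [hform σ]
      exact mul_ne_zero (by exact_mod_cast hq0.ne') ((map_ne_zero σ).mpr hv0)) (by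
      simp only [hform]
      have h1 : ∀ σ : K →ₐ[ℚ] ℂ, Real.log ‖(q : ℂ) * σ v‖ = Real.log q + Real.log ‖σ v‖ := by
        intro σ
        rw [norm_mul, Complex.norm_natCast, Real.log_mul hqR.ne'
          (norm_ne_zero_iff.mpr ((map_ne_zero σ).mpr hv0))]
      rw [Finset.sum_congr rfl (fun σ _ => h1 σ), Finset.sum_add_distrib]
      have h2 : 0 ≤ ∑ σ : K →ₐ[ℚ] ℂ, Real.log ‖σ v‖ := by
        rw [← Real.log_prod (fun σ _ => norm_ne_zero_iff.mpr ((map_ne_zero σ).mpr hv0))]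
        exact Real.log_nonneg (one_le_prod_norm hv hv0)
      simp only [Finset.sum_const, Finset.card_univ, nsmul_eq_mul]
      linarith)
  rw [hcard] at hG
  -- identify the Gram matrix
  have e1 : ∀ j l, ∑ σ : K →ₐ[ℚ] ℂ, uu (γ j) σ * starRingEnd ℂ (uu (γ l) σ) =
      ∑ σ : K →ₐ[ℚ] ℂ, uu (γ j / γ l) σ := by
    intro j l
    refine Finset.sum_congr rfl fun σ _ => ?_
    have h1 : starRingEnd ℂ (uu (γ l) σ) = (uu (γ l) σ)⁻¹ := by
      rw [Complex.inv_def, Complex.normSq_eq_norm_sq, norm_uu (h0 l) σ]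
      simp
    rw [h1]
    have hl : σ (γ l) ≠ 0 := (map_ne_zero σ).mpr (h0 l)
    have hj : σ (γ j) ≠ 0 := (map_ne_zero σ).mpr (h0 j)
    have hl' : (‖σ (γ l)‖ : ℂ) ≠ 0 := by exact_mod_cast norm_ne_zero_iff.mpr hl
    have hj' : (‖σ (γ j)‖ : ℂ) ≠ 0 := by exact_mod_cast norm_ne_zero_iff.mpr hj
    rw [uu, uu, uu, map_div₀, norm_div]
    push_cast
    field_simp
  simp only [e1] at hG
  -- the logarithmic term
  have e2 : ∑ σ : K →ₐ[ℚ] ℂ, ∑ j, ∑ l, |Real.log ‖σ (γ j)‖ - Real.log ‖σ (γ l)‖| = 2 * Λ := by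
    rw [Finset.sum_comm, hΛ, Finset.mul_sum]
    refine Finset.sum_congr rfl fun j _ => ?_
    rw [Finset.sum_comm, Finset.mul_sum, ← Finset.add_sum_erase _ _ (Finset.mem_univ j)]
    have h1 : ∑ σ : K →ₐ[ℚ] ℂ, |Real.log ‖σ (γ j)‖ - Real.log ‖σ (γ j)‖| = 0 := by simp
    rw [h1, zero_add]
    refine Finset.sum_congr rfl fun l _ => ?_
    rw [← sum_abs_log (hne j l) (prod_unit (hint j l) (hinv j l) (hne j l))]
    refine Finset.sum_congr rfl fun σ _ => ?_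
    have hl : σ (γ l) ≠ 0 := (map_ne_zero σ).mpr (h0 l)
    have hj : σ (γ j) ≠ 0 := (map_ne_zero σ).mpr (h0 j)
    rw [map_div₀, norm_div, Real.log_div (norm_ne_zero_iff.mpr hj) (norm_ne_zero_iff.mpr hl)]
  rw [e2] at hG
  set B : ℝ := 9 + 2 ^ 19 * y ^ 4 / c0 with hB
  have hB0 : 0 < B := by positivity
  have h1 : ∑ j, ∑ l ∈ Finset.univ.erase j, ‖∑ σ : K →ₐ[ℚ] ℂ, uu (γ j / γ l) σ‖ ^ 2 ≤
      B * (d * Λ) + (d:ℝ) ^ 2 / 16 := by
    have h2 : ∀ j, ∀ l ∈ Finset.univ.erase j, ‖∑ σ : K →ₐ[ℚ] ℂ, uu (γ j / γ l) σ‖ ^ 2 ≤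
        B * (d * lam (γ j / γ l)) + (d:ℝ) ^ 2 / (16 * (k:ℝ) ^ 2) := by
      intro j l hl
      have hjl : j ≠ l := (Finset.ne_of_mem_erase hl).symm
      exact pair_bound hc0 hdob (hint j l) (hinv j l) (hne j l) (hroot j l hjl) hk1
    calc ∑ j, ∑ l ∈ Finset.univ.erase j, ‖∑ σ : K →ₐ[ℚ] ℂ, uu (γ j / γ l) σ‖ ^ 2
        ≤ ∑ j, ∑ l ∈ Finset.univ.erase j, (B * (d * lam (γ j / γ l)) + (d:ℝ) ^ 2 / (16 * (k:ℝ) ^ 2)) :=
          Finset.sum_le_sum fun j _ => Finset.sum_le_sum fun l hl => h2 j l hl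
      _ = B * (d * Λ) + ∑ j : Fin k, ∑ l ∈ Finset.univ.erase j, (d:ℝ) ^ 2 / (16 * (k:ℝ) ^ 2) := by
          simp only [Finset.sum_add_distrib, hΛ, Finset.mul_sum]
      _ ≤ B * (d * Λ) + ∑ j : Fin k, ∑ l : Fin k, (d:ℝ) ^ 2 / (16 * (k:ℝ) ^ 2) := by
          gcongr with j _
          exact Finset.subset_univ _
      _ = B * (d * Λ) + (d:ℝ) ^ 2 / 16 := by
          simp only [Finset.sum_const, Finset.card_univ, Fintype.card_fin, nsmul_eq_mul]
          field_simp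
  have hB9 : 9 ≤ B := by
    have : 0 ≤ 2 ^ 19 * y ^ 4 / c0 := by positivity
    linarith
  have h2 : (d:ℝ) ^ 2 ≤ (10 * B) * (d * Λ) := by
    have h3 : (d:ℝ) ^ 2 ≤ 25 / 8 * (B * (d * Λ) + (d:ℝ) ^ 2 / 16) + 18 * d * (2 * Λ) := by linarith
    have h5 : 0 ≤ d * Λ := by positivity
    nlinarith
  have h3 : (d:ℝ) ≤ 10 * B * Λ := by
    have h4 : (d:ℝ) * d ≤ d * (10 * B * Λ) := by nlinarith
    exact le_of_mul_le_mul_left h4 hd0
  have h4 : 10 * B ≤ (90 / (Real.log 2) ^ 4 + 10 * 2 ^ 19 / c0) * y ^ 4 := by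
    have h5 : (90:ℝ) ≤ 90 / (Real.log 2) ^ 4 * y ^ 4 := by
      rw [div_mul_eq_mul_div, le_div_iff₀ (by positivity)]
      nlinarith
    rw [hB, add_mul]
    have h6 : 10 * 2 ^ 19 / c0 * y ^ 4 = 10 * (2 ^ 19 * y ^ 4 / c0) := by ring
    rw [h6]
    linarith
  have h5 : (d:ℝ) ≤ (90 / (Real.log 2) ^ 4 + 10 * 2 ^ 19 / c0) * y ^ 4 * Λ :=
    h3.trans (mul_le_mul_of_nonneg_right h4 hΛ0)
  calc min c1 c2 * (d:ℝ) ≤ c1 * d := by gcongr; exact min_le_left _ _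
    _ ≤ c1 * ((90 / (Real.log 2) ^ 4 + 10 * 2 ^ 19 / c0) * y ^ 4 * Λ) := by gcongr
    _ = Λ * y ^ 4 := by rw [hc1]; field_simp

/-- the statement of `units_cong` for a fixed constant -/
def UC (c : ℝ) : Prop := ∀ (K : Type) [Field K] [NumberField K] (k : ℕ)
    (γ : Fin k → K), (∀ i, γ i ≠ 0) → (∀ i, IsIntegral ℤ (γ i)) → (∀ i, IsIntegral ℤ (γ i)⁻¹) →
    (∀ i j, i ≠ j → ∀ m : ℕ, 0 < m → (γ i / γ j) ^ m ≠ 1) →
    ∀ (a : Fin k → ℤ), (∃ i, a i ≠ 0) → ∀ q : ℕ, 2 * ∑ i, (a i) ^ 2 ≤ (q : ℤ) ^ 2 →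
    ∀ v : K, IsIntegral ℤ v → ∑ i, (a i : K) * γ i = (q : K) * v →
    c * finrank ℚ K / (Real.log (2 * k)) ^ 4 ≤
      ∑ i, ∑ j ∈ Finset.univ.erase i, lam (γ i / γ j)

theorem monomials_cong {c : ℝ} (hA : UC c) {p : ℤ[X]} (hp : Irreducible p) (hm : p.Monic)
    (hc0 : |p.coeff 0| = 1) (S : Finset ℂ) (D : ℂ → ℕ)
    (hS : ∀ x ∈ S, ∃ l : List ℂ, l.length ≤ D x ∧ (∀ z ∈ l, aeval z p = 0 ∨ aeval z⁻¹ p = 0) ∧
      x = l.prod)
    (htor : ∀ x ∈ S, ∀ y ∈ S, x ≠ y → ∀ m : ℕ, 0 < m → x ^ m ≠ y ^ m)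
    (a : ℂ → ℤ) (ha : ∃ x ∈ S, a x ≠ 0) (q : ℕ) (hq : 2 * ∑ x ∈ S, (a x) ^ 2 ≤ (q : ℤ) ^ 2)
    (v : ℂ) (hv : IsIntegral ℤ v) (hw : ∑ x ∈ S, (a x : ℂ) * x = (q : ℂ) * v) :
    c * p.natDegree / (Real.log (2 * S.card)) ^ 4 ≤
      2 * S.card * (∑ x ∈ S, (D x : ℝ)) * Real.log (MM p) := by
  classical
  have hfin := splitting_finite hm
  have hnf : NumberField (adjoin ℚ {z : ℂ | aeval z p = 0}) :=
    { to_charZero := inferInstance, to_finiteDimensional := hfin }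
  set K := adjoin ℚ {z : ℂ | aeval z p = 0} with hK
  set k := S.card with hk
  set n : ℝ := (p.natDegree : ℝ) with hn
  have hn0 : 0 ≤ n := Nat.cast_nonneg _
  set T : ℝ := finrank ℚ K * Real.log (MM p) with hT
  have hlM : 0 ≤ Real.log (MM p) := Real.log_nonneg (one_le_MM hp.ne_zero)
  have hT0 : 0 ≤ T := by positivity
  have hd0 : (0:ℝ) < finrank ℚ K := by exact_mod_cast (finrank_pos : 0 < finrank ℚ K)
  let e : S ≃ Fin k := S.equivFin
  have hch : ∀ x : S, ∃ y : K, (y : ℂ) = x ∧ y ≠ 0 ∧ IsIntegral ℤ y ∧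
      IsIntegral ℤ y⁻¹ ∧ n * lam y ≤ D x * T := by
    rintro ⟨x, hx⟩
    obtain ⟨l, hl1, hl2, hl3⟩ := hS x hx
    obtain ⟨y, hy1, hy2, hy3, hy4, hy5⟩ := monomial_bound hp hm hc0 l hl2
    refine ⟨y, by rw [hy1, ← hl3], hy2, hy3, hy4, hy5.trans ?_⟩
    have : (l.length : ℝ) ≤ D x := by exact_mod_cast hl1
    exact mul_le_mul_of_nonneg_right this hT0
  choose y hy1 hy2 hy3 hy4 hy5 using hch
  set γ : Fin k → K := fun i => y (e.symm i) with hγ
  have htr : ∀ g : ℂ → ℂ, ∑ i : Fin k, g ((γ i : K) : ℂ) = ∑ x ∈ S, g x := by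
    intro g
    rw [← Finset.sum_coe_sort S g]
    refine Fintype.sum_equiv e.symm _ _ (fun i => ?_)
    show g ((y (e.symm i) : K) : ℂ) = g (e.symm i)
    rw [hy1]
  have htrZ : ∑ i : Fin k, (a ((γ i : K) : ℂ)) ^ 2 = ∑ x ∈ S, (a x) ^ 2 := by
    rw [← Finset.sum_coe_sort S (fun x => (a x) ^ 2)]
    refine Fintype.sum_equiv e.symm _ _ (fun i => ?_)
    show (a ((y (e.symm i) : K) : ℂ)) ^ 2 = (a (e.symm i)) ^ 2
    rw [hy1]
  -- the integral element
  have hw' : ∑ i : Fin k, (a ((γ i : K) : ℂ) : ℂ) * ((γ i : K) : ℂ) = (q : ℂ) * v := by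
    rw [← hw]
    exact htr (fun x => (a x : ℂ) * x)
  have hq0 : (q : ℂ) ≠ 0 := by
    obtain ⟨x, hx, hax⟩ := ha
    intro h
    have h1 : q = 0 := by exact_mod_cast h
    rw [h1] at hq
    have h2 : 0 < ∑ x ∈ S, (a x) ^ 2 :=
      Finset.sum_pos' (fun _ _ => sq_nonneg _) ⟨x, hx, by positivity⟩
    simp at hq
    linarith
  set vK : K := (∑ i : Fin k, (a ((γ i : K) : ℂ) : K) * γ i) / (q : K) with hvK
  have hvc : (vK : ℂ) = v := by
    have h1 : ((∑ i : Fin k, (a ((γ i : K) : ℂ) : K) * γ i : K) : ℂ) =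
        ∑ i : Fin k, (a ((γ i : K) : ℂ) : ℂ) * ((γ i : K) : ℂ) := by
      push_cast
      rfl
    have h2 : (((∑ i : Fin k, (a ((γ i : K) : ℂ) : K) * γ i) / (q : K) : K) : ℂ) =
        ((∑ i : Fin k, (a ((γ i : K) : ℂ) : K) * γ i : K) : ℂ) / (q : ℂ) := by
      push_cast
      rfl
    rw [hvK, h2, h1, hw', mul_div_cancel_left₀ v hq0]
  have hvi : IsIntegral ℤ vK := by
    have h1 : IsIntegral ℤ (algebraMap K ℂ vK) := by
      have : algebraMap K ℂ vK = v := hvc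
      rw [this]; exact hv
    exact (isIntegral_algebraMap_iff (algebraMap K ℂ).injective).mp h1
  have hqK : (q : K) ≠ 0 := by
    intro h
    apply hq0
    have := congrArg (fun w : K => (w : ℂ)) h
    simpa using this
  have h1 := hA K k γ (fun i => hy2 _) (fun i => hy3 _) (fun i => hy4 _) (by
      intro i j hij m hm0 h
      have hij' : ((e.symm i : S) : ℂ) ≠ (e.symm j : S) := by
        intro h2
        exact hij (e.symm.injective (Subtype.ext h2))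
      apply htor _ (e.symm i).2 _ (e.symm j).2 hij' m hm0
      have h3 : (γ i) ^ m = (γ j) ^ m := by
        rw [div_pow, div_eq_one_iff_eq (pow_ne_zero m (hy2 _))] at h
        exact h
      have h4 := congrArg (fun w : K => (w : ℂ)) h3
      simp only [IntermediateField.coe_pow] at h4
      rw [hγ] at h4
      simp only [hy1] at h4
      exact h4) (fun i => a ((γ i : K) : ℂ)) (by
      obtain ⟨x, hx, hax⟩ := ha
      refine ⟨e ⟨x, hx⟩, ?_⟩
      show a ((y (e.symm (e ⟨x, hx⟩)) : K) : ℂ) ≠ 0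
      rw [hy1, Equiv.symm_apply_apply]
      exact hax) q (by rw [htrZ]; exact hq) vK hvi (by
      rw [hvK, mul_div_cancel₀ _ hqK])
  -- upper bound
  have hpair : ∀ i j, n * lam (γ i / γ j) ≤ ((D (e.symm i) : ℝ) + D (e.symm j)) * T := by
    intro i j
    have h2 : lam (γ i / γ j) ≤ lam (γ i) + lam (γ j) := by
      rw [div_eq_mul_inv]
      refine (lam_mul_le _ _).trans ?_
      rw [lam_inv (hy2 _) (prod_unit (hy3 _) (hy4 _) (hy2 _))]
    have h3 := mul_le_mul_of_nonneg_left h2 hn0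
    have h4 : n * lam (γ i) ≤ D (e.symm i) * T := hy5 _
    have h5 : n * lam (γ j) ≤ D (e.symm j) * T := hy5 _
    linarith
  have hsum : n * ∑ i, ∑ j ∈ Finset.univ.erase i, lam (γ i / γ j) ≤
      2 * k * (∑ x ∈ S, (D x : ℝ)) * T := by
    have hΔ : ∑ i : Fin k, (D (e.symm i) : ℝ) = ∑ x ∈ S, (D x : ℝ) := by
      rw [← Finset.sum_coe_sort S (fun x => (D x : ℝ))]
      exact Fintype.sum_equiv e.symm _ _ (fun _ => rfl)
    calc n * ∑ i, ∑ j ∈ Finset.univ.erase i, lam (γ i / γ j)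
        = ∑ i, ∑ j ∈ Finset.univ.erase i, n * lam (γ i / γ j) := by
          simp only [Finset.mul_sum]
      _ ≤ ∑ i : Fin k, ∑ j ∈ Finset.univ.erase i, ((D (e.symm i) : ℝ) + D (e.symm j)) * T :=
          Finset.sum_le_sum fun i _ => Finset.sum_le_sum fun j _ => hpair i j
      _ ≤ ∑ i : Fin k, ∑ j : Fin k, ((D (e.symm i) : ℝ) + D (e.symm j)) * T := by
          refine Finset.sum_le_sum fun i _ => ?_
          exact Finset.sum_le_sum_of_subset_of_nonneg (Finset.subset_univ _)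
            (fun _ _ _ => by positivity)
      _ = 2 * k * (∑ x ∈ S, (D x : ℝ)) * T := by
          simp only [← Finset.sum_mul, Finset.sum_add_distrib, Finset.sum_const, Finset.card_univ,
            Fintype.card_fin, nsmul_eq_mul, ← Finset.mul_sum, hΔ]
          ring
  have h2 : n * (c * finrank ℚ K / (Real.log (2 * k)) ^ 4) ≤ 2 * k * (∑ x ∈ S, (D x : ℝ)) * T :=
    (mul_le_mul_of_nonneg_left h1 hn0).trans hsum
  have h3 : (finrank ℚ K : ℝ) * (c * n / (Real.log (2 * k)) ^ 4) ≤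
      finrank ℚ K * (2 * k * (∑ x ∈ S, (D x : ℝ)) * Real.log (MM p)) := by
    calc (finrank ℚ K : ℝ) * (c * n / (Real.log (2 * k)) ^ 4)
        = n * (c * finrank ℚ K / (Real.log (2 * k)) ^ 4) := by ring
      _ ≤ 2 * k * (∑ x ∈ S, (D x : ℝ)) * T := h2
      _ = _ := by rw [hT]; ring
  exact le_of_mul_le_mul_left h3 hd0

end Pool.Agent.H196R3.LI
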