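import Mathlib

/-!
# Conjugates of numbers with infinitely many Parry powers
-/

set_option autoImplicit false

namespace Pool.Agent.H196R3.Parry

open Polynomial

/-- the orbit of `1` -/
noncomputable def orb (B : ℝ) (k : ℕ) : ℝ := (fun x : ℝ => Int.fract (B * x))^[k] (1 : ℝ)

lemma orb_zero (B : ℝ) : orb B 0 = 1 := rfl

lemma orb_succ (B : ℝ) (k : ℕ) : orb B (k + 1) = Int.fract (B * orb B k) := by
  unfold orb
  rw [Function.iterate_succ_apply']

lemma orb_succ' (B : ℝ) (k : ℕ) : orb B (k + 1) = B * orb B k - ⌊B * orb B k⌋ := by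
  rw [orb_succ]
  rfl

lemma orb_nonneg (B : ℝ) (k : ℕ) : 0 ≤ orb B k := by
  cases k with
  | zero => rw [orb_zero]; norm_num
  | succ k => rw [orb_succ]; exact Int.fract_nonneg _

lemma orb_le_one (B : ℝ) (k : ℕ) : orb B k ≤ 1 := by
  cases k with
  | zero => rw [orb_zero]
  | succ k => rw [orb_succ]; exact (Int.fract_lt_one _).le

/-- integer polynomials describing the orbit -/
noncomputable def P (n : ℕ) (t : ℕ → ℤ) : ℕ → ℤ[X]
  | 0 => 1
  | k + 1 => X ^ n * P n t k - C (t k)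

theorem conj_bound {β : ℝ} (hint : IsIntegral ℤ β) {z : ℂ}
    (hz : aeval z (minpoly ℤ β) = 0) (n : ℕ)
    (hfin : (Set.range (orb (β ^ n))).Finite) (hne : z ^ n ≠ (β : ℂ) ^ n) : ‖z‖ ^ n ≤ 2 := by
  classical
  by_contra hcon
  push Not at hcon
  set c : ℕ → ℝ := orb (β ^ n) with hc
  set t : ℕ → ℤ := fun k => ⌊β ^ n * c k⌋ with ht
  have hPc : ∀ k, aeval β (P n t k) = c k := by
    intro k
    induction k with
    | zero => simp [P, hc, orb_zero]
    | succ k ih =>
      rw [P, map_sub, map_mul, ih, map_pow, aeval_X, hc, orb_succ']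
      simp [ht, hc]
  set e : ℕ → ℂ := fun k => aeval z (P n t k) with he
  have he0 : e 0 = 1 := by simp [he, P]
  have hes : ∀ k, e (k + 1) = z ^ n * e k - t k := by
    intro k
    simp [he, P]
  have hfac : ∀ k l, c k = c l → e k = e l := by
    intro k l hkl
    have h1 : aeval β (P n t k - P n t l) = 0 := by
      rw [map_sub, hPc, hPc, hkl, sub_self]
    have h2 := minpoly.isIntegrallyClosed_dvd hint h1
    obtain ⟨q, hq⟩ := h2
    have h3 : aeval z (P n t k - P n t l) = 0 := by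
      rw [hq, map_mul, hz, zero_mul]
    rw [map_sub] at h3
    exact sub_eq_zero.mp h3
  have hefin : (Set.range e).Finite := by
    let g : ℝ → ℂ := fun x => if h : ∃ k, c k = x then e h.choose else 0
    refine (hfin.image g).subset ?_
    rintro _ ⟨k, rfl⟩
    refine ⟨c k, ⟨k, rfl⟩, ?_⟩
    have h : ∃ l, c l = c k := ⟨k, rfl⟩
    simp only [g, dif_pos h]
    exact hfac _ _ h.choose_spec
  obtain ⟨M, hM⟩ := (hefin.image (fun w : ℂ => ‖w‖)).bddAbove
  have hM' : ∀ k, ‖e k‖ ≤ M := fun k => hM ⟨e k, ⟨k, rfl⟩, rfl⟩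
  set δ : ℕ → ℂ := fun k => e k - (c k : ℂ) with hδ
  have hδM : ∀ k, ‖δ k‖ ≤ M + 1 := by
    intro k
    refine (norm_sub_le _ _).trans ?_
    have : ‖(c k : ℂ)‖ ≤ 1 := by
      rw [Complex.norm_real, Real.norm_eq_abs, abs_of_nonneg (orb_nonneg _ _)]
      exact orb_le_one _ _
    linarith [hM' k]
  have hδs : ∀ k, δ (k + 1) = z ^ n * δ k + (z ^ n - (β : ℂ) ^ n) * (c k : ℂ) := by
    intro k
    have h1 : ((c (k + 1) : ℝ) : ℂ) = (β : ℂ) ^ n * (c k : ℂ) - (t k : ℂ) := by
      have : c (k + 1) = β ^ n * c k - (t k : ℝ) := orb_succ' _ _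
      rw [this]
      push_cast
      ring
    simp only [hδ]
    rw [hes, h1]
    ring
  set G : ℝ := ‖z ^ n - (β : ℂ) ^ n‖ with hG
  have hGpos : 0 < G := norm_pos_iff.mpr (sub_ne_zero.mpr hne)
  set η : ℝ := ‖z‖ ^ n - 2 with hη
  have hηpos : 0 < η := by linarith
  have grow : ∀ k : ℕ, G * (1 + k * η) ≤ ‖δ (k + 1)‖ := by
    intro k
    induction k with
    | zero =>
      have h1 : δ 1 = z ^ n - (β : ℂ) ^ n := by
        have := hδs 0
        rw [zero_add] at this
        rw [this]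
        have h0 : δ 0 = 0 := by
          simp only [hδ, he0, hc, orb_zero]
          norm_num
        have hc0 : c 0 = 1 := orb_zero _
        rw [h0, hc0]
        push_cast
        ring
      rw [zero_add, h1]
      simp [hG]
    | succ k ih =>
      have h1 := hδs (k + 1)
      have h2 : ‖z ^ n * δ (k + 1)‖ - ‖(z ^ n - (β : ℂ) ^ n) * (c (k + 1) : ℂ)‖ ≤
          ‖δ (k + 1 + 1)‖ := by
        rw [h1]
        have := norm_sub_norm_le (z ^ n * δ (k + 1)) (-((z ^ n - (β : ℂ) ^ n) * (c (k + 1) : ℂ)))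
        rw [norm_neg, sub_neg_eq_add] at this
        exact this
      have h3 : ‖(z ^ n - (β : ℂ) ^ n) * (c (k + 1) : ℂ)‖ ≤ G := by
        rw [norm_mul, Complex.norm_real, Real.norm_eq_abs, abs_of_nonneg (orb_nonneg _ _)]
        have := mul_le_mul_of_nonneg_left (orb_le_one (β ^ n) (k + 1)) hGpos.le
        rw [mul_one] at this
        exact this
      have h4 : ‖z ^ n * δ (k + 1)‖ = (η + 2) * ‖δ (k + 1)‖ := by
        rw [norm_mul, norm_pow, hη]
        ring
      rw [h4] at h2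
      have h5 : (η + 2) * (G * (1 + k * η)) ≤ (η + 2) * ‖δ (k + 1)‖ :=
        mul_le_mul_of_nonneg_left ih (by linarith)
      have hk : (0 : ℝ) ≤ k := Nat.cast_nonneg k
      have h6 : 0 ≤ G * (k * η + k * η ^ 2) := by positivity
      push_cast
      nlinarith
  obtain ⟨k, hk⟩ := exists_nat_gt ((M + 1) / (G * η))
  have h1 := grow k
  have h2 := hδM (k + 1)
  have h3 : M + 1 < k * (G * η) := by
    rwa [div_lt_iff₀ (by positivity)] at hk
  nlinarith

theorem conj_le_one {β : ℝ} (hβ : 1 < β) (hint : IsIntegral ℤ β)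
    (hperron : ∀ z : ℂ, aeval z (minpoly ℤ β) = 0 → z ≠ (β : ℂ) → ‖z‖ < β)
    (hinf : {n : ℕ | 1 ≤ n ∧ (Set.range (orb (β ^ n))).Finite}.Infinite) {z : ℂ}
    (hz : aeval z (minpoly ℤ β) = 0) (hne : z ≠ (β : ℂ)) : ‖z‖ ≤ 1 := by
  by_contra hcon
  push Not at hcon
  obtain ⟨N, hN⟩ := pow_unbounded_of_one_lt 2 hcon
  obtain ⟨n, hn, hNn⟩ := hinf.exists_gt N
  have h1 : z ^ n ≠ (β : ℂ) ^ n := by
    intro h
    have h2 := congrArg (fun w : ℂ => ‖w‖) h
    simp only [norm_pow, Complex.norm_real, Real.norm_eq_abs, abs_of_pos (by linarith : 0 < β)] at h2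
    have h3 : ‖z‖ ^ n < β ^ n :=
      pow_lt_pow_left₀ (hperron z hz hne) (norm_nonneg _) (by omega)
    linarith
  have h2 := conj_bound hint hz n hn.2 h1
  have h3 : ‖z‖ ^ N ≤ ‖z‖ ^ n := pow_le_pow_right₀ hcon.le hNn.le
  linarith

end Pool.Agent.H196R3.Parry
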