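import Mathlib
import Pool.Agent.H196R3.Parry

/-!
# Torsion and Mahler measure of Perron numbers with all other conjugates in the unit disc
-/

set_option autoImplicit false

namespace Pool.Agent.H196R3.Parry

open Polynomial

lemma aeval_self {β : ℝ} : aeval (β : ℂ) (minpoly ℤ β) = 0 := by
  have h := minpoly.aeval ℤ β
  have h2 : aeval (algebraMap ℝ ℂ β) (minpoly ℤ β) = algebraMap ℝ ℂ (aeval β (minpoly ℤ β)) :=
    aeval_algebraMap_apply ℂ β _
  rw [h, map_zero] at h2
  exact h2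

lemma minpoly_conj {β : ℝ} (hint : IsIntegral ℤ β) {z : ℂ}
    (hz : aeval z (minpoly ℤ β) = 0) :
    minpoly ℚ z = (minpoly ℤ β).map (algebraMap ℤ ℚ) := by
  have hqe : minpoly ℚ β = (minpoly ℤ β).map (algebraMap ℤ ℚ) :=
    minpoly.isIntegrallyClosed_eq_field_fractions' ℚ hint
  have hintq : IsIntegral ℚ β := hint.tower_top
  rw [← hqe]
  refine (minpoly.eq_of_irreducible_of_monic (minpoly.irreducible hintq) ?_
    (minpoly.monic hintq)).symm
  rw [hqe, aeval_map_algebraMap, hz]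

lemma conj_ne_zero {β : ℝ} (hβ : 1 < β) (hint : IsIntegral ℤ β) {z : ℂ}
    (hz : aeval z (minpoly ℤ β) = 0) : z ≠ 0 := by
  rintro rfl
  have h1 := minpoly_conj hint hz
  have h2 := minpoly_conj hint (aeval_self (β := β))
  have h3 : aeval (β : ℂ) (minpoly ℚ (0 : ℂ)) = 0 := by
    rw [h1, ← h2, minpoly.aeval]
  rw [minpoly.zero, aeval_X] at h3
  have h4 : β = 0 := by exact_mod_cast h3
  linarith

lemma torsion_free {β : ℝ} (hβ : 1 < β) (hint : IsIntegral ℤ β)
    (hperron : ∀ z : ℂ, aeval z (minpoly ℤ β) = 0 → z ≠ (β : ℂ) → ‖z‖ < β)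
    {x y : ℂ} (hx : aeval x (minpoly ℤ β) = 0) (hy : aeval y (minpoly ℤ β) = 0) (hxy : x ≠ y)
    {m : ℕ} (hm : 0 < m) : x ^ m ≠ y ^ m := by
  intro h
  have hmem : ∀ z : ℂ, aeval z (minpoly ℤ β) = 0 → z ∈ algebraicClosure ℚ ℂ := by
    intro z hz
    rw [mem_algebraicClosure_iff]
    refine ⟨(minpoly ℤ β).map (algebraMap ℤ ℚ), ?_, ?_⟩
    · exact ((minpoly.monic hint).map _).ne_zero
    · rw [aeval_map_algebraMap, hz]
  set b : algebraicClosure ℚ ℂ := ⟨(β : ℂ), hmem _ aeval_self⟩ with hb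
  set x' : algebraicClosure ℚ ℂ := ⟨x, hmem _ hx⟩ with hx'
  set y' : algebraicClosure ℚ ℂ := ⟨y, hmem _ hy⟩ with hy'
  have hinj : Function.Injective (algebraMap (algebraicClosure ℚ ℂ) ℂ) :=
    (algebraMap (algebraicClosure ℚ ℂ) ℂ).injective
  have hconj : IsConjRoot ℚ b x' := by
    unfold IsConjRoot
    rw [← minpoly.algebraMap_eq hinj, ← minpoly.algebraMap_eq hinj]
    exact (minpoly_conj hint aeval_self).trans (minpoly_conj hint hx).symm
  have hac : IsAlgClosure ℚ (algebraicClosure ℚ ℂ) := algebraicClosure.isAlgClosure ℚ ℂ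
  have hnor : Normal ℚ (algebraicClosure ℚ ℂ) := IsAlgClosure.normal ℚ _
  obtain ⟨σ, hσ⟩ := hconj.exists_algEquiv
  have hxy' : x' ^ m = y' ^ m := Subtype.ext h
  have h1 : b ^ m = (σ y') ^ m := by
    rw [← hσ, ← map_pow, ← map_pow, hxy']
  have h2 : (β : ℂ) ^ m = ((σ y' : algebraicClosure ℚ ℂ) : ℂ) ^ m := congrArg Subtype.val h1
  have h3 : aeval ((σ y' : algebraicClosure ℚ ℂ) : ℂ) (minpoly ℤ β) = 0 := by
    have h4 : aeval y' (minpoly ℤ β) = 0 := by
      apply hinj
      rw [map_zero, ← aeval_algebraMap_apply]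
      exact hy
    have h5 : aeval (σ y') (minpoly ℤ β) = 0 := by
      have h6 : aeval (σ y') (minpoly ℤ β) = σ (aeval y' (minpoly ℤ β)) := by
        exact (aeval_algHom_apply (σ.toAlgHom.restrictScalars ℤ) y' (minpoly ℤ β))
      rw [h6, h4, map_zero]
    have h7 : aeval (algebraMap (algebraicClosure ℚ ℂ) ℂ (σ y')) (minpoly ℤ β) = 0 := by
      rw [aeval_algebraMap_apply, h5, map_zero]
    exact h7
  have h8 : ((σ y' : algebraicClosure ℚ ℂ) : ℂ) ≠ (β : ℂ) := by
    intro h9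
    have h10 : σ y' = b := Subtype.ext h9
    rw [← hσ] at h10
    have h11 := σ.injective h10
    exact hxy (congrArg Subtype.val h11).symm
  have h12 := hperron _ h3 h8
  have h13 := congrArg (fun w : ℂ => ‖w‖) h2
  simp only [norm_pow, Complex.norm_real, Real.norm_eq_abs, abs_of_pos (by linarith : 0 < β)] at h13
  have h14 : ‖((σ y' : algebraicClosure ℚ ℂ) : ℂ)‖ ^ m < β ^ m :=
    pow_lt_pow_left₀ h12 (norm_nonneg _) (by omega)
  linarith

lemma mahler_eq {β : ℝ} (hβ : 1 < β) (hint : IsIntegral ℤ β)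
    (hone : ∀ z : ℂ, aeval z (minpoly ℤ β) = 0 → z ≠ (β : ℂ) → ‖z‖ ≤ 1) :
    ((minpoly ℤ β).map (Int.castRingHom ℂ)).mahlerMeasure = β := by
  classical
  set f : ℂ[X] := (minpoly ℤ β).map (Int.castRingHom ℂ) with hf
  have hmon : f.Monic := (minpoly.monic hint).map _
  have hroot : ∀ z : ℂ, z ∈ f.roots ↔ aeval z (minpoly ℤ β) = 0 := by
    intro z
    rw [mem_roots hmon.ne_zero, IsRoot.def, hf, eval_map, aeval_def]
    rfl
  have hnodup : f.roots.Nodup := by
    have hintq : IsIntegral ℚ β := hint.tower_top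
    have h1 : (minpoly ℚ β).Separable := (minpoly.irreducible hintq).separable
    have h2 : ((minpoly ℚ β).map (algebraMap ℚ ℂ)).Separable := h1.map
    have h3 : (minpoly ℚ β).map (algebraMap ℚ ℂ) = f := by
      rw [minpoly.isIntegrallyClosed_eq_field_fractions' ℚ hint, Polynomial.map_map, hf]
      congr 1
    rw [h3] at h2
    exact nodup_roots h2
  have hmem : (β : ℂ) ∈ f.roots := (hroot _).mpr aeval_self
  rw [mahlerMeasure_eq_leadingCoeff_mul_prod_roots, hmon.leadingCoeff, norm_one, one_mul,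
    ← Multiset.cons_erase hmem, Multiset.map_cons, Multiset.prod_cons]
  have h1 : ((f.roots.erase (β : ℂ)).map (fun a => max 1 ‖a‖)).prod = 1 := by
    apply Multiset.prod_eq_one
    intro w hw
    obtain ⟨a, ha, rfl⟩ := Multiset.mem_map.mp hw
    obtain ⟨h2, h3⟩ := (hnodup.mem_erase_iff).mp ha
    exact max_eq_left (hone a ((hroot a).mp h3) h2)
  rw [h1, mul_one, Complex.norm_real, Real.norm_eq_abs, abs_of_pos (by linarith : 0 < β)]
  exact max_eq_right hβ.le

end Pool.Agent.H196R3.Parry
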