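import Pool.Agent.H301R2.SSE.Forms

/-!
# Consequences of the strong six exponentials theorem for products of logarithms

Linear algebra on top of D. Roy's strong six exponentials theorem (`strong_six`, proved in
`Pool.Agent.H301R2.SSE`) and Baker's theorem.
-/

set_option autoImplicit false

namespace Pool.Agent.H196R3.QP

open Module Finset Pool.Agent.H301R2.SSE

/-- Baker's theorem with coefficients in `QB` -/
theorem baker {N : ℕ} {l : Fin N → ℂ} (halg : ∀ j, IsAlgebraic ℚ (Complex.exp (l j)))
    (hli : LinearIndependent ℚ l) {a : ℂ} (ha : IsAlgebraic ℚ a) {c : Fin N → QB}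
    (h : a + ∑ j, (c j : ℂ) * l j = 0) : a = 0 ∧ c = 0 := by
  obtain ⟨h1, h2⟩ := Pool.Agent.H297R2.baker_inhom l halg hli a ha (fun j => (c j : ℂ))
    (fun j => mem_QB.mp (c j).2) h
  exact ⟨h1, funext fun j => Subtype.ext (h2 j)⟩

/-- linear combinations of logarithms are in `Lt` -/
theorem comb_mem {N : ℕ} {l : Fin N → ℂ} (halg : ∀ j, IsAlgebraic ℚ (Complex.exp (l j)))
    (c : Fin N → QB) : ∑ j, (c j : ℂ) * l j ∈ Lt := by
  apply Submodule.sum_mem
  intro j _
  exact Lt_mul (mem_QB.mp (c j).2) (Lt_log (halg j))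

/-- nonzero linear combinations of independent logarithms are transcendental -/
theorem comb_transcendental {N : ℕ} {l : Fin N → ℂ}
    (halg : ∀ j, IsAlgebraic ℚ (Complex.exp (l j))) (hli : LinearIndependent ℚ l)
    {c : Fin N → QB} (hc : c ≠ 0) : Transcendental ℚ (∑ j, (c j : ℂ) * l j) := by
  intro halg'
  apply hc
  exact (baker halg hli (a := -∑ j, (c j : ℂ) * l j) halg'.neg (c := c) (by ring)).2

/-- pairs `1, w` with `w` transcendental -/
theorem one_w {w : ℂ} (hw : Transcendental ℚ w) (a b : ℂ) (ha : IsAlgebraic ℚ a)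
    (hb : IsAlgebraic ℚ b) (h : a * (1 : ℂ) + b * w = 0) : a = 0 ∧ b = 0 := by
  have hb0 : b = 0 := by
    by_contra hb0
    apply hw
    have : w = -a * b⁻¹ := by
      field_simp
      linear_combination h
    rw [this]
    exact ha.neg.mul hb.inv
  refine ⟨?_, hb0⟩
  rw [hb0] at h
  simpa using h

/-- a transcendental `w` cannot multiply a three dimensional space of combinations of
logarithms into `Lt` -/
theorem roy3 {N : ℕ} {l : Fin N → ℂ} (halg : ∀ j, IsAlgebraic ℚ (Complex.exp (l j)))
    (hli : LinearIndependent ℚ l) {w : ℂ} (hw : Transcendental ℚ w) (v : Fin 3 → Fin N → QB)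
    (hv : LinearIndependent QB v) (h : ∀ k, w * ∑ j, (v k j : ℂ) * l j ∈ Lt) : False := by
  refine strong_six ![1, w] (fun k => ∑ j, (v k j : ℂ) * l j) ?_ ?_ ?_
  · intro a b ha hb hab
    exact one_w hw a b ha hb (by simpa using hab)
  · intro c hc hsum
    let c' : Fin 3 → QB := fun k => ⟨c k, mem_QB.mpr (hc k)⟩
    have h1 : (0 : ℂ) + ∑ j, ((∑ k, c' k * v k j : QB) : ℂ) * l j = 0 := by
      rw [zero_add, ← hsum]
      simp only [Finset.mul_sum]
      rw [Finset.sum_comm]
      refine Finset.sum_congr rfl fun j _ => ?_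
      push_cast
      rw [Finset.sum_mul]
      refine Finset.sum_congr rfl fun k _ => ?_
      show (c' k : ℂ) * (v k j : ℂ) * l j = c k * ((v k j : ℂ) * l j)
      rw [mul_assoc]
    have h2 := (baker halg hli (a := 0) isAlgebraic_zero h1).2
    have h3 : ∑ k, c' k • v k = 0 := by
      funext j
      have := congrFun h2 j
      simpa [Finset.sum_apply] using this
    have h4 := Fintype.linearIndependent_iff.mp hv c' h3
    intro j
    have := congrArg Subtype.val (h4 j)
    exact this
  · intro i j
    fin_cases i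
    · simpa using comb_mem halg (v j)
    · simpa using h j

/-- a transcendental `w` in `Lt` cannot multiply a two dimensional space of combinations of
logarithms into `Lt` -/
theorem roy2 {N : ℕ} {l : Fin N → ℂ} (halg : ∀ j, IsAlgebraic ℚ (Complex.exp (l j)))
    (hli : LinearIndependent ℚ l) {w : ℂ} (hw : Transcendental ℚ w) (hwL : w ∈ Lt)
    (v : Fin 2 → Fin N → QB)
    (hv : LinearIndependent QB v) (h : ∀ k, w * ∑ j, (v k j : ℂ) * l j ∈ Lt) : False := by
  refine strong_six ![1, w] ![1, ∑ j, (v 0 j : ℂ) * l j, ∑ j, (v 1 j : ℂ) * l j] ?_ ?_ ?_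
  · intro a b ha hb hab
    exact one_w hw a b ha hb (by simpa using hab)
  · intro c hc hsum
    rw [Fin.sum_univ_three] at hsum
    simp only [Matrix.cons_val_zero, Matrix.cons_val_one, Matrix.cons_val] at hsum
    let c' : Fin 2 → QB := ![⟨c 1, mem_QB.mpr (hc 1)⟩, ⟨c 2, mem_QB.mpr (hc 2)⟩]
    have h1 : c 0 + ∑ j, ((∑ k, c' k * v k j : QB) : ℂ) * l j = 0 := by
      rw [← hsum]
      simp only [Fin.sum_univ_two, Finset.mul_sum]
      rw [mul_one, add_assoc, ← Finset.sum_add_distrib]
      congr 1
      refine Finset.sum_congr rfl fun j _ => ?_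
      push_cast
      show (c 1 * (v 0 j : ℂ) + c 2 * (v 1 j : ℂ)) * l j = _
      ring
    obtain ⟨h0, h2⟩ := baker halg hli (hc 0) h1
    have h3 : ∑ k, c' k • v k = 0 := by
      funext j
      have := congrFun h2 j
      simpa [Finset.sum_apply] using this
    have h4 := Fintype.linearIndependent_iff.mp hv c' h3
    intro j
    fin_cases j
    · exact h0
    · have := congrArg Subtype.val (h4 0)
      exact this
    · have := congrArg Subtype.val (h4 1)
      exact this
  · intro i j
    fin_cases i <;> fin_cases j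
    · simpa using Lt_one
    · simpa using comb_mem halg (v 0)
    · simpa using comb_mem halg (v 1)
    · simpa using hwL
    · simpa using h 0
    · simpa using h 1

/-- modulo `d` further numbers the kernel loses at most `d` dimensions -/
theorem ker_bound {E : Type} [AddCommGroup E] [Module QB E] [FiniteDimensional QB E]
    (φ : E →ₗ[QB] ℂ) {d : ℕ} (γ : Fin d → ℂ)
    (h : ∀ u, φ u ∈ Lt ⊔ Submodule.span QB (Set.range γ)) :
    finrank QB E ≤ finrank QB (LinearMap.ker (Lt.mkQ ∘ₗ φ)) + d := by
  have h1 := LinearMap.finrank_range_add_finrank_ker (Lt.mkQ ∘ₗ φ)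
  have : FiniteDimensional QB (Submodule.span QB (Set.range γ)) :=
    FiniteDimensional.span_of_finite QB (Set.finite_range γ)
  have h2 : LinearMap.range (Lt.mkQ ∘ₗ φ) ≤ (Submodule.span QB (Set.range γ)).map Lt.mkQ := by
    rintro _ ⟨u, rfl⟩
    obtain ⟨a, ha, b, hb, hab⟩ := Submodule.mem_sup.mp (h u)
    refine ⟨b, hb, ?_⟩
    rw [LinearMap.comp_apply, ← hab, map_add]
    have : Lt.mkQ a = 0 := by
      rw [Submodule.mkQ_apply, Submodule.Quotient.mk_eq_zero]
      exact ha
    rw [this, zero_add]
  have h3 : finrank QB ((Submodule.span QB (Set.range γ)).map Lt.mkQ) ≤ d := by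
    refine (Submodule.finrank_map_le _ _).trans ?_
    refine (finrank_range_le_card γ).trans ?_
    simp
  have h4 := Submodule.finrank_mono h2
  omega

end Pool.Agent.H196R3.QP
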