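import Pool.Agent.H196R3.QP

/-!
# Quadratic relations between pairs of logarithms
-/

set_option autoImplicit false

namespace Pool.Agent.H196R3.QP

open Module Finset Pool.Agent.H301R2.SSE

/-- the double sum identity -/
theorem sum_identity {n : ℕ} (w u : Fin n → ℂ) (A : Fin n → Fin n → ℂ) (q : Fin n → ℂ) :
    ∑ i, ∑ j, w i * u j * (A i j * q i + A j i * q j) =
      ∑ k, q k * (w k * ∑ j, A k j * u j + u k * ∑ i, A k i * w i) := by
  have h1 : ∑ i, ∑ j, w i * u j * (A i j * q i + A j i * q j) =
      ∑ i, ∑ j, w i * u j * (A i j * q i) + ∑ i, ∑ j, w i * u j * (A j i * q j) := by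
    rw [← Finset.sum_add_distrib]
    refine Finset.sum_congr rfl fun i _ => ?_
    rw [← Finset.sum_add_distrib]
    refine Finset.sum_congr rfl fun j _ => ?_
    ring
  rw [h1, Finset.sum_comm (f := fun i j => w i * u j * (A j i * q j)), ← Finset.sum_add_distrib]
  refine Finset.sum_congr rfl fun k _ => ?_
  rw [mul_add, Finset.mul_sum, Finset.mul_sum, Finset.mul_sum, Finset.mul_sum]
  congr 1
  · refine Finset.sum_congr rfl fun j _ => ?_
    ring
  · refine Finset.sum_congr rfl fun j _ => ?_
    ring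

/-- a transcendental `w` in `Lt` cannot multiply a `d + 2` dimensional space of combinations of
logarithms into `Lt` plus a space of dimension `d` -/
theorem roy_space {N : ℕ} {l : Fin N → ℂ} (halg : ∀ j, IsAlgebraic ℚ (Complex.exp (l j)))
    (hli : LinearIndependent ℚ l) {w : ℂ} (hw : Transcendental ℚ w) (hwL : w ∈ Lt)
    {E : Type} [AddCommGroup E] [Module QB E] [FiniteDimensional QB E]
    (ι : E →ₗ[QB] (Fin N → QB)) (hι : Function.Injective ι) {d : ℕ} (γ : Fin d → ℂ)
    (hE : d + 2 ≤ finrank QB E)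
    (h : ∀ u : E, w * ∑ j, (ι u j : ℂ) * l j ∈ Lt ⊔ Submodule.span QB (Set.range γ)) : False := by
  let φ : E →ₗ[QB] ℂ := (LinearMap.mulLeft QB w) ∘ₗ (Fintype.linearCombination QB l) ∘ₗ ι
  have hφ : ∀ u : E, φ u = w * ∑ j, (ι u j : ℂ) * l j := by
    intro u
    show w * (Fintype.linearCombination QB l) (ι u) = _
    rw [Fintype.linearCombination_apply]
    congr 1
  have hmem : ∀ u, φ u ∈ Lt ⊔ Submodule.span QB (Set.range γ) := by
    intro u
    rw [hφ]
    exact h u
  have hk := ker_bound φ γ hmem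
  have hk2 : 2 ≤ finrank QB (LinearMap.ker (Lt.mkQ ∘ₗ φ)) := by omega
  obtain ⟨f, hf⟩ := exists_linearIndependent_of_le_finrank hk2
  let g : Fin 2 → E := fun k => ((f k : LinearMap.ker (Lt.mkQ ∘ₗ φ)) : E)
  have hg : LinearIndependent QB g :=
    hf.map' (LinearMap.ker (Lt.mkQ ∘ₗ φ)).subtype (Submodule.ker_subtype _)
  have hv : LinearIndependent QB (fun k => ι (g k)) :=
    hg.map' ι (LinearMap.ker_eq_bot.mpr hι)
  refine roy2 halg hli hw hwL (fun k => ι (g k)) hv ?_
  intro k
  have h1 := LinearMap.mem_ker.mp (f k).2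
  rw [LinearMap.comp_apply, Submodule.mkQ_apply, Submodule.Quotient.mk_eq_zero, hφ] at h1
  exact h1

theorem half_coe : ((1 / 2 : QB) : ℂ) = 1 / 2 := by
  have h : (algebraMap QB ℂ) (1 / 2) = 1 / 2 := by
    rw [map_div₀, map_one, map_ofNat]
  exact h

/-- **Main theorem on pairs.** -/
theorem pairs (d : ℕ) (l : Fin (2 * d + 5) → ℂ) (halg : ∀ j, IsAlgebraic ℚ (Complex.exp (l j)))
    (hli : LinearIndependent ℚ l) (γ : Fin d → ℂ) :
    ∃ i j : Fin (2 * d + 5), i ≠ j ∧ i.val < d + 3 ∧ ∀ a b : QB,
      l i * l j - ((a : ℂ) * l i ^ 2 + (b : ℂ) * l j ^ 2) ∉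
        Lt ⊔ Submodule.span QB (Set.range γ) := by
  classical
  by_contra hcon
  push Not at hcon
  set L : Submodule QB ℂ := Lt ⊔ Submodule.span QB (Set.range γ) with hL
  have hex : ∀ i j : Fin (2 * d + 5), ∃ a b : QB, i ≠ j → i.val < d + 3 →
      l i * l j - ((a : ℂ) * l i ^ 2 + (b : ℂ) * l j ^ 2) ∈ L := by
    intro i j
    by_cases h : i ≠ j ∧ i.val < d + 3
    · obtain ⟨a, b, hab⟩ := hcon i j h.1 h.2
      exact ⟨a, b, fun _ _ => hab⟩
    · exact ⟨0, 0, fun h1 h2 => absurd ⟨h1, h2⟩ h⟩
  choose a b hab using hex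
  let A : Fin (2 * d + 5) → Fin (2 * d + 5) → QB := fun i j =>
    if i = j then 1 / 2 else if i < j then a i j else b j i
  have key : ∀ i j : Fin (2 * d + 5), i.val < d + 3 →
      l i * l j - ((A i j : ℂ) * l i ^ 2 + (A j i : ℂ) * l j ^ 2) ∈ L := by
    intro i j hi
    rcases lt_trichotomy i j with h | h | h
    · have e1 : A i j = a i j := by
        simp only [A, if_neg h.ne, if_pos h]
      have e2 : A j i = b i j := by
        simp only [A, if_neg h.ne', if_neg (not_lt_of_gt h)]
      rw [e1, e2]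
      exact hab i j h.ne hi
    · subst h
      have e1 : (A i i : ℂ) = 1 / 2 := by
        have e0 : A i i = 1 / 2 := by simp only [A, if_true]
        rw [e0]
        exact half_coe
      have : l i * l i - ((A i i : ℂ) * l i ^ 2 + (A i i : ℂ) * l i ^ 2) = 0 := by
        rw [e1]; ring
      rw [this]
      exact L.zero_mem
    · have hj : j.val < d + 3 := lt_trans (Fin.lt_def.mp h) hi
      have e1 : A i j = b j i := by
        simp only [A, if_neg h.ne', if_neg (not_lt_of_gt h)]
      have e2 : A j i = a j i := by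
        simp only [A, if_neg h.ne, if_pos h]
      rw [e1, e2]
      have := hab j i h.ne hj
      have e3 : l i * l j - ((b j i : ℂ) * l i ^ 2 + (a j i : ℂ) * l j ^ 2) =
        l j * l i - ((a j i : ℂ) * l j ^ 2 + (b j i : ℂ) * l i ^ 2) := by ring
      rw [e3]
      exact this
  -- the multiplier
  let up : Fin (d + 2) → Fin (2 * d + 5) := fun m => ⟨d + 3 + m.val, by omega⟩
  let T : (Fin (2 * d + 5) → QB) →ₗ[QB] (Fin (d + 2) → QB) × (Fin (d + 2) → QB) :=
    { toFun := fun w => (fun m => w (up m), fun m => ∑ i, A (up m) i * w i)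
      map_add' := by
        intro w w'
        refine Prod.ext (funext fun m => rfl) (funext fun m => ?_)
        simp only [Pi.add_apply, mul_add, Finset.sum_add_distrib, Prod.snd_add]
      map_smul' := by
        intro c w
        refine Prod.ext (funext fun m => rfl) (funext fun m => ?_)
        simp only [Pi.smul_apply, smul_eq_mul, RingHom.id_apply, Prod.smul_snd, Finset.mul_sum]
        refine Finset.sum_congr rfl fun i _ => ?_
        ring }
  have hT : LinearMap.ker T ≠ ⊥ := by
    apply LinearMap.ker_ne_bot_of_finrank_lt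
    rw [Module.finrank_prod, Module.finrank_fin_fun, Module.finrank_fin_fun]
    omega
  obtain ⟨w, hwT, hw0⟩ := (Submodule.ne_bot_iff _).mp hT
  rw [LinearMap.mem_ker] at hwT
  have hw1 : ∀ k : Fin (2 * d + 5), ¬ k.val < d + 3 → w k = 0 ∧ ∑ i, A k i * w i = 0 := by
    intro k hk
    have hk2 : k.val - (d + 3) < d + 2 := by
      have := k.2
      omega
    have hup : up ⟨k.val - (d + 3), hk2⟩ = k := by
      apply Fin.ext
      show d + 3 + (k.val - (d + 3)) = k.val
      omega
    have h1 := congrFun (congrArg Prod.fst hwT) ⟨k.val - (d + 3), hk2⟩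
    have h2 := congrFun (congrArg Prod.snd hwT) ⟨k.val - (d + 3), hk2⟩
    change w (up _) = 0 at h1
    change ∑ i, A (up _) i * w i = 0 at h2
    rw [hup] at h1 h2
    exact ⟨h1, h2⟩
  -- the partners
  let low : Fin (d + 3) → Fin (2 * d + 5) := fun m => ⟨m.val, by omega⟩
  let S : (Fin (2 * d + 5) → QB) →ₗ[QB] (Fin (d + 3) → QB) :=
    { toFun := fun u => fun m => w (low m) * ∑ j, A (low m) j * u j +
        u (low m) * ∑ i, A (low m) i * w i
      map_add' := by
        intro u u'
        funext m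
        simp only [Pi.add_apply, mul_add, Finset.sum_add_distrib]
        ring
      map_smul' := by
        intro c u
        funext m
        simp only [Pi.smul_apply, smul_eq_mul, RingHom.id_apply]
        have : ∑ j, A (low m) j * (c * u j) = c * ∑ j, A (low m) j * u j := by
          rw [Finset.mul_sum]
          refine Finset.sum_congr rfl fun i _ => ?_
          ring
        rw [this]
        ring }
  have hS : d + 2 ≤ finrank QB (LinearMap.ker S) := by
    have h1 := LinearMap.finrank_range_add_finrank_ker S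
    have h2 := Submodule.finrank_le (LinearMap.range S)
    rw [Module.finrank_fin_fun] at h1 h2
    omega
  set W : ℂ := ∑ i, (w i : ℂ) * l i with hW
  have hWL : W ∈ Lt := comb_mem halg w
  have hWt : Transcendental ℚ W := comb_transcendental halg hli hw0
  refine roy_space halg hli hWt hWL (E := LinearMap.ker S) (LinearMap.ker S).subtype
    (Submodule.injective_subtype _) γ hS ?_
  · intro u
    rw [Submodule.subtype_apply]
    have hu : ∀ k : Fin (2 * d + 5), k.val < d + 3 →
        w k * ∑ j, A k j * (u : Fin (2 * d + 5) → QB) j +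
          (u : Fin (2 * d + 5) → QB) k * ∑ i, A k i * w i = 0 := by
      intro k hk
      have h1 := LinearMap.mem_ker.mp u.2
      exact congrFun h1 ⟨k.val, hk⟩
    set v : Fin (2 * d + 5) → QB := (u : Fin (2 * d + 5) → QB) with hv
    have hall : ∀ k, w k * ∑ j, A k j * v j + v k * ∑ i, A k i * w i = 0 := by
      intro k
      by_cases hk : k.val < d + 3
      · exact hu k hk
      · obtain ⟨h1, h2⟩ := hw1 k hk
        rw [h1, h2]; ring
    have hzero := sum_identity (fun i => (w i : ℂ)) (fun j => (v j : ℂ))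
      (fun i j => (A i j : ℂ)) (fun k => l k ^ 2)
    have hr : ∑ k, l k ^ 2 * ((w k : ℂ) * ∑ j, (A k j : ℂ) * (v j : ℂ) +
        (v k : ℂ) * ∑ i, (A k i : ℂ) * (w i : ℂ)) = 0 := by
      apply Finset.sum_eq_zero
      intro k _
      have := congrArg (fun z : QB => (z : ℂ)) (hall k)
      push_cast at this
      rw [this, mul_zero]
    rw [hr] at hzero
    have e : W * ∑ j, (v j : ℂ) * l j = ∑ i, ∑ j, (w i : ℂ) * (v j : ℂ) *
        (l i * l j - ((A i j : ℂ) * l i ^ 2 + (A j i : ℂ) * l j ^ 2)) := by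
      have e1 : ∑ i, ∑ j, (w i : ℂ) * (v j : ℂ) *
        (l i * l j - ((A i j : ℂ) * l i ^ 2 + (A j i : ℂ) * l j ^ 2)) =
        ∑ i, ∑ j, (w i : ℂ) * l i * ((v j : ℂ) * l j) -
        ∑ i, ∑ j, (w i : ℂ) * (v j : ℂ) * ((A i j : ℂ) * l i ^ 2 + (A j i : ℂ) * l j ^ 2) := by
        rw [← Finset.sum_sub_distrib]
        refine Finset.sum_congr rfl fun i _ => ?_
        rw [← Finset.sum_sub_distrib]
        refine Finset.sum_congr rfl fun j _ => ?_
        ring
      rw [e1, hzero, sub_zero, hW, Finset.sum_mul_sum]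
    rw [e]
    apply Submodule.sum_mem
    intro i _
    apply Submodule.sum_mem
    intro j _
    by_cases hi : i.val < d + 3
    · have h1 := L.smul_mem (w i * v j) (key i j hi)
      rw [Algebra.smul_def] at h1
      have h2 : (algebraMap QB ℂ) (w i * v j) = (w i : ℂ) * (v j : ℂ) := by
        rfl
      rw [h2] at h1
      exact h1
    · rw [(hw1 i hi).1]
      have : ((0 : QB) : ℂ) * (v j : ℂ) *
        (l i * l j - ((A i j : ℂ) * l i ^ 2 + (A j i : ℂ) * l j ^ 2)) = 0 := by
        push_cast; ring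
      rw [this]
      exact L.zero_mem

end Pool.Agent.H196R3.QP
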