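import Pool.Agent.H196R3.QP

/-!
# Products of logarithms with fixed multipliers
-/

set_option autoImplicit false

namespace Pool.Agent.H196R3.QP

open Module Finset Pool.Agent.H301R2.SSE

/-- linear forms modulo further numbers -/
noncomputable def LF {d : ℕ} (γ : Fin d → ℂ) : Submodule QB ℂ :=
  Lt ⊔ Submodule.span QB (Set.range γ)

/-- independence modulo `LF γ` -/
def Ind {r d : ℕ} (γ : Fin d → ℂ) (y : Fin r → ℂ) : Prop :=
  ∀ α : Fin r → QB, ∑ k, (α k : ℂ) * y k ∈ LF γ → α = 0

open Classical in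
/-- for a transcendental multiplier there are at most `d + 2` exceptional logarithms -/
theorem one_count {N d : ℕ} {l : Fin N → ℂ} (halg : ∀ j, IsAlgebraic ℚ (Complex.exp (l j)))
    (hli : LinearIndependent ℚ l) {w : ℂ} (hw : Transcendental ℚ w) (γ : Fin d → ℂ) :
    ((Finset.univ : Finset (Fin N)).filter fun j => w * l j ∈ LF γ).card ≤ d + 2 := by
  by_contra hcon
  push Not at hcon
  obtain ⟨J, hJ, hcard⟩ := Finset.exists_subset_card_eq (n := d + 3) (by omega :
    d + 3 ≤ ((Finset.univ : Finset (Fin N)).filter fun j => w * l j ∈ LF γ).card)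
  let e := J.orderEmbOfFin hcard
  have he : ∀ k, w * l (e k) ∈ LF γ := fun k =>
    (Finset.mem_filter.mp (hJ (J.orderEmbOfFin_mem hcard k))).2
  have halg' : ∀ k, IsAlgebraic ℚ (Complex.exp (l (e k))) := fun k => halg _
  have hli' : LinearIndependent ℚ (fun k => l (e k)) := hli.comp e e.injective
  let φ : (Fin (d + 3) → QB) →ₗ[QB] ℂ :=
    (LinearMap.mulLeft QB w) ∘ₗ (Fintype.linearCombination QB (fun k => l (e k)))
  have hφ : ∀ u : Fin (d + 3) → QB, φ u = w * ∑ j, (u j : ℂ) * l (e j) := by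
    intro u
    show w * (Fintype.linearCombination QB (fun k => l (e k))) u = _
    rw [Fintype.linearCombination_apply]
    congr 1
  have hmem : ∀ u, φ u ∈ Lt ⊔ Submodule.span QB (Set.range γ) := by
    intro u
    rw [hφ, Finset.mul_sum]
    apply Submodule.sum_mem
    intro j _
    have h1 := (LF γ).smul_mem (u j) (he j)
    rw [Algebra.smul_def] at h1
    have h2 : (algebraMap QB ℂ) (u j) = (u j : ℂ) := rfl
    rw [h2] at h1
    have h3 : w * ((u j : ℂ) * l (e j)) = (u j : ℂ) * (w * l (e j)) := by ring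
    rw [h3]
    exact h1
  have hk := ker_bound φ γ hmem
  rw [Module.finrank_fin_fun] at hk
  have hk2 : 3 ≤ finrank QB (LinearMap.ker (Lt.mkQ ∘ₗ φ)) := by omega
  obtain ⟨f, hf⟩ := exists_linearIndependent_of_le_finrank hk2
  refine roy3 halg' hli' hw (fun k => ((f k : LinearMap.ker (Lt.mkQ ∘ₗ φ)) :
    Fin (d + 3) → QB)) ?_ ?_
  · exact hf.map' (LinearMap.ker (Lt.mkQ ∘ₗ φ)).subtype (Submodule.ker_subtype _)
  · intro k
    have h1 := LinearMap.mem_ker.mp (f k).2
    rw [LinearMap.comp_apply, Submodule.mkQ_apply, Submodule.Quotient.mk_eq_zero, hφ] at h1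
    exact h1

theorem LF_cons {d : ℕ} (γ : Fin d → ℂ) (z : ℂ) :
    LF (Fin.cons z γ : Fin (d + 1) → ℂ) = LF γ ⊔ Submodule.span QB {z} := by
  unfold LF
  rw [Fin.range_cons, Submodule.span_insert, sup_assoc, sup_comm (Submodule.span QB {z})]

theorem split {r d : ℕ} (γ : Fin d → ℂ) (y : Fin (r + 1) → ℂ) (h : ¬ Ind γ y) :
    y 0 ∈ LF γ ∨ ¬ Ind (Fin.cons (y 0) γ : Fin (d + 1) → ℂ) (fun k => y k.succ) := by
  unfold Ind at h
  push Not at h
  obtain ⟨α, hα, hα0⟩ := h
  rw [Fin.sum_univ_succ] at hα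
  by_cases ht : (fun k : Fin r => α k.succ) = 0
  · left
    have h0 : α 0 ≠ 0 := by
      intro h0
      apply hα0
      funext k
      refine Fin.cases h0 (fun k => ?_) k
      exact congrFun ht k
    have h1 : ∑ k : Fin r, (α k.succ : ℂ) * y k.succ = 0 := by
      apply Finset.sum_eq_zero
      intro k _
      have : α k.succ = 0 := congrFun ht k
      rw [this]
      simp
    rw [h1, add_zero] at hα
    have h2 := (LF γ).smul_mem (α 0)⁻¹ hα
    rw [Algebra.smul_def] at h2
    have h3 : (algebraMap QB ℂ) (α 0)⁻¹ * ((α 0 : ℂ) * y 0) = y 0 := by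
      have h4 : (algebraMap QB ℂ) (α 0)⁻¹ = ((α 0 : ℂ))⁻¹ := map_inv₀ _ _
      have h5 : (α 0 : ℂ) ≠ 0 := fun h => h0 (Subtype.ext h)
      rw [h4]
      field_simp
    rwa [h3] at h2
  · right
    intro hind
    apply ht
    apply hind
    rw [LF_cons]
    have h1 : ∑ k : Fin r, (α k.succ : ℂ) * y k.succ =
        ((α 0 : ℂ) * y 0 + ∑ k : Fin r, (α k.succ : ℂ) * y k.succ) + (-(α 0 : ℂ)) * y 0 := by ring
    rw [h1]
    apply Submodule.add_mem_sup hα
    have h2 := (Submodule.span QB {y 0}).smul_mem (-α 0) (Submodule.mem_span_singleton_self (y 0))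
    rw [Algebra.smul_def] at h2
    have h3 : (algebraMap QB ℂ) (-α 0) = -(α 0 : ℂ) := map_neg _ _
    rwa [h3] at h2

open Classical in
/-- **Main theorem.** -/
theorem tuples {N : ℕ} {l : Fin N → ℂ} (halg : ∀ j, IsAlgebraic ℚ (Complex.exp (l j)))
    (hli : LinearIndependent ℚ l) : ∀ (r d : ℕ) (w : Fin r → ℂ),
    (∀ k, Transcendental ℚ (w k)) → ∀ γ : Fin d → ℂ,
    2 * N * ((Finset.univ : Finset (Fin r → Fin N)).filter fun j =>
      ¬ Ind γ (fun k => w k * l (j k))).card ≤ r * (2 * d + r + 3) * N ^ r := by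
  intro r
  induction r with
  | zero =>
    intro d w hw γ
    have : ((Finset.univ : Finset (Fin 0 → Fin N)).filter fun j =>
      ¬ Ind γ (fun k => w k * l (j k))) = ∅ := by
      apply Finset.filter_eq_empty_iff.mpr
      intro j _ h
      exact h (fun α _ => funext fun k => k.elim0)
    rw [this]
    simp
  | succ r ih =>
    intro d w hw γ
    have e1 : ((Finset.univ : Finset (Fin (r + 1) → Fin N)).filter fun j =>
        ¬ Ind γ (fun k => w k * l (j k))).card =
        ∑ x : Fin N × (Fin r → Fin N), if ¬ Ind γ (fun k => w k *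
          l ((Fin.cons x.1 x.2 : Fin (r + 1) → Fin N) k)) then 1 else 0 := by
      rw [Finset.card_filter]
      exact (Equiv.sum_comp (Fin.consEquiv (fun _ : Fin (r + 1) => Fin N))
        (fun j => if ¬ Ind γ (fun k => w k * l (j k)) then 1 else 0)).symm
    have e2 : ∀ x : Fin N × (Fin r → Fin N), (if ¬ Ind γ (fun k => w k *
          l ((Fin.cons x.1 x.2 : Fin (r + 1) → Fin N) k)) then 1 else 0) ≤
        (if w 0 * l x.1 ∈ LF γ then 1 else 0) +
        (if ¬ Ind (Fin.cons (w 0 * l x.1) γ : Fin (d + 1) → ℂ)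
          (fun k : Fin r => w k.succ * l (x.2 k)) then 1 else 0) := by
      intro x
      by_cases h1 : Ind γ (fun k => w k * l ((Fin.cons x.1 x.2 : Fin (r + 1) → Fin N) k))
      · rw [if_neg (not_not.mpr h1)]
        exact Nat.zero_le _
      · rw [if_pos h1]
        rcases split γ _ h1 with h4 | h4
        · have h5 : w 0 * l x.1 ∈ LF γ := by simpa using h4
          rw [if_pos h5]
          omega
        · have h5 : ¬ Ind (Fin.cons (w 0 * l x.1) γ : Fin (d + 1) → ℂ)
              (fun k : Fin r => w k.succ * l (x.2 k)) := by simpa using h4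
          rw [if_pos h5]
          omega
    rw [e1]
    have e3 : (∑ x : Fin N × (Fin r → Fin N), if ¬ Ind γ (fun k => w k *
          l ((Fin.cons x.1 x.2 : Fin (r + 1) → Fin N) k)) then 1 else 0) ≤
        ∑ a : Fin N, ∑ _b : Fin r → Fin N, (if w 0 * l a ∈ LF γ then 1 else 0) +
          ∑ a : Fin N, ∑ b : Fin r → Fin N,
        (if ¬ Ind (Fin.cons (w 0 * l a) γ : Fin (d + 1) → ℂ)
          (fun k : Fin r => w k.succ * l (b k)) then 1 else 0) := by
      refine (Finset.sum_le_sum fun x _ => e2 x).trans ?_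
      rw [Finset.sum_add_distrib, Fintype.sum_prod_type, Fintype.sum_prod_type]
    have e4 : ∑ a : Fin N, ∑ _b : Fin r → Fin N, (if w 0 * l a ∈ LF γ then 1 else 0) ≤
        (d + 2) * N ^ r := by
      simp only [Finset.sum_const, Finset.card_univ, Fintype.card_fun, Fintype.card_fin,
        smul_eq_mul]
      rw [← Finset.mul_sum, ← Finset.card_filter, mul_comm]
      exact Nat.mul_le_mul_right _ (one_count halg hli (hw 0) γ)
    have e5 : ∀ a : Fin N, 2 * N * ∑ b : Fin r → Fin N,
        (if ¬ Ind (Fin.cons (w 0 * l a) γ : Fin (d + 1) → ℂ)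
          (fun k : Fin r => w k.succ * l (b k)) then 1 else 0) ≤
        r * (2 * (d + 1) + r + 3) * N ^ r := by
      intro a
      have := ih (d + 1) (fun k => w k.succ) (fun k => hw _)
        (Fin.cons (w 0 * l a) γ : Fin (d + 1) → ℂ)
      rwa [Finset.card_filter] at this
    have e6 : 2 * N * ∑ a : Fin N, ∑ b : Fin r → Fin N,
        (if ¬ Ind (Fin.cons (w 0 * l a) γ : Fin (d + 1) → ℂ)
          (fun k : Fin r => w k.succ * l (b k)) then 1 else 0) ≤
        N * (r * (2 * (d + 1) + r + 3) * N ^ r) := by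
      rw [Finset.mul_sum]
      refine (Finset.sum_le_sum fun a _ => e5 a).trans ?_
      simp
    calc _ ≤ 2 * N * (∑ a : Fin N, ∑ _b : Fin r → Fin N, (if w 0 * l a ∈ LF γ then 1 else 0) +
          ∑ a : Fin N, ∑ b : Fin r → Fin N,
        (if ¬ Ind (Fin.cons (w 0 * l a) γ : Fin (d + 1) → ℂ)
          (fun k : Fin r => w k.succ * l (b k)) then 1 else 0)) := Nat.mul_le_mul_left _ e3
      _ ≤ 2 * N * ((d + 2) * N ^ r) + N * (r * (2 * (d + 1) + r + 3) * N ^ r) := by
          rw [Nat.mul_add]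
          exact Nat.add_le_add (Nat.mul_le_mul_left _ e4) e6
      _ = (r + 1) * (2 * d + (r + 1) + 3) * N ^ (r + 1) := by ring

end Pool.Agent.H196R3.QP
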