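import Mathlib

/-! Riemann sums over the cube and the passage to the limit. -/

set_option autoImplicit false

namespace Pool.Agent.H196R3

open Finset MeasureTheory Filter
open scoped Pointwise

/-- grid points -/
noncomputable def grid {N : ℕ} (n : ℕ) (k : Fin N → Fin n) : Fin N → ℝ :=
  fun i => ((k i : ℕ) : ℝ) / n

theorem riemann {N : ℕ} (h : (Fin N → ℝ) → ℝ) (hh : Continuous h) :
    Tendsto (fun n : ℕ => (∑ k : Fin N → Fin n, h (grid n k)) / (n:ℝ) ^ N) atTop
      (nhds (∫ t in Set.Icc (0 : Fin N → ℝ) 1, h t)) := by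
  classical
  set s : Set (Fin N → ℝ) := Set.pi Set.univ (fun _ => Set.Ico (0:ℝ) 1) with hs
  have hae : s =ᵐ[volume] Set.Icc (0 : Fin N → ℝ) 1 := by
    rw [hs]
    exact Measure.univ_pi_Ico_ae_eq_Icc
  rw [← setIntegral_congr_set hae]
  have hconv : Convex ℝ s := convex_pi (fun i _ => convex_Ico 0 1)
  have h1 := tendsto_tsum_div_pow_atTop_integral s h hh
    ((Metric.isBounded_Icc (0 : Fin N → ℝ) 1).subset (by
      intro x hx
      rw [hs, Set.mem_univ_pi] at hx
      exact ⟨fun i => (hx i).1, fun i => (hx i).2.le⟩))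
    (MeasurableSet.univ_pi (fun _ => measurableSet_Ico)) (hconv.addHaar_frontier volume)
  rw [Fintype.card_fin] at h1
  refine h1.congr' ?_
  filter_upwards [eventually_gt_atTop 0] with n hn
  have hnr : (0:ℝ) < n := by exact_mod_cast hn
  congr 1
  have : NeZero n := ⟨hn.ne'⟩
  have hmem : ∀ k : Fin N → Fin n, grid n k ∈
      s ∩ (n : ℝ)⁻¹ • (Submodule.span ℤ (Set.range (Pi.basisFun ℝ (Fin N))) : Set (Fin N → ℝ)) := by
    intro k
    refine ⟨?_, ?_⟩
    · rw [hs, Set.mem_univ_pi]
      intro i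
      refine ⟨by unfold grid; positivity, ?_⟩
      unfold grid
      rw [div_lt_one hnr]
      exact_mod_cast (k i).2
    · rw [← Submodule.coe_pointwise_smul, SetLike.mem_coe,
        BoxIntegral.unitPartition.mem_smul_span_iff]
      intro i
      refine ⟨((k i : ℕ) : ℤ), ?_⟩
      unfold grid
      simp
      field_simp
  let e : (Fin N → Fin n) → ↑(s ∩ (n : ℝ)⁻¹ •
    (Submodule.span ℤ (Set.range (Pi.basisFun ℝ (Fin N))) : Set (Fin N → ℝ))) :=
    fun k => ⟨grid n k, hmem k⟩
  have he : Function.Bijective e := by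
    constructor
    · intro k k' hkk
      have h2 : grid n k = grid n k' := congrArg Subtype.val hkk
      funext i
      have h3 := congrFun h2 i
      unfold grid at h3
      rw [div_left_inj' hnr.ne'] at h3
      exact Fin.ext (by exact_mod_cast h3)
    · rintro ⟨x, hx1, hx2⟩
      rw [← Submodule.coe_pointwise_smul, SetLike.mem_coe,
        BoxIntegral.unitPartition.mem_smul_span_iff] at hx2
      rw [hs, Set.mem_univ_pi] at hx1
      choose m hm using hx2
      have hm' : ∀ i, (m i : ℝ) = n * x i := by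
        intro i
        have := hm i
        simpa using this
      have hm0 : ∀ i, 0 ≤ m i := by
        intro i
        have h2 : (0:ℝ) ≤ m i := by
          rw [hm']
          exact mul_nonneg hnr.le (hx1 i).1
        exact_mod_cast h2
      have hmn : ∀ i, (m i).toNat < n := by
        intro i
        have h2 : (m i : ℝ) < n := by
          rw [hm']
          calc n * x i < n * 1 := mul_lt_mul_of_pos_left (hx1 i).2 hnr
            _ = n := mul_one _
        have h3 : m i < (n:ℤ) := by exact_mod_cast h2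
        have := hm0 i
        omega
      refine ⟨fun i => ⟨(m i).toNat, hmn i⟩, ?_⟩
      apply Subtype.ext
      funext i
      show (((m i).toNat : ℕ) : ℝ) / n = x i
      have h4 : (((m i).toNat : ℕ) : ℝ) = m i := by
        have : (((m i).toNat : ℕ) : ℤ) = m i := Int.toNat_of_nonneg (hm0 i)
        exact_mod_cast this
      rw [h4, hm']
      field_simp
  rw [← (Equiv.ofBijective e he).tsum_eq (fun x => h x.1), tsum_fintype]
  rfl

/-- the passage to the limit -/
theorem limit_log {N : ℕ} (g : (Fin N → ℝ) → ℝ) (hg : Continuous g) (hg0 : ∀ x, 0 ≤ g x)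
    (hK : ∀ η : ℝ, 0 < η → ∃ δ : ℝ, 0 < δ ∧ ∃ n₀ : ℕ, ∀ n ≥ n₀, 0 < n →
      ∑ k : Fin N → Fin n, (if g (grid n k) ≠ 0 ∧ g (grid n k) < δ then
        |Real.log (g (grid n k))| else 0) ≤ η * (n:ℝ) ^ N)
    (hZ : ∀ η : ℝ, 0 < η → ∃ δ : ℝ, 0 < δ ∧ ∃ n₀ : ℕ, ∀ n ≥ n₀, 0 < n →
      ∑ k : Fin N → Fin n, (if g (grid n k) < δ then (1:ℝ) else 0) ≤ η * (n:ℝ) ^ N) :
    Tendsto (fun n : ℕ => (∑ k : Fin N → Fin n, Real.log (g (grid n k))) / (n:ℝ) ^ N) atTop
      (nhds (∫ t in Set.Icc (0 : Fin N → ℝ) 1, Real.log (g t))) := by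
  classical
  set μ : Measure (Fin N → ℝ) := volume.restrict (Set.Icc (0 : Fin N → ℝ) 1) with hμ
  set S : ℕ → ℝ := fun n => (∑ k : Fin N → Fin n, Real.log (g (grid n k))) / (n:ℝ) ^ N with hS
  set ℓ : ℝ → (Fin N → ℝ) → ℝ := fun δ x => Real.log (max (g x) δ) with hℓ
  set I : ℝ → ℝ := fun δ => ∫ t, ℓ δ t ∂μ with hI
  have hcont : ∀ δ : ℝ, 0 < δ → Continuous (ℓ δ) := by
    intro δ hδ
    rw [hℓ]
    apply Continuous.log (hg.max continuous_const)
    intro x
    exact (lt_of_lt_of_le hδ (le_max_right _ _)).ne'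
  have hint : ∀ δ : ℝ, 0 < δ → Integrable (ℓ δ) μ := by
    intro δ hδ
    exact (hcont δ hδ).continuousOn.integrableOn_compact isCompact_Icc
  -- the basic comparison
  have hA : ∀ η : ℝ, 0 < η → ∃ δ₀ : ℝ, 0 < δ₀ ∧ ∀ δ : ℝ, 0 < δ → δ ≤ δ₀ → ∃ n₀ : ℕ, ∀ n ≥ n₀,
      |S n - I δ| ≤ η := by
    intro η hη
    obtain ⟨δ₁, hδ₁, n₁, h1⟩ := hK (η / 3) (by positivity)
    refine ⟨min δ₁ 1, lt_min hδ₁ one_pos, fun δ hδ hδ' => ?_⟩
    have hδ1 : δ ≤ 1 := hδ'.trans (min_le_right _ _)
    have hδδ : δ ≤ δ₁ := hδ'.trans (min_le_left _ _)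
    set Lg : ℝ := |Real.log δ| + 1 with hLg
    have hLg0 : 0 < Lg := by positivity
    obtain ⟨δ₂, hδ₂, n₂, h2⟩ := hZ (η / (3 * Lg)) (by positivity)
    have h3 := riemann (ℓ δ) (hcont δ hδ)
    rw [Metric.tendsto_atTop] at h3
    obtain ⟨n₃, h3⟩ := h3 (η / 3) (by positivity)
    refine ⟨max (max n₁ n₂) (max n₃ 1), fun n hn => ?_⟩
    have hn1 : n₁ ≤ n := (le_max_left _ _).trans ((le_max_left _ _).trans hn)
    have hn2 : n₂ ≤ n := (le_max_right _ _).trans ((le_max_left _ _).trans hn)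
    have hn3 : n₃ ≤ n := (le_max_left _ _).trans ((le_max_right _ _).trans hn)
    have hn0 : 0 < n := (le_max_right _ _).trans ((le_max_right _ _).trans hn)
    have hnr : (0:ℝ) < n := by exact_mod_cast hn0
    have h4 := h1 n hn1 hn0
    have h5 := h2 n hn2 hn0
    have h6 := h3 n hn3
    rw [Real.dist_eq] at h6
    have h7 : |∑ k : Fin N → Fin n, Real.log (g (grid n k)) - ∑ k : Fin N → Fin n, ℓ δ (grid n k)| ≤
        η / 3 * (n:ℝ) ^ N + η / 3 * (n:ℝ) ^ N := by
      rw [← sum_sub_distrib]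
      refine (abs_sum_le_sum_abs _ _).trans ?_
      have h8 : ∀ k : Fin N → Fin n, |Real.log (g (grid n k)) - ℓ δ (grid n k)| ≤
          (if g (grid n k) ≠ 0 ∧ g (grid n k) < δ₁ then |Real.log (g (grid n k))| else 0) +
          Lg * (if g (grid n k) < δ₂ then (1:ℝ) else 0) := by
        intro k
        set y := g (grid n k) with hy
        have hy0 : 0 ≤ y := hg0 _
        have hℓy : ℓ δ (grid n k) = Real.log (max y δ) := rfl
        rw [hℓy]
        rcases le_or_gt δ y with hc | hc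
        · rw [max_eq_left hc, sub_self, abs_zero]
          apply add_nonneg
          · split_ifs
            · exact abs_nonneg _
            · exact le_rfl
          · apply mul_nonneg hLg0.le
            split_ifs <;> norm_num
        · rw [max_eq_right hc.le]
          rcases hy0.eq_or_lt with h0 | hpos
          · rw [← h0]
            rw [if_neg (by simp), if_pos hδ₂]
            simp
            rw [hLg]
            linarith
          · rw [if_pos ⟨hpos.ne', hc.trans_le hδδ⟩]
            have h9 : Real.log y ≤ Real.log δ := Real.log_le_log hpos hc.le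
            have h10 : Real.log δ ≤ 0 := Real.log_nonpos hδ.le hδ1
            rw [abs_of_nonpos (by linarith), abs_of_nonpos (by linarith : Real.log y ≤ 0)]
            have h11 : 0 ≤ Lg * (if y < δ₂ then (1:ℝ) else 0) := by
              apply mul_nonneg hLg0.le
              split_ifs <;> norm_num
            linarith
      refine (sum_le_sum (fun k _ => h8 k)).trans ?_
      rw [sum_add_distrib, ← mul_sum]
      have h12 : Lg * ∑ k : Fin N → Fin n, (if g (grid n k) < δ₂ then (1:ℝ) else 0) ≤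
          Lg * (η / (3 * Lg) * (n:ℝ) ^ N) := mul_le_mul_of_nonneg_left h5 hLg0.le
      have h13 : Lg * (η / (3 * Lg) * (n:ℝ) ^ N) = η / 3 * (n:ℝ) ^ N := by field_simp
      linarith
    have h14 : |S n - (∑ k : Fin N → Fin n, ℓ δ (grid n k)) / (n:ℝ) ^ N| ≤ η / 3 + η / 3 := by
      rw [hS]
      simp only
      rw [← sub_div, abs_div, abs_of_pos (pow_pos hnr N), div_le_iff₀ (pow_pos hnr N)]
      linarith
    have h15 : |S n - I δ| ≤ |S n - (∑ k : Fin N → Fin n, ℓ δ (grid n k)) / (n:ℝ) ^ N| +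
        |(∑ k : Fin N → Fin n, ℓ δ (grid n k)) / (n:ℝ) ^ N - I δ| := abs_sub_le _ _ _
    have h16 : |(∑ k : Fin N → Fin n, ℓ δ (grid n k)) / (n:ℝ) ^ N - I δ| < η / 3 := h6
    linarith
  -- the sequence of truncations
  set D : ℕ → ℝ := fun m => 1 / ((m:ℝ) + 1) with hD
  have hD0 : ∀ m, 0 < D m := fun m => by rw [hD]; positivity
  have hD1 : ∀ m, D m ≤ 1 := by
    intro m
    rw [hD]
    simp only
    rw [div_le_one (by positivity)]
    have : (0:ℝ) ≤ m := by positivity
    linarith
  have hDanti : Antitone D := by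
    intro a b hab
    rw [hD]
    simp only
    apply one_div_le_one_div_of_le (by positivity)
    have : (a:ℝ) ≤ b := by exact_mod_cast hab
    linarith
  have hDlim : Tendsto D atTop (nhds 0) := tendsto_one_div_add_atTop_nhds_zero_nat
  -- boundedness below
  obtain ⟨δ₀, hδ₀, hbd⟩ := hA 1 one_pos
  have hlow : ∃ B : ℝ, ∀ m, B ≤ I (D m) := by
    refine ⟨I δ₀ - 2, fun m => ?_⟩
    rcases le_or_gt (D m) δ₀ with hm | hm
    · obtain ⟨n₁, h1⟩ := hbd δ₀ hδ₀ le_rfl
      obtain ⟨n₂, h2⟩ := hbd (D m) (hD0 m) hm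
      have h3 := h1 (max n₁ n₂) (le_max_left _ _)
      have h4 := h2 (max n₁ n₂) (le_max_right _ _)
      rw [abs_le] at h3 h4
      linarith
    · have : I δ₀ ≤ I (D m) := by
        apply integral_mono (hint δ₀ hδ₀) (hint _ (hD0 m))
        intro x
        apply Real.log_le_log (lt_of_lt_of_le hδ₀ (le_max_right _ _))
        exact max_le_max le_rfl hm.le
      linarith
  obtain ⟨B, hB⟩ := hlow
  set φ : ℕ → (Fin N → ℝ) → ENNReal := fun m x => ENNReal.ofReal (ℓ 1 x - ℓ (D m) x) with hφ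
  have hφmeas : ∀ m, Measurable (φ m) := by
    intro m
    exact (((hcont 1 one_pos).sub (hcont _ (hD0 m))).measurable).ennreal_ofReal
  have hℓmono : ∀ x, ∀ a b : ℝ, 0 < a → a ≤ b → ℓ a x ≤ ℓ b x := by
    intro x a b ha hab
    apply Real.log_le_log (lt_of_lt_of_le ha (le_max_right _ _))
    exact max_le_max le_rfl hab
  have hφmono : Monotone φ := by
    intro a b hab x
    apply ENNReal.ofReal_le_ofReal
    have := hℓmono x (D b) (D a) (hD0 b) (hDanti hab)
    linarith
  have hφint : ∀ m, ∫⁻ x, φ m x ∂μ ≤ ENNReal.ofReal (I 1 - B) := by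
    intro m
    have h1 : ∫⁻ x, φ m x ∂μ = ENNReal.ofReal (∫ x, (ℓ 1 x - ℓ (D m) x) ∂μ) := by
      have hsub : Integrable (fun x => ℓ 1 x - ℓ (D m) x) μ :=
        (hint 1 one_pos).sub (hint _ (hD0 m))
      rw [ofReal_integral_eq_lintegral_ofReal hsub]
      apply Eventually.of_forall
      intro x
      have := hℓmono x (D m) 1 (hD0 m) (hD1 m)
      simp only [Pi.zero_apply]
      linarith
    rw [h1, integral_sub (hint 1 one_pos) (hint _ (hD0 m))]
    apply ENNReal.ofReal_le_ofReal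
    have := hB m
    show I 1 - I (D m) ≤ I 1 - B
    linarith
  set Φ : (Fin N → ℝ) → ENNReal := fun x => ⨆ m, φ m x with hΦ
  have hΦint : ∫⁻ x, Φ x ∂μ ≤ ENNReal.ofReal (I 1 - B) := by
    rw [hΦ, lintegral_iSup hφmeas hφmono]
    exact iSup_le hφint
  have hΦmeas : Measurable Φ := Measurable.iSup hφmeas
  have hΦfin : ∀ᵐ x ∂μ, Φ x < ⊤ :=
    ae_lt_top hΦmeas (ne_of_lt (lt_of_le_of_lt hΦint ENNReal.ofReal_lt_top))
  have hgpos : ∀ᵐ x ∂μ, 0 < g x := by
    filter_upwards [hΦfin] with x hx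
    rcases (hg0 x).eq_or_lt with h0 | h0
    · exfalso
      have h1 : ∀ m : ℕ, ENNReal.ofReal (Real.log ((m:ℝ) + 1)) ≤ Φ x := by
        intro m
        refine le_trans ?_ (le_iSup (fun m => φ m x) m)
        apply ENNReal.ofReal_le_ofReal
        rw [hℓ]
        simp only
        rw [← h0, max_eq_right (by norm_num : (0:ℝ) ≤ 1), max_eq_right (hD0 m).le, Real.log_one, hD]
        simp only
        rw [one_div, Real.log_inv]
        linarith
      have h2 : Tendsto (fun m : ℕ => Real.log ((m:ℝ) + 1)) atTop atTop :=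
        Real.tendsto_log_atTop.comp (tendsto_atTop_add_const_right _ _ tendsto_natCast_atTop_atTop)
      have h3 := ENNReal.tendsto_ofReal_atTop.comp h2
      have h4 : (⊤ : ENNReal) ≤ Φ x := le_of_tendsto' h3 h1
      exact absurd hx (not_lt.2 h4)
    · exact h0
  -- integrability
  have hdiff : Integrable (fun x => ℓ 1 x - Real.log (g x)) μ := by
    refine ⟨((hcont 1 one_pos).measurable.sub (hg.measurable.log)).aestronglyMeasurable, ?_⟩
    refine lt_of_le_of_lt ?_ (lt_of_le_of_lt hΦint ENNReal.ofReal_lt_top)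
    apply lintegral_mono_ae
    filter_upwards [hgpos] with x hx
    obtain ⟨m, hm⟩ := (hDlim.eventually (gt_mem_nhds hx)).exists
    refine le_trans ?_ (le_iSup (fun m => φ m x) m)
    have h1 : ℓ (D m) x = Real.log (g x) := by
      rw [hℓ]
      simp only
      rw [max_eq_left hm.le]
    rw [hφ]
    simp only
    rw [h1, Real.enorm_eq_ofReal]
    have := hℓmono x (D m) 1 (hD0 m) (hD1 m)
    rw [h1] at this
    linarith
  have hlogint : Integrable (fun x => Real.log (g x)) μ := by
    have := (hint 1 one_pos).sub hdiff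
    refine this.congr (Eventually.of_forall fun x => ?_)
    simp
  have hlim : Tendsto (fun m => I (D m)) atTop (nhds (∫ x, Real.log (g x) ∂μ)) := by
    apply integral_tendsto_of_tendsto_of_antitone (fun m => hint _ (hD0 m)) hlogint
    · apply Eventually.of_forall
      intro x a b hab
      exact hℓmono x (D b) (D a) (hD0 b) (hDanti hab)
    · filter_upwards [hgpos] with x hx
      apply tendsto_const_nhds.congr'
      filter_upwards [hDlim.eventually (gt_mem_nhds hx)] with m hm
      rw [hℓ]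
      simp only
      rw [max_eq_left hm.le]
  rw [Metric.tendsto_atTop]
  intro ε hε
  obtain ⟨δ₁, hδ₁, h1⟩ := hA (ε / 3) (by positivity)
  rw [Metric.tendsto_atTop] at hlim
  obtain ⟨m₁, hm₁⟩ := hlim (ε / 3) (by positivity)
  obtain ⟨m₂, hm₂⟩ := (hDlim.eventually (gt_mem_nhds hδ₁)).exists_forall_of_atTop
  set m := max m₁ m₂ with hm
  obtain ⟨n₀, hn₀⟩ := h1 (D m) (hD0 m) (hm₂ m (le_max_right _ _)).le
  refine ⟨n₀, fun n hn => ?_⟩
  have h2 := hn₀ n hn
  have h3 := hm₁ m (le_max_left _ _)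
  rw [Real.dist_eq] at h3 ⊢
  have h4 := abs_sub_le (S n) (I (D m)) (∫ x, Real.log (g x) ∂μ)
  linarith

end Pool.Agent.H196R3
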