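import Mathlib
import Pool.Agent.H196R3.Good
import Pool.Agent.H196R3.Riem

/-! The unimodular change of variables and the sums over torsion points. -/

set_option autoImplicit false

namespace Pool.Agent.H196R3

open Polynomial Finset

/-- evaluation of a Laurent polynomial -/
noncomputable def lev {N : ℕ} (f : (Fin N →₀ ℤ) →₀ ℤ) (x : Fin N → ℂ) : ℂ :=
  f.sum (fun e c => (c : ℂ) * ∏ i, x i ^ (e i))

/-- a generic weight -/
theorem exists_weight {M : ℕ} (S : Finset (Fin (M + 1) →₀ ℤ)) :
    ∃ B : ℤ, ∀ e ∈ S, ∀ e' ∈ S,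
      ∑ i, e i * B ^ (i : ℕ) = ∑ i, e' i * B ^ (i : ℕ) → e = e' := by
  classical
  set q : (Fin (M + 1) →₀ ℤ) × (Fin (M + 1) →₀ ℤ) → ℤ[X] :=
    fun p => ∑ i : Fin (M + 1), C (p.1 i - p.2 i) * X ^ (i : ℕ) with hq
  set Q : ℤ[X] := ∏ p ∈ (S ×ˢ S).filter (fun p => p.1 ≠ p.2), q p with hQ
  have hq0 : ∀ p : (Fin (M + 1) →₀ ℤ) × (Fin (M + 1) →₀ ℤ), p.1 ≠ p.2 → q p ≠ 0 := by
    intro p hp h0
    apply hp
    ext i
    have h1 : (q p).coeff i = p.1 i - p.2 i := by
      rw [hq]
      simp only [finsetSum_coeff, coeff_C_mul_X_pow]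
      rw [sum_eq_single i]
      · simp
      · intro j _ hj
        rw [if_neg]
        intro h
        exact hj (Fin.ext h.symm)
      · simp
    rw [h0, coeff_zero] at h1
    linarith
  have hQ0 : Q ≠ 0 := by
    rw [hQ, prod_ne_zero_iff]
    intro p hp
    exact hq0 p (mem_filter.1 hp).2
  have hex : ∃ B : ℤ, Q.eval B ≠ 0 := by
    by_contra hcon
    push Not at hcon
    apply hQ0
    apply Polynomial.funext
    intro r
    rw [hcon r, eval_zero]
  obtain ⟨B, hB⟩ := hex
  refine ⟨B, fun e he e' he' h => ?_⟩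
  by_contra hne
  apply hB
  rw [hQ, eval_prod]
  apply prod_eq_zero (i := (e, e'))
  · rw [mem_filter, mem_product]
    exact ⟨⟨he, he'⟩, hne⟩
  · rw [hq]
    simp only [eval_finsetSum, eval_mul, eval_C, eval_pow, eval_X, sub_mul]
    rw [sum_sub_distrib, h, sub_self]

theorem shear {M : ℕ} (f : (Fin (M + 1) →₀ ℤ) →₀ ℤ) (hf : f ≠ 0) :
    ∃ (B : ℤ) (F : Polynomial (A M)), UL F 1 ∧ ∀ (z : Fin M → ℂ) (w : ℂ), OnT z → ‖w‖ = 1 →
      ‖val z w F‖ = ‖lev f (Fin.cons w (fun i => z i * w ^ (B ^ ((i : ℕ) + 1))))‖ := by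
  classical
  obtain ⟨B, hB⟩ := exists_weight f.support
  set a : (Fin (M + 1) →₀ ℤ) → ℤ := fun e => ∑ i, e i * B ^ (i : ℕ) with ha
  set s0 : ℕ := ∑ e ∈ f.support, (a e).natAbs with hs0
  set s : ℕ := ∑ e ∈ f.support, ∑ i, (e i).natAbs with hs
  have ha0 : ∀ e ∈ f.support, 0 ≤ a e + s0 := by
    intro e he
    have h1 : (a e).natAbs ≤ s0 := single_le_sum (f := fun e => (a e).natAbs)
      (fun _ _ => Nat.zero_le _) he
    omega
  have hb0 : ∀ e ∈ f.support, ∀ i, 0 ≤ e i + s := by
    intro e he i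
    have h1 : (∑ i, (e i).natAbs) ≤ s := single_le_sum (f := fun e => ∑ i, (e i).natAbs)
      (fun _ _ => Nat.zero_le _) he
    have h2 : (e i).natAbs ≤ ∑ i, (e i).natAbs := single_le_sum (f := fun i => (e i).natAbs)
      (fun _ _ => Nat.zero_le _) (mem_univ i)
    omega
  set α : (Fin (M + 1) →₀ ℤ) → ℕ := fun e => (a e + s0).toNat with hα
  set β : (Fin (M + 1) →₀ ℤ) → (Fin M →₀ ℕ) :=
    fun e => Finsupp.equivFunOnFinite.symm (fun i => (e i.succ + s).toNat) with hβ
  have hαinj : ∀ e ∈ f.support, ∀ e' ∈ f.support, α e = α e' → e = e' := by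
    intro e he e' he' h
    apply hB e he e' he'
    have h1 := ha0 e he
    have h2 := ha0 e' he'
    simp only [hα] at h
    have h3 : a e = a e' := by omega
    exact h3
  set F : Polynomial (A M) := ∑ e ∈ f.support, monomial (α e) (MvPolynomial.monomial (β e) (f e))
    with hF
  have hcoeff : ∀ e ∈ f.support, F.coeff (α e) = MvPolynomial.monomial (β e) (f e) := by
    intro e he
    rw [hF, finsetSum_coeff]
    simp only [coeff_monomial]
    rw [sum_eq_single e]
    · simp
    · intro e' he' hne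
      rw [if_neg]
      intro h
      exact hne (hαinj e' he' e he h)
    · intro h
      exact absurd he h
  obtain ⟨e0, he0⟩ := Finsupp.support_nonempty_iff.2 hf
  have hF0 : F ≠ 0 := by
    intro h0
    have h1 := hcoeff e0 he0
    rw [h0, coeff_zero] at h1
    have h2 := MvPolynomial.monomial_eq_zero.1 h1.symm
    exact Finsupp.mem_support_iff.1 he0 h2
  have hlead : ∃ e ∈ f.support, F.leadingCoeff = MvPolynomial.monomial (β e) (f e) := by
    have h1 : F.leadingCoeff ≠ 0 := leadingCoeff_ne_zero.2 hF0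
    have h2 : ∃ e ∈ f.support, α e = F.natDegree := by
      by_contra hcon
      push Not at hcon
      apply h1
      rw [leadingCoeff]
      conv_lhs => rw [hF]
      rw [finsetSum_coeff]
      apply sum_eq_zero
      intro e he
      rw [coeff_monomial, if_neg (hcon e he)]
    obtain ⟨e, he, h3⟩ := h2
    refine ⟨e, he, ?_⟩
    rw [leadingCoeff, ← h3, hcoeff e he]
  refine ⟨B, F, ⟨one_pos, ?_⟩, ?_⟩
  · intro z hz
    obtain ⟨e, he, h1⟩ := hlead
    rw [h1]
    have h2 : evz z (MvPolynomial.monomial (β e) (f e)) = (f e : ℂ) * mv z 1 ⟨0, β e⟩ := by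
      rw [← val_monomial z 1 0 (β e) (f e), monomial_zero_left, val_C]
    rw [h2, norm_mul, norm_mv hz (by simp), mul_one, Complex.norm_intCast]
    have h3 : (1:ℤ) ≤ |f e| := Int.one_le_abs (Finsupp.mem_support_iff.1 he)
    exact_mod_cast h3
  · intro z w hz hw
    have hw0 : w ≠ 0 := by
      intro h
      rw [h] at hw
      simp at hw
    have hz0 : ∀ i, z i ≠ 0 := by
      intro i h
      have := hz i
      rw [h] at this
      simp at this
    set x : Fin (M + 1) → ℂ := Fin.cons w (fun i => z i * w ^ (B ^ ((i : ℕ) + 1))) with hx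
    have hmon : ∀ e ∈ f.support, mv z w ⟨α e, β e⟩ =
        ((∏ i, z i ^ s) * w ^ s0) * ∏ i, x i ^ (e i) := by
      intro e he
      have h1 : ∏ i, x i ^ (e i) = (∏ i : Fin M, z i ^ (e i.succ)) * w ^ (a e) := by
        rw [Fin.prod_univ_succ]
        have h2 : x 0 = w := by rw [hx]; rfl
        have h3 : ∀ i : Fin M, x i.succ = z i * w ^ (B ^ ((i : ℕ) + 1)) := by
          intro i
          rw [hx]
          rfl
        rw [h2]
        simp only [h3, mul_zpow]
        rw [prod_mul_distrib]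
        have h4 : a e = e 0 + ∑ i : Fin M, e i.succ * B ^ ((i : ℕ) + 1) := by
          rw [ha]
          simp only
          rw [Fin.sum_univ_succ]
          simp
        have h5 : ∏ i : Fin M, (w ^ (B ^ ((i : ℕ) + 1))) ^ (e i.succ) =
            w ^ (∑ i : Fin M, e i.succ * B ^ ((i : ℕ) + 1)) := by
          have h6 : ∀ t : Finset (Fin M), ∏ i ∈ t, (w ^ (B ^ ((i : ℕ) + 1))) ^ (e i.succ) =
            w ^ (∑ i ∈ t, e i.succ * B ^ ((i : ℕ) + 1)) := by
            intro t
            induction t using Finset.induction with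
            | empty => simp
            | insert i t hi ih =>
              rw [prod_insert hi, sum_insert hi, ih, zpow_add₀ hw0, ← zpow_mul, mul_comm (e i.succ)]
          exact h6 univ
        rw [h5, h4, zpow_add₀ hw0]
        ring
      have h7 : ((α e : ℕ) : ℤ) = a e + s0 := Int.toNat_of_nonneg (ha0 e he)
      have h8 : ∀ i : Fin M, ((β e i : ℕ) : ℤ) = e i.succ + s := by
        intro i
        rw [hβ]
        simp only [Finsupp.coe_equivFunOnFinite_symm]
        exact Int.toNat_of_nonneg (hb0 e he i.succ)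
      rw [h1, mv]
      have h9 : ∏ i, z i ^ (β e i) = (∏ i, z i ^ s) * ∏ i : Fin M, z i ^ (e i.succ) := by
        rw [← prod_mul_distrib]
        apply prod_congr rfl
        intro i _
        rw [← zpow_natCast, h8 i, zpow_add₀ (hz0 i), zpow_natCast, mul_comm]
      have h10 : w ^ (α e) = w ^ s0 * w ^ (a e) := by
        rw [← zpow_natCast, h7, zpow_add₀ hw0, zpow_natCast, mul_comm]
      simp only
      rw [h9, h10]
      ring
    have h2 : val z w F = ((∏ i, z i ^ s) * w ^ s0) * lev f x := by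
      rw [hF, map_sum, lev, Finsupp.sum, mul_sum]
      apply sum_congr rfl
      intro e he
      rw [val_monomial, hmon e he]
      ring
    rw [h2, norm_mul, norm_mul, norm_prod, norm_pow, hw]
    have h3 : ∏ i, ‖z i ^ s‖ = 1 := by
      apply prod_eq_one
      intro i _
      rw [norm_pow, hz i, one_pow]
    rw [h3]
    simp

/-- sums over the grid as sums over torsion points -/
theorem sum_grid {M : ℕ} {n : ℕ} (hn : 0 < n) (B : ℤ) (Φ : (Fin (M + 1) → ℂ) → ℝ) :
    ∑ k : Fin (M + 1) → Fin n, Φ (fun i => rot (grid n k i)) =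
      ∑ x ∈ T n M ×ˢ U n, Φ (Fin.cons x.2 (fun i => x.1 i * x.2 ^ (B ^ ((i : ℕ) + 1)))) := by
  classical
  have h1 : ∑ k : Fin (M + 1) → Fin n, Φ (fun i => rot (grid n k i)) = ∑ x ∈ T n (M + 1), Φ x := by
    have hU : ∀ y ∈ U n, ∃ k : Fin n, rot (((k : ℕ) : ℝ) / n) = y := by
      intro y hy
      rw [mem_U hn] at hy
      have : NeZero n := ⟨hn.ne'⟩
      obtain ⟨k, hk, hky⟩ := (Complex.isPrimitiveRoot_exp n hn.ne').eq_pow_of_pow_eq_one hy
      refine ⟨⟨k, hk⟩, ?_⟩
      rw [← hky, rot, ← Complex.exp_nat_mul]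
      congr 1
      push_cast
      ring
    have hinj : ∀ k k' : Fin n, rot (((k : ℕ) : ℝ) / n) = rot (((k' : ℕ) : ℝ) / n) → k = k' := by
      intro k k' h
      have hrot : ∀ j : ℕ, rot ((j:ℝ) / n) = Complex.exp (2 * Real.pi * Complex.I / n) ^ j := by
        intro j
        rw [rot, ← Complex.exp_nat_mul]
        congr 1
        push_cast
        ring
      rw [hrot, hrot] at h
      exact Fin.ext ((Complex.isPrimitiveRoot_exp n hn.ne').pow_inj k.2 k'.2 h)
    apply sum_bij (fun k _ => fun i => rot (grid n k i))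
    · intro k _
      rw [mem_T]
      intro i
      rw [mem_U hn]
      exact rot_pow_eq_one hn _
    · intro k _ k' _ h
      funext i
      exact hinj _ _ (congrFun h i)
    · intro x hx
      rw [mem_T] at hx
      choose k hk using fun i => hU (x i) (hx i)
      exact ⟨k, mem_univ _, funext hk⟩
    · intro k _
      rfl
  rw [h1, sum_T_succ, sum_comm, sum_product_right]
  apply sum_congr rfl
  intro w hw
  have hw1 := norm_of_mem_U hn hw
  have hw0 : w ≠ 0 := by
    intro h
    rw [h] at hw1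
    simp at hw1
  have hwn := (mem_U hn).1 hw
  have hwU : ∀ m : ℤ, (w ^ m) ^ n = 1 := by
    intro m
    rw [← zpow_natCast, ← zpow_mul, mul_comm, zpow_mul, zpow_natCast, hwn, one_zpow]
  symm
  refine sum_nbij' (fun z => fun i => z i * w ^ (B ^ ((i : ℕ) + 1)))
    (fun z => fun i => z i * w ^ (-(B ^ ((i : ℕ) + 1)))) ?_ ?_ ?_ ?_ ?_
  · intro z hz
    rw [mem_T] at hz ⊢
    intro i
    rw [mem_U hn, mul_pow, (mem_U hn).1 (hz i), hwU, one_mul]
  · intro z hz
    rw [mem_T] at hz ⊢
    intro i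
    rw [mem_U hn, mul_pow, (mem_U hn).1 (hz i), hwU, one_mul]
  · intro z _
    funext i
    rw [mul_assoc, ← zpow_add₀ hw0]
    simp
  · intro z _
    funext i
    rw [mul_assoc, ← zpow_add₀ hw0]
    simp
  · intro z _
    rfl

/-- the main theorem for the grid sums -/
theorem main_grid {M : ℕ} (f : (Fin (M + 1) →₀ ℤ) →₀ ℤ) (hf : f ≠ 0) :
    Filter.Tendsto (fun n : ℕ => (∑ k : Fin (M + 1) → Fin n,
      Real.log ‖lev f (fun i => rot (grid n k i))‖) / (n:ℝ) ^ (M + 1)) Filter.atTop
      (nhds (∫ t in Set.Icc (0 : Fin (M + 1) → ℝ) 1, Real.log ‖lev f (fun i => rot (t i))‖)) := by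
  classical
  obtain ⟨B, F, hUL, hF⟩ := shear f hf
  have hgood := good_of_UL F 1 hUL
  have hrotc : Continuous rot := by
    unfold rot
    fun_prop
  have hrot0 : ∀ x, rot x ≠ 0 := by
    intro x h
    have := norm_rot x
    rw [h] at this
    simp at this
  have hcont : Continuous (fun t : Fin (M + 1) → ℝ => ‖lev f (fun i => rot (t i))‖) := by
    apply Continuous.norm
    unfold lev Finsupp.sum
    apply continuous_finset_sum
    intro e _
    apply Continuous.mul continuous_const
    apply continuous_finset_prod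
    intro i _
    apply Continuous.zpow₀ (hrotc.comp (continuous_apply i))
    intro t
    exact Or.inl (hrot0 _)
  refine limit_log (fun t => ‖lev f (fun i => rot (t i))‖) hcont (fun _ => norm_nonneg _) ?_ ?_
  · intro η hη
    obtain ⟨δ, hδ, n₀, h⟩ := hgood η hη
    refine ⟨δ, hδ, n₀, fun n hn hn0 => ?_⟩
    have h1 := h n hn hn0
    rw [sum_filter] at h1
    refine le_trans (le_of_eq ?_) h1
    rw [sum_grid hn0 B (fun x => if ‖lev f x‖ ≠ 0 ∧ ‖lev f x‖ < δ then |Real.log ‖lev f x‖| else 0)]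
    apply sum_congr rfl
    intro x hx
    rw [mem_product] at hx
    rw [← hF x.1 x.2 (onT_of_mem_T hn0 hx.1) (norm_of_mem_U hn0 hx.2)]
    simp only [ne_eq, norm_eq_zero]
  · intro η hη
    obtain ⟨δ, hδ, n₀, h⟩ := card_small_all hUL η hη
    refine ⟨δ, hδ, n₀, fun n hn hn0 => ?_⟩
    have h1 := h n hn hn0
    rw [card_filter] at h1
    push_cast at h1
    refine le_trans (le_of_eq ?_) h1
    rw [sum_grid hn0 B (fun x => if ‖lev f x‖ < δ then (1:ℝ) else 0)]
    apply sum_congr rfl
    intro x hx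
    rw [mem_product] at hx
    rw [← hF x.1 x.2 (onT_of_mem_T hn0 hx.1) (norm_of_mem_U hn0 hx.2)]

end Pool.Agent.H196R3
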